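import Pool.Agent.R598.CI.Sem

/-!
# Spaces with trivial rotations are separable
-/

set_option autoImplicit false
set_option linter.unusedSectionVars false

namespace Pool.Agent.R598.CI

open Pool.Agent.W868 Pool.Agent.W868.PName Pool.Agent.R598.SY
open ZFSet (pair)

variable {K : Type} [AddCommGroup K]

/-! ### The name of a sequence -/

/-- The name of a sequence. -/
noncomputable def sqN (A : Set ℕ) (Y : ℕ → PName (Cd K)) : PName (Cd K) :=
  PName.mk A (fun n => opN (check (nat n)) (Y n)) (fun _ => ⊤)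

theorem el_sqN {A : Set ℕ} {Y : ℕ → PName (Cd K)} {z : PName (Cd K)} {c : Cd K} :
    El (sqN A Y) z c ↔ ∃ n ∈ A, z = opN (check (nat n)) (Y n) ∧ c = ⊤ := by
  rw [sqN, el_mk]
  constructor
  · rintro ⟨⟨n, hn⟩, rfl, rfl⟩
    exact ⟨n, hn, rfl, rfl⟩
  · rintro ⟨n, hn, rfl, rfl⟩
    exact ⟨⟨n, hn⟩, rfl, rfl⟩

theorem fix_sqN {H : Subgroup (sys K).G} {A : Set ℕ} {Y : ℕ → PName (Cd K)}
    (hY : ∀ n, (sys K).Fix H (Y n)) : (sys K).Fix H (sqN A Y) := by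
  intro g hg p
  rw [feq_iff']
  constructor
  · intro z c hz q hq hqc
    obtain ⟨z, c, hz', rfl, rfl⟩ := el_act.1 hz
    obtain ⟨n, hn, rfl, rfl⟩ := el_sqN.1 hz'
    refine ⟨q, le_rfl, _, ⊤, el_sqN.2 ⟨n, hn, rfl, rfl⟩, le_top, ?_⟩
    rw [act_opN ((sys K).top g), act_check ((sys K).top g)]
    exact feq_opN (Feq.refl _ _) (hY n g hg q)
  · intro z c hz q hq hqc
    obtain ⟨n, hn, rfl, rfl⟩ := el_sqN.1 hz
    refine ⟨q, le_rfl, _, _, el_act.2 ⟨_, _, el_sqN.2 ⟨n, hn, rfl, rfl⟩, rfl, rfl⟩, ?_, ?_⟩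
    · rw [(sys K).top g]
      exact le_top
    · rw [act_opN ((sys K).top g), act_check ((sys K).top g)]
      exact feq_opN (Feq.refl _ _) (hY n g hg q)

theorem hs_sqN {H : Subgroup (sys K).G} (hH : H ∈ (sys K).F) {A : Set ℕ}
    {Y : ℕ → PName (Cd K)} (hY : ∀ n, (sys K).Fix H (Y n)) (hY' : ∀ n, (sys K).HS (Y n)) :
    (sys K).HS (sqN A Y) := by
  refine (sys K).hs_iff.2 ⟨⟨H, hH, fix_sqN hY⟩, fun z c hz => ?_⟩
  obtain ⟨n, hn, rfl, rfl⟩ := el_sqN.1 hz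
  exact (sys K).hs_opN ((sys K).hs_check _) (hY' n)

theorem val_sqN {A : Set ℕ} {Y : ℕ → PName (Cd K)} {π : Pkg (Cd K)} (hY : ∀ n, Y n ∈ π.N)
    {n : ℕ} {x : ZFSet.{0}} : pair (nat n) x ∈ π.val (sqN A Y) ↔ n ∈ A ∧ x = π.val (Y n) := by
  rw [π.mem_val]
  constructor
  · rintro ⟨z, hz, c, hc, hk, he⟩
    obtain ⟨m, hm, rfl, rfl⟩ := el_sqN.1 hc
    rw [π.val_opN (π.nat_Z m) (hY m)] at he
    obtain ⟨h1, h2⟩ := ZFSet.pair_inj.1 he
    have h3 : π.hat (nat m) = nat n := h1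
    rw [π.hat_nat] at h3
    obtain rfl := nat_injective h3
    exact ⟨hm, h2.symm⟩
  · rintro ⟨hn, rfl⟩
    refine ⟨_, π.opN_mem (π.nat_Z n) (hY n), ⊤, el_sqN.2 ⟨n, hn, rfl, rfl⟩, ⟨0, le_top⟩, ?_⟩
    rw [π.val_opN (π.nat_Z n) (hY n)]
    have h3 : π.val (check (nat n)) = nat n := π.hat_nat n
    rw [h3]

/-! ### The forced statements -/

theorem hs3 {t u : PName (Cd K)} (ht : (sys K).HS t) (hu : (sys K).HS u) :
    ∀ i, (sys K).HS ((![t, u, check ZFSet.omega] : Fin 3 → PName (Cd K)) i) := by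
  intro i
  fin_cases i
  · exact ht
  · exact hu
  · exact (sys K).hs_check _

theorem mem_Ms {π : Pkg (Cd K)} {x : PName (Cd K)} (hx : (sys K).HS x) (h : x ∈ π.N) :
    π.val x ∈ (sys K).Ms π := ⟨x, ⟨h, hx⟩, rfl⟩

/-- The condition forces that `u` gives the entourages of a compact metric space `t`. -/
def FCG (t u : PName (Cd K)) (p : Cd K) : Prop := SF (sys K) CG ![t, u, check ZFSet.omega] p

theorem in3 {t u : PName (Cd K)} {π : Pkg (Cd K)} (ht : t ∈ π.N) (hu : u ∈ π.N) :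
    ∀ i, (![t, u, check ZFSet.omega] : Fin 3 → PName (Cd K)) i ∈ π.N := by
  intro i
  fin_cases i
  · exact ht
  · exact hu
  · exact π.omega_Z

theorem FCG.val {t u : PName (Cd K)} {p : Cd K} (h : FCG t u p)
    {π : Pkg (Cd K)} (h1 : (sys K).Cld π) (ht' : t ∈ π.N) (hu' : u ∈ π.N)
    (hk : ∃ k, π.g k ≤ p) : CG ((sys K).Ms π) ![π.val t, π.val u, ZFSet.omega] := by
  have h2 := h π h1 (in3 ht' hu') hk
  have h3 : π.val ∘ ![t, u, check ZFSet.omega] = ![π.val t, π.val u, ZFSet.omega] := by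
    funext i
    fin_cases i
    · rfl
    · rfl
    · exact π.hat_omega
  rwa [h3] at h2

theorem FCG.gd {t u : PName (Cd K)} (ht : (sys K).HS t) (hu : (sys K).HS u) {p : Cd K}
    (h : FCG t u p) : Gd t u p := fun π h1 h2 h3 h4 =>
  good_of_cg (isZF_Ms h1) (mem_Ms ht h2) (mem_Ms hu h3) (h.val h1 h2 h3 h4)

/-- It is forced that the points are not close. -/
def NW (u : PName (Cd K)) (j : ℕ) (x y : PName (Cd K)) (p : Cd K) : Prop :=
  SF (sys K) (fun _ (v : Fin 4 → ZFSet.{0}) => ¬ pair (v 1) (pair (v 2) (v 3)) ∈ v 0)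
    ![u, check (nat j), x, y] p

theorem NW.val {u x y : PName (Cd K)} {j : ℕ} {p : Cd K} (h : NW u j x y p)
    {π : Pkg (Cd K)} (h1 : (sys K).Cld π) (hu : u ∈ π.N) (hx : x ∈ π.N) (hy : y ∈ π.N)
    (hk : ∃ k, π.g k ≤ p) : ¬ Wj (π.val u) j (π.val x) (π.val y) := by
  have h2 := h π h1 (by
    intro i
    fin_cases i
    · exact hu
    · exact π.nat_Z j
    · exact hx
    · exact hy) hk
  change ¬ pair (π.hat (nat j)) (pair (π.val x) (π.val y)) ∈ π.val u at h2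
  rwa [π.hat_nat] at h2

theorem NW.mono {u x y : PName (Cd K)} {j : ℕ} {p q : Cd K} (h : NW u j x y p) (hq : q ≤ p) :
    NW u j x y q := SF.mono h hq

theorem NW.fund {u x y : PName (Cd K)} {j : ℕ} (hu : (sys K).HS u)
    (hx : (sys K).HS x) (hy : (sys K).HS y) {π : Pkg (Cd K)} (h1 : (sys K).Cld π)
    (hu' : u ∈ π.N) (hx' : x ∈ π.N) (hy' : y ∈ π.N)
    (h : ¬ Wj (π.val u) j (π.val x) (π.val y)) : ∃ k, NW u j x y (π.g k) := by
  refine ud_w.not.fund (hs4 j hu hx hy) h1 ?_ ?_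
  · intro i
    fin_cases i
    · exact hu'
    · exact π.nat_Z j
    · exact hx'
    · exact hy'
  · change ¬ pair (π.hat (nat j)) (pair (π.val x) (π.val y)) ∈ π.val u
    rw [π.hat_nat]
    exact h

theorem NW.congr {u x y x' y' : PName (Cd K)} {j : ℕ} {p : Cd K} (hu : (sys K).HS u)
    (hx : (sys K).HS x) (hy : (sys K).HS y) (hx' : (sys K).HS x') (hy' : (sys K).HS y')
    (h2 : Feq x x' p) (h3 : Feq y y' p) (h : NW u j x y p) : NW u j x' y' p := by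
  refine (SF.congr ud_w.not (hs4 j hu hx hy) (hs4 j hu hx' hy') ?_).1 h
  intro i
  fin_cases i
  · exact Feq.refl _ _
  · exact Feq.refl _ _
  · exact h2
  · exact h3

/-! ### Finite nets -/

section

variable {t u : PName (Cd K)} (ht : (sys K).HS t) (hu : (sys K).HS u) {E : Set (Ix K)}
  {F : Finset ℕ} (hE : Sp E F) (ht' : (sys K).Fix (bs E F) t) (hu' : (sys K).Fix (bs E F) u)
  {p0 : Cd K} (hp0 : p0.dom ⊆ E) (hG : Gd t u p0)
  (hR : ∀ (F' : Finset ℕ) (x : PName (Cd K)), (sys K).HS x →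
      (sys K).Fix (bs E F') x → ∀ g : ℕ → K, (∀ n ∈ F, g n = 0) → ∀ q ≤ p0, Fmem x t q →
        Feq (act ((sys K).ac (ro g)) x) x q)

/-- The list consists of points that are not close. -/
def St (t u : PName (Cd K)) (E : Set (Ix K)) (F : Finset ℕ) (j : ℕ) (s : Cd K)
    (l : List (PName (Cd K))) : Prop :=
  (∀ y ∈ l, (sys K).HS y ∧ (sys K).Fix (bs E F) y ∧ Fmem y t s) ∧
    l.Pairwise fun x y => NW u j y x s

theorem exists_bound {π : Pkg (Cd K)} {Q : PName (Cd K) → Cd K → Prop}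
    (hQ : ∀ y p q, Q y p → q ≤ p → Q y q) (l : List (PName (Cd K)))
    (h : ∀ y ∈ l, ∃ k, Q y (π.g k)) : ∃ k, ∀ y ∈ l, Q y (π.g k) := by
  induction l with
  | nil => exact ⟨0, fun y hy => by simp at hy⟩
  | cons a l ih =>
    obtain ⟨k, hk⟩ := ih fun y hy => h y (List.mem_cons_of_mem _ hy)
    obtain ⟨m, hm⟩ := h a List.mem_cons_self
    refine ⟨max k m, fun y hy => ?_⟩
    rcases List.mem_cons.1 hy with rfl | hy
    · exact hQ _ _ _ hm (π.g_le_right _ _)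
    · exact hQ _ _ _ (hk y hy) (π.g_le_left _ _)

include ht hu hE ht' hu' hp0 hG hR in
theorem St.extend {j : ℕ} {s : Cd K} (hs : s ≤ p0) {l : List (PName (Cd K))}
    (h : St t u E F j s l) {π : Pkg (Cd K)} (c1 : (sys K).Cld π) (ct : t ∈ π.N) (cu : u ∈ π.N)
    (cl : ∀ y ∈ l, y ∈ π.N) (hk : ∃ k, π.g k ≤ s) {z : ZFSet.{0}} (hz : z ∈ π.val t)
    (hn : ∀ y ∈ l, ¬ Wj (π.val u) j (π.val y) z) :
    ∃ s' ≤ s, ∃ x, St t u E F j s' (x :: l) := by
  obtain ⟨z0, hz0, c, hc, hkc, rfl⟩ := π.mem_val.1 hz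
  have hz0s : (sys K).HS z0 := ht.el hc
  obtain ⟨k1, hk1⟩ := (π.val_mem_iff hz0 ct).1 hz
  obtain ⟨k2, hk2⟩ := exists_bound (π := π) (Q := fun y p => NW u j y z0 p)
    (fun y p q h1 h2 => NW.mono h1 h2) l fun y hy =>
      NW.fund hu (h.1 y hy).1 hz0s c1 cu (cl y hy) hz0 (hn y hy)
  obtain ⟨k0, hk0⟩ := hk
  set k := max k0 (max k1 k2) with hkdef
  have g0 : π.g k ≤ s := (π.g_le_left _ _).trans hk0
  have g1 : π.g k ≤ π.g k1 := (π.g_le_right _ _).trans (π.g_le_left _ _)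
  have g2 : π.g k ≤ π.g k2 := (π.g_le_right _ _).trans (π.g_le_right _ _)
  obtain ⟨r, hr, x, hx, hx', he⟩ := claim2 ht hu hE ht' hu' hp0 hG hR hz0s (g0.trans hs)
    (hk1.mono g1)
  refine ⟨r, hr.trans g0, x, ?_, ?_⟩
  · intro y hy
    rcases List.mem_cons.1 hy with rfl | hy
    · exact ⟨hx, hx', fmem_congr he.symm (Feq.refl _ _) (hk1.mono (hr.trans g1))⟩
    · obtain ⟨h1, h2, h3⟩ := h.1 y hy
      exact ⟨h1, h2, h3.mono (hr.trans g0)⟩
  · rw [List.pairwise_cons]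
    refine ⟨fun y hy => ?_, h.2.imp fun h1 => h1.mono (hr.trans g0)⟩
    exact NW.congr hu (h.1 y hy).1 hz0s (h.1 y hy).1 hx (Feq.refl _ _) he.symm
      ((hk2 y hy).mono (hr.trans g2))

include hG in
theorem exists_max {q : Cd K} (hq : q ≤ p0) (j : ℕ) : ∃ s ≤ q, ∃ l, St t u E F j s l ∧
    ∀ s' ≤ s, ∀ x, ¬ St t u E F j s' (x :: l) := by
  by_contra hcon
  push Not at hcon
  have hstep : ∀ a : {a : Cd K × List (PName (Cd K)) // a.1 ≤ q ∧ St t u E F j a.1 a.2},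
      ∃ b : {a : Cd K × List (PName (Cd K)) // a.1 ≤ q ∧ St t u E F j a.1 a.2},
        b.1.1 ≤ a.1.1 ∧ ∃ x, b.1.2 = x :: a.1.2 := by
    rintro ⟨⟨s, l⟩, h1, h2⟩
    obtain ⟨s', h3, x, h4⟩ := hcon s h1 l h2
    exact ⟨⟨(s', x :: l), h3.trans h1, h4⟩, h3, x, rfl⟩
  choose f hf hf' using hstep
  let a : ℕ → {a : Cd K × List (PName (Cd K)) // a.1 ≤ q ∧ St t u E F j a.1 a.2} := fun n =>
    Nat.rec ⟨(q, []), le_rfl, fun y hy => by simp at hy, List.Pairwise.nil⟩ (fun _ b => f b) n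
  have ha : ∀ n, a (n + 1) = f (a n) := fun n => rfl
  have hlen : ∀ n, (a n).1.2.length = n := by
    intro n
    induction n with
    | zero => rfl
    | succ n ih =>
      obtain ⟨x, hx⟩ := hf' (a n)
      rw [ha, hx, List.length_cons, ih]
  obtain ⟨s, hs⟩ := sclosed (fun n => (a n).1.1) fun n => by
    rw [ha]
    exact hf (a n)
  obtain ⟨π, c1, c2, c3⟩ := exists_cld (sys K) ({t, u} ∪ ⋃ n, {y | y ∈ (a n).1.2})
    ((Set.toFinite _).countable.union (Set.countable_iUnion fun n =>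
      (List.finite_toSet _).countable)) s
  have ct : t ∈ π.N := c2 (Or.inl (Or.inl rfl))
  have cu : u ∈ π.N := c2 (Or.inl (Or.inr rfl))
  have cl : ∀ n, ∀ y ∈ (a n).1.2, y ∈ π.N := fun n y hy =>
    c2 (Or.inr (Set.mem_iUnion.2 ⟨n, hy⟩))
  have hgd := hG π c1 ct cu ⟨0, c3.le.trans ((hs 0).trans ((a 0).2.1.trans hq))⟩
  obtain ⟨m, hm⟩ := hgd.tb j
  have hlm := hlen m
  have hst := (a m).2.2
  have hsm : π.g 0 ≤ (a m).1.1 := c3.le.trans (hs m)
  have hcl := cl m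
  generalize (a m).1.2 = l at hlm hst hcl
  generalize (a m).1.1 = sm at hst hsm
  subst hlm
  have hmem : ∀ y ∈ l, π.val y ∈ π.val t := fun y hy =>
    val_mem_of_fmem (hcl y hy) ct (hst.1 y hy).2.2 ⟨0, hsm⟩
  obtain ⟨i, i', hii, hW⟩ := hm (fun i => π.val (l.get i)) fun i => hmem _ (List.get_mem _ _)
  have key : ∀ i i' : Fin l.length, i < i' →
      ¬ Wj (π.val u) j (π.val (l.get i')) (π.val (l.get i)) := by
    intro i i' hi
    have h1 := (List.pairwise_iff_get.1 hst.2) i i' hi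
    exact h1.val c1 cu (hcl _ (List.get_mem _ _)) (hcl _ (List.get_mem _ _)) ⟨0, hsm⟩
  rcases lt_or_gt_of_ne hii with h1 | h1
  · exact key _ _ h1 (hgd.sym _ _ (hmem _ (List.get_mem _ _)) _ (hmem _ (List.get_mem _ _)) hW)
  · exact key _ _ h1 hW

/-- The list is a net. -/
def Net (t u : PName (Cd K)) (j : ℕ) (s : Cd K) (l : List (PName (Cd K))) : Prop :=
  ∀ π : Pkg (Cd K), (sys K).Cld π → t ∈ π.N → u ∈ π.N → (∀ y ∈ l, y ∈ π.N) →
    (∃ k, π.g k ≤ s) → ∀ z ∈ π.val t, ∃ y ∈ l, Wj (π.val u) j (π.val y) z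

include ht hu hE ht' hu' hp0 hG hR in
theorem exists_net {q : Cd K} (hq : q ≤ p0) (j : ℕ) : ∃ s ≤ q, ∃ l,
    (∀ y ∈ l, (sys K).HS y ∧ (sys K).Fix (bs E F) y ∧ Fmem y t s) ∧ Net t u j s l := by
  obtain ⟨s, hs, l, h1, h2⟩ := exists_max (E := E) (F := F) hG hq j
  refine ⟨s, hs, l, h1.1, fun π c1 ct cu cl hk z hz => ?_⟩
  by_contra hn
  push Not at hn
  obtain ⟨s', hs', x, h3⟩ := St.extend ht hu hE ht' hu' hp0 hG hR (hs.trans hq) h1 c1 ct cu cl hk
    hz hn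
  exact h2 s' hs' x h3

include ht hu hE ht' hu' hp0 hG hR in
/-- The first case. -/
theorem case1 {q : Cd K} (hq : q ≤ p0) :
    ∃ s ≤ q, SF (sys K) Inter ![t, u, check ZFSet.omega] s := by
  obtain ⟨s, l, hs, hl⟩ := sclosed.meet q (fun j l s =>
    (∀ y ∈ l, (sys K).HS y ∧ (sys K).Fix (bs E F) y ∧ Fmem y t s) ∧ Net t u j s l)
    fun j q' hq' => exists_net ht hu hE ht' hu' hp0 hG hR (hq'.trans hq) j
  refine ⟨s, hs, ?_⟩
  let Y : ℕ → PName (Cd K) := fun n => (l n.unpair.1).getD n.unpair.2 (check ∅)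
  let A : Set ℕ := {n | n.unpair.2 < (l n.unpair.1).length}
  have hYA : ∀ n ∈ A, Y n ∈ l n.unpair.1 := by
    intro n hn
    have h1 : Y n = (l n.unpair.1).get ⟨n.unpair.2, hn⟩ := List.getD_eq_getElem _ _ hn
    rw [h1]
    exact List.get_mem _ _
  have hY0 : ∀ n ∉ A, Y n = check ∅ := fun n hn => List.getD_eq_default _ _ (not_lt.1 hn)
  have hYH : ∀ n, (sys K).HS (Y n) := by
    intro n
    by_cases hn : n ∈ A
    · obtain ⟨s', -, h1, -⟩ := hl n.unpair.1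
      exact (h1 _ (hYA n hn)).1
    · rw [hY0 n hn]
      exact (sys K).hs_check _
  have hYF : ∀ n, (sys K).Fix (bs E F) (Y n) := by
    intro n
    by_cases hn : n ∈ A
    · obtain ⟨s', -, h1, -⟩ := hl n.unpair.1
      exact (h1 _ (hYA n hn)).2.1
    · rw [hY0 n hn]
      exact fix_check _ _
  have hsq : (sys K).HS (sqN A Y) := hs_sqN (bs_mem_F hE) hYF hYH
  refine SF.intro ud_inter (hs3 ht hu) ({sqN A Y} ∪ Set.range Y)
    ((Set.countable_singleton _).union (Set.countable_range _)) ?_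
  intro π c1 c2 cA hk
  have ct : t ∈ π.N := c2 0
  have cu : u ∈ π.N := c2 1
  have cs : sqN A Y ∈ π.N := cA (Or.inl rfl)
  have cY : ∀ n, Y n ∈ π.N := fun n => cA (Or.inr ⟨n, rfl⟩)
  refine ⟨π.val t, mem_Ms ht ct, π.val (sqN A Y), mem_Ms hsq cs, fun y hy => hy, ?_, ?_,
    fun _ x hx => hx⟩
  · intro n hn x hx x' hx' h1 h2
    change n ∈ π.hat ZFSet.omega at hn
    rw [π.hat_omega] at hn
    obtain ⟨n, rfl⟩ := mem_omega_iff.1 hn
    rw [((val_sqN cY).1 h1).2, ((val_sqN cY).1 h2).2]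
  · intro y hy j hj
    change j ∈ π.hat ZFSet.omega at hj
    change ∃ n ∈ π.hat ZFSet.omega, _
    rw [π.hat_omega] at hj ⊢
    obtain ⟨j, rfl⟩ := mem_omega_iff.1 hj
    obtain ⟨s', hs', h1, h2⟩ := hl j
    have hmn : ∀ i (hi : i < (l j).length), Nat.pair j i ∈ A ∧ Y (Nat.pair j i) = (l j)[i] := by
      intro i hi
      constructor
      · change (Nat.pair j i).unpair.2 < (l (Nat.pair j i).unpair.1).length
        rw [Nat.unpair_pair]
        exact hi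
      · change (l (Nat.pair j i).unpair.1).getD (Nat.pair j i).unpair.2 (check ∅) = _
        rw [Nat.unpair_pair]
        exact List.getD_eq_getElem _ _ hi
    have cl : ∀ y ∈ l j, y ∈ π.N := by
      intro y hy
      obtain ⟨i, hi, rfl⟩ := List.getElem_of_mem hy
      rw [← (hmn i hi).2]
      exact cY _
    obtain ⟨w, hw, h3⟩ := h2 π c1 ct cu cl (hk.imp fun k hk => hk.trans hs') y hy
    obtain ⟨i, hi, rfl⟩ := List.getElem_of_mem hw
    refine ⟨nat (Nat.pair j i), mem_omega_iff.2 ⟨_, rfl⟩, π.val (l j)[i], ?_, ?_, h3⟩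
    · exact val_mem_of_fmem (cl _ hw) ct (h1 _ hw).2.2 (hk.imp fun k hk => hk.trans hs')
    · exact (val_sqN cY).2 ⟨(hmn i hi).1, by rw [(hmn i hi).2]⟩

end

end Pool.Agent.R598.CI
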