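import Mathlib

/-!
# A counting lemma for totally bounded group topologies
-/

set_option autoImplicit false

namespace Pool.Agent.R598.CI

section

variable {G : Type} [AddCommGroup G] {D : ℕ → G → Prop} (h0 : ∀ j, D j 0)
  (hneg : ∀ j g, D j g → D j (-g))
  (hadd : ∀ j i, i < j → ∀ g h, D j g → D j h → D i (g + h))
  (htb : ∀ j, ∃ m : ℕ, ∀ f : Fin m → G, ∃ i i', i ≠ i' ∧ D j (f i - f i'))

include h0 hadd in
theorem D_mono {j i : ℕ} (hij : i ≤ j) {g : G} (h : D j g) : D i g := by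
  rcases hij.lt_or_eq with h1 | rfl
  · have h2 := hadd j i h1 g 0 h (h0 j)
    rwa [add_zero] at h2
  · exact h

/-- The elements of the finite set are not close. -/
def Sepd (D : ℕ → G → Prop) (s : ℕ) (P : Finset G) : Prop :=
  ∀ a ∈ P, ∀ b ∈ P, a ≠ b → ¬ D s (a - b)

include htb in
theorem exists_maxsep (s : ℕ) : ∃ P : Finset G, Sepd D s P ∧
    ∀ Q : Finset G, Sepd D s Q → Q.card ≤ P.card := by
  obtain ⟨m, hm⟩ := htb s
  have hb : ∀ Q : Finset G, Sepd D s Q → Q.card ≤ m := by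
    intro Q hQ
    by_contra h
    push Not at h
    obtain ⟨R, hR, hRc⟩ := Finset.exists_subset_card_eq h.le
    let e := R.equivFin.symm
    have h1 : ∀ i, (e i : G) ∈ Q := fun i => hR (e i).2
    obtain ⟨i, i', hii, h2⟩ := hm fun i => (e (Fin.cast hRc.symm i) : G)
    refine hQ _ (h1 _) _ (h1 _) ?_ h2
    intro h3
    have h4 := e.injective (Subtype.ext h3)
    apply hii
    have h5 := congrArg Fin.val h4
    exact Fin.ext h5
  let S : Set ℕ := {c | ∃ Q : Finset G, Sepd D s Q ∧ Q.card = c}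
  have hne : S.Nonempty := ⟨0, ∅, fun a ha => by simp at ha, rfl⟩
  have hbd : BddAbove S := ⟨m, by
    rintro _ ⟨Q, hQ, rfl⟩
    exact hb Q hQ⟩
  obtain ⟨P, hP, hPc⟩ := Nat.sSup_mem hne hbd
  refine ⟨P, hP, fun Q hQ => ?_⟩
  rw [hPc]
  exact le_csSup hbd ⟨Q, hQ, rfl⟩

include h0 hneg hadd htb in
theorem pack (I : Finset ℕ) (k : ℕ → ℕ) (S : ℕ → Set G)
    (hS : ∀ i ∈ I, ∀ a ∈ S i, ∀ b ∈ S i, D (k i + 3) (a - b))
    (hk : ∀ i ∈ I, ∃ f : Fin (2 ^ (i + 2)) → G, ∀ a b, a ≠ b → ¬ D (k i) (f a - f b))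
    (hcov : ∀ g, ∃ i ∈ I, g ∈ S i) : False := by
  classical
  let s := I.sup fun i => k i + 3
  have hs : ∀ i ∈ I, k i + 3 ≤ s := fun i hi => Finset.le_sup (f := fun i => k i + 3) hi
  obtain ⟨P, hP, hPm⟩ := exists_maxsep htb s
  have hP1 : 1 ≤ P.card := by
    have h1 := hPm {0} (by
      intro a ha b hb hab
      rw [Finset.mem_singleton] at ha hb
      exact absurd (ha.trans hb.symm) hab)
    rwa [Finset.card_singleton] at h1
  have key : ∀ i ∈ I, 2 ^ (i + 2) * (P.filter (· ∈ S i)).card ≤ P.card := by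
    intro i hi
    obtain ⟨f, hf⟩ := hk i hi
    have hsep : ∀ l l' : Fin (2 ^ (i + 2)), ∀ a ∈ P.filter (· ∈ S i), ∀ a' ∈ P.filter (· ∈ S i),
        (l, a) ≠ (l', a') → ¬ D s ((f l + a) - (f l' + a')) := by
      intro l l' a ha a' ha' hne hD
      rw [Finset.mem_filter] at ha ha'
      by_cases hl : l = l'
      · subst hl
        have h1 : a ≠ a' := fun h => hne (by rw [h])
        refine hP a ha.1 a' ha'.1 h1 ?_
        have h2 : (f l + a) - (f l + a') = a - a' := by abel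
        rwa [h2] at hD
      · have h1 := D_mono h0 hadd (hs i hi) hD
        have h2 := hneg _ _ (hS i hi a ha.2 a' ha'.2)
        have h3 := hadd _ (k i) (by omega) _ _ h1 h2
        have h4 : (f l + a) - (f l' + a') + -(a - a') = f l - f l' := by abel
        rw [h4] at h3
        exact hf l l' hl h3
    let Q : Finset G := ((Finset.univ : Finset (Fin (2 ^ (i + 2)))) ×ˢ
      P.filter (· ∈ S i)).image fun t => f t.1 + t.2
    have hinj : Set.InjOn (fun t : Fin (2 ^ (i + 2)) × G => f t.1 + t.2)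
        ((Finset.univ : Finset (Fin (2 ^ (i + 2)))) ×ˢ P.filter (· ∈ S i) : Finset _) := by
      rintro ⟨l, a⟩ h1 ⟨l', a'⟩ h2 h3
      by_contra hne
      have h1' := (Finset.mem_product.1 h1).2
      have h2' := (Finset.mem_product.1 h2).2
      refine hsep l l' a h1' a' h2' hne ?_
      have h4 : f l + a = f l' + a' := h3
      rw [h4, sub_self]
      exact h0 s
    have hQc : Q.card = 2 ^ (i + 2) * (P.filter (· ∈ S i)).card := by
      rw [Finset.card_image_of_injOn hinj, Finset.card_product, Finset.card_univ, Fintype.card_fin]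
    rw [← hQc]
    refine hPm Q ?_
    intro a ha b hb hab
    obtain ⟨⟨l, a⟩, h1, rfl⟩ := Finset.mem_image.1 ha
    obtain ⟨⟨l', b⟩, h2, rfl⟩ := Finset.mem_image.1 hb
    refine hsep l l' a (Finset.mem_product.1 h1).2 b (Finset.mem_product.1 h2).2 ?_
    intro h3
    obtain ⟨rfl, rfl⟩ := Prod.mk.inj h3
    exact hab rfl
  have hsum : P.card ≤ ∑ i ∈ I, (P.filter (· ∈ S i)).card := by
    have h1 : P ⊆ I.biUnion fun i => P.filter (· ∈ S i) := by
      intro g hg
      obtain ⟨i, hi, hgi⟩ := hcov g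
      exact Finset.mem_biUnion.2 ⟨i, hi, Finset.mem_filter.2 ⟨hg, hgi⟩⟩
    exact (Finset.card_le_card h1).trans Finset.card_biUnion_le
  have h1 : (P.card : ℝ) ≤ ∑ i ∈ I, (P.card : ℝ) * ((1 / 2) ^ (i + 2)) := by
    refine (show (P.card : ℝ) ≤ ∑ i ∈ I, ((P.filter (· ∈ S i)).card : ℝ) by
      exact_mod_cast hsum).trans (Finset.sum_le_sum fun i hi => ?_)
    have h2 : (2 : ℝ) ^ (i + 2) * ((P.filter (· ∈ S i)).card : ℝ) ≤ P.card := by
      exact_mod_cast key i hi
    rw [one_div, inv_pow, ← div_eq_mul_inv, le_div_iff₀ (by positivity), mul_comm]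
    exact h2
  have h2 : ∑ i ∈ I, ((1 / 2 : ℝ) ^ (i + 2)) ≤ 1 / 2 := by
    obtain ⟨n, hn⟩ := Finset.exists_nat_subset_range I
    calc ∑ i ∈ I, ((1 / 2 : ℝ) ^ (i + 2)) ≤ ∑ i ∈ Finset.range n, ((1 / 2 : ℝ) ^ (i + 2)) :=
          Finset.sum_le_sum_of_subset_of_nonneg hn fun i _ _ => by positivity
      _ = (1 / 4) * ∑ i ∈ Finset.range n, ((1 / 2 : ℝ) ^ i) := by
          rw [Finset.mul_sum]
          refine Finset.sum_congr rfl fun i _ => ?_
          rw [pow_add]
          ring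
      _ ≤ (1 / 4) * 2 := by
          have := sum_geometric_two_le n
          linarith
      _ = 1 / 2 := by norm_num
  rw [← Finset.mul_sum] at h1
  have h3 : (1 : ℝ) ≤ P.card := by exact_mod_cast hP1
  nlinarith

include h0 hadd in
theorem exists_sepk {m : ℕ} {f : Fin m → G} (hf : ∀ i i', i ≠ i' → ∃ j, ¬ D j (f i - f i')) :
    ∃ k, ∀ i i', i ≠ i' → ¬ D k (f i - f i') := by
  classical
  have h1 : ∀ t : Fin m × Fin m, ∃ j, t.1 ≠ t.2 → ¬ D j (f t.1 - f t.2) := by
    intro t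
    by_cases h : t.1 = t.2
    · exact ⟨0, fun h' => absurd h h'⟩
    · obtain ⟨j, hj⟩ := hf _ _ h
      exact ⟨j, fun _ => hj⟩
  choose j hj using h1
  refine ⟨Finset.univ.sup j, fun i i' hii hD => ?_⟩
  exact hj (i, i') hii (D_mono h0 hadd (Finset.le_sup (f := j) (Finset.mem_univ (i, i'))) hD)

end

/-- A proper subgroup of the rational numbers has infinite index. -/
theorem exists_inf (H : AddSubgroup ℚ) (h1 : (1 : ℚ) ∉ H) (m : ℕ) :
    ∃ f : Fin m → ℚ, ∀ i i', i ≠ i' → f i - f i' ∉ H := by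
  have hidx : H.index = 0 := by
    by_contra h
    apply h1
    have h2 := H.nsmul_index_mem ((1 : ℚ) / H.index)
    rw [nsmul_eq_mul, mul_div_assoc', mul_one, div_self (by exact_mod_cast h)] at h2
    exact h2
  have hinf : Infinite (ℚ ⧸ H) := by
    rw [AddSubgroup.index_eq_zero_iff_infinite] at hidx
    exact hidx
  let e : Fin m ↪ (ℚ ⧸ H) := (Fin.valEmbedding).trans (Infinite.natEmbedding (ℚ ⧸ H))
  refine ⟨fun i => (e i).out, fun i i' hii h => hii ?_⟩
  apply e.injective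
  have h3 : ((e i').out : ℚ ⧸ H) = ((e i).out : ℚ ⧸ H) := by
    rw [QuotientAddGroup.eq]
    have h4 : -(e i').out + (e i).out = (e i).out - (e i').out := by ring
    rw [h4]
    exact h
  rw [QuotientAddGroup.out_eq', QuotientAddGroup.out_eq'] at h3
  exact h3.symm

end Pool.Agent.R598.CI
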