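import Pool.Agent.R598.CI.Case1
import Pool.Agent.R598.CI.Pack

/-!
# Spaces with a non-trivial rotation
-/

set_option autoImplicit false
set_option linter.unusedSectionVars false

namespace Pool.Agent.R598.CI

open Pool.Agent.W868 Pool.Agent.W868.PName Pool.Agent.R598.SY
open ZFSet (pair)

/-- The graph of the function with the values `2 ^ (i + 2)`. -/
noncomputable def hS : ZFSet.{0} := ZFSet.range fun i : ℕ => pair (nat i) (nat (2 ^ (i + 2)))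

theorem mem_hat_hS {P : Type} [Preorder P] [OrderTop P] {π : Pkg P} (h : hS ∈ π.Z) {i : ℕ}
    {m : ZFSet.{0}} : pair (nat i) m ∈ π.hat hS ↔ m = nat (2 ^ (i + 2)) := by
  constructor
  · intro h1
    obtain ⟨y, hy, hyZ, he⟩ := π.mem_hat.1 h1
    obtain ⟨k, rfl⟩ := ZFSet.mem_range.1 hy
    rw [π.hat_pair (π.nat_Z _) (π.nat_Z _), π.hat_nat, π.hat_nat] at he
    obtain ⟨h2, h3⟩ := ZFSet.pair_inj.1 he
    rw [nat_injective h2] at h3
    exact h3.symm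
  · rintro rfl
    have h1 := (π.pair_mem_hat (π.nat_Z i) (π.nat_Z (2 ^ (i + 2))) h).2
      (ZFSet.mem_range.2 ⟨i, rfl⟩)
    rwa [π.hat_nat, π.hat_nat] at h1

/-! ### The combinatorial part -/

section comb

variable {M : Set ZFSet.{0}} (hM : IsZF M) {X U : ZFSet.{0}} (hX : X ∈ M) (hU : U ∈ M)
  (h : CG M ![X, U, ZFSet.omega]) {y : ℚ → ZFSet.{0}} (hy : ∀ q, y q ∈ X)
  (hom : ∀ (j : ℕ) (a b c : ℚ), Wj U j (y a) (y b) → Wj U j (y (c + a)) (y (c + b)))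
  (hne : y 1 ≠ y 0) {f : ZFSet.{0}} (hf : f ∈ M) {r : ℕ → ℚ} (hr : Function.Surjective r)
  (hfr : ∀ n x, pair (nat n) x ∈ f ↔ x = y (r n)) {hs : ZFSet.{0}} (hhs : hs ∈ M)
  (hhs' : ∀ (i : ℕ) m, pair (nat i) m ∈ hs ↔ m = nat (2 ^ (i + 2)))

include hom in
theorem w_iff {j : ℕ} {a b : ℚ} : Wj U j (y a) (y b) ↔ Wj U j (y 0) (y (b - a)) := by
  constructor
  · intro h1
    have h2 := hom j a b (-a) h1
    rw [neg_add_cancel, neg_add_eq_sub] at h2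
    exact h2
  · intro h1
    have h2 := hom j 0 (b - a) a h1
    rw [add_zero, add_sub_cancel] at h2
    exact h2

include hM hX hU h hy hom hne hf hr hfr hhs hhs' in
theorem not_ctb : ¬ ∃ e ∈ M,
    (∀ z ∈ ZFSet.sep (fun z => ∀ j ∈ ZFSet.omega, ∃ n ∈ ZFSet.omega, ∃ x ∈ X, pair n x ∈ f ∧
      pair j (pair x z) ∈ U) X, ∃ n ∈ ZFSet.omega, pair z n ∈ e) ∧
    ∀ z ∈ ZFSet.sep (fun z => ∀ j ∈ ZFSet.omega, ∃ n ∈ ZFSet.omega, ∃ x ∈ X, pair n x ∈ f ∧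
      pair j (pair x z) ∈ U) X,
    ∀ z' ∈ ZFSet.sep (fun z => ∀ j ∈ ZFSet.omega, ∃ n ∈ ZFSet.omega, ∃ x ∈ X, pair n x ∈ f ∧
      pair j (pair x z) ∈ U) X,
    ∀ n ∈ ZFSet.omega, pair z n ∈ e → pair z' n ∈ e → z = z' := by
  classical
  rintro ⟨e, he, he1, he2⟩
  have hω := hM.infinity
  set B : ZFSet.{0} := ZFSet.sep (fun z => ∀ j ∈ ZFSet.omega, ∃ n ∈ ZFSet.omega, ∃ x ∈ X,
    pair n x ∈ f ∧ pair j (pair x z) ∈ U) X with hBdef
  have hB : B ∈ M := hM.sep_mem (Q := fun z => ∀ j ∈ ZFSet.omega, ∃ n ∈ ZFSet.omega, ∃ x ∈ X,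
    pair n x ∈ f ∧ pair j (pair x z) ∈ U) (by (repeat' first | assumption | exact DfnF.proj _ | exact DfnF.const (by assumption) | exact Dfn.prop _ | apply Dfn.not | apply Dfn.and | apply Dfn.or | apply Dfn.imp | apply Dfn.iff | apply hM.base.bex | apply hM.base.ball | apply Dfn.ex | apply Dfn.all | apply Dfn.eq | apply Dfn.mem | apply hM.base.pair')) hX
  have hgd := good_of_cg hM hX hU h
  -- the entourages of the group
  let D : ℕ → ℚ → Prop := fun j q => Wj U j (y 0) (y q)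
  have hDiff : ∀ {j : ℕ} {a b : ℚ}, Wj U j (y a) (y b) ↔ D j (b - a) := w_iff hom
  have h0 : ∀ j, D j 0 := fun j => hgd.rfl' j _ (hy 0)
  have hneg : ∀ j g, D j g → D j (-g) := by
    intro j g h1
    have h2 := hDiff.1 (hgd.sym j _ (hy _) _ (hy _) h1)
    rwa [zero_sub] at h2
  have hadd : ∀ j i, i < j → ∀ a b, D j a → D j b → D i (a + b) := by
    intro j i hij a b h1 h2
    have h3 : Wj U j (y a) (y (a + b)) := hDiff.2 (by rwa [add_sub_cancel_left])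
    exact hgd.tri j i hij _ (hy _) _ (hy _) _ (hy _) h1 h3
  have htb : ∀ j, ∃ m : ℕ, ∀ g : Fin m → ℚ, ∃ i i', i ≠ i' ∧ D j (g i - g i') := by
    intro j
    obtain ⟨m, hm⟩ := hgd.tb j
    refine ⟨m, fun g => ?_⟩
    obtain ⟨i, i', hii, h1⟩ := hm (fun i => y (g i)) fun i => hy _
    exact ⟨i', i, hii.symm, hDiff.1 h1⟩
  let H : AddSubgroup ℚ :=
    { carrier := {q | ∀ j, D j q}
      zero_mem' := h0
      add_mem' := fun {a b} ha hb j => hadd (j + 1) j (Nat.lt_succ_self j) a b (ha _) (hb _)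
      neg_mem' := fun {a} ha j => hneg j a (ha j) }
  have hH1 : (1 : ℚ) ∉ H := by
    intro h1
    exact hne (hgd.sep _ (hy 1) _ (hy 0) fun j => hgd.sym j _ (hy 0) _ (hy 1) (h1 j))
  have hpk : ∀ m : ℕ, ∃ k, ∃ g : Fin m → ℚ, ∀ i i', i ≠ i' → ¬ D k (g i - g i') := by
    intro m
    obtain ⟨g, hg⟩ := exists_inf H hH1 m
    have hg' : ∀ i i', i ≠ i' → ∃ j, ¬ D j (g i - g i') := by
      intro i i' hii
      have h1 := hg i i' hii
      by_contra h2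
      push Not at h2
      exact h1 h2
    obtain ⟨k, hk⟩ := exists_sepk h0 hadd hg'
    exact ⟨k, g, hk⟩
  have hyB : ∀ q, y q ∈ B := by
    intro q
    obtain ⟨n, hn⟩ := hr q
    refine ZFSet.mem_sep.2 ⟨hy q, fun j hj => ⟨nat n, mem_omega_iff.2 ⟨n, rfl⟩, y q, hy q,
      (hfr n _).2 (by rw [hn]), ?_⟩⟩
    obtain ⟨j, rfl⟩ := mem_omega_iff.1 hj
    exact hgd.rfl' j _ (hy q)
  -- the cover
  obtain ⟨P, hP, hP'⟩ := hM.power X hX
  have hC := hM.sep_mem (Q := fun V =>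
    (∃ i ∈ ZFSet.omega, ∃ k ∈ ZFSet.omega, ∃ k1 ∈ ZFSet.omega, ∃ k2 ∈ ZFSet.omega,
      ∃ k3 ∈ ZFSet.omega, ∃ k4 ∈ ZFSet.omega, k ∈ k1 ∧ k1 ∈ k2 ∧ k2 ∈ k3 ∧ k3 ∈ k4 ∧
      ∃ z ∈ B, pair z i ∈ e ∧ (∃ m ∈ ZFSet.omega, pair i m ∈ hs ∧ ∃ g ∈ M,
        (∀ a ∈ m, ∃ x ∈ X, pair a x ∈ g ∧ ∃ n ∈ ZFSet.omega, pair n x ∈ f) ∧
        (∀ a ∈ m, ∀ a' ∈ m, a ≠ a' → ∀ x ∈ X, ∀ x' ∈ X, pair a x ∈ g → pair a' x' ∈ g →
          ¬ pair k (pair x x') ∈ U)) ∧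
      ∀ x ∈ X, (x ∈ V ↔ pair k4 (pair z x) ∈ U)) ∨ (∀ x ∈ X, (x ∈ V ↔ ¬ x ∈ B))) (by (repeat' first | assumption | exact DfnF.proj _ | exact DfnF.const (by assumption) | exact Dfn.prop _ | apply Dfn.not | apply Dfn.and | apply Dfn.or | apply Dfn.imp | apply Dfn.iff | apply hM.base.bex | apply hM.base.ball | apply Dfn.ex | apply Dfn.all | apply Dfn.eq | apply Dfn.mem | apply hM.base.pair')) hP
  obtain ⟨N, V, s, hV, hcov⟩ := cg_comp h hC (by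
    intro x hx
    by_cases hxB : x ∈ B
    · obtain ⟨i, hi, hxi⟩ := he1 x hxB
      obtain ⟨i, rfl⟩ := mem_omega_iff.1 hi
      obtain ⟨k, g, hg⟩ := hpk (2 ^ (i + 2))
      have hk4 : nat (k + 4) ∈ M := hM.trans _ hω _ (mem_omega_iff.2 ⟨_, rfl⟩)
      have hxM : x ∈ M := hM.trans _ hX _ hx
      have hV := hM.sep_mem (Q := fun z => pair (nat (k + 4)) (pair x z) ∈ U) (by (repeat' first | assumption | exact DfnF.proj _ | exact DfnF.const (by assumption) | exact Dfn.prop _ | apply Dfn.not | apply Dfn.and | apply Dfn.or | apply Dfn.imp | apply Dfn.iff | apply hM.base.bex | apply hM.base.ball | apply Dfn.ex | apply Dfn.all | apply Dfn.eq | apply Dfn.mem | apply hM.base.pair')) hX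
      have no : ∀ n, nat n ∈ ZFSet.omega := fun n => mem_omega_iff.2 ⟨n, rfl⟩
      refine ⟨_, ZFSet.mem_sep.2 ⟨(hP' _).2 ⟨hV, fun z hz => (ZFSet.mem_sep.1 hz).1⟩, Or.inl
        ⟨nat i, no _, nat k, no _, nat (k + 1), no _, nat (k + 2), no _, nat (k + 3), no _,
          nat (k + 4), no _, nat_mem_nat' (by omega), nat_mem_nat' (by omega),
          nat_mem_nat' (by omega), nat_mem_nat' (by omega), x, hxB, hxi,
          ⟨nat (2 ^ (i + 2)), no _, (hhs' i _).2 rfl, ?_⟩, ?_⟩⟩, k + 4, fun z hz hW =>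
          ZFSet.mem_sep.2 ⟨hz, hW⟩⟩
      · -- the function
        let G : ZFSet.{0} := ZFSet.range fun a : Fin (2 ^ (i + 2)) => pair (nat a) (y (g a))
        have hG : G ∈ M := by
          refine PM.fin_mem hM ?_ ?_
          · intro z hz
            obtain ⟨a, rfl⟩ := ZFSet.mem_range.1 hz
            exact hM.pair_mem (hM.trans _ hω _ (no _)) (hM.trans _ hX _ (hy _))
          · refine (Set.finite_range fun a : Fin (2 ^ (i + 2)) =>
              pair (nat a) (y (g a))).subset ?_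
            intro z hz
            obtain ⟨a, rfl⟩ := ZFSet.mem_range.1 hz
            exact ⟨a, rfl⟩
        have hGm : ∀ (a : Fin (2 ^ (i + 2))) x, pair (nat a) x ∈ G → x = y (g a) := by
          intro a x hax
          obtain ⟨b, hb⟩ := ZFSet.mem_range.1 hax
          obtain ⟨h1, h2⟩ := ZFSet.pair_inj.1 hb
          have h3 : b = a := Fin.ext (nat_injective h1)
          rw [← h2, h3]
        refine ⟨G, hG, ?_, ?_⟩
        · intro a ha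
          obtain ⟨b, hb, rfl⟩ := mem_nat_iff.1 ha
          obtain ⟨n, hn⟩ := hr (g ⟨b, hb⟩)
          exact ⟨y (g ⟨b, hb⟩), hy _, ZFSet.mem_range.2 ⟨⟨b, hb⟩, rfl⟩, nat n, no _,
            (hfr n _).2 (by rw [hn])⟩
        · intro a ha a' ha' hne x hx x' hx' h1 h2 h3
          obtain ⟨b, hb, rfl⟩ := mem_nat_iff.1 ha
          obtain ⟨b', hb', rfl⟩ := mem_nat_iff.1 ha'
          have e1 := hGm ⟨b, hb⟩ x h1
          have e2 := hGm ⟨b', hb'⟩ x' h2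
          rw [e1, e2] at h3
          refine hg ⟨b', hb'⟩ ⟨b, hb⟩ (fun h4 => hne ?_) (hDiff.1 h3)
          rw [(Fin.mk.inj h4).symm]
      · intro z hz
        rw [ZFSet.mem_sep]
        exact ⟨fun h => h.2, fun h => ⟨hz, h⟩⟩
    · have hV := hM.sep_mem (Q := fun z => ¬ z ∈ B) (by (repeat' first | assumption | exact DfnF.proj _ | exact DfnF.const (by assumption) | exact Dfn.prop _ | apply Dfn.not | apply Dfn.and | apply Dfn.or | apply Dfn.imp | apply Dfn.iff | apply hM.base.bex | apply hM.base.ball | apply Dfn.ex | apply Dfn.all | apply Dfn.eq | apply Dfn.mem | apply hM.base.pair')) hX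
      have h1 : ¬ ∀ j ∈ ZFSet.omega, ∃ n ∈ ZFSet.omega, ∃ x' ∈ X, pair n x' ∈ f ∧
          pair j (pair x' x) ∈ U := fun h1 => hxB (ZFSet.mem_sep.2 ⟨hx, h1⟩)
      push Not at h1
      obtain ⟨j, hj, h1⟩ := h1
      obtain ⟨j, rfl⟩ := mem_omega_iff.1 hj
      refine ⟨_, ZFSet.mem_sep.2 ⟨(hP' _).2 ⟨hV, fun z hz => (ZFSet.mem_sep.1 hz).1⟩, Or.inr
        fun z hz => ?_⟩, j + 1, fun z hz hW => ZFSet.mem_sep.2 ⟨hz, fun hzB => ?_⟩⟩
      · rw [ZFSet.mem_sep]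
        exact ⟨fun h => h.2, fun h => ⟨hz, h⟩⟩
      · obtain ⟨n, hn, x', hx', h2, h3⟩ := (ZFSet.mem_sep.1 hzB).2 (nat (j + 1))
          (mem_omega_iff.2 ⟨_, rfl⟩)
        exact h1 n hn x' hx' h2 (cg_tri h (Nat.lt_succ_self j) hx' hz hx h3
          (cg_sym h hx hz hW)))
  -- the members of the subcover
  let T : ZFSet.{0} → ℕ → ℕ → ℕ → ZFSet.{0} → Prop := fun V i k k4 z =>
    z ∈ B ∧ k + 4 ≤ k4 ∧ pair z (nat i) ∈ e ∧
      (∃ g : Fin (2 ^ (i + 2)) → ℚ, ∀ a b, a ≠ b → ¬ D k (g a - g b)) ∧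
      ∀ x ∈ X, (x ∈ V ↔ Wj U k4 z x)
  have hT : ∀ c : {c // c ∈ s ∧ ∃ x ∈ B, x ∈ V c}, ∃ i k k4 z, T (V c.1) i k k4 z := by
    rintro ⟨c, hc, x, hxB, hxV⟩
    obtain ⟨hVP, h1 | h1⟩ := ZFSet.mem_sep.1 (hV c hc)
    · obtain ⟨i, hi, k, hk, k1, hk1, k2, hk2, k3, hk3, k4, hk4, m1, m2, m3, m4, z, hz, hzi,
        ⟨m, hm, him, g, hg, hg1, hg2⟩, hball⟩ := h1
      obtain ⟨i, rfl⟩ := mem_omega_iff.1 hi
      obtain ⟨k, rfl⟩ := mem_omega_iff.1 hk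
      obtain ⟨k1, rfl⟩ := mem_omega_iff.1 hk1
      obtain ⟨k2, rfl⟩ := mem_omega_iff.1 hk2
      obtain ⟨k3, rfl⟩ := mem_omega_iff.1 hk3
      obtain ⟨k4, rfl⟩ := mem_omega_iff.1 hk4
      have lt : ∀ {a b : ℕ}, nat a ∈ nat b → a < b := by
        intro a b hab
        obtain ⟨c, hc, h2⟩ := mem_nat_iff.1 hab
        rwa [nat_injective h2]
      have l1 := lt m1
      have l2 := lt m2
      have l3 := lt m3
      have l4 := lt m4
      rw [hhs'] at him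
      subst him
      refine ⟨i, k, k4, z, hz, by omega, hzi, ?_, hball⟩
      have h2 : ∀ a : Fin (2 ^ (i + 2)), ∃ q : ℚ, pair (nat a) (y q) ∈ g := by
        intro a
        obtain ⟨x, hx, hax, n, hn, hnx⟩ := hg1 (nat a) (nat_mem_nat' a.2)
        obtain ⟨n, rfl⟩ := mem_omega_iff.1 hn
        rw [hfr] at hnx
        exact ⟨r n, hnx ▸ hax⟩
      choose q hq using h2
      refine ⟨q, fun a b hab hD => ?_⟩
      refine hg2 (nat b) (nat_mem_nat' b.2) (nat a) (nat_mem_nat' a.2) (fun h3 => hab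
        (Fin.ext (nat_injective h3)).symm) _ (hy _) _ (hy _) (hq b) (hq a) ?_
      exact hDiff.2 hD
    · exact absurd hxB ((h1 x (ZFSet.mem_sep.1 hxB).1).1 hxV)
  choose i0 k0 k4 z0 hT using hT
  have : Fintype {c // c ∈ s ∧ ∃ x ∈ B, x ∈ V c} := Fintype.ofFinite _
  let I : Finset ℕ := Finset.univ.image i0
  have hmin : ∀ i ∈ I, ∃ c, i0 c = i ∧ ∀ c', i0 c' = i → k4 c ≤ k4 c' := by
    intro i hi
    obtain ⟨c0, -, hc0⟩ := Finset.mem_image.1 hi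
    obtain ⟨c, hc, hc'⟩ := Finset.exists_min_image (Finset.univ.filter fun c => i0 c = i) k4
      ⟨c0, Finset.mem_filter.2 ⟨Finset.mem_univ _, hc0⟩⟩
    exact ⟨c, (Finset.mem_filter.1 hc).2, fun c' hc'' =>
      hc' c' (Finset.mem_filter.2 ⟨Finset.mem_univ _, hc''⟩)⟩
  have hemp : Nonempty {c // c ∈ s ∧ ∃ x ∈ B, x ∈ V c} := by
    obtain ⟨c, hc, hxc⟩ := hcov (y 0) (hy 0)
    exact ⟨⟨c, hc, y 0, hyB 0, hxc⟩⟩
  choose! m hm1 hm2 using hmin
  refine pack h0 hneg hadd htb I (fun i => k0 (m i)) (fun i => {q | y q ∈ V (m i).1}) ?_ ?_ ?_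
  · intro i hi a ha b hb
    obtain ⟨t1, t2, t3, t4, t5⟩ := hT (m i)
    have hzX : z0 (m i) ∈ X := (ZFSet.mem_sep.1 t1).1
    have w1 : Wj U (k4 (m i)) (z0 (m i)) (y a) := (t5 _ (hy a)).1 ha
    have w2 : Wj U (k4 (m i)) (z0 (m i)) (y b) := (t5 _ (hy b)).1 hb
    have w3 := hgd.tri _ (k0 (m i) + 3) (by omega) _ (hy b) _ hzX _ (hy a)
      (hgd.sym _ _ hzX _ (hy b) w2) w1
    exact hDiff.1 w3
  · intro i hi
    obtain ⟨t1, t2, t3, t4, t5⟩ := hT (m i)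
    rw [hm1 i hi] at t4
    exact t4
  · intro q
    obtain ⟨c, hc, hqc⟩ := hcov (y q) (hy q)
    let c' : {c // c ∈ s ∧ ∃ x ∈ B, x ∈ V c} := ⟨c, hc, y q, hyB q, hqc⟩
    have hi : i0 c' ∈ I := Finset.mem_image.2 ⟨c', Finset.mem_univ _, rfl⟩
    refine ⟨i0 c', hi, ?_⟩
    obtain ⟨t1, t2, t3, t4, t5⟩ := hT c'
    obtain ⟨s1, s2, s3, s4, s5⟩ := hT (m (i0 c'))
    have hle := hm2 _ hi c' rfl
    rw [hm1 _ hi] at s3
    have hz : z0 (m (i0 c')) = z0 c' := he2 _ s1 _ t1 _ (mem_omega_iff.2 ⟨_, rfl⟩) s3 t3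
    have w1 : Wj U (k4 c') (z0 c') (y q) := (t5 _ (hy q)).1 hqc
    refine (s5 _ (hy q)).2 ?_
    rw [hz]
    exact cg_mono h hle (ZFSet.mem_sep.1 t1).1 (hy q) w1

end comb

end Pool.Agent.R598.CI
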