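import Pool.Agent.R598.CI.Nms

/-!
# The space of circles in the model
-/

set_option autoImplicit false
set_option linter.unusedSectionVars false

namespace Pool.Agent.R598.CI

open Pool.Agent.W868 Pool.Agent.W868.PName Pool.Agent.R598.SY Pool.Agent.R598.TY
  Pool.Agent.R598.PM
open ZFSet (pair)

section model

variable {π : Pkg (Cd Kc)}

theorem mem_X {x : ZFSet.{0}} : x ∈ π.val XN ↔ ∃ a, ptN a ∈ π.N ∧ x = π.val (ptN a) := val_famN

theorem mem_U {j : ℕ} {x y : ZFSet.{0}} : pair (nat j) (pair x y) ∈ π.val UN ↔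
    ∃ a b, ptN a ∈ π.N ∧ ptN b ∈ π.N ∧ x = π.val (ptN a) ∧ y = π.val (ptN b) ∧
      ds a b < (1 / 2 : ℝ) ^ j := by
  rw [UN, val_famN]
  constructor
  · rintro ⟨⟨⟨k, a, b⟩, h⟩, h1, h2⟩
    have h3 := π.snd_mem h1
    have ha := π.fst_mem h3
    have hb := π.snd_mem h3
    rw [π.val_opN (π.fst_mem h1) h3, π.val_opN ha hb] at h2
    obtain ⟨h4, h5⟩ := ZFSet.pair_inj.1 h2
    obtain ⟨h6, h7⟩ := ZFSet.pair_inj.1 h5
    have h8 : nat j = π.hat (nat k) := h4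
    rw [π.hat_nat] at h8
    have h9 : j = k := nat_injective h8
    exact ⟨a, b, ha, hb, h6, h7, h9 ▸ h⟩
  · rintro ⟨a, b, ha, hb, rfl, rfl, h⟩
    refine ⟨⟨(j, a, b), h⟩, π.opN_mem (π.nat_Z j) (π.opN_mem ha hb), ?_⟩
    change _ = π.val (opN (check (nat j)) (opN (ptN a) (ptN b)))
    rw [π.val_opN (π.nat_Z j) (π.opN_mem ha hb), π.val_opN ha hb]
    congr 1
    exact (π.hat_nat j).symm

theorem mem_U' {j : ℕ} {a b : Pt} (ha : ptN a ∈ π.N) (hb : ptN b ∈ π.N) :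
    pair (nat j) (pair (π.val (ptN a)) (π.val (ptN b))) ∈ π.val UN ↔ ds a b < (1 / 2 : ℝ) ^ j := by
  rw [mem_U]
  constructor
  · rintro ⟨a', b', ha', hb', h1, h2, h⟩
    rwa [val_ptN_inj ha ha' h1, val_ptN_inj hb hb' h2]
  · exact fun h => ⟨a, b, ha, hb, rfl, rfl, h⟩

theorem mem_L {n : ℕ} {x : ZFSet.{0}} : pair (nat n) x ∈ π.val LN ↔
    ∃ θ, aN (n, θ) ∈ π.N ∧ x = π.val (aN (n, θ)) := by
  rw [LN, val_famN]
  constructor
  · rintro ⟨⟨k, θ⟩, h1, h2⟩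
    rw [π.val_opN (π.fst_mem h1) (π.snd_mem h1)] at h2
    obtain ⟨h4, h5⟩ := ZFSet.pair_inj.1 h2
    have h8 : nat n = π.hat (nat k) := h4
    rw [π.hat_nat] at h8
    obtain rfl := nat_injective h8
    exact ⟨θ, π.snd_mem h1, h5⟩
  · rintro ⟨θ, h1, rfl⟩
    refine ⟨(n, θ), π.opN_mem (π.nat_Z n) h1, ?_⟩
    rw [π.val_opN (π.nat_Z n) h1]
    congr 1
    exact (π.hat_nat n).symm

theorem mem_Ar {n c : ℕ} {x : ZFSet.{0}} : pair (nat c) x ∈ π.val (ArN n) ↔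
    ∃ θ ∈ arc c, aN (n, θ) ∈ π.N ∧ x = π.val (aN (n, θ)) := by
  rw [ArN, val_famN]
  constructor
  · rintro ⟨⟨⟨k, θ⟩, h⟩, h1, h2⟩
    rw [π.val_opN (π.fst_mem h1) (π.snd_mem h1)] at h2
    obtain ⟨h4, h5⟩ := ZFSet.pair_inj.1 h2
    have h8 : nat c = π.hat (nat k) := h4
    rw [π.hat_nat] at h8
    obtain rfl := nat_injective h8
    exact ⟨θ, h, π.snd_mem h1, h5⟩
  · rintro ⟨θ, h, h1, rfl⟩
    refine ⟨⟨(c, θ), h⟩, π.opN_mem (π.nat_Z c) h1, ?_⟩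
    change _ = π.val (opN (check (nat c)) (aN (n, θ)))
    rw [π.val_opN (π.nat_Z c) h1]
    congr 1
    exact (π.hat_nat c).symm

variable (hπ : GP π)

include hπ in
theorem mem_d {a b : Pt} (ha : ptN a ∈ π.N) (hb : ptN b ∈ π.N) {z : ZFSet.{0}} :
    pair (pair (π.val (ptN a)) (π.val (ptN b))) z ∈ π.val dN ↔ z = real (ds a b) := by
  rw [dN, val_famN]
  constructor
  · rintro ⟨⟨a', b'⟩, h1, h2⟩
    have h3 := π.fst_mem h1
    have ha' := π.fst_mem h3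
    have hb' := π.snd_mem h3
    rw [π.val_opN h3 (π.snd_mem h1), π.val_opN ha' hb'] at h2
    obtain ⟨h4, h5⟩ := ZFSet.pair_inj.1 h2
    obtain ⟨h6, h7⟩ := ZFSet.pair_inj.1 h4
    rw [val_ptN_inj ha ha' h6, val_ptN_inj hb hb' h7, h5]
    exact hat_sub π (real_sub _) (π.snd_mem h1)
  · rintro rfl
    have hd := hπ.dist a b ha hb
    refine ⟨(a, b), π.opN_mem (π.opN_mem ha hb) hd, ?_⟩
    change _ = π.val (opN (opN (ptN a) (ptN b)) (check (real (ds a b))))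
    rw [π.val_opN (π.opN_mem ha hb) hd, π.val_opN ha hb]
    congr 1
    exact (hat_sub π (real_sub _) hd).symm

open Classical in
/-- The distance in the model. -/
noncomputable def rho (π : Pkg (Cd Kc)) (x y : ZFSet.{0}) : ℝ :=
  if h : ∃ t : Pt × Pt, ptN t.1 ∈ π.N ∧ ptN t.2 ∈ π.N ∧ x = π.val (ptN t.1) ∧
    y = π.val (ptN t.2) then ds h.choose.1 h.choose.2 else 0

theorem rho_eq {a b : Pt} (ha : ptN a ∈ π.N) (hb : ptN b ∈ π.N) :
    rho π (π.val (ptN a)) (π.val (ptN b)) = ds a b := by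
  have h : ∃ t : Pt × Pt, ptN t.1 ∈ π.N ∧ ptN t.2 ∈ π.N ∧ π.val (ptN a) = π.val (ptN t.1) ∧
    π.val (ptN b) = π.val (ptN t.2) := ⟨(a, b), ha, hb, rfl, rfl⟩
  rw [rho, dif_pos h]
  obtain ⟨h1, h2, h3, h4⟩ := h.choose_spec
  rw [← val_ptN_inj ha h1 h3, ← val_ptN_inj hb h2 h4]

/-- The open sets. -/
def Op (π : Pkg (Cd Kc)) (O : ZFSet.{0}) : Prop :=
  ∀ a, ptN a ∈ π.N → π.val (ptN a) ∈ O → ∃ j : ℕ, ∀ b, ptN b ∈ π.N →
    ds a b < (1 / 2 : ℝ) ^ j → π.val (ptN b) ∈ O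

/-- The set is the topology. -/
def IsTau (π : Pkg (Cd Kc)) (τ : ZFSet.{0}) : Prop :=
  ∀ O, O ∈ τ ↔ O ∈ (sys Kc).Ms π ∧ O ⊆ π.val XN ∧ Op π O

include hπ in
theorem XN_mem : π.val XN ∈ (sys Kc).Ms π := mem_Ms hs_XN hπ.xn

include hπ in
theorem exists_tau : ∃ τ ∈ (sys Kc).Ms π, IsTau π τ := by
  have hM := isZF_Ms hπ.cld
  have hX := XN_mem hπ
  have hU : π.val UN ∈ (sys Kc).Ms π := mem_Ms hs_UN hπ.un
  have hω := hM.infinity
  obtain ⟨P, hP, hP'⟩ := hM.power _ hX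
  refine ⟨_, hM.sep_mem (Q := fun O => ∀ x ∈ O, ∃ j ∈ ZFSet.omega, ∀ y ∈ π.val XN,
    pair j (pair x y) ∈ π.val UN → y ∈ O) (by (repeat' first | assumption | exact DfnF.proj _ | exact DfnF.const (by assumption) | exact Dfn.prop _ | apply Dfn.not | apply Dfn.and | apply Dfn.or | apply Dfn.imp | apply Dfn.iff | apply hM.base.bex | apply hM.base.ball | apply Dfn.ex | apply Dfn.all | apply Dfn.eq | apply Dfn.mem | apply hM.base.pair')) hP, fun O => ?_⟩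
  rw [ZFSet.mem_sep, hP', and_assoc]
  refine and_congr_right fun _ => and_congr_right fun hOX => ?_
  constructor
  · intro h a ha haO
    obtain ⟨j, hj, h1⟩ := h _ haO
    obtain ⟨j, rfl⟩ := mem_omega_iff.1 hj
    exact ⟨j, fun b hb hab => h1 _ (mem_X.2 ⟨b, hb, rfl⟩) ((mem_U' ha hb).2 hab)⟩
  · intro h x hx
    obtain ⟨a, ha, rfl⟩ := mem_X.1 (hOX hx)
    obtain ⟨j, h1⟩ := h a ha hx
    refine ⟨nat j, nat_om j, fun y hy hxy => ?_⟩
    obtain ⟨b, hb, rfl⟩ := mem_X.1 hy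
    exact h1 b hb ((mem_U' ha hb).1 hxy)

theorem pow_anti {i j : ℕ} (h : i ≤ j) : (1 / 2 : ℝ) ^ j ≤ (1 / 2 : ℝ) ^ i :=
  pow_le_pow_of_le_one (by norm_num) (by norm_num) h

include hπ in
theorem isTop_tau {τ : ZFSet.{0}} (hτ : IsTau π τ) : IsTop ((sys Kc).Ms π) (π.val XN) τ := by
  have hM := isZF_Ms hπ.cld
  refine ⟨fun O hO => ((hτ O).1 hO).2.1, (hτ _).2 ⟨hM.empty_mem, ZFSet.empty_subset _,
    fun a _ h => absurd h (ZFSet.notMem_empty _)⟩, (hτ _).2 ⟨XN_mem hπ, fun _ h => h,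
    fun a _ _ => ⟨0, fun b hb _ => mem_X.2 ⟨b, hb, rfl⟩⟩⟩, ?_, ?_⟩
  · intro U hU V hV
    obtain ⟨h1, h2, h3⟩ := (hτ U).1 hU
    obtain ⟨h4, h5, h6⟩ := (hτ V).1 hV
    refine (hτ _).2 ⟨?_, fun x hx => h2 (ZFSet.mem_inter.1 hx).1, ?_⟩
    · have h7 := hM.sep_mem (Q := fun z => z ∈ V) (by (repeat' first | assumption | exact DfnF.proj _ | exact DfnF.const (by assumption) | exact Dfn.prop _ | apply Dfn.not | apply Dfn.and | apply Dfn.or | apply Dfn.imp | apply Dfn.iff | apply hM.base.bex | apply hM.base.ball | apply Dfn.ex | apply Dfn.all | apply Dfn.eq | apply Dfn.mem | apply hM.base.pair')) h1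
      have h8 : ZFSet.sep (fun z => z ∈ V) U = U ∩ V := by
        ext z
        rw [ZFSet.mem_sep, ZFSet.mem_inter]
      rwa [h8] at h7
    · intro a ha haO
      obtain ⟨h7, h8⟩ := ZFSet.mem_inter.1 haO
      obtain ⟨i, hi⟩ := h3 a ha h7
      obtain ⟨j, hj⟩ := h6 a ha h8
      refine ⟨max i j, fun b hb hab => ZFSet.mem_inter.2 ⟨hi b hb ?_, hj b hb ?_⟩⟩
      · exact hab.trans_le (pow_anti (le_max_left _ _))
      · exact hab.trans_le (pow_anti (le_max_right _ _))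
  · intro C hC hCτ
    refine (hτ _).2 ⟨hM.union _ hC, fun x hx => ?_, fun a ha haO => ?_⟩
    · obtain ⟨O, hO, hxO⟩ := ZFSet.mem_sUnion.1 hx
      exact ((hτ O).1 (hCτ hO)).2.1 hxO
    · obtain ⟨O, hO, hxO⟩ := ZFSet.mem_sUnion.1 haO
      obtain ⟨j, hj⟩ := ((hτ O).1 (hCτ hO)).2.2 a ha hxO
      exact ⟨j, fun b hb hab => ZFSet.mem_sUnion.2 ⟨O, hO, hj b hb hab⟩⟩

include hπ in
theorem isMet_tau {τ : ZFSet.{0}} (hτ : IsTau π τ) :
    IsMetrizable ((sys Kc).Ms π) (π.val XN) τ := by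
  refine ⟨π.val dN, mem_Ms hs_dN hπ.dn, rho π, ?_, ?_, ?_, ?_, ?_⟩
  · intro x hx y hy z
    obtain ⟨a, ha, rfl⟩ := mem_X.1 hx
    obtain ⟨b, hb, rfl⟩ := mem_X.1 hy
    rw [rho_eq ha hb]
    exact mem_d hπ ha hb
  · intro x hx y hy
    obtain ⟨a, ha, rfl⟩ := mem_X.1 hx
    obtain ⟨b, hb, rfl⟩ := mem_X.1 hy
    rw [rho_eq ha hb, ds_eq_zero]
    exact ⟨fun h => by rw [h], fun h => val_ptN_inj ha hb h⟩
  · intro x hx y hy
    obtain ⟨a, ha, rfl⟩ := mem_X.1 hx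
    obtain ⟨b, hb, rfl⟩ := mem_X.1 hy
    rw [rho_eq ha hb, rho_eq hb ha, ds_comm]
  · intro x hx y hy z hz
    obtain ⟨a, ha, rfl⟩ := mem_X.1 hx
    obtain ⟨b, hb, rfl⟩ := mem_X.1 hy
    obtain ⟨c, hc, rfl⟩ := mem_X.1 hz
    rw [rho_eq ha hc, rho_eq ha hb, rho_eq hb hc]
    exact ds_tri a b c
  · intro O hO hOX
    rw [hτ]
    constructor
    · rintro ⟨-, -, h⟩ x hx
      obtain ⟨a, ha, rfl⟩ := mem_X.1 (hOX hx)
      obtain ⟨j, hj⟩ := h a ha hx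
      refine ⟨(1 / 2) ^ j, by positivity, fun y hy hxy => ?_⟩
      obtain ⟨b, hb, rfl⟩ := mem_X.1 hy
      rw [rho_eq ha hb] at hxy
      exact hj b hb hxy
    · intro h
      refine ⟨hO, hOX, fun a ha haO => ?_⟩
      obtain ⟨ε, hε, h1⟩ := h _ haO
      obtain ⟨j, hj⟩ := exists_pow_lt_of_lt_one hε (show (1 / 2 : ℝ) < 1 by norm_num)
      refine ⟨j, fun b hb hab => h1 _ (mem_X.2 ⟨b, hb, rfl⟩) ?_⟩
      rw [rho_eq ha hb]
      exact hab.trans hj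

/-! ### Compactness -/

include hπ in
theorem circle_comp {τ : ZFSet.{0}} (hτ : IsTau π τ) {C : ZFSet.{0}} (hC : C ∈ (sys Kc).Ms π)
    (n : ℕ) (hO : ∀ O ∈ C, Op π O)
    (hcov : ∀ θ, aN (n, θ) ∈ π.N → ∃ O ∈ C, π.val (aN (n, θ)) ∈ O) :
    ∃ s : Set ZFSet.{0}, s.Finite ∧ (∀ O ∈ s, O ∈ C) ∧
      ∀ θ, aN (n, θ) ∈ π.N → ∃ O ∈ s, π.val (aN (n, θ)) ∈ O := by
  have hM := isZF_Ms hπ.cld
  have hX := XN_mem hπ
  have hω := hM.infinity
  have hAr : π.val (ArN n) ∈ (sys Kc).Ms π := mem_Ms (hs_ArN n) (hπ.arn n)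
  have hRCS : RCS ∈ (sys Kc).Ms π := by
    have h1 := hat_mem_Ms hπ.rcs
    have h2 : π.hat RCS = RCS := by
      ext z
      rw [π.mem_hat]
      constructor
      · rintro ⟨y, hy, hyZ, rfl⟩
        obtain ⟨-, q, t, hqt, rfl⟩ := ZFSet.mem_sep.1 hy
        rw [π.hat_pair (π.nat_Z _) (π.nat_Z _), π.hat_nat, π.hat_nat]
        exact mem_RCS.2 ⟨q, t, hqt, rfl, rfl⟩
      · intro hz
        obtain ⟨-, q, t, hqt, rfl⟩ := ZFSet.mem_sep.1 hz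
        refine ⟨_, hz, π.pair_mem_Z (π.nat_Z _) (π.nat_Z _), ?_⟩
        rw [π.hat_pair (π.nat_Z _) (π.nat_Z _), π.hat_nat, π.hat_nat]
    rwa [h2] at h1
  have hMem : TY.Mem ∈ (sys Kc).Ms π := by
    have h1 := hat_mem_Ms hπ.mem
    have h2 : π.hat TY.Mem = TY.Mem := by
      ext z
      rw [π.mem_hat]
      constructor
      · rintro ⟨y, hy, hyZ, rfl⟩
        obtain ⟨-, q, t, hqt, rfl⟩ := ZFSet.mem_sep.1 hy
        rw [π.hat_pair (π.nat_Z _) (π.nat_Z _), π.hat_nat, π.hat_nat]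
        exact TY.mem_Mem.2 hqt
      · intro hz
        obtain ⟨-, q, t, hqt, rfl⟩ := ZFSet.mem_sep.1 hz
        refine ⟨_, hz, π.pair_mem_Z (π.nat_Z _) (π.nat_Z _), ?_⟩
        rw [π.hat_pair (π.nat_Z _) (π.nat_Z _), π.hat_nat, π.hat_nat]
    rwa [h2] at h1
  have hS := hM.sep_mem (Q := fun c => ∃ O ∈ C, ∀ x ∈ π.val XN, pair c x ∈ π.val (ArN n) →
    x ∈ O) (by (repeat' first | assumption | exact DfnF.proj _ | exact DfnF.const (by assumption) | exact Dfn.prop _ | apply Dfn.not | apply Dfn.and | apply Dfn.or | apply Dfn.imp | apply Dfn.iff | apply hM.base.bex | apply hM.base.ball | apply Dfn.ex | apply Dfn.all | apply Dfn.eq | apply Dfn.mem | apply hM.base.pair')) hω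
  set S0 := ZFSet.sep (fun c => ∃ O ∈ C, ∀ x ∈ π.val XN, pair c x ∈ π.val (ArN n) →
    x ∈ O) ZFSet.omega with hS0
  have hS0m : ∀ c : ℕ, nat c ∈ S0 ↔ ∃ O ∈ C, ∀ θ ∈ arc c, aN (n, θ) ∈ π.N →
      π.val (aN (n, θ)) ∈ O := by
    intro c
    rw [hS0, ZFSet.mem_sep]
    constructor
    · rintro ⟨-, O, hO, h1⟩
      exact ⟨O, hO, fun θ hθ hθN => h1 _ (mem_X.2 ⟨some (n, θ), hθN, rfl⟩)
        (mem_Ar.2 ⟨θ, hθ, hθN, rfl⟩)⟩
    · rintro ⟨O, hO, h1⟩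
      refine ⟨nat_om c, O, hO, fun x _ hx => ?_⟩
      obtain ⟨θ, hθ, hθN, rfl⟩ := mem_Ar.1 hx
      exact h1 θ hθ hθN
  rcases arcs {c | nat c ∈ S0} with ⟨t, ht1, ht2⟩ | ⟨r, hr1, hr2⟩
  · have h1 : ∀ c : t, ∃ O ∈ C, ∀ θ ∈ arc c.1, aN (n, θ) ∈ π.N → π.val (aN (n, θ)) ∈ O :=
      fun c => (hS0m c.1).1 (ht1 c.1 c.2)
    choose O hO hO' using h1
    refine ⟨Set.range O, Set.finite_range O, ?_, fun θ hθN => ?_⟩
    · rintro _ ⟨c, rfl⟩
      exact hO c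
    · obtain ⟨c, hc, hθ⟩ := ht2 θ
      exact ⟨_, ⟨⟨c, hc⟩, rfl⟩, hO' ⟨c, hc⟩ θ hθ hθN⟩
  · exfalso
    have hrM := hM.sep_mem (Q := fun k => ∃ t ∈ ZFSet.omega, pair k t ∈ RCS ∧
      ∀ m ∈ ZFSet.omega, pair m t ∈ TY.Mem → m ∈ S0) (by (repeat' first | assumption | exact DfnF.proj _ | exact DfnF.const (by assumption) | exact Dfn.prop _ | apply Dfn.not | apply Dfn.and | apply Dfn.or | apply Dfn.imp | apply Dfn.iff | apply hM.base.bex | apply hM.base.ball | apply Dfn.ex | apply Dfn.all | apply Dfn.eq | apply Dfn.mem | apply hM.base.pair')) hω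
    have h1 : ZFSet.sep (fun k => ∃ t ∈ ZFSet.omega, pair k t ∈ RCS ∧
        ∀ m ∈ ZFSet.omega, pair m t ∈ TY.Mem → m ∈ S0) ZFSet.omega = real r := by
      ext k
      rw [ZFSet.mem_sep, mem_real]
      constructor
      · rintro ⟨-, t, -, h1, h2⟩
        obtain ⟨q, s, h3, rfl, rfl⟩ := mem_RCS.1 h1
        exact ⟨q, (hr2 q).2 ⟨s, h3, fun c hc => h2 _ (nat_om c) (TY.mem_Mem.2 hc)⟩, rfl⟩
      · rintro ⟨q, hq, rfl⟩
        obtain ⟨s, h3, h4⟩ := (hr2 q).1 hq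
        refine ⟨nat_om _, _, nat_om _, mem_RCS.2 ⟨q, s, h3, rfl, rfl⟩, fun m hm h5 => ?_⟩
        obtain ⟨m, rfl⟩ := mem_omega_iff.1 hm
        exact h4 m (TY.mem_Mem.1 h5)
    rw [h1] at hrM
    have hrZ := no_new hπ.cld hrM (real_sub r)
    have hrN := hπ.pt n r hrZ
    obtain ⟨O, hOC, hxO⟩ := hcov _ hrN
    obtain ⟨j, hj⟩ := hO O hOC (some (n, (r : Kc))) hrN hxO
    obtain ⟨c, hc1, hc2⟩ := exists_arc (θ := (r : Kc)) (show (0 : ℝ) < (1 / 2) ^ j by positivity)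
    refine hr1 c ((hS0m c).2 ⟨O, hOC, fun θ hθ hθN => hj (some (n, θ)) hθN ?_⟩) hc1
    rw [ds_comm, ds_some]
    have h2 := hc2 θ hθ
    have h3 : (1 / 2 : ℝ) ^ n ≤ 1 := pow_le_one₀ (by norm_num) (by norm_num)
    calc (1 / 2 : ℝ) ^ n * ‖θ - (r : Kc)‖ ≤ 1 * ‖θ - (r : Kc)‖ :=
          mul_le_mul_of_nonneg_right h3 (norm_nonneg _)
      _ < (1 / 2) ^ j := by rwa [one_mul]

include hπ in
theorem isComp_tau {τ : ZFSet.{0}} (hτ : IsTau π τ) : IsComp ((sys Kc).Ms π) (π.val XN) τ := by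
  classical
  have hM := isZF_Ms hπ.cld
  intro C hC hCτ hcov
  have hOp : ∀ O ∈ C, Op π O := fun O hO => ((hτ O).1 (hCτ hO)).2.2
  have hnone : ptN none ∈ π.N := π.empty_Z
  obtain ⟨O0, hO0, h0⟩ := ZFSet.mem_sUnion.1 (hcov (mem_X.2 ⟨none, hnone, rfl⟩))
  obtain ⟨j, hj⟩ := hOp O0 hO0 none hnone h0
  have h1 : ∀ n : ℕ, ∃ s : Set ZFSet.{0}, s.Finite ∧ (∀ O ∈ s, O ∈ C) ∧
      ∀ θ, aN (n, θ) ∈ π.N → ∃ O ∈ s, π.val (aN (n, θ)) ∈ O := fun n =>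
    circle_comp hπ hτ hC n hOp fun θ hθN =>
      ZFSet.mem_sUnion.1 (hcov (mem_X.2 ⟨some (n, θ), hθN, rfl⟩))
  choose s hs1 hs2 hs3 using h1
  let T : Set ZFSet.{0} := {O0} ∪ ⋃ n ∈ Finset.range (j + 1), s n
  have hT : T.Finite := by
    refine (Set.finite_singleton _).union ?_
    exact Set.Finite.biUnion (Finset.finite_toSet _) fun n _ => hs1 n
  have hTC : ∀ O ∈ T, O ∈ C := by
    rintro O (rfl | hO)
    · exact hO0
    · obtain ⟨n, hn⟩ := Set.mem_iUnion.1 hO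
      obtain ⟨-, hn⟩ := Set.mem_iUnion.1 hn
      exact hs2 n O hn
  let F : ZFSet.{0} := ZFSet.sep (fun O => O ∈ T) C
  have hFm : ∀ O, O ∈ F ↔ O ∈ T := by
    intro O
    rw [ZFSet.mem_sep]
    exact ⟨fun h => h.2, fun h => ⟨hTC O h, h⟩⟩
  have hFM : ∀ O ∈ F, O ∈ (sys Kc).Ms π := fun O hO => hM.trans _ hC _ (hTC O ((hFm O).1 hO))
  have hFf : {z | z ∈ F}.Finite := hT.subset fun z hz => (hFm z).1 hz
  refine ⟨F, fin_mem hM hFM hFf, fun O hO => hTC O ((hFm O).1 hO),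
    (finIn_iff hM hFM).2 hFf, fun x hx => ?_⟩
  obtain ⟨a, ha, rfl⟩ := mem_X.1 hx
  cases a with
  | none => exact ZFSet.mem_sUnion.2 ⟨O0, (hFm _).2 (Or.inl rfl), h0⟩
  | some i =>
    obtain ⟨n, θ⟩ := i
    by_cases hn : n < j + 1
    · obtain ⟨O, hO, hxO⟩ := hs3 n θ ha
      refine ZFSet.mem_sUnion.2 ⟨O, (hFm _).2 (Or.inr ?_), hxO⟩
      exact Set.mem_iUnion.2 ⟨n, Set.mem_iUnion.2 ⟨Finset.mem_range.2 hn, hO⟩⟩
    · refine ZFSet.mem_sUnion.2 ⟨O0, (hFm _).2 (Or.inl rfl), hj _ ha ?_⟩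
      rw [ds_none]
      exact pow_lt_pow_right_of_lt_one₀ (by norm_num) (by norm_num) (by omega)

/-! ### The space is not separable -/

theorem ud_ch : UDf fun M (v : Fin 3 → ZFSet.{0}) => pair (v 0) (v 1) ∈ v 2 ∧
    ∀ z ∈ M, pair (v 0) z ∈ v 2 → z = v 1 := by
  refine UDf.and (udp 0 1 2) (UDf.all (UDf.imp ?_ ?_))
  · exact udp 1 0 3
  · exact ude 0 2

theorem exists_ne0 : ∃ κ : Kc, κ ≠ 0 := by
  refine ⟨((1 / 2 : ℝ) : Kc), fun h => ?_⟩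
  have h1 : ‖((1 / 2 : ℝ) : Kc)‖ = 1 / 2 := by
    rw [UnitAddCircle.norm_eq]
    have : round (1 / 2 : ℝ) = 1 := by norm_num [round_eq]
    rw [this]
    norm_num
  rw [h, norm_zero] at h1
  norm_num at h1

/-- There is no choice function for the circles. -/
theorem no_ch (h1 : (sys Kc).Cld π) {s : ZFSet.{0}} (hs : s ∈ (sys Kc).Ms π) :
    ¬ ∀ n : ℕ, ∃ θ, aN (n, θ) ∈ π.N ∧ ∀ z, pair (nat n) z ∈ s ↔ z = π.val (aN (n, θ)) := by
  classical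
  intro h
  obtain ⟨σ, ⟨hσ, hσs⟩, rfl⟩ := hs
  obtain ⟨_, ⟨E, F, hE, rfl⟩, hfix⟩ := hσs.sym
  obtain ⟨n, hn⟩ := Infinite.exists_notMem_finset F
  obtain ⟨θ, hθN, hθ⟩ := h n
  have hv : ∀ θ : Kc, ∀ i, (sys Kc).HS ((![check (nat n), aN (n, θ), σ] :
      Fin 3 → PName (Cd Kc)) i) := by
    intro θ i
    fin_cases i
    · exact (sys Kc).hs_check _
    · exact hs_aN _
    · exact hσs
  have hin : ∀ (π : Pkg (Cd Kc)) (θ : Kc), aN (n, θ) ∈ π.N → σ ∈ π.N → ∀ i,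
      (![check (nat n), aN (n, θ), σ] : Fin 3 → PName (Cd Kc)) i ∈ π.N := by
    intro π θ h1 h2 i
    fin_cases i
    · exact π.nat_Z n
    · exact h1
    · exact h2
  obtain ⟨k, hk⟩ := ud_ch.fund (hv θ) h1 (hin π θ hθN hσ) (by
    constructor
    · change pair (π.hat (nat n)) _ ∈ π.val σ
      rw [π.hat_nat]
      exact (hθ _).2 rfl
    · intro z _ hz
      change pair (π.hat (nat n)) z ∈ π.val σ at hz
      rw [π.hat_nat] at hz
      exact (hθ _).1 hz)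
  have hSp : Sp E (insert n F) := hE.mono (Finset.subset_insert _ _)
  have h2 := sf_rs ud_ch (hv θ) hSp (by
    intro i
    fin_cases i
    · exact fix_check _ _
    · refine (fix_aN (n, θ)).mono (bs_mono (Set.empty_subset _) ?_)
      intro m hm
      rw [Finset.mem_singleton.1 hm]
      exact Finset.mem_insert_self _ _
    · exact hfix.mono (bs_mono (Set.Subset.refl _) (Finset.subset_insert _ _))) hk
  obtain ⟨κ, hκ⟩ := exists_ne0
  let g : ℕ → Kc := fun m => if m = n then κ else 0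
  have hg : ∀ m ∈ F, g m = 0 := fun m hm => if_neg fun (h : m = n) => hn (h ▸ hm)
  have hgn : g n = κ := if_pos rfl
  have h3 := SF.move ud_ch (hv θ) (hv (κ + θ)) (ro g) (by
    intro i p
    fin_cases i
    · exact fix_check _ _ _ (ro_mem hg hE) p
    · have h4 := act_aN (ro g) (n, θ) p
      rw [rt_ro] at h4
      have h5 : rot g (n, θ) = (n, κ + θ) := by
        rw [rot_apply]
        change (n, g n + θ) = _
        rw [hgn]
      rwa [h5] at h4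
    · exact hfix _ (ro_mem hg hE) p) h2
  rw [ac_ro_of_dom hg hE (dom_rs _ _)] at h3
  obtain ⟨π', d1, d2, d3⟩ := exists_cld (sys Kc) {aN (n, θ), aN (n, κ + θ), σ}
    (Set.toFinite _).countable (rs (π.g k) E)
  have m1 : aN (n, θ) ∈ π'.N := d2 (Or.inl rfl)
  have m2 : aN (n, κ + θ) ∈ π'.N := d2 (Or.inr (Or.inl rfl))
  have m3 : σ ∈ π'.N := d2 (Or.inr (Or.inr rfl))
  have e1 := h2 π' d1 (hin π' θ m1 m3) ⟨0, d3.le⟩
  have e2 := h3 π' d1 (hin π' (κ + θ) m2 m3) ⟨0, d3.le⟩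
  have e3 : π'.val (aN (n, κ + θ)) = π'.val (aN (n, θ)) :=
    e1.2 _ (mem_Ms (hs_aN _) m2) e2.1
  have e4 := val_ptN_inj (a := some (n, κ + θ)) (b := some (n, θ)) m2 m1 e3
  have e5 := Option.some.inj e4
  have e6 : κ + θ = θ := (Prod.mk.inj e5).2
  exact hκ (by simpa using e6)

include hπ in
theorem not_sep {τ : ZFSet.{0}} (hτ : IsTau π τ) : ¬ ∃ D ∈ (sys Kc).Ms π, D ⊆ π.val XN ∧
    Inj ((sys Kc).Ms π) D ZFSet.omega ∧ ∀ O ∈ τ, O ≠ ∅ → ∃ x ∈ D, x ∈ O := by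
  classical
  rintro ⟨D, hD, hDX, ⟨e, he, hinj⟩, hdense⟩
  have hM := isZF_Ms hπ.cld
  have hX := XN_mem hπ
  have hω := hM.infinity
  have hL : π.val LN ∈ (sys Kc).Ms π := mem_Ms hs_LN hπ.ln
  have hs := hM.sep_mem (Q := fun w => ∃ n ∈ ZFSet.omega, ∃ x ∈ D, w = pair n x ∧
    pair n x ∈ π.val LN ∧ ∃ i ∈ ZFSet.omega, pair x i ∈ e ∧ ∀ x' ∈ D, ∀ i' ∈ ZFSet.omega,
      pair n x' ∈ π.val LN → pair x' i' ∈ e → ¬ i' ∈ i) (by (repeat' first | assumption | exact DfnF.proj _ | exact DfnF.const (by assumption) | exact Dfn.prop _ | apply Dfn.not | apply Dfn.and | apply Dfn.or | apply Dfn.imp | apply Dfn.iff | apply hM.base.bex | apply hM.base.ball | apply Dfn.ex | apply Dfn.all | apply Dfn.eq | apply Dfn.mem | apply hM.base.pair')) (hM.prod_mem hω hX)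
  refine no_ch hπ.cld hs fun n => ?_
  -- the circle is open
  have hnM : nat n ∈ (sys Kc).Ms π := hM.trans _ hω _ (nat_om n)
  have hA := hM.sep_mem (Q := fun x => pair (nat n) x ∈ π.val LN) (by (repeat' first | assumption | exact DfnF.proj _ | exact DfnF.const (by assumption) | exact Dfn.prop _ | apply Dfn.not | apply Dfn.and | apply Dfn.or | apply Dfn.imp | apply Dfn.iff | apply hM.base.bex | apply hM.base.ball | apply Dfn.ex | apply Dfn.all | apply Dfn.eq | apply Dfn.mem | apply hM.base.pair')) hX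
  have h1 : ∃ x ∈ D, x ∈ ZFSet.sep (fun x => pair (nat n) x ∈ π.val LN) (π.val XN) := by
    refine hdense _ ((hτ _).2 ⟨hA, fun x hx => (ZFSet.mem_sep.1 hx).1, ?_⟩) ?_
    · intro a ha haO
      obtain ⟨-, h2⟩ := ZFSet.mem_sep.1 haO
      obtain ⟨θ, hθN, h3⟩ := mem_L.1 h2
      have h4 : a = some (n, θ) := val_ptN_inj (b := some (n, θ)) ha hθN h3
      subst h4
      refine ⟨n, fun b hb hab => ?_⟩
      have h5 : lev (some (n, θ)) = lev b := by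
        by_contra hc
        exact absurd hab (not_lt.2 (sz_le_ds hc))
      cases b with
      | none => simp [lev] at h5
      | some i =>
        simp only [lev, Option.map_some, Option.some.injEq] at h5
        obtain ⟨m, θ'⟩ := i
        have h6 : n = m := h5
        subst h6
        exact ZFSet.mem_sep.2 ⟨mem_X.2 ⟨_, hb, rfl⟩, mem_L.2 ⟨θ', hb, rfl⟩⟩
    · intro h2
      have h3 := hπ.pt n 0 hπ.zero
      have h4 : π.val (aN (n, ((0 : ℝ) : Kc))) ∈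
          ZFSet.sep (fun x => pair (nat n) x ∈ π.val LN) (π.val XN) :=
        ZFSet.mem_sep.2 ⟨mem_X.2 ⟨some (n, ((0 : ℝ) : Kc)), h3, rfl⟩, mem_L.2 ⟨_, h3, rfl⟩⟩
      rw [h2] at h4
      exact ZFSet.notMem_empty _ h4
  obtain ⟨x0, hx0D, hx0⟩ := h1
  have hx0L := (ZFSet.mem_sep.1 hx0).2
  -- the least element
  obtain ⟨i0, hi0, hx0i⟩ := fun_exists hinj.1 hx0D
  obtain ⟨i, ⟨hi, x, hxD, hxL, hxi⟩, hmin⟩ := ZFSet.mem_wf.has_min
    {i | i ∈ ZFSet.omega ∧ ∃ x ∈ D, pair (nat n) x ∈ π.val LN ∧ pair x i ∈ e}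
    ⟨i0, hi0, x0, hx0D, hx0L, hx0i⟩
  obtain ⟨θ, hθN, rfl⟩ := mem_L.1 hxL
  refine ⟨θ, hθN, fun z => ?_⟩
  constructor
  · intro hz
    obtain ⟨-, n', hn', x', hx', h2, h3, i', hi', h4, h5⟩ := ZFSet.mem_sep.1 hz
    obtain ⟨h6, rfl⟩ := ZFSet.pair_inj.1 h2
    subst h6
    obtain ⟨m, rfl⟩ := mem_omega_iff.1 hi
    obtain ⟨m', rfl⟩ := mem_omega_iff.1 hi'
    have h7 : ¬ m' < m := fun h => hmin _ ⟨nat_om m', z, hx', h3, h4⟩ (nat_mem_nat' h)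
    have h8 : ¬ m < m' := fun h => h5 _ hxD _ (nat_om m) hxL hxi (nat_mem_nat' h)
    have h9 : m = m' := by omega
    subst h9
    exact hinj.2 _ _ _ h4 hxi
  · rintro rfl
    refine ZFSet.mem_sep.2 ⟨ZFSet.pair_mem_prod.2 ⟨nat_om n, hDX hxD⟩, nat n, nat_om n, _, hxD,
      rfl, hxL, i, hi, hxi, fun x' hx' i' hi' h2 h3 h4 => ?_⟩
    exact hmin i' ⟨hi', x', hx', h2, h3⟩ h4

end model

end Pool.Agent.R598.CI
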