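import Pool.Agent.R598.CI.For
import Pool.Agent.W868.Coll

/-!
# Countable conditions, blocks of generic sets, and rotations of the blocks
-/

set_option autoImplicit false
set_option linter.unusedSectionVars false

namespace Pool.Agent.R598.CI

open Pool.Agent.W868 Pool.Agent.W868.PName Pool.Agent.R598.SY
open ZFSet (pair)

/-- The indices of the generic sets. -/
abbrev Ix (K : Type) : Type := (ℕ × K) × Set ℕ

/-- The indices of the elements of the generic sets. -/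
abbrev La : Type := Ty Om1 × ℕ

theorem la_uncountable : ¬ (Set.univ : Set La).Countable := by
  intro h
  have h3 : (Set.univ : Set (Ty Om1)).Countable := by
    refine (h.image Prod.fst).mono fun i _ => ?_
    exact ⟨(i, 0), trivial, rfl⟩
  have h4 : Cardinal.mk (Ty Om1) ≤ Cardinal.aleph0 :=
    Cardinal.mk_le_aleph0_iff.2 (Set.countable_univ_iff.1 h3)
  have h5 : Cardinal.mk (Ty Om1) = Cardinal.aleph 1 := card_Om1
  rw [h5] at h4
  exact absurd h4 (not_le.2 Cardinal.aleph0_lt_aleph_one)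

/-- Conditions: countable partial functions. -/
structure Cd (K : Type) : Type where
  /-- the graph -/
  s : Set (Ix K × La × Bool)
  cnt : s.Countable
  fn : ∀ a n, (a, n, true) ∈ s → (a, n, false) ∉ s

variable {K : Type}

theorem Cd.ext' {p q : Cd K} (h : p.s = q.s) : p = q := by
  cases p
  cases q
  congr

instance : Preorder (Cd K) where
  le p q := q.s ⊆ p.s
  le_refl _ := subset_rfl
  le_trans _ _ _ h h' := h'.trans h

instance : OrderTop (Cd K) where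
  top := ⟨∅, Set.countable_empty, fun _ _ h => h.elim⟩
  le_top _ := Set.empty_subset _

theorem le_def {p q : Cd K} : p ≤ q ↔ q.s ⊆ p.s := Iff.rfl

theorem sclosed : SClosed (Cd K) := by
  intro p hp
  have ha : Antitone p := antitone_nat_of_succ_le hp
  refine ⟨⟨⋃ n, (p n).s, Set.countable_iUnion fun n => (p n).cnt, ?_⟩, fun n => ?_⟩
  · intro i s h h'
    obtain ⟨n, hn⟩ := Set.mem_iUnion.1 h
    obtain ⟨m, hm⟩ := Set.mem_iUnion.1 h'
    exact (p (max n m)).fn i s (ha (le_max_left n m) hn) (ha (le_max_right n m) hm)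
  · exact Set.subset_iUnion (fun n => (p n).s) n

/-- Union of compatible conditions. -/
theorem glue {ι : Type} [Countable ι] (q : ι → Cd K)
    (h : ∀ i j a n, (a, n, true) ∈ (q i).s → (a, n, false) ∉ (q j).s) :
    ∃ r : Cd K, r.s = ⋃ i, (q i).s := by
  refine ⟨⟨⋃ i, (q i).s, Set.countable_iUnion fun i => (q i).cnt, ?_⟩, rfl⟩
  intro a n h1 h2
  obtain ⟨i, hi⟩ := Set.mem_iUnion.1 h1
  obtain ⟨j, hj⟩ := Set.mem_iUnion.1 h2
  exact h i j a n hi hj

theorem glue2 (p q : Cd K) (h : ∀ a n b, (a, n, b) ∈ p.s → (a, n, !b) ∉ q.s) :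
    ∃ r : Cd K, r.s = p.s ∪ q.s := by
  refine ⟨⟨p.s ∪ q.s, p.cnt.union q.cnt, ?_⟩, rfl⟩
  intro a n h1 h2
  rcases h1 with h1 | h1 <;> rcases h2 with h2 | h2
  · exact p.fn a n h1 h2
  · exact h a n true h1 h2
  · exact h a n false h2 h1
  · exact q.fn a n h1 h2

/-- The domain. -/
def Cd.dom (p : Cd K) : Set (Ix K) := Prod.fst '' p.s

theorem Cd.dom_cnt (p : Cd K) : p.dom.Countable := p.cnt.image _

theorem Cd.mem_dom {p : Cd K} {a : Ix K} {n : La} {b : Bool} (h : (a, n, b) ∈ p.s) :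
    a ∈ p.dom := ⟨_, h, rfl⟩

/-- The restriction. -/
def rs (p : Cd K) (E : Set (Ix K)) : Cd K where
  s := {x | x ∈ p.s ∧ x.1 ∈ E}
  cnt := p.cnt.mono fun _ h => h.1
  fn a n h h' := p.fn a n h.1 h'.1

theorem le_rs (p : Cd K) (E : Set (Ix K)) : p ≤ rs p E := fun _ h => h.1

theorem rs_mono {p q : Cd K} (h : p ≤ q) (E : Set (Ix K)) : rs p E ≤ rs q E :=
  fun _ hx => ⟨h hx.1, hx.2⟩

theorem dom_rs (p : Cd K) (E : Set (Ix K)) : (rs p E).dom ⊆ E := by
  rintro _ ⟨x, hx, rfl⟩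
  exact hx.2

theorem rs_le_of_dom {p q : Cd K} {E : Set (Ix K)} (h : p ≤ q) (hq : q.dom ⊆ E) :
    rs p E ≤ q := fun x hx => ⟨h hx, hq ⟨x, hx, rfl⟩⟩

/-- The action on the conditions. -/
def mv (ρ : Equiv.Perm (Ix K)) (p : Cd K) : Cd K where
  s := {x | (ρ.symm x.1, x.2) ∈ p.s}
  cnt := by
    refine p.cnt.preimage_of_injOn (f := fun x : Ix K × La × Bool => (ρ.symm x.1, x.2)) ?_
    rintro ⟨a, x⟩ - ⟨b, y⟩ - h
    obtain ⟨h1, h2⟩ := Prod.mk.inj h
    exact Prod.ext (ρ.symm.injective h1) h2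
  fn a n := p.fn (ρ.symm a) n

theorem mem_mv {ρ : Equiv.Perm (Ix K)} {p : Cd K} {x : Ix K × La × Bool} :
    x ∈ (mv ρ p).s ↔ (ρ.symm x.1, x.2) ∈ p.s := Iff.rfl

theorem mv_le {ρ : Equiv.Perm (Ix K)} {p q : Cd K} (h : p ≤ q) : mv ρ p ≤ mv ρ q :=
  fun _ hx => h hx

theorem mv_symm_mv (ρ : Equiv.Perm (Ix K)) (p : Cd K) : mv ρ.symm (mv ρ p) = p := by
  refine Cd.ext' (Set.ext fun x => ?_)
  rw [mem_mv, mem_mv]
  simp

theorem mv_mv_symm (ρ : Equiv.Perm (Ix K)) (p : Cd K) : mv ρ (mv ρ.symm p) = p := by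
  refine Cd.ext' (Set.ext fun x => ?_)
  rw [mem_mv, mem_mv]
  simp

variable [AddCommGroup K]

/-- The rotation of the blocks. -/
def rot (g : ℕ → K) : Equiv.Perm (ℕ × K) where
  toFun i := (i.1, g i.1 + i.2)
  invFun i := (i.1, -g i.1 + i.2)
  left_inv i := by simp
  right_inv i := by simp

theorem rot_apply (g : ℕ → K) (i : ℕ × K) : rot g i = (i.1, g i.1 + i.2) := rfl

theorem rot_zero : rot (0 : ℕ → K) = 1 := by
  ext i
  · rfl
  · simp [rot_apply]

variable (K) in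
/-- The group. -/
def Gp : Subgroup (Equiv.Perm (Ix K) × Multiplicative (ℕ → K)) where
  carrier := {x | ∀ a, (x.1 a).1 = rot (Multiplicative.toAdd x.2) a.1}
  mul_mem' := by
    rintro x y hx hy a
    change (x.1 (y.1 a)).1 = _
    rw [hx, hy]
    simp only [rot_apply, Prod.snd_mul, toAdd_mul, Pi.add_apply, add_assoc]
  one_mem' := by
    intro a
    simp [rot_apply]
  inv_mem' := by
    rintro x hx a
    have h1 := hx (x.1.symm a)
    rw [Equiv.apply_symm_apply] at h1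
    change (x.1.symm a).1 = _
    rw [h1]
    simp [rot_apply]

/-- The rotation of an element of the group. -/
def rt (x : Gp K) : ℕ → K := Multiplicative.toAdd x.1.2

theorem rt_spec (x : Gp K) (a : Ix K) : (x.1.1 a).1 = rot (rt x) a.1 := x.2 a

theorem rt_mul (x y : Gp K) : rt (x * y) = rt x + rt y := rfl

theorem rt_one : rt (1 : Gp K) = 0 := rfl

theorem rt_inv (x : Gp K) : rt x⁻¹ = - rt x := rfl

/-- The action. -/
def acH : Gp K →* (Cd K ≃o Cd K) where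
  toFun ρ :=
    { toFun := mv ρ.1.1
      invFun := mv ρ.1.1.symm
      left_inv := mv_symm_mv ρ.1.1
      right_inv := mv_mv_symm ρ.1.1
      map_rel_iff' := by
        intro p q
        constructor
        · intro h
          have h1 := mv_le (ρ := ρ.1.1.symm) h
          simp only [Equiv.coe_fn_mk] at h1
          rwa [mv_symm_mv, mv_symm_mv] at h1
        · exact mv_le }
  map_one' := by
    ext p
    rfl
  map_mul' := by
    intro ρ τ
    ext p
    rfl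

/-- The subgroups of the filter. -/
def bs (E : Set (Ix K)) (F : Finset ℕ) : Subgroup (Gp K) where
  carrier := {ρ | (∀ a ∈ E, ρ.1.1 a = a) ∧ ∀ n ∈ F, rt ρ n = 0}
  mul_mem' := by
    rintro ρ ρ' ⟨h1, h2⟩ ⟨h1', h2'⟩
    refine ⟨fun a ha => ?_, fun n hn => ?_⟩
    · change ρ.1.1 (ρ'.1.1 a) = a
      rw [h1' a ha, h1 a ha]
    · rw [rt_mul, Pi.add_apply, h2 n hn, h2' n hn, add_zero]
  one_mem' := ⟨fun a _ => rfl, fun n _ => rfl⟩
  inv_mem' := by
    rintro ρ ⟨h1, h2⟩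
    refine ⟨fun a ha => ?_, fun n hn => ?_⟩
    · change ρ.1.1⁻¹ a = a
      rw [Equiv.Perm.inv_eq_iff_eq, h1 a ha]
    · rw [rt_inv, Pi.neg_apply, h2 n hn, neg_zero]

theorem mem_bs {E : Set (Ix K)} {F : Finset ℕ} {ρ : Gp K} :
    ρ ∈ bs E F ↔ (∀ a ∈ E, ρ.1.1 a = a) ∧ ∀ n ∈ F, rt ρ n = 0 := Iff.rfl

theorem bs_mono {E E' : Set (Ix K)} {F F' : Finset ℕ} (hE : E ⊆ E') (hF : F ⊆ F') :
    bs E' F' ≤ bs E F := fun _ h => ⟨fun a ha => h.1 a (hE ha), fun n hn => h.2 n (hF hn)⟩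

/-- The supports: the set `E` is countable, the finite set `F` has the levels of all its
elements. -/
def Sp (E : Set (Ix K)) (F : Finset ℕ) : Prop := E.Countable ∧ ∀ a ∈ E, a.1.1 ∈ F

theorem Sp.union {E E' : Set (Ix K)} {F F' : Finset ℕ} (h : Sp E F) (h' : Sp E' F') :
    Sp (E ∪ E') (F ∪ F') := by
  refine ⟨h.1.union h'.1, ?_⟩
  rintro a (ha | ha)
  · exact Finset.mem_union_left _ (h.2 a ha)
  · exact Finset.mem_union_right _ (h'.2 a ha)

theorem Sp.mono {E : Set (Ix K)} {F F' : Finset ℕ} (h : Sp E F) (hF : F ⊆ F') : Sp E F' :=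
  ⟨h.1, fun a ha => hF (h.2 a ha)⟩

theorem Sp.empty (F : Finset ℕ) : Sp (∅ : Set (Ix K)) F := ⟨Set.countable_empty, fun _ h => h.elim⟩

theorem Sp.image {E : Set (Ix K)} {F : Finset ℕ} (h : Sp E F) (g : Gp K) :
    Sp (g.1.1 '' E) F := by
  refine ⟨h.1.image _, ?_⟩
  rintro _ ⟨a, ha, rfl⟩
  rw [rt_spec]
  exact h.2 a ha

variable (K) in
open Classical in
/-- The symmetric system. -/
noncomputable def sys : Sys (Cd K) where
  G := Gp K
  grp := inferInstance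
  ac := acH
  top := by
    intro ρ
    exact Cd.ext' rfl
  F := {H | ∃ (E : Set (Ix K)) (F : Finset ℕ), Sp E F ∧ H = bs E F}
  ne := ⟨_, ∅, ∅, Sp.empty _, rfl⟩
  conj := by
    rintro _ ⟨E, F, hE, rfl⟩ g
    refine ⟨_, ⟨g.1.1 '' E, F, hE.image g, rfl⟩, ?_⟩
    rintro k ⟨hk1, hk2⟩
    refine ⟨fun a ha => ?_, fun n hn => ?_⟩
    · have h1 := hk1 (g.1.1 a) (Set.mem_image_of_mem _ ha)
      change g.1.1.symm (k.1.1 (g.1.1 a)) = a
      rw [h1, Equiv.symm_apply_apply]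
    · rw [rt_mul, rt_mul, rt_inv, Pi.add_apply, Pi.add_apply, hk2 n hn, Pi.neg_apply, add_zero,
        neg_add_cancel]
  dir := by
    rintro _ ⟨E, F, hE, rfl⟩ _ ⟨E', F', hE', rfl⟩
    exact ⟨_, ⟨E ∪ E', F ∪ F', hE.union hE', rfl⟩,
      bs_mono Set.subset_union_left Finset.subset_union_left,
      bs_mono Set.subset_union_right Finset.subset_union_right⟩

theorem bs_mem_F {E : Set (Ix K)} {F : Finset ℕ} (hE : Sp E F) : bs E F ∈ (sys K).F :=
  ⟨E, F, hE, rfl⟩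

theorem ac_def (ρ : (sys K).G) (p : Cd K) : (sys K).ac ρ p = mv ρ.1.1 p := rfl

/-! ### The names -/

/-- A condition with a single value. -/
def sg (a : Ix K) (n : La) (b : Bool) : Cd K where
  s := {(a, n, b)}
  cnt := Set.countable_singleton _
  fn := by
    intro c m h h'
    rw [Set.mem_singleton_iff] at h h'
    cases b <;> simp_all

theorem le_sg {p : Cd K} {a : Ix K} {n : La} {b : Bool} : p ≤ sg a n b ↔ (a, n, b) ∈ p.s := by
  rw [le_def, sg, Set.singleton_subset_iff]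

/-- The name for the generic set `a`. -/
noncomputable def xN (a : Ix K) : PName (Cd K) :=
  PName.mk La (fun l => opN (check (el l.1)) (check (nat l.2))) (fun l => sg a l true)

/-- The name for the block `i`. -/
noncomputable def aN (i : ℕ × K) : PName (Cd K) := PName.mk (Set ℕ) (fun j => xN (i, j)) (fun _ => ⊤)

theorem el_xN {a : Ix K} {z : PName (Cd K)} {c : Cd K} :
    El (xN a) z c ↔ ∃ l : La, z = opN (check (el l.1)) (check (nat l.2)) ∧ c = sg a l true := by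
  rw [xN, el_mk]
  constructor
  · rintro ⟨n, rfl, rfl⟩
    exact ⟨n, rfl, rfl⟩
  · rintro ⟨n, rfl, rfl⟩
    exact ⟨n, rfl, rfl⟩

theorem el_aN {i : ℕ × K} {z : PName (Cd K)} {c : Cd K} :
    El (aN i) z c ↔ ∃ j, z = xN (i, j) ∧ c = ⊤ := by
  rw [aN, el_mk]
  constructor
  · rintro ⟨n, rfl, rfl⟩
    exact ⟨n, rfl, rfl⟩
  · rintro ⟨n, rfl, rfl⟩
    exact ⟨n, rfl, rfl⟩

theorem mv_sg (ρ : Equiv.Perm (Ix K)) (a : Ix K) (n : La) (b : Bool) :
    mv ρ (sg a n b) = sg (ρ a) n b := by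
  refine Cd.ext' (Set.ext fun x => ?_)
  obtain ⟨c, m, d⟩ := x
  rw [mem_mv]
  change (ρ.symm c, m, d) = (a, n, b) ↔ (c, m, d) = (ρ a, n, b)
  constructor
  · intro h
    obtain ⟨h1, h2⟩ := Prod.mk.inj h
    rw [← h1, Equiv.apply_symm_apply, h2]
  · intro h
    obtain ⟨h1, h2⟩ := Prod.mk.inj h
    rw [h1, Equiv.symm_apply_apply, h2]

theorem act_xN (ρ : (sys K).G) (a : Ix K) : act ((sys K).ac ρ) (xN a) = xN (ρ.1.1 a) := by
  unfold xN act
  congr 1
  · funext n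
    rw [act_opN ((sys K).top ρ), act_check ((sys K).top ρ), act_check ((sys K).top ρ)]
  · funext n
    exact mv_sg _ _ _ _

theorem act_aN (ρ : (sys K).G) (i : ℕ × K) (p : Cd K) :
    Feq (act ((sys K).ac ρ) (aN i)) (aN (rot (rt ρ) i)) p := by
  refine feq_of_el fun z c => ?_
  rw [el_act, el_aN]
  constructor
  · rintro ⟨z, c, hz, rfl, rfl⟩
    obtain ⟨j, rfl, rfl⟩ := el_aN.1 hz
    refine ⟨(ρ.1.1 (i, j)).2, ?_, (sys K).top ρ⟩
    rw [act_xN]
    congr 1
    exact Prod.ext (rt_spec ρ (i, j)) rfl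
  · rintro ⟨j, rfl, rfl⟩
    have h1 : (ρ.1.1.symm (rot (rt ρ) i, j)).1 = i := by
      have h2 := rt_spec ρ (ρ.1.1.symm (rot (rt ρ) i, j))
      rw [Equiv.apply_symm_apply] at h2
      exact ((rot (rt ρ)).injective h2).symm
    refine ⟨xN (ρ.1.1.symm (rot (rt ρ) i, j)), ⊤,
      el_aN.2 ⟨(ρ.1.1.symm (rot (rt ρ) i, j)).2, ?_, rfl⟩, ?_, ((sys K).top ρ).symm⟩
    · exact congrArg xN (Prod.ext h1 rfl)
    · rw [act_xN, Equiv.apply_symm_apply]

theorem hs_xN (a : Ix K) : (sys K).HS (xN a) := by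
  refine (sys K).hs_iff.2 ⟨⟨_, bs_mem_F (E := {a}) (F := {a.1.1}) ⟨Set.countable_singleton a, by
    rintro _ rfl
    exact Finset.mem_singleton_self _⟩, fun ρ hρ p => ?_⟩, fun z c hz => ?_⟩
  · have h1 : ρ.1.1 a = a := hρ.1 a rfl
    have h2 : act ((sys K).ac ρ) (xN a) = xN a := (act_xN ρ a).trans (by rw [h1])
    rw [h2]
    exact Feq.refl _ _
  · obtain ⟨n, rfl, rfl⟩ := el_xN.1 hz
    exact (sys K).hs_opN ((sys K).hs_check _) ((sys K).hs_check _)

theorem rot_fix {g : ℕ → K} {i : ℕ × K} (h : g i.1 = 0) : rot g i = i := by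
  rw [rot_apply, h, zero_add]

theorem fix_aN (i : ℕ × K) : (sys K).Fix (bs ∅ {i.1}) (aN i) := by
  intro ρ hρ p
  have h1 := act_aN ρ i p
  rwa [rot_fix (hρ.2 i.1 (Finset.mem_singleton_self _))] at h1

theorem hs_aN (i : ℕ × K) : (sys K).HS (aN i) := by
  refine (sys K).hs_iff.2 ⟨⟨_, bs_mem_F (Sp.empty {i.1}), fix_aN i⟩, fun z c hz => ?_⟩
  obtain ⟨n, rfl, rfl⟩ := el_aN.1 hz
  exact hs_xN _

/-! ### Distinctness -/

theorem Cd.exists_fresh (p : Cd K) : ∃ n, ∀ a v, (a, n, v) ∉ p.s := by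
  by_contra h
  push Not at h
  refine la_uncountable ((p.cnt.image fun x : Ix K × La × Bool => x.2.1).mono fun n _ => ?_)
  obtain ⟨a, v, h1⟩ := h n
  exact ⟨_, h1, rfl⟩

theorem not_feq_xN {a b : Ix K} (hab : a ≠ b) (p : Cd K) : ¬ Feq (xN a) (xN b) p := by
  intro h
  obtain ⟨n, hn⟩ := p.exists_fresh
  let q : Cd K :=
    { s := p.s ∪ {(a, n, true), (b, n, false)}
      cnt := p.cnt.union (Set.toFinite _).countable
      fn := by
        intro c m h1 h2
        rcases h1 with h1 | h1 <;> rcases h2 with h2 | h2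
        · exact p.fn c m h1 h2
        · rw [Set.mem_insert_iff, Set.mem_singleton_iff] at h2
          rcases h2 with h2 | h2
          · simp at h2
          · obtain ⟨rfl, h3⟩ := Prod.mk.inj h2
            obtain ⟨rfl, -⟩ := Prod.mk.inj h3
            exact hn _ true h1
        · rw [Set.mem_insert_iff, Set.mem_singleton_iff] at h1
          rcases h1 with h1 | h1
          · obtain ⟨rfl, h3⟩ := Prod.mk.inj h1
            obtain ⟨rfl, -⟩ := Prod.mk.inj h3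
            exact hn _ false h2
          · simp at h1
        · rw [Set.mem_insert_iff, Set.mem_singleton_iff] at h1 h2
          rcases h1 with h1 | h1
          · rcases h2 with h2 | h2
            · simp at h2
            · obtain ⟨h3, -⟩ := Prod.mk.inj h1
              obtain ⟨h4, -⟩ := Prod.mk.inj h2
              exact hab (h3.symm.trans h4)
          · simp at h1 }
  have hq : q ≤ p := fun x hx => Or.inl hx
  have hq1 : q ≤ sg a n true := le_sg.2 (Or.inr (Or.inl rfl))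
  obtain ⟨s, hs, w, d, hw, hd, he⟩ := (feq_iff'.1 h).1 _ (sg a n true)
    (el_xN.2 ⟨n, rfl, rfl⟩) q hq hq1
  obtain ⟨m, rfl, rfl⟩ := el_xN.1 hw
  obtain ⟨π, h2, h3⟩ := exists_pkg' ({opN (check (el n.1)) (check (nat n.2)),
    opN (check (el m.1)) (check (nat m.2))} ∪ {check (el n.1), check (el m.1)})
    (Set.toFinite _).countable s
  have e1 : el n.1 ∈ π.Z := h2 (Or.inr (by simp))
  have e2 : el m.1 ∈ π.Z := h2 (Or.inr (by simp))
  have n1 : opN (check (el n.1)) (check (nat n.2)) ∈ π.N := h2 (Or.inl (Or.inl rfl))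
  have n2 : opN (check (el m.1)) (check (nat m.2)) ∈ π.N := h2 (Or.inl (Or.inr rfl))
  have h4 := (π.val_eq_iff n1 n2).2 ⟨0, by
    rw [h3]
    exact he⟩
  rw [π.val_opN e1 (π.nat_Z _), π.val_opN e2 (π.nat_Z _)] at h4
  obtain ⟨h5, h6⟩ := ZFSet.pair_inj.1 h4
  have h7 : π.hat (nat n.2) = π.hat (nat m.2) := h6
  rw [π.hat_nat, π.hat_nat] at h7
  have h8 : n = m := Prod.ext (el_injective ((π.hat_inj e1 e2).1 h5)) (nat_injective h7)
  subst h8
  have h9 : (b, n, true) ∈ s.s := le_sg.1 hd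
  have h10 : (b, n, false) ∈ s.s := hs (Or.inr (Or.inr rfl))
  exact s.fn _ _ h9 h10

theorem not_feq_aN {i k : ℕ × K} (hik : i ≠ k) (p : Cd K) : ¬ Feq (aN i) (aN k) p := by
  intro h
  obtain ⟨s, hs, w, d, hw, hd, he⟩ := (feq_iff'.1 h).1 (xN (i, ∅)) ⊤
    (el_aN.2 ⟨∅, rfl, rfl⟩) p le_rfl le_top
  obtain ⟨j, rfl, rfl⟩ := el_aN.1 hw
  refine not_feq_xN ?_ s he
  intro h1
  exact hik (Prod.mk.inj h1).1

/-! ### Elements of the group -/

theorem card_lt_of_countable {C : Set (Set ℕ)} (hC : C.Countable) :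
    Cardinal.mk C < Cardinal.mk (Set ℕ) := by
  refine lt_of_le_of_lt (Cardinal.mk_le_aleph0_iff.2 hC) ?_
  rw [Cardinal.mk_set, Cardinal.mk_nat]
  exact Cardinal.cantor _

/-- Extension of countable partial injections. -/
theorem exists_ext (g : ℕ → K) {C : Set (Ix K)} (hC : C.Countable) (f : Ix K → Ix K)
    (hf : Set.InjOn f C) (hr : ∀ a ∈ C, (f a).1 = rot g a.1) :
    ∃ ρ : (sys K).G, rt ρ = g ∧ ∀ a ∈ C, ρ.1.1 a = f a := by
  have h1 : ∀ i : ℕ × K, ∃ e : Set ℕ ≃ Set ℕ, ∀ ξ, (i, ξ) ∈ C → e ξ = (f (i, ξ)).2 := by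
    intro i
    let s : Set (Set ℕ) := {ξ | (i, ξ) ∈ C}
    have hs : s.Countable := by
      refine hC.preimage_of_injOn (f := fun ξ : Set ℕ => (i, ξ)) ?_
      intro ξ _ ζ _ h
      exact (Prod.mk.inj h).2
    let F : s ↪ Set ℕ := ⟨fun ξ => (f (i, ξ.1)).2, fun ξ ζ h => by
      have h2 : f (i, ξ.1) = f (i, ζ.1) := Prod.ext ((hr _ ξ.2).trans (hr _ ζ.2).symm) h
      exact Subtype.ext (Prod.mk.inj (hf ξ.2 ζ.2 h2)).2⟩
    obtain ⟨e, he⟩ := Cardinal.extend_function_of_lt F (card_lt_of_countable hs) ⟨Equiv.refl _⟩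
    exact ⟨e, fun ξ hξ => he ⟨ξ, hξ⟩⟩
  choose e he using h1
  refine ⟨⟨(Equiv.prodShear (rot g) e, Multiplicative.ofAdd g), fun a => rfl⟩, rfl, ?_⟩
  rintro ⟨i, ξ⟩ ha
  refine Prod.ext (hr _ ha).symm ?_
  exact he i ξ ha

/-- Independent copies. -/
theorem exists_copies {E C D : Set (Ix K)} (hE : E.Countable) (hC : C.Countable)
    (hD : D.Countable) : ∃ σ : ℕ → (sys K).G, (∀ n, rt (σ n) = 0) ∧
      (∀ n, ∀ a ∈ E, (σ n).1.1 a = a) ∧ (∀ n, ∀ a ∈ C, a ∉ E → (σ n).1.1 a ∉ D) ∧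
      ∀ n m, n ≠ m → ∀ a ∈ C, a ∉ E → ∀ b ∈ C, (σ n).1.1 a ≠ (σ m).1.1 b := by
  classical
  have h1 : ∀ i : ℕ × K, ∃ s : ℕ → Set ℕ, Function.Injective s ∧
      ∀ n, (i, s n) ∉ E ∪ C ∪ D := by
    intro i
    have h2 : {ξ : Set ℕ | (i, ξ) ∈ E ∪ C ∪ D}.Countable := by
      refine ((hE.union hC).union hD).preimage_of_injOn (f := fun ξ : Set ℕ => (i, ξ)) ?_
      intro ξ _ ζ _ h
      exact (Prod.mk.inj h).2
    have h3 : ({ξ : Set ℕ | (i, ξ) ∈ E ∪ C ∪ D}ᶜ).Infinite := by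
      intro h4
      have h5 : (Set.univ : Set (Set ℕ)).Countable := by
        rw [← Set.union_compl_self {ξ : Set ℕ | (i, ξ) ∈ E ∪ C ∪ D}]
        exact h2.union h4.countable
      have h6 := card_lt_of_countable h5
      rw [Cardinal.mk_univ] at h6
      exact lt_irrefl _ h6
    refine ⟨fun n => (h3.natEmbedding _ n).1, fun n m h => ?_, fun n => (h3.natEmbedding _ n).2⟩
    exact (h3.natEmbedding _).injective (Subtype.ext h)
  choose s hs hs' using h1
  obtain ⟨e, he⟩ := Set.countable_iff_exists_injOn.1 hC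
  let f : ℕ → Ix K → Ix K := fun n a => if a ∈ E then a else (a.1, s a.1 (Nat.pair (e a) n))
  have hfE : ∀ n, ∀ a ∈ E, f n a = a := fun n a ha => if_pos ha
  have hfC : ∀ n, ∀ a, a ∉ E → f n a = (a.1, s a.1 (Nat.pair (e a) n)) := fun n a ha => if_neg ha
  have hinj : ∀ n, Set.InjOn (f n) (E ∪ C) := by
    intro n a ha b hb h
    by_cases ha' : a ∈ E
    · by_cases hb' : b ∈ E
      · rwa [hfE n a ha', hfE n b hb'] at h
      · rw [hfE n a ha', hfC n b hb'] at h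
        exact absurd (Or.inl (Or.inl (h ▸ ha'))) (hs' b.1 (Nat.pair (e b) n))
    · by_cases hb' : b ∈ E
      · rw [hfC n a ha', hfE n b hb'] at h
        exact absurd (Or.inl (Or.inl (h ▸ hb'))) (hs' a.1 (Nat.pair (e a) n))
      · rw [hfC n a ha', hfC n b hb'] at h
        obtain ⟨h2, h3⟩ := Prod.mk.inj h
        rw [h2] at h3
        have h4 := (Nat.pair_eq_pair.1 (hs _ h3)).1
        exact he (ha.resolve_left ha') (hb.resolve_left hb') h4
  have h2 : ∀ n, ∃ ρ : (sys K).G, rt ρ = 0 ∧ ∀ a ∈ E ∪ C, ρ.1.1 a = f n a := by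
    intro n
    refine exists_ext 0 (hE.union hC) (f n) (hinj n) fun a ha => ?_
    rw [rot_zero]
    by_cases ha' : a ∈ E
    · rw [hfE n a ha']
      rfl
    · rw [hfC n a ha']
      rfl
  choose σ hσ hσ' using h2
  refine ⟨σ, hσ, fun n a ha => ?_, fun n a ha ha' h => ?_, fun n m hnm a ha ha' b hb h => ?_⟩
  · rw [hσ' n a (Or.inl ha), hfE n a ha]
  · rw [hσ' n a (Or.inr ha), hfC n a ha'] at h
    exact hs' a.1 _ (Or.inr h)
  · rw [hσ' n a (Or.inr ha), hfC n a ha', hσ' m b (Or.inr hb)] at h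
    by_cases hb' : b ∈ E
    · rw [hfE m b hb'] at h
      exact hs' a.1 (Nat.pair (e a) n) (Or.inl (Or.inl (h.symm ▸ hb')))
    · rw [hfC m b hb'] at h
      obtain ⟨h3, h4⟩ := Prod.mk.inj h
      rw [h3] at h4
      exact hnm (Nat.pair_eq_pair.1 (hs _ h4)).2

end Pool.Agent.R598.CI
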