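import Pool.Agent.R598.CI.MainA
import Pool.Agent.W868.Hart
import Pool.Agent.R598.TY.Real

/-!
# The continuum of the model
-/

set_option autoImplicit false
set_option linter.unusedSectionVars false

namespace Pool.Agent.R598.CI

open Pool.Agent.W868 Pool.Agent.W868.PName Pool.Agent.R598.SY
open ZFSet (pair)

section cov

variable {K : Type} [AddCommGroup K]

theorem mem_xN (π : Pkg (Cd K)) {a : Ix K} {i : Ty Om1} {n : ℕ} (hi : el i ∈ π.Z) :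
    pair (π.hat (el i)) (nat n) ∈ π.val (xN a) ↔ ∃ m, (a, (i, n), true) ∈ (π.g m).s := by
  rw [Pkg.mem_val]
  constructor
  · rintro ⟨t, ht, c, hc, ⟨m, hm⟩, he⟩
    obtain ⟨⟨j, k⟩, rfl, rfl⟩ := el_xN.1 hc
    have h1 : el j ∈ π.Z := π.fst_mem ht
    have h2 := π.val_opN h1 (π.snd_mem ht)
    rw [he] at h2
    obtain ⟨h3, h4⟩ := ZFSet.pair_inj.1 h2
    have h5 : nat n = π.hat (nat k) := h4
    rw [π.hat_nat] at h5
    obtain rfl := nat_injective h5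
    obtain rfl := el_injective ((π.hat_inj hi h1).1 h3)
    exact ⟨m, le_sg.1 hm⟩
  · rintro ⟨m, hm⟩
    refine ⟨opN (check (el i)) (check (nat n)), π.opN_mem hi (π.nat_Z n), _,
      el_xN.2 ⟨(i, n), rfl, rfl⟩, ⟨m, le_sg.2 hm⟩, ?_⟩
    rw [π.val_opN hi (π.nat_Z n)]
    have h5 : π.val (check (nat n)) = nat n := π.hat_nat n
    rw [h5]
    rfl

theorem hs4' {x y : PName (Cd K)} (hx : (sys K).HS x) (hy : (sys K).HS y) :
    ∀ i, (sys K).HS ((![check Om1, check ZFSet.omega, x, y] : Fin 4 → PName (Cd K)) i) := by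
  intro i
  fin_cases i
  · exact (sys K).hs_check _
  · exact (sys K).hs_check _
  · exact hx
  · exact hy

theorem ud_row : UDf fun _ (v : Fin 4 → ZFSet.{0}) => ∀ a ∈ v 0, ∃ n ∈ v 1,
    ¬ ((pair a n ∈ v 2 → n ∈ v 3) ∧ (n ∈ v 3 → pair a n ∈ v 2)) := by
  refine UDf.ball 0 (UDf.bex 2 (UDf.not (UDf.and (UDf.imp ?_ ?_) (UDf.imp ?_ ?_))))
  · exact udp 1 0 4
  · exact udm 0 5
  · exact udm 0 5
  · exact udp 1 0 4

/-- Each set of natural numbers is a row of the generic set. -/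
theorem cover (a : Ix K) {π : Pkg (Cd K)} (c1 : (sys K).Cld π) (hΓ : xN a ∈ π.N)
    (h1 : Om1 ∈ π.Z) {ρ : PName (Cd K)} (hρ : ρ ∈ π.N) (hρs : (sys K).HS ρ) :
    ∃ α ∈ π.hat Om1, ∀ n ∈ ZFSet.omega, (pair α n ∈ π.val (xN a) ↔ n ∈ π.val ρ) := by
  classical
  by_contra hcon
  have hin : ∀ π : Pkg (Cd K), xN a ∈ π.N → Om1 ∈ π.Z → ρ ∈ π.N → ∀ i,
      (![check Om1, check ZFSet.omega, xN a, ρ] : Fin 4 → PName (Cd K)) i ∈ π.N := by
    intro π h1 h2 h3 i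
    fin_cases i
    · exact h2
    · exact π.omega_Z
    · exact h1
    · exact h3
  obtain ⟨k, hk⟩ := ud_row.fund (hs4' (hs_xN a) hρs) c1 (hin π hΓ h1 hρ) (by
    intro α hα
    change ∃ n ∈ π.hat ZFSet.omega, _
    rw [π.hat_omega]
    by_contra h2
    push Not at h2
    refine hcon ⟨α, hα, fun n hn => ?_⟩
    exact ⟨(h2 n hn).1, (h2 n hn).2⟩)
  obtain ⟨q, b, hqp, hq⟩ := sclosed.meet (π.g k) (fun n (b : Prop) q =>
    ∀ π' : Pkg (Cd K), (sys K).Cld π' → ρ ∈ π'.N → (∃ m, π'.g m ≤ q) →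
      (nat n ∈ π'.val ρ ↔ b)) (by
    intro n q hq
    obtain ⟨q', hq', h2 | h2⟩ := SF.dec ud_mem (hs2 ((sys K).hs_check (nat n)) hρs) q
    · refine ⟨q', hq', True, fun π' c h3 h4 => ?_⟩
      have h5 := h2 π' c (by
        intro i
        fin_cases i
        · exact π'.nat_Z n
        · exact h3) h4
      change π'.hat (nat n) ∈ π'.val ρ at h5
      rw [π'.hat_nat] at h5
      simpa using h5
    · refine ⟨q', hq', False, fun π' c h3 h4 => ?_⟩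
      have h5 := h2 π' c (by
        intro i
        fin_cases i
        · exact π'.nat_Z n
        · exact h3) h4
      change ¬ π'.hat (nat n) ∈ π'.val ρ at h5
      rw [π'.hat_nat] at h5
      simpa using h5)
  obtain ⟨i, hi⟩ : ∃ i : Ty Om1, ∀ n v, (a, (i, n), v) ∉ q.s := by
    by_contra h2
    push Not at h2
    have h3 : (Set.univ : Set (Ty Om1)).Countable := by
      refine (q.cnt.image fun x : Ix K × La × Bool => x.2.1.1).mono fun i _ => ?_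
      obtain ⟨n, v, hs⟩ := h2 i
      exact ⟨(a, (i, n), v), hs, rfl⟩
    have h4 : Cardinal.mk (Ty Om1) ≤ Cardinal.aleph0 :=
      Cardinal.mk_le_aleph0_iff.2 (Set.countable_univ_iff.1 h3)
    have h5 : Cardinal.mk (Ty Om1) = Cardinal.aleph 1 := card_Om1
    rw [h5] at h4
    exact absurd h4 (not_le.2 Cardinal.aleph0_lt_aleph_one)
  let q' : Cd K :=
    { s := q.s ∪ Set.range fun n => (a, (i, n), decide (b n))
      cnt := q.cnt.union (Set.countable_range _)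
      fn := by
        intro c l h2 h3
        rcases h2 with h2 | ⟨n, h2⟩
        · rcases h3 with h3 | ⟨m, h3⟩
          · exact q.fn c l h2 h3
          · obtain ⟨rfl, h4⟩ := Prod.mk.inj h3
            obtain ⟨rfl, -⟩ := Prod.mk.inj h4
            exact hi _ _ h2
        · rcases h3 with h3 | ⟨m, h3⟩
          · obtain ⟨rfl, h4⟩ := Prod.mk.inj h2
            obtain ⟨rfl, -⟩ := Prod.mk.inj h4
            exact hi _ _ h3
          · obtain ⟨-, h4⟩ := Prod.mk.inj h2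
            obtain ⟨h5, h6⟩ := Prod.mk.inj h4
            obtain ⟨-, h7⟩ := Prod.mk.inj h3
            obtain ⟨h8, h9⟩ := Prod.mk.inj h7
            rw [← h5] at h8
            obtain ⟨-, h10⟩ := Prod.mk.inj h8
            rw [h10, h6] at h9
            exact absurd h9 (by decide) }
  have hq'q : q' ≤ q := Set.subset_union_left
  obtain ⟨π', d1, d2, d3⟩ := exists_cld (sys K) {xN a, check Om1, ρ, check (el i)}
    (Set.toFinite _).countable q'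
  have m1 : xN a ∈ π'.N := d2 (Or.inl rfl)
  have m2 : Om1 ∈ π'.Z := d2 (Or.inr (Or.inl rfl))
  have m3 : ρ ∈ π'.N := d2 (Or.inr (Or.inr (Or.inl rfl)))
  have hiZ : el i ∈ π'.Z := d2 (Or.inr (Or.inr (Or.inr rfl)))
  obtain ⟨n', hn', h4⟩ := hk π' d1 (hin π' m1 m2 m3) ⟨0, by
    rw [d3]
    exact hq'q.trans hqp⟩ (π'.hat (el i)) ((π'.hat_mem_hat hiZ m2).2 (el_mem i))
  have hn'' : n' ∈ π'.hat ZFSet.omega := hn'
  rw [π'.hat_omega] at hn''
  obtain ⟨n, rfl⟩ := mem_omega_iff.1 hn''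
  apply h4
  obtain ⟨q'', hqq'', h5⟩ := hq n
  have h6 := h5 π' d1 m3 ⟨0, by
    rw [d3]
    exact hq'q.trans hqq''⟩
  have h7 : pair (π'.hat (el i)) (nat n) ∈ π'.val (xN a) ↔ b n := by
    rw [mem_xN π' hiZ]
    have h8 : (a, (i, n), decide (b n)) ∈ (π'.g 0).s := by
      rw [d3]
      exact Or.inr ⟨n, rfl⟩
    constructor
    · rintro ⟨m, hm⟩
      by_contra h9
      rw [decide_eq_false h9] at h8
      exact (π'.g m).fn _ _ hm (π'.g_anti (Nat.zero_le m) h8)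
    · intro h9
      rw [decide_eq_true h9] at h8
      exact ⟨0, h8⟩
  exact ⟨fun h => h6.2 (h7.1 h), fun h => h7.2 (h6.1 h)⟩

theorem hat_mem_Ms {π : Pkg (Cd K)} {x : ZFSet.{0}} (h : x ∈ π.Z) : π.hat x ∈ (sys K).Ms π :=
  mem_Ms ((sys K).hs_check x) h

/-- The first uncountable cardinal of the model. -/
theorem aleph1_Ms {π : Pkg (Cd K)} (h1 : Om1 ∈ π.Z) :
    IsAleph1 ((sys K).Ms π) (π.hat Om1) := by
  obtain ⟨h2, h3, h4, h5⟩ := aleph1_W_of_sclosed sclosed π h1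
  refine ⟨hat_mem_Ms h1, h3, fun ⟨f, hf, h6⟩ => h4 ⟨f, ?_, h6⟩, fun α hα => ?_⟩
  · obtain ⟨x, ⟨hx, -⟩, rfl⟩ := hf
    exact π.val_mem_W hx
  · obtain ⟨a, ha, haZ, rfl⟩ := π.mem_hat.1 hα
    obtain ⟨f, hf, h2⟩ := π.exists_inj_V haZ π.omega_Z (inj_of_mem_Om1 ha)
    rw [π.hat_omega] at h2
    obtain ⟨y, hy, rfl⟩ := hf
    exact ⟨_, hat_mem_Ms hy, h2⟩

end cov

/-! ### The injections -/

section inj

/-- The graph of the pairing function. -/
noncomputable def JS : ZFSet.{0} :=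
  ZFSet.range fun p : ℕ × ℕ => pair (pair (nat p.1) (nat p.2)) (nat (Nat.pair p.1 p.2))

theorem mem_hat_JS {P : Type} [Preorder P] [OrderTop P] {π : Pkg P} (h : JS ∈ π.Z) {i j : ℕ}
    {m : ZFSet.{0}} : pair (pair (nat i) (nat j)) m ∈ π.hat JS ↔ m = nat (Nat.pair i j) := by
  constructor
  · intro h1
    obtain ⟨y, hy, hyZ, he⟩ := π.mem_hat.1 h1
    obtain ⟨⟨k, l⟩, rfl⟩ := ZFSet.mem_range.1 hy
    rw [π.hat_pair (π.pair_mem_Z (π.nat_Z _) (π.nat_Z _)) (π.nat_Z _),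
      π.hat_pair (π.nat_Z _) (π.nat_Z _), π.hat_nat, π.hat_nat, π.hat_nat] at he
    obtain ⟨h2, h3⟩ := ZFSet.pair_inj.1 he
    obtain ⟨h4, h5⟩ := ZFSet.pair_inj.1 h2
    have h6 : k = i := nat_injective h4
    have h7 : l = j := nat_injective h5
    rw [← h3, h6, h7]
  · rintro rfl
    have h1 := (π.pair_mem_hat (π.pair_mem_Z (π.nat_Z i) (π.nat_Z j)) (π.nat_Z (Nat.pair i j))
      h).2 (ZFSet.mem_range.2 ⟨(i, j), rfl⟩)
    rwa [π.hat_pair (π.nat_Z _) (π.nat_Z _), π.hat_nat, π.hat_nat, π.hat_nat] at h1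

variable {M : Set ZFSet.{0}} (hM : IsZF M) {κ Γ : ZFSet.{0}} (hκ : κ ∈ M) (hκo : κ.IsOrdinal)
  (hΓ : Γ ∈ M) (hcov : ∀ ρ ∈ M, ρ ⊆ ZFSet.omega → ∃ α ∈ κ, ∀ n ∈ ZFSet.omega,
    (pair α n ∈ Γ ↔ n ∈ ρ))

include hM hκ hκo hΓ hcov in
/-- A set whose elements are coded by sets of natural numbers. -/
theorem inj_of_code {B : ZFSet.{0}} (hB : B ∈ M) {Q : ZFSet.{0} → ZFSet.{0} → Prop}
    (hQ : Dfn M M fun w : Fin 2 → ZFSet.{0} => Q (w 0) (w 1))
    (hinj : ∀ y ∈ B, ∀ y' ∈ B, (∀ n ∈ ZFSet.omega, (Q y n ↔ Q y' n)) → y = y') :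
    Inj M B κ := by
  have hω := hM.infinity
  have hQ2 : ∀ {m : ℕ} {F G : (Fin m → ZFSet.{0}) → ZFSet.{0}}, DfnF M M F → DfnF M M G →
      Dfn M M fun w : Fin m → ZFSet.{0} => Q (F w) (G w) := fun hF hG => Dfn.comp2 hQ hF hG
  have hR : Dfn M M fun w : Fin 2 → ZFSet.{0} => (∀ n ∈ ZFSet.omega, (pair (w 1) n ∈ Γ ↔
      Q (w 0) n)) ∧ ∀ β ∈ w 1, ¬ ∀ n ∈ ZFSet.omega, (pair β n ∈ Γ ↔ Q (w 0) n) := by
    (repeat' first
      | assumption
      | exact DfnF.proj _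
      | exact DfnF.const (by assumption)
      | apply Dfn.not | apply Dfn.and | apply Dfn.iff
      | apply hM.base.bex | apply hM.base.ball
      | apply hQ2
      | apply Dfn.mem | apply hM.base.pair')
  refine Inj.of_rel hM hB hκ (R := fun y α => (∀ n ∈ ZFSet.omega, (pair α n ∈ Γ ↔ Q y n)) ∧
    ∀ β ∈ α, ¬ ∀ n ∈ ZFSet.omega, (pair β n ∈ Γ ↔ Q y n)) hR ?_ ?_ ?_
  · intro y hy
    have hyM := hM.trans _ hB _ hy
    have hS := hM.sep_mem (Q := fun n => Q y n) (hQ2 (DfnF.const hyM) (DfnF.proj 0)) hω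
    obtain ⟨α, hα, h1⟩ := hcov _ hS fun z hz => (ZFSet.mem_sep.1 hz).1
    have h2 : ∀ n ∈ ZFSet.omega, (pair α n ∈ Γ ↔ Q y n) := by
      intro n hn
      rw [h1 n hn, ZFSet.mem_sep]
      exact ⟨fun h => h.2, fun h => ⟨hn, h⟩⟩
    obtain ⟨α', ⟨hα', h3⟩, h4⟩ := ZFSet.mem_wf.has_min
      {α | α ∈ κ ∧ ∀ n ∈ ZFSet.omega, (pair α n ∈ Γ ↔ Q y n)} ⟨α, hα, h2⟩
    refine ⟨α', hα', h3, fun β hβ h5 => ?_⟩
    exact h4 β ⟨hκo.mem_trans hβ hα', h5⟩ hβ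
  · rintro y hy α hα α' hα' ⟨h1, h2⟩ ⟨h3, h4⟩
    rcases (hκo.mem hα).mem_trichotomous (hκo.mem hα') with h5 | h5 | h5
    · exact absurd h1 (h4 α h5)
    · exact h5
    · exact absurd h3 (h2 α' h5)
  · rintro y hy y' hy' α hα ⟨h1, -⟩ ⟨h3, -⟩
    exact hinj y hy y' hy' fun n hn => (h1 n hn).symm.trans (h3 n hn)

/-- The set `X` has an injective image of the real numbers of the model. -/
def RealInj (M : Set ZFSet.{0}) (X : ZFSet.{0}) : Prop :=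
  ∃ f ∈ M, ∃ φ : ℝ → ZFSet.{0}, (∀ r, TY.real r ∈ M → φ r ∈ X ∧
    ∀ z, pair (TY.real r) z ∈ f ↔ z = φ r) ∧
    ∀ r s, TY.real r ∈ M → TY.real s ∈ M → φ r = φ s → r = s

include hM hκ hκo hΓ hcov in
/-- The dichotomy. -/
theorem realInj_of_inter (hκ1 : IsAleph1 M κ) {J : ZFSet.{0}} (hJ : J ∈ M)
    (hJ' : ∀ (i j : ℕ) m, pair (pair (nat i) (nat j)) m ∈ J ↔ m = nat (Nat.pair i j))
    {X U : ZFSet.{0}} (hX : X ∈ M) (hU : U ∈ M) (h : CG M ![X, U, ZFSet.omega])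
    (hI : Inter M ![X, U, ZFSet.omega]) (hunc : ¬ Inj M X ZFSet.omega) : RealInj M X := by
  have hω := hM.infinity
  obtain ⟨B, hB, f, hf, hBX, hf1, hf2, hf3⟩ := hI
  have hBX' : B ⊆ X := fun y hy => hBX y hy
  -- the set is not countable
  have hBn : ¬ Inj M B ZFSet.omega := by
    rintro ⟨e, he, h1⟩
    have h2 : ∀ x ∈ X, x ∈ B := hf3 ⟨e, he, fun y hy => fun_exists h1.1 hy,
      fun y hy y' hy' n hn h3 h4 => h1.2 y y' n h3 h4⟩
    have h3 : X = B := by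
      ext x
      exact ⟨fun hx => h2 x hx, fun hx => hBX' hx⟩
    exact hunc (h3 ▸ ⟨e, he, h1⟩)
  -- the code
  have hinj : Inj M B κ := by
    refine inj_of_code hM hκ hκo hΓ hcov hB (Q := fun y c => ∃ n ∈ ZFSet.omega,
      ∃ j ∈ ZFSet.omega, pair (pair n j) c ∈ J ∧ ∃ x ∈ X, pair n x ∈ f ∧ pair j (pair x y) ∈ U)
      (by (repeat' first | assumption | exact DfnF.proj _ | exact DfnF.const (by assumption) | exact Dfn.prop _ | apply Dfn.not | apply Dfn.and | apply Dfn.or | apply Dfn.imp | apply Dfn.iff | apply hM.base.bex | apply hM.base.ball | apply Dfn.ex | apply Dfn.all | apply Dfn.eq | apply Dfn.mem | apply hM.base.pair')) ?_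
    intro y hy y' hy' h1
    refine cg_sep h (hBX' hy) (hBX' hy') fun j => ?_
    obtain ⟨n, hn, x, hx, h2, h3⟩ := hf2 y hy (nat (j + 1)) (mem_omega_iff.2 ⟨_, rfl⟩)
    have hn' : n ∈ ZFSet.omega := hn
    obtain ⟨n, rfl⟩ := mem_omega_iff.1 hn'
    obtain ⟨n', hn', j', hj', h4, x', hx', h5, h6⟩ := (h1 (nat (Nat.pair n (j + 1)))
      (mem_omega_iff.2 ⟨_, rfl⟩)).1 ⟨nat n, hn', nat (j + 1), mem_omega_iff.2 ⟨_, rfl⟩,
        (hJ' _ _ _).2 rfl, x, hx, h2, h3⟩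
    obtain ⟨n', rfl⟩ := mem_omega_iff.1 hn'
    obtain ⟨j', rfl⟩ := mem_omega_iff.1 hj'
    have h7 := nat_injective ((hJ' _ _ _).1 h4)
    obtain ⟨rfl, rfl⟩ := Nat.pair_eq_pair.1 h7
    have h8 : x = x' := hf1 _ hn x hx x' hx' h2 h5
    rw [← h8] at h6
    exact cg_tri h (Nat.lt_succ_self j) (hBX' hy) hx (hBX' hy') (cg_sym h hx (hBX' hy) h3) h6
  have hcard : IsCard M κ := ⟨hκ, hκo, fun β hβ h1 => by
    obtain ⟨g, hg, h2⟩ := hκ1.2.2.2 β hβ
    exact hκ1.2.2.1 (Inj.trans hM hκ hω h1 ⟨g, hg, h2⟩)⟩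
  have hbij : Bij M B κ := bij_card hM hB hcard hinj fun β hβ h1 => by
    obtain ⟨g, hg, h2⟩ := hκ1.2.2.2 β hβ
    exact hBn (Inj.trans hM hB hω h1 ⟨g, hg, h2⟩)
  obtain ⟨P, hP, hP'⟩ := hM.power _ hω
  have hPκ : Inj M P κ := by
    refine inj_of_code hM hκ hκo hΓ hcov hP (Q := fun y n => n ∈ y) (by (repeat' first | assumption | exact DfnF.proj _ | exact DfnF.const (by assumption) | exact Dfn.prop _ | apply Dfn.not | apply Dfn.and | apply Dfn.or | apply Dfn.imp | apply Dfn.iff | apply hM.base.bex | apply hM.base.ball | apply Dfn.ex | apply Dfn.all | apply Dfn.eq | apply Dfn.mem | apply hM.base.pair')) ?_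
    intro y hy y' hy' h1
    ext z
    constructor
    · exact fun hz => (h1 z (((hP' y).1 hy).2 hz)).1 hz
    · exact fun hz => (h1 z (((hP' y').1 hy').2 hz)).2 hz
  obtain ⟨g, hg, h1⟩ := Inj.trans hM hP hX hPκ (Inj.trans hM hκ hX (Bij.symm hM hB hκ hbij).inj
    (Inj.of_subset hM hB hX hBX'))
  have hmem : ∀ r : ℝ, TY.real r ∈ M → TY.real r ∈ P := fun r hr =>
    (hP' _).2 ⟨hr, TY.real_sub r⟩
  have hex : ∀ r : ℝ, ∃ x, TY.real r ∈ M → x ∈ X ∧ pair (TY.real r) x ∈ g := by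
    intro r
    by_cases hr : TY.real r ∈ M
    · obtain ⟨x, hx, h2⟩ := fun_exists h1.1 (hmem r hr)
      exact ⟨x, fun _ => ⟨hx, h2⟩⟩
    · exact ⟨∅, fun h => absurd h hr⟩
  choose φ hφ using hex
  refine ⟨g, hg, φ, fun r hr => ⟨(hφ r hr).1, fun z => ⟨fun h2 => ?_, ?_⟩⟩, fun r s hr hs h2 => ?_⟩
  · exact fun_unique h1.1 h2 (hφ r hr).2
  · rintro rfl
    exact (hφ r hr).2
  · have h3 := (hφ r hr).2
    rw [h2] at h3
    exact TY.real_inj (h1.2 _ _ _ h3 (hφ s hs).2)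

end inj

end Pool.Agent.R598.CI
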