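import Mathlib

/-!
# The one-point compactification of a sequence of circles
-/

set_option autoImplicit false

namespace Pool.Agent.R598.CI

/-- The circle. -/
abbrev Kc : Type := UnitAddCircle

/-- The points. -/
abbrev Pt : Type := Option (ℕ × Kc)

/-- The level of a point. -/
def lev (a : Pt) : Option ℕ := a.map Prod.fst

/-- The size of the circle of a point. -/
noncomputable def sz : Pt → ℝ
  | none => 0
  | some i => (1 / 2) ^ i.1

/-- The angle. -/
def ang : Pt → Kc
  | none => 0
  | some i => i.2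

open Classical in
/-- The distance. -/
noncomputable def ds (a b : Pt) : ℝ :=
  if lev a = lev b then sz a * ‖ang a - ang b‖ else max (sz a) (sz b)

theorem sz_nonneg (a : Pt) : 0 ≤ sz a := by
  cases a with
  | none => exact le_rfl
  | some i => exact pow_nonneg (by norm_num) _

theorem sz_eq {a b : Pt} (h : lev a = lev b) : sz a = sz b := by
  cases a with
  | none =>
    cases b with
    | none => rfl
    | some j => simp [lev] at h
  | some i =>
    cases b with
    | none => simp [lev] at h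
    | some j =>
      simp only [lev, Option.map_some, Option.some.injEq] at h
      simp only [sz, h]

theorem norm_le_one (x : Kc) : ‖x‖ ≤ 1 := by
  have h := AddCircle.norm_le_half_period (p := (1 : ℝ)) (x := x) one_ne_zero
  rw [abs_one] at h
  linarith

theorem ds_same {a b : Pt} (h : lev a = lev b) : ds a b = sz a * ‖ang a - ang b‖ := if_pos h

theorem ds_diff {a b : Pt} (h : lev a ≠ lev b) : ds a b = max (sz a) (sz b) := if_neg h

theorem ds_eq_zero {a b : Pt} : ds a b = 0 ↔ a = b := by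
  constructor
  · intro h
    by_cases hl : lev a = lev b
    · rw [ds_same hl] at h
      cases a with
      | none =>
        cases b with
        | none => rfl
        | some j => simp [lev] at hl
      | some i =>
        cases b with
        | none => simp [lev] at hl
        | some j =>
          simp only [lev, Option.map_some, Option.some.injEq] at hl
          have h1 : (0 : ℝ) < (1 / 2) ^ i.1 := by positivity
          have h2 : ‖i.2 - j.2‖ = 0 := by
            rcases mul_eq_zero.1 h with h3 | h3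
            · exact absurd h3 h1.ne'
            · exact h3
          have h3 := sub_eq_zero.1 (norm_eq_zero.1 h2)
          rw [show i = j from Prod.ext hl h3]
    · rw [ds_diff hl] at h
      cases a with
      | none =>
        cases b with
        | none => rfl
        | some j =>
          have h1 : (0 : ℝ) < (1 / 2) ^ j.1 := by positivity
          have h2 := le_max_right (sz none) (sz (some j))
          rw [h] at h2
          exact absurd h1 (not_lt.2 h2)
      | some i =>
        have h1 : (0 : ℝ) < (1 / 2) ^ i.1 := by positivity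
        have h2 := le_max_left (sz (some i)) (sz b)
        rw [h] at h2
        exact absurd h1 (not_lt.2 h2)
  · rintro rfl
    rw [ds_same rfl, sub_self, norm_zero, mul_zero]

theorem ds_comm (a b : Pt) : ds a b = ds b a := by
  by_cases hl : lev a = lev b
  · rw [ds_same hl, ds_same hl.symm, sz_eq hl, norm_sub_rev]
  · rw [ds_diff hl, ds_diff (Ne.symm hl), max_comm]

theorem ds_nonneg (a b : Pt) : 0 ≤ ds a b := by
  by_cases hl : lev a = lev b
  · rw [ds_same hl]
    exact mul_nonneg (sz_nonneg _) (norm_nonneg _)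
  · rw [ds_diff hl]
    exact (sz_nonneg a).trans (le_max_left _ _)

theorem sz_le_ds {a b : Pt} (h : lev a ≠ lev b) : sz a ≤ ds a b := by
  rw [ds_diff h]
  exact le_max_left _ _

theorem ds_tri (a b c : Pt) : ds a c ≤ ds a b + ds b c := by
  by_cases hab : lev a = lev b
  · by_cases hbc : lev b = lev c
    · rw [ds_same (hab.trans hbc), ds_same hab, ds_same hbc, ← sz_eq hab, ← mul_add]
      refine mul_le_mul_of_nonneg_left ?_ (sz_nonneg _)
      have h1 : ang a - ang c = (ang a - ang b) + (ang b - ang c) := by abel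
      rw [h1]
      exact norm_add_le _ _
    · have hac : lev a ≠ lev c := fun h => hbc (hab.symm.trans h)
      rw [ds_diff hac, ds_diff hbc, sz_eq hab]
      have := ds_nonneg a b
      linarith
  · by_cases hbc : lev b = lev c
    · have hac : lev a ≠ lev c := fun h => hab (h.trans hbc.symm)
      rw [ds_diff hac, ds_diff hab, sz_eq hbc]
      have := ds_nonneg b c
      linarith
    · by_cases hac : lev a = lev c
      · rw [ds_same hac]
        have h1 : sz a * ‖ang a - ang c‖ ≤ sz a * 1 :=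
          mul_le_mul_of_nonneg_left (norm_le_one _) (sz_nonneg _)
        have h2 := sz_le_ds hab
        have h3 := ds_nonneg b c
        linarith
      · rw [ds_diff hac]
        refine max_le ?_ ?_
        · have h2 := sz_le_ds hab
          have h3 := ds_nonneg b c
          linarith
        · have h2 := sz_le_ds (Ne.symm hbc)
          rw [ds_comm] at h2
          have h3 := ds_nonneg a b
          linarith

/-- The rotation of the points. -/
def rP (g : ℕ → Kc) (a : Pt) : Pt := a.map fun i => (i.1, g i.1 + i.2)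

theorem lev_rP (g : ℕ → Kc) (a : Pt) : lev (rP g a) = lev a := by
  cases a <;> rfl

theorem sz_rP (g : ℕ → Kc) (a : Pt) : sz (rP g a) = sz a := by
  cases a <;> rfl

theorem ds_rP (g : ℕ → Kc) (a b : Pt) : ds (rP g a) (rP g b) = ds a b := by
  by_cases hl : lev a = lev b
  · rw [ds_same (by rw [lev_rP, lev_rP, hl]), ds_same hl, sz_rP]
    congr 2
    cases a with
    | none =>
      cases b with
      | none => rfl
      | some j => simp [lev] at hl
    | some i =>
      cases b with
      | none => simp [lev] at hl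
      | some j =>
        simp only [lev, Option.map_some, Option.some.injEq] at hl
        change (g i.1 + i.2) - (g j.1 + j.2) = i.2 - j.2
        rw [hl]
        abel
  · rw [ds_diff (by rw [lev_rP, lev_rP]; exact hl), ds_diff hl, sz_rP, sz_rP]

theorem ds_none (n : ℕ) (θ : Kc) : ds none (some (n, θ)) = (1 / 2) ^ n := by
  rw [ds_diff (by simp [lev])]
  exact max_eq_right (by simp only [sz]; positivity)

theorem ds_some (n : ℕ) (θ θ' : Kc) : ds (some (n, θ)) (some (n, θ')) =
    (1 / 2) ^ n * ‖θ - θ'‖ := ds_same rfl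

/-! ### Arcs -/

/-- The arc with the code `c`. -/
def arc (c : ℕ) : Set Kc :=
  {θ | ∃ q q' : ℚ, Encodable.encode (q, q') = c ∧ ∃ t : ℝ, (q : ℝ) < t ∧ t < q' ∧
    (t : Kc) = θ}

theorem isOpen_arc (c : ℕ) : IsOpen (arc c) := by
  have h : arc c = ⋃ (q : ℚ) (q' : ℚ) (_ : Encodable.encode (q, q') = c),
      ((↑) : ℝ → Kc) '' (Set.Ioo (q : ℝ) q') := by
    ext θ
    simp only [arc, Set.mem_ofPred_eq, Set.mem_iUnion, Set.mem_image, Set.mem_Ioo, exists_prop]
    constructor
    · rintro ⟨q, q', h, t, h1, h2, h3⟩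
      exact ⟨q, q', h, t, ⟨h1, h2⟩, h3⟩
    · rintro ⟨q, q', h, t, ⟨h1, h2⟩, h3⟩
      exact ⟨q, q', h, t, h1, h2, h3⟩
  rw [h]
  refine isOpen_iUnion fun q => isOpen_iUnion fun q' => isOpen_iUnion fun _ => ?_
  exact QuotientAddGroup.isOpenMap_coe _ isOpen_Ioo

theorem exists_arc {θ : Kc} {ε : ℝ} (hε : 0 < ε) : ∃ c, θ ∈ arc c ∧ ∀ θ' ∈ arc c, ‖θ' - θ‖ < ε := by
  obtain ⟨t, rfl⟩ := QuotientAddGroup.mk_surjective θ
  obtain ⟨q, h1, h2⟩ := exists_rat_btwn (show t - ε / 2 < t by linarith)
  obtain ⟨q', h3, h4⟩ := exists_rat_btwn (show t < t + ε / 2 by linarith)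
  refine ⟨Encodable.encode (q, q'), ⟨q, q', rfl, t, h2, h3, rfl⟩, ?_⟩
  rintro _ ⟨r, r', h, s, h5, h6, rfl⟩
  obtain ⟨h7, h8⟩ := Prod.mk.inj (Encodable.encode_injective h)
  subst h7
  subst h8
  have h9 : ((s : Kc) - (t : Kc)) = ((s - t : ℝ) : Kc) := by
    rw [AddCircle.coe_sub]
  change ‖((s : Kc) - (t : Kc))‖ < ε
  rw [h9]
  have h10 : ‖((s - t : ℝ) : Kc)‖ ≤ |s - t| := by
    rw [UnitAddCircle.norm_eq]
    have := round_le (s - t) 0
    simpa using this
  refine h10.trans_lt ?_
  rw [abs_lt]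
  constructor <;> linarith

/-- The relation between `q` and finite sets of arcs that cover `[0, q]`. -/
def RC (q : ℚ) (t : Finset ℕ) : Prop := ∀ s : ℝ, 0 ≤ s → s ≤ q → ∃ c ∈ t, (s : Kc) ∈ arc c

/-- Either finitely many of the arcs cover the circle, or there is a least real number that is not
covered. -/
theorem arcs (S : Set ℕ) : (∃ t : Finset ℕ, (∀ c ∈ t, c ∈ S) ∧ ∀ θ : Kc, ∃ c ∈ t, θ ∈ arc c) ∨
    ∃ r : ℝ, (∀ c ∈ S, (r : Kc) ∉ arc c) ∧
      ∀ q : ℚ, (q : ℝ) < r ↔ ∃ t : Finset ℕ, RC q t ∧ ∀ c ∈ t, c ∈ S := by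
  let T : Set ℝ := {t | 0 ≤ t ∧ ∀ c ∈ S, (t : Kc) ∉ arc c}
  have hTc : IsClosed T := by
    have h1 : T = Set.Ici 0 ∩ ⋂ c ∈ S, ((↑) : ℝ → Kc) ⁻¹' (arc c)ᶜ := by
      ext t
      simp [T]
    rw [h1]
    refine isClosed_Ici.inter (isClosed_biInter fun c _ => ?_)
    exact (isOpen_arc c).isClosed_compl.preimage (AddCircle.continuous_mk' 1)
  have hcpt : ∀ r : ℝ, (∀ s, 0 ≤ s → s ≤ r → s ∉ T) → ∃ t : Finset ℕ, (∀ c ∈ t, c ∈ S) ∧
      ∀ s : ℝ, 0 ≤ s → s ≤ r → ∃ c ∈ t, (s : Kc) ∈ arc c := by
    intro r hr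
    have h1 : IsCompact (Set.Icc (0 : ℝ) r) := isCompact_Icc
    obtain ⟨t, ht⟩ := h1.elim_finite_subcover (fun c : S => ((↑) : ℝ → Kc) ⁻¹' (arc c))
      (fun c => (isOpen_arc c).preimage (AddCircle.continuous_mk' 1)) (by
        intro s hs
        have h2 := hr s hs.1 hs.2
        by_contra h3
        apply h2
        refine ⟨hs.1, fun c hc hsc => h3 ?_⟩
        exact Set.mem_iUnion.2 ⟨⟨c, hc⟩, hsc⟩)
    refine ⟨t.map (Function.Embedding.subtype _), fun c hc => ?_, fun s hs1 hs2 => ?_⟩
    · obtain ⟨d, -, rfl⟩ := Finset.mem_map.1 hc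
      exact d.2
    · obtain ⟨c, hc⟩ := Set.mem_iUnion.1 (ht ⟨hs1, hs2⟩)
      obtain ⟨hct, h3⟩ := Set.mem_iUnion.1 hc
      exact ⟨c, Finset.mem_map.2 ⟨c, hct, rfl⟩, h3⟩
  by_cases hT : T.Nonempty
  · right
    have hb : BddBelow T := ⟨0, fun t ht => ht.1⟩
    have hr := hTc.csInf_mem hT hb
    refine ⟨sInf T, hr.2, fun q => ?_⟩
    constructor
    · intro hq
      obtain ⟨t, h1, h2⟩ := hcpt q fun s _ hs hsT => by
        have := csInf_le hb hsT
        linarith
      exact ⟨t, h2, h1⟩
    · rintro ⟨t, h1, h2⟩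
      by_contra hq
      push Not at hq
      obtain ⟨c, hc, h3⟩ := h1 _ hr.1 hq
      exact hr.2 c (h2 c hc) h3
  · left
    obtain ⟨t, h1, h2⟩ := hcpt 1 fun s _ _ hsT => hT ⟨s, hsT⟩
    refine ⟨t, h1, fun θ => ?_⟩
    obtain ⟨s, ⟨hs1, hs2⟩, rfl⟩ : ∃ s : ℝ, (0 ≤ s ∧ s ≤ 1) ∧ (s : Kc) = θ := by
      obtain ⟨x, rfl⟩ := QuotientAddGroup.mk_surjective θ
      refine ⟨Int.fract x, ⟨Int.fract_nonneg x, (Int.fract_lt_one x).le⟩, ?_⟩
      change ((Int.fract x : ℝ) : Kc) = (x : Kc)
      refine (QuotientAddGroup.eq (s := AddSubgroup.zmultiples (1 : ℝ))).2 ?_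
      refine AddSubgroup.mem_zmultiples_iff.2 ⟨⌊x⌋, ?_⟩
      have h3 := Int.floor_add_fract x
      rw [zsmul_eq_mul, mul_one]
      linarith
    exact h2 s hs1 hs2

end Pool.Agent.R598.CI
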