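import Pool.Agent.R598.TY.Defs

/-!
# Compact metrizable spaces in a transitive model of ZF: separability and cardinality
-/

set_option autoImplicit false

namespace Pool.Agent.R598.CI

open Pool.Agent.W868 Pool.Agent.R598.PM Pool.Agent.R598.TY
open ZFSet (pair)

/-- In the model `M`, the set `X` is countable: there is an injection into the set of the natural
numbers. -/
def Count (M : Set ZFSet.{0}) (X : ZFSet.{0}) : Prop := ∃ f ∈ M, IsInj X ZFSet.omega f

/-- In the model `M`, the set of the real numbers is equipotent to a subset of `X`: some `f ∈ M`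
gives for each real number `r` of the model the element `φ r` of `X`, and the function `φ` is
injective on the real numbers of the model. -/
def GeCont (M : Set ZFSet.{0}) (X : ZFSet.{0}) : Prop :=
  ∃ f ∈ M, ∃ φ : ℝ → ZFSet.{0}, (∀ r, real r ∈ M → φ r ∈ X ∧
    ∀ z, pair (real r) z ∈ f ↔ z = φ r) ∧
    ∀ r s, real r ∈ M → real s ∈ M → φ r = φ s → r = s

/-- In the model `M`, the space `(X, τ)` is separable: it has a countable dense subset. -/
def IsSep (M : Set ZFSet.{0}) (X τ : ZFSet.{0}) : Prop :=
  ∃ D ∈ M, D ⊆ X ∧ Count M D ∧ ∀ O ∈ τ, O ≠ ∅ → ∃ x ∈ D, x ∈ O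

/-- In the model `M`, the statement `M(C(≰ ℵ₀), ≥ 2 ^ ℵ₀)` holds: the set of the real numbers is
equipotent to a subset of each uncountable compact metrizable space. -/
def MCUnc (M : Set ZFSet.{0}) : Prop :=
  ∀ X ∈ M, ∀ τ ∈ M, IsTop M X τ → IsComp M X τ → IsMetrizable M X τ → ¬ Count M X → GeCont M X

/-- In the model `M`, the statement `M(C, S)` holds: each compact metrizable space is
separable. -/
def MCSep (M : Set ZFSet.{0}) : Prop :=
  ∀ X ∈ M, ∀ τ ∈ M, IsTop M X τ → IsComp M X τ → IsMetrizable M X τ → IsSep M X τ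

end Pool.Agent.R598.CI
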