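import Pool.Agent.R598.CI.Circ
import Pool.Agent.R598.CI.Stm

/-!
# The theorem about uncountable compact metrizable spaces in the model
-/

set_option autoImplicit false
set_option linter.unusedSectionVars false

namespace Pool.Agent.R598.CI

open Pool.Agent.W868 Pool.Agent.W868.PName Pool.Agent.R598.SY Pool.Agent.R598.TY
  Pool.Agent.R598.PM
open ZFSet (pair)

theorem hKc (F : Finset ℕ) (g : ℕ → Kc) (hg : ∀ n ∈ F, g n = 0) :
    ∃ φ : ℚ →+ (ℕ → Kc), φ 1 = g ∧ ∀ q, ∀ n ∈ F, φ q n = 0 := by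
  have h1 : ∀ n, ∃ t : ℝ, (t : Kc) = g n ∧ (g n = 0 → t = 0) := by
    intro n
    by_cases h : g n = 0
    · exact ⟨0, h.symm, fun _ => rfl⟩
    · obtain ⟨t, ht⟩ := QuotientAddGroup.mk_surjective (g n)
      exact ⟨t, ht, fun h' => absurd h' h⟩
  choose t ht ht' using h1
  refine ⟨⟨⟨fun q n => (((q : ℝ) * t n : ℝ) : Kc), ?_⟩, ?_⟩, ?_, ?_⟩
  · funext n
    simp
  · intro q q'
    funext n
    change ((((q + q' : ℚ) : ℝ) * t n : ℝ) : Kc) = (((q : ℝ) * t n : ℝ) : Kc) +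
      (((q' : ℝ) * t n : ℝ) : Kc)
    rw [← AddCircle.coe_add]
    congr 1
    push_cast
    ring
  · funext n
    change ((((1 : ℚ) : ℝ) * t n : ℝ) : Kc) = g n
    rw [Rat.cast_one, one_mul, ht]
  · intro q n hn
    change (((q : ℝ) * t n : ℝ) : Kc) = 0
    rw [ht' n (hg n hn), mul_zero]
    rfl

theorem hat_sub2 {P : Type} [Preorder P] [OrderTop P] (π : Pkg P) {s : ZFSet.{0}}
    (hs : s ⊆ ZFSet.prod ZFSet.omega ZFSet.omega) : π.hat s = s := by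
  ext z
  rw [π.mem_hat]
  constructor
  · rintro ⟨y, hy, hyZ, rfl⟩
    obtain ⟨a, ha, b, hb, rfl⟩ := ZFSet.mem_prod.1 (hs hy)
    obtain ⟨n, rfl⟩ := mem_omega_iff.1 ha
    obtain ⟨m, rfl⟩ := mem_omega_iff.1 hb
    rwa [π.hat_pair (π.nat_Z _) (π.nat_Z _), π.hat_nat, π.hat_nat]
  · intro hz
    obtain ⟨a, ha, b, hb, rfl⟩ := ZFSet.mem_prod.1 (hs hz)
    obtain ⟨n, rfl⟩ := mem_omega_iff.1 ha
    obtain ⟨m, rfl⟩ := mem_omega_iff.1 hb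
    refine ⟨_, hz, π.pair_mem_Z (π.nat_Z _) (π.nat_Z _), ?_⟩
    rw [π.hat_pair (π.nat_Z _) (π.nat_Z _), π.hat_nat, π.hat_nat]

theorem mcUnc {π : Pkg (Cd Kc)} (hπ : GP π) : MCUnc ((sys Kc).Ms π) := by
  have hM := isZF_Ms hπ.cld
  intro X hX τ hτ _ hComp hMet hunc
  have hDP : DP ∈ (sys Kc).Ms π := by
    have h1 := hat_mem_Ms hπ.dp
    rwa [hat_sub2 π (s := DP) (fun z hz => (ZFSet.mem_sep.1 hz).1)] at h1
  obtain ⟨U, hU, hcg⟩ := exists_cg hM hDP hX hτ hComp hMet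
  have hI := mainA hKc hπ.cld hX hU hcg
  have h1 := aleph1_Ms (K := Kc) hπ.om1
  exact realInj_of_inter hM h1.1 h1.2.1 (mem_Ms (hs_xN _) hπ.row) (by
    rintro _ ⟨ρ, ⟨hρ, hρs⟩, rfl⟩ _
    exact cover _ hπ.cld hπ.row hπ.om1 hρ hρs) h1 (hat_mem_Ms hπ.js)
    (fun i j m => mem_hat_JS hπ.js) hX hU hcg hI hunc

theorem not_mcSep {π : Pkg (Cd Kc)} (hπ : GP π) : ¬ MCSep ((sys Kc).Ms π) := by
  intro h
  obtain ⟨τ, hτM, hτ⟩ := exists_tau hπ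
  exact not_sep hπ hτ (h _ (XN_mem hπ) τ hτM (isTop_tau hπ hτ) (isComp_tau hπ hτ)
    (isMet_tau hπ hτ))

theorem exists_model : ∃ M : Set ZFSet.{0}, M.Countable ∧ IsZF M ∧ MCUnc M ∧ ¬ MCSep M := by
  obtain ⟨π, hπ, -, -⟩ := exists_GP' ∅ Set.countable_empty ∅ Set.countable_empty
  exact ⟨(sys Kc).Ms π, (π.cnt.mono fun x hx => hx.1).image _, isZF_Ms hπ.cld, mcUnc hπ,
    not_mcSep hπ⟩

end Pool.Agent.R598.CI
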