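import Pool.Agent.R598.CI.Neg1

/-!
# The product of the circles with isolated points is not compact
-/

set_option autoImplicit false
set_option linter.unusedSectionVars false

namespace Pool.Agent.R598.CI

open Pool.Agent.W868 Pool.Agent.W868.PName Pool.Agent.R598.SY Pool.Agent.R598.TY
  Pool.Agent.R598.PM
open ZFSet (pair)

variable {π : Pkg (Cd Kc)} (hπ : GP π)

section

variable {X τ : ℕ → ZFSet.{0}} (hsp : ∀ n, IsSp π True n (X n) (τ n))

theorem isProd_val {M : Set ZFSet.{0}} {X : ℕ → ZFSet.{0}} {P : ZFSet.{0}} (hP : IsProd M X P)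
    {f : ZFSet.{0}} (hf : f ∈ P) : ∃ v : ℕ → ZFSet.{0}, (∀ n, v n ∈ X n) ∧
      ∀ n x, pair (nat n) x ∈ f ↔ x = v n := by
  obtain ⟨-, v, hv, h1⟩ := (hP f).1 hf
  refine ⟨v, hv, fun n x => ?_⟩
  rw [h1]
  constructor
  · rintro ⟨m, h2⟩
    obtain ⟨h3, rfl⟩ := ZFSet.pair_inj.1 h2
    rw [nat_injective h3]
  · rintro rfl
    exact ⟨n, rfl⟩

include hπ hsp in
theorem exists_prod : ∃ P ∈ (sys Kc).Ms π, IsProd ((sys Kc).Ms π) X P := by
  have hM := isZF_Ms hπ.cld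
  have hX := XN_mem hπ
  have hL : π.val LN ∈ (sys Kc).Ms π := mem_Ms hs_LN hπ.ln
  have hω := hM.infinity
  have hemp : (∅ : ZFSet.{0}) ∈ (sys Kc).Ms π := hM.empty_mem
  obtain ⟨W, hW, hW'⟩ := hM.power _ (hM.prod_mem hω hX)
  refine ⟨_, hM.sep_mem (Q := fun f => ∀ n ∈ ZFSet.omega, ∃ x ∈ π.val XN,
    (pair n x ∈ π.val LN ∨ x = ∅) ∧ pair n x ∈ f ∧ ∀ x' ∈ π.val XN, pair n x' ∈ f → x' = x)
    (by (repeat' first | assumption | exact DfnF.proj _ | exact DfnF.const (by assumption) | exact Dfn.prop _ | apply Dfn.not | apply Dfn.and | apply Dfn.or | apply Dfn.imp | apply Dfn.iff | apply hM.base.bex | apply hM.base.ball | apply Dfn.ex | apply Dfn.all | apply Dfn.eq | apply Dfn.mem | apply hM.base.pair')) hW, fun f => ?_⟩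
  rw [ZFSet.mem_sep, hW', and_assoc]
  refine and_congr_right fun _ => ?_
  constructor
  · rintro ⟨h1, h2⟩
    have h3 : ∀ n, ∃ x ∈ π.val XN, (pair (nat n) x ∈ π.val LN ∨ x = ∅) ∧ pair (nat n) x ∈ f ∧
      ∀ x' ∈ π.val XN, pair (nat n) x' ∈ f → x' = x := fun n => h2 _ (nat_om n)
    choose v hv1 hv2 hv3 hv4 using h3
    refine ⟨v, fun n => ((hsp n).1 _).2 (inB_L.2 ⟨hv1 n, (hv2 n).imp id fun h => ⟨trivial, h⟩⟩),
      fun z => ?_⟩
    constructor
    · intro hz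
      obtain ⟨a, ha, b, hb, rfl⟩ := ZFSet.mem_prod.1 (h1 hz)
      obtain ⟨n, rfl⟩ := mem_omega_iff.1 ha
      exact ⟨n, by rw [hv4 n b hb hz]⟩
    · rintro ⟨n, rfl⟩
      exact hv3 n
  · rintro ⟨v, hv, h1⟩
    have h2 : ∀ n, v n ∈ π.val XN := fun n => inB_X (((hsp n).1 _).1 (hv n))
    refine ⟨fun z hz => ?_, fun n hn => ?_⟩
    · obtain ⟨n, rfl⟩ := (h1 z).1 hz
      exact ZFSet.pair_mem_prod.2 ⟨nat_om n, h2 n⟩
    · obtain ⟨n, rfl⟩ := mem_omega_iff.1 hn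
      refine ⟨v n, h2 n, (inB_L.1 (((hsp n).1 _).1 (hv n))).2.imp id fun h => h.2,
        (h1 _).2 ⟨n, rfl⟩, fun x' _ hx' => ?_⟩
      obtain ⟨m, h3⟩ := (h1 _).1 hx'
      obtain ⟨h4, rfl⟩ := ZFSet.pair_inj.1 h3
      rw [nat_injective h4]

include hsp in
/-- The small balls of an open set. -/
theorem exists_j {n : ℕ} {O x : ZFSet.{0}} (hO : O ∈ τ n) (hx : x ∈ O) : ∃ j : ℕ, ∀ j' ≥ j,
    ∀ y ∈ X n, pair (nat j') (pair x y) ∈ π.val UN → y ∈ O := by
  have hxA := (((hsp n).2 O).1 hO).2.1 hx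
  obtain ⟨a, ha, rfl, -⟩ := pt_sp (hsp n) hxA
  obtain ⟨j, hj⟩ := ball_sp (hsp n) hO ha hx
  refine ⟨j, fun j' hj' y hy h1 => ?_⟩
  obtain ⟨b, hb, rfl, -⟩ := pt_sp (hsp n) hy
  exact hj b hb hy (((mem_U' ha hb).1 h1).trans_le (pow_anti hj'))

include hπ hsp in
/-- The balls are open. -/
theorem ball_open {n j : ℕ} (hX : X n ∈ (sys Kc).Ms π) {x : ZFSet.{0}} (hx : x ∈ X n) :
    ZFSet.sep (fun y => pair (nat j) (pair x y) ∈ π.val UN) (X n) ∈ τ n := by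
  have hM := isZF_Ms hπ.cld
  have hU : π.val UN ∈ (sys Kc).Ms π := mem_Ms hs_UN hπ.un
  have hj : nat j ∈ (sys Kc).Ms π := hM.trans _ hM.infinity _ (nat_om j)
  have hxM := hM.trans _ hX _ hx
  obtain ⟨a, ha, rfl, -⟩ := pt_sp (hsp n) hx
  refine ((hsp n).2 _).2 ⟨hM.sep_mem (Q := fun y => pair (nat j) (pair (π.val (ptN a)) y) ∈
    π.val UN) (by (repeat' first | assumption | exact DfnF.proj _ | exact DfnF.const (by assumption) | exact Dfn.prop _ | apply Dfn.not | apply Dfn.and | apply Dfn.or | apply Dfn.imp | apply Dfn.iff | apply hM.base.bex | apply hM.base.ball | apply Dfn.ex | apply Dfn.all | apply Dfn.eq | apply Dfn.mem | apply hM.base.pair')) hX,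
    fun y hy => (ZFSet.mem_sep.1 hy).1, fun θ hθ hθO => ?_⟩
  obtain ⟨h1, h2⟩ := ZFSet.mem_sep.1 hθO
  have h3 := (mem_U' (b := some (n, θ)) ha hθ).1 h2
  obtain ⟨i, hi⟩ := exists_pow_lt_of_lt_one (sub_pos.2 h3) (show (1 / 2 : ℝ) < 1 by norm_num)
  refine ⟨i, fun θ' hθ' hd => ZFSet.mem_sep.2 ⟨((hsp n).1 _).2 (Or.inl ⟨θ', hθ', rfl⟩), ?_⟩⟩
  refine (mem_U' (b := some (n, θ')) ha hθ').2 ?_
  have h4 := ds_tri a (some (n, θ)) (some (n, θ'))
  linarith

include hπ hsp in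
theorem exists_prodTop (hX : ∀ n, X n ∈ (sys Kc).Ms π) {P : ZFSet.{0}}
    (hP : P ∈ (sys Kc).Ms π) (hProd : IsProd ((sys Kc).Ms π) X P) :
    ∃ T ∈ (sys Kc).Ms π, IsProdTop ((sys Kc).Ms π) τ P T := by
  classical
  have hM := isZF_Ms hπ.cld
  have hXN := XN_mem hπ
  have hU : π.val UN ∈ (sys Kc).Ms π := mem_Ms hs_UN hπ.un
  have hω := hM.infinity
  obtain ⟨W, hW, hW'⟩ := hM.power _ hP
  refine ⟨_, hM.sep_mem (Q := fun O => ∀ f ∈ O, ∃ k ∈ ZFSet.omega, ∃ j ∈ ZFSet.omega, ∀ g ∈ P,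
    (∀ n ∈ ZFSet.omega, n ∈ k → ∀ x ∈ π.val XN, ∀ y ∈ π.val XN, pair n x ∈ f → pair n y ∈ g →
      pair j (pair x y) ∈ π.val UN) → g ∈ O)
    (by (repeat' first | assumption | exact DfnF.proj _ | exact DfnF.const (by assumption) | exact Dfn.prop _ | apply Dfn.not | apply Dfn.and | apply Dfn.or | apply Dfn.imp | apply Dfn.iff | apply hM.base.bex | apply hM.base.ball | apply Dfn.ex | apply Dfn.all | apply Dfn.eq | apply Dfn.mem | apply hM.base.pair')) hW, fun O => ?_⟩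
  rw [ZFSet.mem_sep, hW', and_assoc]
  refine and_congr_right fun _ => and_congr_right fun hOP => ?_
  have hXX : ∀ n x, x ∈ X n → x ∈ π.val XN := fun n x hx => inB_X (((hsp n).1 _).1 hx)
  constructor
  · intro h f hf
    obtain ⟨k, hk, j, hj, h1⟩ := h f hf
    obtain ⟨k, rfl⟩ := mem_omega_iff.1 hk
    obtain ⟨j, rfl⟩ := mem_omega_iff.1 hj
    obtain ⟨v, hv, hfv⟩ := isProd_val hProd (hOP hf)
    refine ⟨k, fun n => ZFSet.sep (fun y => pair (nat j) (pair (v n) y) ∈ π.val UN) (X n),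
      fun n _ => ⟨ball_open hπ hsp (hX n) (hv n), v n, ZFSet.mem_sep.2 ⟨hv n, ?_⟩,
        (hfv _ _).2 rfl⟩, fun g hg h2 => h1 g hg fun n _ hnk x _ y _ hx hy => ?_⟩
    · obtain ⟨a, ha, h3, -⟩ := pt_sp (hsp n) (hv n)
      rw [h3]
      refine (mem_U' ha ha).2 ?_
      rw [ds_eq_zero.2 rfl]
      positivity
    · obtain ⟨m, hm, rfl⟩ := mem_nat_iff.1 hnk
      obtain ⟨w, hw, hgw⟩ := isProd_val hProd hg
      obtain ⟨x', hx', hx'g⟩ := h2 m hm
      rw [(hfv _ _).1 hx, (hgw _ _).1 hy, ← (hgw _ _).1 hx'g]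
      exact (ZFSet.mem_sep.1 hx').2
  · intro h f hf
    obtain ⟨k, U, h1, h2⟩ := h f hf
    obtain ⟨v, hv, hfv⟩ := isProd_val hProd (hOP hf)
    have h3 : ∀ n, ∃ j : ℕ, n < k → ∀ j' ≥ j, ∀ y ∈ X n, pair (nat j') (pair (v n) y) ∈ π.val UN →
        y ∈ U n := by
      intro n
      by_cases hn : n < k
      · obtain ⟨h4, x, hx, hxf⟩ := h1 n hn
        rw [(hfv _ _).1 hxf] at hx
        obtain ⟨j, hj⟩ := exists_j hsp h4 hx
        exact ⟨j, fun _ => hj⟩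
      · exact ⟨0, fun h => absurd h hn⟩
    choose j hj using h3
    refine ⟨nat k, nat_om k, nat ((Finset.range k).sup j), nat_om _, fun g hg h4 => h2 g hg
      fun n hn => ?_⟩
    obtain ⟨w, hw, hgw⟩ := isProd_val hProd hg
    refine ⟨w n, ?_, (hgw _ _).2 rfl⟩
    exact hj n hn _ (Finset.le_sup (f := j) (Finset.mem_range.2 hn)) _ (hw n)
      (h4 _ (nat_om n) (nat_mem_nat' hn) _ (hXX n _ (hv n)) _ (hXX n _ (hw n))
        ((hfv _ _).2 rfl) ((hgw _ _).2 rfl))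

end

include hπ in
theorem not_cpm : ¬ CPMle ((sys Kc).Ms π) := by
  classical
  intro h
  have hM := isZF_Ms hπ.cld
  have hXN := XN_mem hπ
  have hω := hM.infinity
  have hemp : (∅ : ZFSet.{0}) ∈ (sys Kc).Ms π := hM.empty_mem
  obtain ⟨s, hs, X, τ, h1, hsp⟩ := exists_seq hπ True
  have hX : ∀ n, X n ∈ (sys Kc).Ms π := fun n =>
    (pair_both hM (pair_both hM (hM.trans _ hs _ ((h1 n _).2 rfl))).2).1
  obtain ⟨P, hP, hProd⟩ := exists_prod hπ hsp
  obtain ⟨T, hT, hTop⟩ := exists_prodTop hπ hsp hX hP hProd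
  have hC := hM.sep_mem (Q := fun O => ∃ n ∈ ZFSet.omega, ∀ f ∈ P, f ∈ O ↔ pair n ∅ ∈ f)
    (by (repeat' first | assumption | exact DfnF.proj _ | exact DfnF.const (by assumption) | exact Dfn.prop _ | apply Dfn.not | apply Dfn.and | apply Dfn.or | apply Dfn.imp | apply Dfn.iff | apply hM.base.bex | apply hM.base.ball | apply Dfn.ex | apply Dfn.all | apply Dfn.eq | apply Dfn.mem | apply hM.base.pair')) hT
  obtain ⟨F, -, hFC, hFf, hcov⟩ := h s hs X τ (isSeq hπ hs h1 hsp) P hP T hT hProd hTop _ hC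
    (fun O hO => (ZFSet.mem_sep.1 hO).1) (by
    intro f hf
    obtain ⟨v, hv, hfv⟩ := isProd_val hProd hf
    by_cases hcon : ∃ n, v n = ∅
    · obtain ⟨n, hn⟩ := hcon
      have hnM : nat n ∈ (sys Kc).Ms π := hM.trans _ hω _ (nat_om n)
      have h2 := hM.sep_mem (Q := fun f => pair (nat n) ∅ ∈ f)
        (by (repeat' first | assumption | exact DfnF.proj _ | exact DfnF.const (by assumption) | exact Dfn.prop _ | apply Dfn.not | apply Dfn.and | apply Dfn.or | apply Dfn.imp | apply Dfn.iff | apply hM.base.bex | apply hM.base.ball | apply Dfn.ex | apply Dfn.all | apply Dfn.eq | apply Dfn.mem | apply hM.base.pair')) hP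
      refine ZFSet.mem_sUnion.2 ⟨_, ZFSet.mem_sep.2 ⟨(hTop _).2 ⟨h2,
        fun g hg => (ZFSet.mem_sep.1 hg).1, fun g hg => ?_⟩, nat n, nat_om n, fun g hg => ?_⟩, ?_⟩
      · obtain ⟨hgP, hg'⟩ := ZFSet.mem_sep.1 hg
        obtain ⟨w, hw, hgw⟩ := isProd_val hProd hgP
        refine ⟨n + 1, fun m => if m = n then {∅} else X m, fun m _ => ?_, fun g' hg' h3 => ?_⟩
        · by_cases hmn : m = n
          · subst hmn
            dsimp only
            rw [if_pos rfl]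
            refine ⟨((hsp m).2 _).2 ⟨?_, fun z hz => ?_, fun θ hθ hθO => ?_⟩, ∅,
              ZFSet.mem_singleton.2 rfl, hg'⟩
            · have h4 := hM.pairing ∅ hemp ∅ hemp
              rwa [ZFSet.pair_eq_singleton] at h4
            · rw [ZFSet.mem_singleton.1 hz]
              exact ((hsp m).1 _).2 (Or.inr ⟨trivial, rfl⟩)
            · exact absurd (ZFSet.mem_singleton.1 hθO) (val_ne_empty hθ)
          · dsimp only
            rw [if_neg hmn]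
            exact ⟨(isTop_sp hπ (hsp m) (hX m)).2.2.1, w m, hw m, (hgw _ _).2 rfl⟩
        · obtain ⟨x, hx, h4⟩ := h3 n (Nat.lt_succ_self n)
          dsimp only at hx
          rw [if_pos rfl] at hx
          rw [ZFSet.mem_singleton.1 hx] at h4
          exact ZFSet.mem_sep.2 ⟨hg', h4⟩
      · rw [ZFSet.mem_sep]
        exact ⟨fun h => h.2, fun h => ⟨hg, h⟩⟩
      · exact ZFSet.mem_sep.2 ⟨hf, (hfv _ _).2 hn.symm⟩
    · exfalso
      push Not at hcon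
      refine no_ch hπ.cld ((hProd f).1 hf).1 fun n => ?_
      rcases ((hsp n).1 _).1 (hv n) with ⟨θ, hθ, h3⟩ | ⟨-, h3⟩
      · exact ⟨θ, hθ, fun z => by rw [hfv, h3]⟩
      · exact absurd h3 (hcon n))
  have hFM : ∀ O ∈ F, O ∈ (sys Kc).Ms π := fun O hO => hM.trans _ hT _
    (ZFSet.mem_sep.1 (hFC hO)).1
  have hFfin := (finIn_iff hM hFM).1 hFf
  have h3 : ∀ O : ZFSet.{0}, ∃ n : ℕ, O ∈ F → ∀ f ∈ P, f ∈ O ↔ pair (nat n) ∅ ∈ f := by
    intro O
    by_cases hO : O ∈ F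
    · obtain ⟨-, n, hn, h4⟩ := ZFSet.mem_sep.1 (hFC hO)
      obtain ⟨n, rfl⟩ := mem_omega_iff.1 hn
      exact ⟨n, fun _ => h4⟩
    · exact ⟨0, fun h => absurd h hO⟩
  choose i hi using h3
  obtain ⟨N, hN⟩ := (hFfin.image i).bddAbove
  have hN' : ∀ O ∈ F, i O ≤ N := fun O hO => hN ⟨O, hO, rfl⟩
  let a : ℕ → ZFSet.{0} := fun n => π.val (aN (n, ((0 : ℝ) : Kc)))
  have ha : ∀ n, aN (n, ((0 : ℝ) : Kc)) ∈ π.N := fun n => hπ.pt n 0 hπ.zero
  have haX : ∀ n, a n ∈ X n := fun n => ((hsp n).1 _).2 (Or.inl ⟨_, ha n, rfl⟩)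
  have haXN : ∀ n, a n ∈ π.val XN := fun n => inB_X (((hsp n).1 _).1 (haX n))
  have hprod := hM.prod_mem hω hXN
  let f0 : ZFSet.{0} := ZFSet.sep (fun w => ∃ n, n ≤ N ∧ w = pair (nat n) (a n))
    (ZFSet.prod ZFSet.omega (π.val XN))
  have hf0 : f0 ∈ (sys Kc).Ms π := by
    refine fin_mem hM (fun z hz => hM.trans _ hprod _ (ZFSet.mem_sep.1 hz).1) ?_
    refine ((Set.finite_Iic N).image fun n => pair (nat n) (a n)).subset ?_
    intro z hz
    obtain ⟨-, n, hn, rfl⟩ := ZFSet.mem_sep.1 hz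
    exact ⟨n, hn, rfl⟩
  have hNM : nat (N + 1) ∈ (sys Kc).Ms π := hM.trans _ hω _ (nat_om _)
  have hf := hM.sep_mem (Q := fun w => w ∈ f0 ∨ ∃ n ∈ ZFSet.omega, ¬ n ∈ nat (N + 1) ∧
    w = pair n ∅)
    (by (repeat' first | assumption | exact DfnF.proj _ | exact DfnF.const (by assumption) | exact Dfn.prop _ | apply Dfn.not | apply Dfn.and | apply Dfn.or | apply Dfn.imp | apply Dfn.iff | apply hM.base.bex | apply hM.base.ball | apply Dfn.ex | apply Dfn.all | apply Dfn.eq | apply Dfn.mem | apply hM.base.pair')) hprod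
  let v : ℕ → ZFSet.{0} := fun n => if n ≤ N then a n else ∅
  have hfP : ZFSet.sep (fun w => w ∈ f0 ∨ ∃ n ∈ ZFSet.omega, ¬ n ∈ nat (N + 1) ∧
      w = pair n ∅) (ZFSet.prod ZFSet.omega (π.val XN)) ∈ P := by
    refine (hProd _).2 ⟨hf, v, fun n => ?_, fun z => ?_⟩
    · by_cases hn : n ≤ N
      · change (if n ≤ N then a n else ∅) ∈ X n
        rw [if_pos hn]
        exact haX n
      · change (if n ≤ N then a n else ∅) ∈ X n
        rw [if_neg hn]
        exact ((hsp n).1 _).2 (Or.inr ⟨trivial, rfl⟩)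
    · rw [ZFSet.mem_sep]
      constructor
      · rintro ⟨-, hz | ⟨n, hn, h4, rfl⟩⟩
        · obtain ⟨-, n, hn, rfl⟩ := ZFSet.mem_sep.1 hz
          refine ⟨n, ?_⟩
          change _ = pair (nat n) (if n ≤ N then a n else ∅)
          rw [if_pos hn]
        · obtain ⟨n, rfl⟩ := mem_omega_iff.1 hn
          refine ⟨n, ?_⟩
          change _ = pair (nat n) (if n ≤ N then a n else ∅)
          rw [if_neg fun h => h4 (nat_mem_nat' (Nat.lt_succ_of_le h))]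
      · rintro ⟨n, rfl⟩
        change pair (nat n) (if n ≤ N then a n else ∅) ∈ _ ∧
          (pair (nat n) (if n ≤ N then a n else ∅) ∈ f0 ∨ _)
        by_cases hn : n ≤ N
        · rw [if_pos hn]
          have h5 : pair (nat n) (a n) ∈ ZFSet.prod ZFSet.omega (π.val XN) :=
            ZFSet.pair_mem_prod.2 ⟨nat_om n, haXN n⟩
          exact ⟨h5, Or.inl (ZFSet.mem_sep.2 ⟨h5, n, hn, rfl⟩)⟩
        · rw [if_neg hn]
          refine ⟨ZFSet.pair_mem_prod.2 ⟨nat_om n, empty_mem_X⟩, Or.inr ⟨nat n, nat_om n,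
            fun h5 => ?_, ?_⟩⟩
          · obtain ⟨m, hm, h6⟩ := mem_nat_iff.1 h5
            have h7 := nat_injective h6
            omega
          · change pair (nat n) (if n ≤ N then a n else ∅) = _
            rw [if_neg hn]
  obtain ⟨O, hO, hfO⟩ := ZFSet.mem_sUnion.1 (hcov hfP)
  have h4 := (hi O hO _ hfP).1 hfO
  rcases (ZFSet.mem_sep.1 h4).2 with h5 | ⟨n, -, h5, h6⟩
  · obtain ⟨-, n, -, h6⟩ := ZFSet.mem_sep.1 h5
    exact val_ne_empty (ha n) (ZFSet.pair_inj.1 h6).2.symm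
  · rw [← (ZFSet.pair_inj.1 h6).1] at h5
    exact h5 (nat_mem_nat' (Nat.lt_succ_of_le (hN' O hO)))

end Pool.Agent.R598.CI
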