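import Pool.Agent.R598.CI.Stm

/-!
# Choice principles in a transitive model of ZF
-/

set_option autoImplicit false

namespace Pool.Agent.R598.CI

open Pool.Agent.W868 Pool.Agent.R598.PM Pool.Agent.R598.TY
open ZFSet (pair)

/-- In the model `M`, the statement `IDI` holds: each infinite set is Dedekind-infinite. -/
def IDI (M : Set ZFSet.{0}) : Prop :=
  ∀ X ∈ M, ¬ FinIn M X → ∃ f ∈ M, IsInj ZFSet.omega X f

/-- In the model `M`, the statement `WOAC_fin` holds: each non-empty family of non-empty finite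
sets that can be injected into an ordinal has a choice function. -/
def WOACfin (M : Set ZFSet.{0}) : Prop :=
  ∀ Y ∈ M, Y ≠ ∅ → (∃ κ ∈ M, κ.IsOrdinal ∧ ∃ f ∈ M, IsInj Y κ f) →
    (∀ y ∈ Y, y ≠ ∅ ∧ FinIn M y) → ∃ c ∈ M, ∀ y ∈ Y, ∃ a ∈ y, ∀ z, pair y z ∈ c ↔ z = a

/-- In the model `M`, the function `s` is the sequence of the compact metrizable spaces
`(X n, τ n)`. -/
def IsSeqMC (M : Set ZFSet.{0}) (s : ZFSet.{0}) (X τ : ℕ → ZFSet.{0}) : Prop :=
  (∀ n z, pair (nat n) z ∈ s ↔ z = pair (X n) (τ n)) ∧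
    ∀ n, IsTop M (X n) (τ n) ∧ IsComp M (X n) (τ n) ∧ IsMetrizable M (X n) (τ n)

/-- In the model `M`, the statement `CAC(C, M_le)` holds: for each sequence of non-empty compact
metrizable spaces there is a choice function for the sequence of the sets of their points. -/
def CACle (M : Set ZFSet.{0}) : Prop :=
  ∀ s ∈ M, ∀ X τ : ℕ → ZFSet.{0}, IsSeqMC M s X τ → (∀ n, X n ≠ ∅) →
    ∃ c ∈ M, ∃ x : ℕ → ZFSet.{0}, ∀ n, x n ∈ X n ∧ ∀ z, pair (nat n) z ∈ c ↔ z = x n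

/-- The set `P` is the product, in the model `M`, of the sets `X n`: its elements are the
sequences `f ∈ M` with `f n ∈ X n` for each `n`. -/
def IsProd (M : Set ZFSet.{0}) (X : ℕ → ZFSet.{0}) (P : ZFSet.{0}) : Prop :=
  ∀ f, f ∈ P ↔ f ∈ M ∧ ∃ v : ℕ → ZFSet.{0}, (∀ n, v n ∈ X n) ∧
    ∀ z, z ∈ f ↔ ∃ n, z = pair (nat n) (v n)

/-- The set `T` is the product topology, in the model `M`, on the product `P` of the spaces with
the topologies `τ n`: the set `O ∈ M` with `O ⊆ P` is open if and only if for each `f ∈ O` there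
are `k` and open sets `U n ∈ τ n` for `n < k` with `f n ∈ U n` for `n < k` such that `O` contains
all `g ∈ P` with `g n ∈ U n` for `n < k`. -/
def IsProdTop (M : Set ZFSet.{0}) (τ : ℕ → ZFSet.{0}) (P T : ZFSet.{0}) : Prop :=
  ∀ O, O ∈ T ↔ O ∈ M ∧ O ⊆ P ∧ ∀ f ∈ O, ∃ (k : ℕ) (U : ℕ → ZFSet.{0}),
    (∀ n < k, U n ∈ τ n ∧ ∃ x ∈ U n, pair (nat n) x ∈ f) ∧
      ∀ g ∈ P, (∀ n < k, ∃ x ∈ U n, pair (nat n) x ∈ g) → g ∈ O

/-- In the model `M`, the statement `CPM_le(C, C)` holds: each product of countably many compact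
metrizable spaces is compact. -/
def CPMle (M : Set ZFSet.{0}) : Prop :=
  ∀ s ∈ M, ∀ X τ : ℕ → ZFSet.{0}, IsSeqMC M s X τ → ∀ P ∈ M, ∀ T ∈ M, IsProd M X P →
    IsProdTop M τ P T → IsComp M P T

/-- In the model `M`, the statement `CMC_ω` holds: each denumerable family of denumerable sets has
a multiple choice function. -/
def CMCom (M : Set ZFSet.{0}) : Prop :=
  ∀ Y ∈ M, (∃ f ∈ M, IsBij Y ZFSet.omega f) → (∀ y ∈ Y, ∃ f ∈ M, IsBij y ZFSet.omega f) →
    ∃ c ∈ M, ∀ y ∈ Y, ∃ a, a ⊆ y ∧ a ≠ ∅ ∧ FinIn M a ∧ ∀ z, pair y z ∈ c ↔ z = a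

end Pool.Agent.R598.CI
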