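import Pool.Agent.R598.CI.Fin
import Pool.Agent.R598.CI.Stm2

/-!
# A denumerable family of denumerable sets without multiple choice function
-/

set_option autoImplicit false
set_option linter.unusedSectionVars false

namespace Pool.Agent.R598.CI

open Pool.Agent.W868 Pool.Agent.W868.PName Pool.Agent.R598.SY Pool.Agent.R598.TY
  Pool.Agent.R598.PM
open ZFSet (pair)

/-- The homomorphism from the circle group to the rational numbers. -/
theorem exists_psi : ∃ ψ : Kc →+ ℚ, Function.Surjective ψ := by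
  let p : Submodule ℚ ℝ := Submodule.span ℚ {(1 : ℝ)}
  have hp : p < ⊤ := by
    rw [lt_top_iff_ne_top]
    intro h
    have h1 : (Real.sqrt 2) ∈ p := by
      rw [h]
      trivial
    obtain ⟨a, ha⟩ := Submodule.mem_span_singleton.1 h1
    apply irrational_sqrt_two
    refine ⟨a, ?_⟩
    rw [← ha, Rat.smul_def, mul_one]
  obtain ⟨f, hf, hfp⟩ := Submodule.exists_le_ker_of_lt_top p hp
  have h1 : f 1 = 0 := hfp (Submodule.mem_span_singleton_self (1 : ℝ))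
  let g : Kc →+ ℚ := QuotientAddGroup.lift (AddSubgroup.zmultiples (1 : ℝ)) f.toAddMonoidHom (by
    intro x hx
    obtain ⟨k, rfl⟩ := AddSubgroup.mem_zmultiples_iff.1 hx
    change f (k • (1 : ℝ)) = 0
    rw [map_zsmul, h1, smul_zero])
  refine ⟨g, fun q => ?_⟩
  obtain ⟨t, ht⟩ : ∃ t, f t ≠ 0 := by
    by_contra hcon
    push Not at hcon
    exact hf (LinearMap.ext hcon)
  refine ⟨(((q / f t) • t : ℝ) : Kc), ?_⟩
  change f ((q / f t) • t) = q
  rw [f.map_smul, smul_eq_mul, div_mul_cancel₀ _ ht]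

section fam

variable {P : Type} [Preorder P] [OrderTop P] {S : Sys P}

theorem feq_act_famN {ι ι' : Type} {f : ι → PName P} {f' : ι' → PName P} {g : S.G} (e : ι → ι')
    (he : Function.Surjective e) (h1 : ∀ i p, Feq (act (S.ac g) (f i)) (f' (e i)) p) (p : P) :
    Feq (act (S.ac g) (famN ι f)) (famN ι' f') p := by
  rw [feq_iff']
  constructor
  · intro z c hz q hq hqc
    obtain ⟨z, c, hz', rfl, rfl⟩ := el_act.1 hz
    obtain ⟨i, rfl, rfl⟩ := el_famN.1 hz'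
    exact ⟨q, le_rfl, _, ⊤, el_famN.2 ⟨e i, rfl, rfl⟩, le_top, h1 i q⟩
  · intro z c hz q hq hqc
    obtain ⟨i, rfl, rfl⟩ := el_famN.1 hz
    obtain ⟨j, rfl⟩ := he i
    refine ⟨q, le_rfl, _, _, el_act.2 ⟨_, _, el_famN.2 ⟨j, rfl, rfl⟩, rfl, rfl⟩, ?_, h1 j q⟩
    rw [S.top g]
    exact le_top

end fam

variable (ψ : Kc →+ ℚ)

/-- The name of the set of the points of the circle `n` with the value `q`. -/
noncomputable def bN (n : ℕ) (q : ℚ) : PName (Cd Kc) :=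
  famN {θ : Kc // ψ θ = q} fun θ => aN (n, θ.1)

theorem act_bN (g : (sys Kc).G) (n : ℕ) (q : ℚ) (p : Cd Kc) :
    Feq (act ((sys Kc).ac g) (bN ψ n q)) (bN ψ n (ψ (rt g n) + q)) p := by
  refine feq_act_famN (fun θ => ⟨rt g n + θ.1, by rw [map_add, θ.2]⟩) (fun θ => ?_)
    (fun θ p => act_aN g (n, θ.1) p) p
  refine ⟨⟨-rt g n + θ.1, by rw [map_add, θ.2, map_neg, neg_add_cancel_left]⟩, Subtype.ext ?_⟩
  exact add_neg_cancel_left _ _

theorem fix_bN (n : ℕ) (q : ℚ) : (sys Kc).Fix (bs ∅ {n}) (bN ψ n q) := by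
  intro g hg p
  have h1 := act_bN ψ g n q p
  have h2 : rt g n = 0 := hg.2 n (Finset.mem_singleton_self _)
  rwa [h2, map_zero, zero_add] at h1

theorem hs_bN (n : ℕ) (q : ℚ) : (sys Kc).HS (bN ψ n q) :=
  hs_famN (bs_mem_F (Sp.empty {n})) (fix_bN ψ n q) fun _ => hs_aN _

/-- The name of the denumerable set. -/
noncomputable def QN (n : ℕ) : PName (Cd Kc) := famN ℚ (bN ψ n)

theorem fix_QN (n : ℕ) : (sys Kc).Fix (bs ∅ ∅) (QN ψ n) :=
  fix_famN fun g _ => ⟨fun q => ψ (rt g n) + q, fun q => ⟨-ψ (rt g n) + q,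
    add_neg_cancel_left _ _⟩, fun q p => act_bN ψ g n q p⟩

theorem hs_QN (n : ℕ) : (sys Kc).HS (QN ψ n) := hs_famN triv_mem (fix_QN ψ n) (hs_bN ψ n)

/-- The name of the bijection between the set and the set of the natural numbers. -/
noncomputable def BQ (r : ℕ → ℚ) (n : ℕ) : PName (Cd Kc) :=
  famN ℕ fun i => opN (bN ψ n (r i)) (check (nat i))

theorem hs_BQ (r : ℕ → ℚ) (n : ℕ) : (sys Kc).HS (BQ ψ r n) := by
  refine hs_famN (bs_mem_F (Sp.empty {n})) (fix_famN fun g hg => ⟨id, Function.surjective_id,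
    fun t p => ?_⟩) fun t => (sys Kc).hs_opN (hs_bN ψ _ _) ((sys Kc).hs_check _)
  rw [act_opN ((sys Kc).top g), act_check ((sys Kc).top g)]
  exact feq_opN (fix_bN ψ n _ g hg p) (Feq.refl _ _)

/-- The name of the family. -/
noncomputable def YN : PName (Cd Kc) := famN ℕ (QN ψ)

theorem hs_YN : (sys Kc).HS (YN ψ) :=
  hs_famN triv_mem (fix_famN fun g hg => ⟨id, Function.surjective_id,
    fun n p => fix_QN ψ n g hg p⟩) (hs_QN ψ)

/-- The name of the bijection between the family and the set of the natural numbers. -/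
noncomputable def BY : PName (Cd Kc) := famN ℕ fun n => opN (QN ψ n) (check (nat n))

theorem hs_BY : (sys Kc).HS (BY ψ) := by
  refine hs_famN triv_mem (fix_famN fun g hg => ⟨id, Function.surjective_id,
    fun t p => ?_⟩) fun t => (sys Kc).hs_opN (hs_QN ψ _) ((sys Kc).hs_check _)
  rw [act_opN ((sys Kc).top g), act_check ((sys Kc).top g)]
  exact feq_opN (fix_QN ψ _ g hg p) (Feq.refl _ _)

/-- The set of the names for the package. -/
def AN (r : ℕ → ℚ) (t : ℚ → Kc) : Set (PName (Cd Kc)) :=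
  ({YN ψ, BY ψ} ∪ (Set.range (QN ψ) ∪ Set.range (BQ ψ r))) ∪
    (Set.range (fun i : ℕ × ℚ => bN ψ i.1 i.2) ∪ Set.range (fun i : ℕ × ℚ => aN (i.1, t i.2)))

theorem cnt_AN (r : ℕ → ℚ) (t : ℚ → Kc) : (AN ψ r t).Countable :=
  ((Set.toFinite _).countable.union ((Set.countable_range _).union (Set.countable_range _))).union
    ((Set.countable_range _).union (Set.countable_range _))

theorem isBij_of {x : ℕ → ZFSet.{0}} (hx : Function.Injective x) {X f : ZFSet.{0}}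
    (hX : ∀ z, z ∈ X ↔ ∃ i, z = x i) (hf : ∀ w, w ∈ f ↔ ∃ i, w = pair (x i) (nat i)) :
    IsBij X ZFSet.omega f := by
  refine ⟨⟨⟨fun w hw => ?_, fun z hz => ?_⟩, fun a b c ha hb => ?_⟩, fun b hb => ?_⟩
  · obtain ⟨i, rfl⟩ := (hf w).1 hw
    exact ZFSet.pair_mem_prod.2 ⟨(hX _).2 ⟨i, rfl⟩, nat_om i⟩
  · obtain ⟨i, rfl⟩ := (hX z).1 hz
    refine ⟨nat i, (hf _).2 ⟨i, rfl⟩, fun w hw => ?_⟩
    obtain ⟨j, h1⟩ := (hf _).1 hw
    obtain ⟨h2, rfl⟩ := ZFSet.pair_inj.1 h1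
    rw [hx h2]
  · obtain ⟨i, h1⟩ := (hf _).1 ha
    obtain ⟨j, h2⟩ := (hf _).1 hb
    obtain ⟨rfl, rfl⟩ := ZFSet.pair_inj.1 h1
    obtain ⟨rfl, h3⟩ := ZFSet.pair_inj.1 h2
    rw [nat_injective h3]
  · obtain ⟨i, rfl⟩ := mem_omega_iff.1 hb
    exact ⟨x i, (hX _).2 ⟨i, rfl⟩, (hf _).2 ⟨i, rfl⟩⟩

theorem ud_mc : UDf fun M (v : Fin 3 → ZFSet.{0}) => ∃ a ∈ M, pair (v 0) a ∈ v 1 ∧ v 2 ∈ a :=
  UDf.ex (UDf.and (udp 1 0 2) (udm 3 0))

variable {ψ} {π : Pkg (Cd Kc)} {r : ℕ → ℚ} {t : ℚ → Kc} (ht : ∀ q, ψ (t q) = q)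
  (hA : AN ψ r t ⊆ π.N)

include hA in
theorem bN_mem (n : ℕ) (q : ℚ) : bN ψ n q ∈ π.N := hA (Or.inr (Or.inl ⟨(n, q), rfl⟩))

include hA in
theorem QN_mem (n : ℕ) : QN ψ n ∈ π.N := hA (Or.inl (Or.inr (Or.inl ⟨n, rfl⟩)))

include hA in
theorem BQ_mem (n : ℕ) : BQ ψ r n ∈ π.N := hA (Or.inl (Or.inr (Or.inr ⟨n, rfl⟩)))

include ht hA in
theorem val_bN_inj {n m : ℕ} {q q' : ℚ} (h : π.val (bN ψ n q) = π.val (bN ψ m q')) :
    n = m ∧ q = q' := by
  have h1 : aN (n, t q) ∈ π.N := hA (Or.inr (Or.inr ⟨(n, q), rfl⟩))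
  have h2 : π.val (aN (n, t q)) ∈ π.val (bN ψ n q) := val_famN.2 ⟨⟨t q, ht q⟩, h1, rfl⟩
  rw [h] at h2
  obtain ⟨⟨θ, hθ⟩, h3, h4⟩ := val_famN.1 h2
  have h5 := val_ptN_inj (a := some (n, t q)) (b := some (m, θ)) h1 h3 h4
  obtain ⟨h6, h7⟩ := Prod.mk.inj (Option.some.inj h5)
  refine ⟨h6, ?_⟩
  rw [← hθ, ← h7, ht]

include hA in
theorem mem_QN {n : ℕ} {z : ZFSet.{0}} : z ∈ π.val (QN ψ n) ↔ ∃ q, z = π.val (bN ψ n q) := by
  rw [QN, val_famN]
  exact ⟨fun ⟨q, _, h⟩ => ⟨q, h⟩, fun ⟨q, h⟩ => ⟨q, bN_mem hA n q, h⟩⟩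

include ht hA in
theorem val_QN_inj {n m : ℕ} (h : π.val (QN ψ n) = π.val (QN ψ m)) : n = m := by
  have h1 : π.val (bN ψ n 0) ∈ π.val (QN ψ n) := (mem_QN hA).2 ⟨0, rfl⟩
  rw [h] at h1
  obtain ⟨q, h2⟩ := (mem_QN hA).1 h1
  exact (val_bN_inj ht hA h2).1

include ht hA in
theorem not_cmc (h1 : (sys Kc).Cld π) (hr : Function.Bijective r) :
    ¬ CMCom ((sys Kc).Ms π) := by
  classical
  intro h
  have hM := isZF_Ms h1
  have hYN : YN ψ ∈ π.N := hA (Or.inl (Or.inl (Or.inl rfl)))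
  have hBY : BY ψ ∈ π.N := hA (Or.inl (Or.inl (Or.inr rfl)))
  have hY : ∀ z, z ∈ π.val (YN ψ) ↔ ∃ n, z = π.val (QN ψ n) := by
    intro z
    rw [YN, val_famN]
    exact ⟨fun ⟨q, _, h⟩ => ⟨q, h⟩, fun ⟨q, h⟩ => ⟨q, QN_mem hA q, h⟩⟩
  obtain ⟨c, hc, hc'⟩ := h (π.val (YN ψ)) (mem_Ms (hs_YN ψ) hYN) ⟨π.val (BY ψ),
    mem_Ms (hs_BY ψ) hBY, isBij_of (x := fun n => π.val (QN ψ n))
      (fun n m hnm => val_QN_inj ht hA hnm) hY (by
        intro w
        rw [BY, val_famN]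
        constructor
        · rintro ⟨n, h2, h3⟩
          refine ⟨n, ?_⟩
          rw [h3, π.val_opN (QN_mem hA n) (π.nat_Z n)]
          congr 1
          exact π.hat_nat n
        · rintro ⟨n, rfl⟩
          refine ⟨n, π.opN_mem (QN_mem hA n) (π.nat_Z n), ?_⟩
          rw [π.val_opN (QN_mem hA n) (π.nat_Z n)]
          congr 1
          exact (π.hat_nat n).symm)⟩ (by
    intro y hy
    obtain ⟨n, rfl⟩ := (hY y).1 hy
    refine ⟨π.val (BQ ψ r n), mem_Ms (hs_BQ ψ r n) (BQ_mem hA n),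
      isBij_of (x := fun i => π.val (bN ψ n (r i)))
        (fun i j hij => hr.1 (val_bN_inj ht hA hij).2) (fun z => ?_) (fun w => ?_)⟩
    · rw [mem_QN hA]
      constructor
      · rintro ⟨q, rfl⟩
        obtain ⟨i, rfl⟩ := hr.2 q
        exact ⟨i, rfl⟩
      · rintro ⟨i, rfl⟩
        exact ⟨r i, rfl⟩
    · rw [BQ, val_famN]
      constructor
      · rintro ⟨i, h2, h3⟩
        refine ⟨i, ?_⟩
        rw [h3, π.val_opN (bN_mem hA n _) (π.nat_Z i)]
        congr 1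
        exact π.hat_nat i
      · rintro ⟨i, rfl⟩
        refine ⟨i, π.opN_mem (bN_mem hA n _) (π.nat_Z i), ?_⟩
        rw [π.val_opN (bN_mem hA n _) (π.nat_Z i)]
        congr 1
        exact (π.hat_nat i).symm)
  obtain ⟨σ, ⟨hσ, hσs⟩, rfl⟩ := hc
  obtain ⟨_, ⟨E, F, hE, rfl⟩, hfix⟩ := hσs.sym
  obtain ⟨n, hn⟩ := Infinite.exists_notMem_finset F
  have hSp : Sp E (insert n F) := hE.mono (Finset.subset_insert _ _)
  obtain ⟨a, ha, hane, hafin, hau⟩ := hc' _ ((hY _).2 ⟨n, rfl⟩)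
  have hQM : π.val (QN ψ n) ∈ (sys Kc).Ms π := mem_Ms (hs_QN ψ n) (QN_mem hA n)
  have hafin' := (finIn_iff hM fun z hz => hM.trans _ hQM _ (ha hz)).1 hafin
  have haM : a ∈ (sys Kc).Ms π := fin_mem hM (fun z hz => hM.trans _ hQM _ (ha hz)) hafin'
  have hv : ∀ q : ℚ, ∀ i, (sys Kc).HS ((![QN ψ n, σ, bN ψ n q] :
      Fin 3 → PName (Cd Kc)) i) := by
    intro q i
    fin_cases i
    · exact hs_QN ψ n
    · exact hσs
    · exact hs_bN ψ n q
  have hin : ∀ q : ℚ, ∀ i, (![QN ψ n, σ, bN ψ n q] : Fin 3 → PName (Cd Kc)) i ∈ π.N := by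
    intro q i
    fin_cases i
    · exact QN_mem hA n
    · exact hσ
    · exact bN_mem hA n q
  have key : ∀ q, π.val (bN ψ n q) ∈ a → π.val (bN ψ n (1 + q)) ∈ a := by
    intro q hq
    obtain ⟨k, hk⟩ := ud_mc.fund (hv q) h1 (hin q) ⟨a, haM, (hau a).2 rfl, hq⟩
    have h2 := sf_rs ud_mc (hv q) hSp (by
      intro i
      fin_cases i
      · exact (fix_QN ψ n).mono (bs_mono (Set.empty_subset _) (Finset.empty_subset _))
      · exact hfix.mono (bs_mono (Set.Subset.refl _) (Finset.subset_insert _ _))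
      · refine (fix_bN ψ n q).mono (bs_mono (Set.empty_subset _) ?_)
        intro m hm
        rw [Finset.mem_singleton.1 hm]
        exact Finset.mem_insert_self _ _) hk
    let g : ℕ → Kc := fun m => if m = n then t 1 else 0
    have hg : ∀ m ∈ F, g m = 0 := fun m hm => if_neg fun (h : m = n) => hn (h ▸ hm)
    have hgn : g n = t 1 := if_pos rfl
    have h3 := SF.move ud_mc (hv q) (hv (1 + q)) (ro g) (by
      intro i p
      fin_cases i
      · exact fix_QN ψ n _ ⟨fun a ha => ha.elim, fun m hm => by simp at hm⟩ p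
      · exact hfix _ (ro_mem hg hE) p
      · have h4 := act_bN ψ (ro g) n q p
        rwa [rt_ro, hgn, ht] at h4) h2
    rw [ac_ro_of_dom hg hE (dom_rs _ _)] at h3
    obtain ⟨a', -, h4, h5⟩ := h3 π h1 (hin (1 + q)) ⟨k, le_rs _ _⟩
    have h6 : a' = a := (hau a').1 h4
    rwa [h6] at h5
  obtain ⟨z, hz⟩ : ∃ z, z ∈ a := by
    by_contra hcon
    exact hane ((ZFSet.eq_empty a).2 fun z hz => hcon ⟨z, hz⟩)
  obtain ⟨q, rfl⟩ := (mem_QN hA).1 (ha hz)
  have h2 : ∀ i : ℕ, π.val (bN ψ n (i + q)) ∈ a := by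
    intro i
    induction i with
    | zero =>
      rw [Nat.cast_zero, zero_add]
      exact hz
    | succ i ih =>
      have h3 := key _ ih
      rw [← add_assoc, add_comm (1 : ℚ)] at h3
      rw [Nat.cast_succ]
      exact h3
  exact Set.infinite_of_injective_forall_mem (f := fun i : ℕ => π.val (bN ψ n (i + q)))
    (fun i j hij => by
      have h3 := (val_bN_inj ht hA hij).2
      have h4 := add_right_cancel h3
      exact_mod_cast h4) h2 hafin'

end Pool.Agent.R598.CI
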