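import Pool.Agent.R598.CI.Woac
import Pool.Agent.R598.CI.Neg2
import Pool.Agent.R598.CI.Neg3

/-!
# The conjunction of the choice principles in the model
-/

set_option autoImplicit false

namespace Pool.Agent.R598.CI

open Pool.Agent.W868 Pool.Agent.W868.PName Pool.Agent.R598.SY Pool.Agent.R598.TY
  Pool.Agent.R598.PM
open ZFSet (pair)

theorem exists_model2 : ∃ M : Set ZFSet.{0}, M.Countable ∧ IsZF M ∧
    (IDI M ∧ WOACfin M ∧ MCUnc M) ∧ ¬ CACle M ∧ ¬ CPMle M ∧ ¬ CMCom M := by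
  obtain ⟨ψ, hψ⟩ := exists_psi
  choose t ht using hψ
  obtain ⟨r, hr⟩ : ∃ r : ℕ → ℚ, Function.Bijective r :=
    ⟨(Denumerable.eqv ℚ).symm, (Denumerable.eqv ℚ).symm.bijective⟩
  obtain ⟨π, hπ, hA, -⟩ := exists_GP' (AN ψ r t) (cnt_AN ψ r t) ∅ Set.countable_empty
  refine ⟨(sys Kc).Ms π, (π.cnt.mono fun x hx => hx.1).image _, isZF_Ms hπ.cld,
    ⟨fun X hX h => idi hKc hπ.cld hX h, ?_, mcUnc hπ⟩, not_cac hπ, not_cpm hπ,
    not_cmc ht hA hπ.cld hr⟩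
  rintro Y hY - ⟨κ, hκ, hκo, hinj⟩ hfin
  exact woac hKc hπ.cld hY hκ hκo hinj hfin

end Pool.Agent.R598.CI
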