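import Pool.Agent.W868.DZero
import Pool.Agent.R598.SY.T_ZF
import Pool.Agent.R598.SY.T_TRU
import Pool.Agent.R598.SY.T_SEP

/-!
# Uniform definability and the forcing theorem for symmetric submodels
-/

set_option autoImplicit false
set_option linter.unusedSectionVars false

namespace Pool.Agent.R598.CI

open Pool.Agent.W868 Pool.Agent.W868.PName Pool.Agent.R598.SY
open ZFSet (pair)

/-- `R` is defined by one formula without parameters in all transitive models of ZF. -/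
def UDf {n : ℕ} (R : Set ZFSet.{0} → (Fin n → ZFSet.{0}) → Prop) : Prop :=
  ∃ φ : Fml Empty n, ∀ M : Set ZFSet.{0}, IsZF M →
    ∀ v, (∀ i, v i ∈ M) → (Sat M Empty.elim φ v ↔ R M v)

section

variable {n : ℕ} {R T : Set ZFSet.{0} → (Fin n → ZFSet.{0}) → Prop}

theorem UDf.of {Q : (Fin n → ZFSet.{0}) → Prop} (h : D0 Q) : UDf fun _ v => Q v := by
  obtain ⟨φ, hφ⟩ := h
  exact ⟨φ, fun M hM v hv => hφ M hM.trans v hv⟩

theorem UDf.congr (h : UDf R) (h' : ∀ M, IsZF M → ∀ v, (∀ i, v i ∈ M) → (R M v ↔ T M v)) :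
    UDf T := by
  obtain ⟨φ, hφ⟩ := h
  exact ⟨φ, fun M hM v hv => (hφ M hM v hv).trans (h' M hM v hv)⟩

theorem UDf.not (h : UDf R) : UDf fun M v => ¬ R M v := by
  obtain ⟨φ, hφ⟩ := h
  exact ⟨.neg φ, fun M hM v hv => not_congr (hφ M hM v hv)⟩

theorem UDf.and (h : UDf R) (h' : UDf T) : UDf fun M v => R M v ∧ T M v := by
  obtain ⟨φ, hφ⟩ := h
  obtain ⟨ψ, hψ⟩ := h'
  exact ⟨.and φ ψ, fun M hM v hv => and_congr (hφ M hM v hv) (hψ M hM v hv)⟩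

theorem UDf.imp (h : UDf R) (h' : UDf T) : UDf fun M v => R M v → T M v :=
  (h.and h'.not).not.congr fun M _ v _ => by tauto

theorem UDf.ex {Q : Set ZFSet.{0} → ZFSet.{0} → (Fin n → ZFSet.{0}) → Prop}
    (h : UDf fun M (w : Fin (n + 1) → ZFSet.{0}) => Q M (w 0) (Fin.tail w)) :
    UDf fun M v => ∃ a ∈ M, Q M a v := by
  obtain ⟨φ, hφ⟩ := h
  refine ⟨.ex φ, fun M hM v hv => ?_⟩
  simp only [Sat]
  constructor
  · rintro ⟨a, ha, h3⟩
    exact ⟨a, ha, (hφ M hM _ (Pkg.cons_mem ha hv)).1 h3⟩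
  · rintro ⟨a, ha, h3⟩
    exact ⟨a, ha, (hφ M hM _ (Pkg.cons_mem ha hv)).2 h3⟩

theorem UDf.all {Q : Set ZFSet.{0} → ZFSet.{0} → (Fin n → ZFSet.{0}) → Prop}
    (h : UDf fun M (w : Fin (n + 1) → ZFSet.{0}) => Q M (w 0) (Fin.tail w)) :
    UDf fun M v => ∀ a ∈ M, Q M a v := by
  have h1 : UDf fun M v => ∃ a ∈ M, ¬ Q M a v := UDf.ex (Q := fun M a v => ¬ Q M a v) h.not
  exact h1.not.congr fun M _ v _ => by
    constructor
    · intro h2 a ha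
      by_contra h3
      exact h2 ⟨a, ha, h3⟩
    · rintro h2 ⟨a, ha, h3⟩
      exact h3 (h2 a ha)

/-- Bounded quantifiers. -/
theorem UDf.bex {Q : Set ZFSet.{0} → ZFSet.{0} → (Fin n → ZFSet.{0}) → Prop} (i : Fin n)
    (h : UDf fun M (w : Fin (n + 1) → ZFSet.{0}) => Q M (w 0) (Fin.tail w)) :
    UDf fun M v => ∃ a ∈ v i, Q M a v := by
  have h1 : UDf fun M v => ∃ a ∈ M, a ∈ v i ∧ Q M a v := by
    refine UDf.ex (Q := fun M a v => a ∈ v i ∧ Q M a v) (UDf.and ?_ h)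
    exact UDf.of (D0.mem (D0v.proj 0) (D0v.proj i.succ))
  refine h1.congr fun M hM v hv => ?_
  constructor
  · rintro ⟨a, -, h2, h3⟩
    exact ⟨a, h2, h3⟩
  · rintro ⟨a, h2, h3⟩
    exact ⟨a, hM.trans _ (hv i) _ h2, h2, h3⟩

theorem UDf.ball {Q : Set ZFSet.{0} → ZFSet.{0} → (Fin n → ZFSet.{0}) → Prop} (i : Fin n)
    (h : UDf fun M (w : Fin (n + 1) → ZFSet.{0}) => Q M (w 0) (Fin.tail w)) :
    UDf fun M v => ∀ a ∈ v i, Q M a v := by
  have h1 : UDf fun M v => ∃ a ∈ v i, ¬ Q M a v := UDf.bex (Q := fun M a v => ¬ Q M a v) i h.not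
  exact h1.not.congr fun M _ v _ => by
    constructor
    · intro h2 a ha
      by_contra h3
      exact h2 ⟨a, ha, h3⟩
    · rintro h2 ⟨a, ha, h3⟩
      exact h3 (h2 a ha)

end

/-! ### Semantic forcing -/

variable {P : Type} [Preorder P] [OrderTop P] (S : Sys P)

/-- In all symmetric submodels with `p` in the filter, `R` holds of the values of the names. -/
def SF {n : ℕ} (R : Set ZFSet.{0} → (Fin n → ZFSet.{0}) → Prop) (v : Fin n → PName P) (p : P) :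
    Prop :=
  ∀ π : Pkg P, S.Cld π → (∀ i, v i ∈ π.N) → (∃ k, π.g k ≤ p) → R (S.Ms π) (π.val ∘ v)

variable {S}

theorem exists_cld (S : Sys P) (A : Set (PName P)) (hA : A.Countable) (p : P) :
    ∃ π : Pkg P, S.Cld π ∧ A ⊆ π.N ∧ π.g 0 = p := by
  obtain ⟨π, h1, h2, h3⟩ := exists_pkg S.rules (Set.Finite.countable (by
    unfold Sys.rules
    exact Set.toFinite _)) A hA p
  exact ⟨π, fun ρ hρ => h3 ρ hρ, h1, h2⟩

theorem isZF_Ms {π : Pkg P} (h : S.Cld π) : IsZF (S.Ms π) :=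
  SY.T_ZF.main SY.T_TRU.main SY.T_SEP.main _ _ π h

section

variable {n : ℕ} {R : Set ZFSet.{0} → (Fin n → ZFSet.{0}) → Prop}

/-- The formula with names as parameters. -/
def up (φ : Fml Empty n) : Fml (PName P) n := φ.map Empty.elim

theorem up_over (φ : Fml Empty n) (T : Set (PName P)) : (up φ : Fml (PName P) n).Over T := by
  rw [up, over_map]
  have key : ∀ {m : ℕ} (ψ : Fml Empty m) (T : Set Empty), ψ.Over T := by
    intro m ψ T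
    induction ψ with
    | mem s t => exact ⟨fun a => a.elim, fun a => a.elim⟩
    | eq s t => exact ⟨fun a => a.elim, fun a => a.elim⟩
    | neg φ ih => exact ih
    | and φ ψ ih1 ih2 => exact ⟨ih1, ih2⟩
    | ex φ ih => exact ih
  exact key φ _

theorem up_map (φ : Fml Empty n) (f : PName P → PName P) : (up φ).map f = up φ := by
  rw [up, map_map]
  congr 1
  funext a
  exact a.elim

theorem sat_up {φ : Fml Empty n} {π : Pkg P} {v : Fin n → PName P} :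
    Sat (S.Ms π) π.val (up φ) (π.val ∘ v) ↔ Sat (S.Ms π) Empty.elim φ (π.val ∘ v) := by
  rw [up, sat_map]
  have h : (π.val ∘ (Empty.elim : Empty → PName P)) = (Empty.elim : Empty → ZFSet.{0}) := by
    funext a
    exact a.elim
  rw [h]

theorem sf_iff {φ : Fml Empty n} (hφ : ∀ M : Set ZFSet.{0}, IsZF M →
    ∀ v, (∀ i, v i ∈ M) → (Sat M Empty.elim φ v ↔ R M v)) {v : Fin n → PName P}
    (hv : ∀ i, S.HS (v i)) {p : P} : SF S R v p ↔ S.FS (up φ) v p := by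
  constructor
  · intro h
    refine S.fs_dense (up φ) v p fun q hq => ?_
    obtain ⟨π, h1, h2, h3⟩ := exists_cld S (Set.range v) (Set.countable_range v) q
    have h4 : ∀ i, v i ∈ π.N := fun i => h2 ⟨i, rfl⟩
    have h5 := h π h1 h4 ⟨0, h3.le.trans hq⟩
    have h6 := (hφ _ (isZF_Ms h1) (π.val ∘ v) fun i => ⟨v i, ⟨h4 i, hv i⟩, rfl⟩).2 h5
    obtain ⟨k, hk⟩ := (SY.T_TRU.main _ S π h1 n (up φ) (up_over φ _) v fun i =>
      ⟨h4 i, hv i⟩).1 (sat_up.2 h6)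
    exact ⟨π.g k, h3 ▸ π.g_anti (Nat.zero_le k), hk⟩
  · intro h π h1 h4 hk
    obtain ⟨k, hk⟩ := hk
    refine (hφ _ (isZF_Ms h1) (π.val ∘ v) fun i => ⟨v i, ⟨h4 i, hv i⟩, rfl⟩).1 ?_
    refine sat_up.1 ((SY.T_TRU.main _ S π h1 n (up φ) (up_over φ _) v fun i =>
      ⟨h4 i, hv i⟩).2 ⟨k, ?_⟩)
    exact Sys.FS.mono (φ := up φ) h hk

/-- The forcing theorem. -/
theorem UDf.fund (hR : UDf R) {v : Fin n → PName P} (hv : ∀ i, S.HS (v i)) {π : Pkg P}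
    (h1 : S.Cld π) (h2 : ∀ i, v i ∈ π.N) (h : R (S.Ms π) (π.val ∘ v)) :
    ∃ k, SF S R v (π.g k) := by
  obtain ⟨φ, hφ⟩ := hR
  have h6 := (hφ _ (isZF_Ms h1) (π.val ∘ v) fun i => ⟨v i, ⟨h2 i, hv i⟩, rfl⟩).2 h
  obtain ⟨k, hk⟩ := (SY.T_TRU.main _ S π h1 n (up φ) (up_over φ _) v fun i =>
    ⟨h2 i, hv i⟩).1 (sat_up.2 h6)
  exact ⟨k, (sf_iff hφ hv).2 hk⟩

theorem SF.mono {v : Fin n → PName P} {p q : P} (h : SF S R v p) (hq : q ≤ p) : SF S R v q :=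
  fun π h1 h2 ⟨k, hk⟩ => h π h1 h2 ⟨k, hk.trans hq⟩

theorem SF.dense (hR : UDf R) {v : Fin n → PName P} (hv : ∀ i, S.HS (v i)) {p : P}
    (h : ∀ q ≤ p, ∃ s ≤ q, SF S R v s) : SF S R v p := by
  obtain ⟨φ, hφ⟩ := hR
  rw [sf_iff hφ hv]
  refine S.fs_dense (up φ) v p fun q hq => ?_
  obtain ⟨s, hs, h1⟩ := h q hq
  exact ⟨s, hs, (sf_iff hφ hv).1 h1⟩

/-- It suffices to consider the models with names for more sets. -/
theorem SF.intro (hR : UDf R) {v : Fin n → PName P} (hv : ∀ i, S.HS (v i)) {p : P}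
    (A : Set (PName P)) (hA : A.Countable)
    (h : ∀ π : Pkg P, S.Cld π → (∀ i, v i ∈ π.N) → A ⊆ π.N → (∃ k, π.g k ≤ p) →
      R (S.Ms π) (π.val ∘ v)) : SF S R v p := by
  refine SF.dense hR hv fun q hq => ?_
  obtain ⟨π, h1, h2, h3⟩ := exists_cld S (A ∪ Set.range v) (hA.union (Set.countable_range v)) q
  have h4 : ∀ i, v i ∈ π.N := fun i => h2 (Or.inr ⟨i, rfl⟩)
  obtain ⟨k, hk⟩ := hR.fund hv h1 h4 (h π h1 h4 (fun x hx => h2 (Or.inl hx)) ⟨0, h3.le.trans hq⟩)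
  exact ⟨π.g k, h3 ▸ π.g_anti (Nat.zero_le k), hk⟩

theorem SF.dec (hR : UDf R) {v : Fin n → PName P} (hv : ∀ i, S.HS (v i)) (p : P) :
    ∃ q ≤ p, SF S R v q ∨ SF S (fun M v => ¬ R M v) v q := by
  obtain ⟨π, h1, h2, h3⟩ := exists_cld S (Set.range v) (Set.countable_range v) p
  have h4 : ∀ i, v i ∈ π.N := fun i => h2 ⟨i, rfl⟩
  by_cases h : R (S.Ms π) (π.val ∘ v)
  · obtain ⟨k, hk⟩ := hR.fund hv h1 h4 h
    exact ⟨π.g k, h3 ▸ π.g_anti (Nat.zero_le k), Or.inl hk⟩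
  · obtain ⟨k, hk⟩ := hR.not.fund hv h1 h4 h
    exact ⟨π.g k, h3 ▸ π.g_anti (Nat.zero_le k), Or.inr hk⟩

theorem SF.act (hR : UDf R) {v : Fin n → PName P} (hv : ∀ i, S.HS (v i)) {p : P} (g : S.G) :
    SF S R (act (S.ac g) ∘ v) (S.ac g p) ↔ SF S R v p := by
  obtain ⟨φ, hφ⟩ := hR
  rw [sf_iff hφ hv, sf_iff hφ (v := SY.act (S.ac g) ∘ v) fun i => S.hs_act (hv i) g,
    ← S.fs_act g (up φ) v p, up_map]

theorem SF.congr (hR : UDf R) {v w : Fin n → PName P} (hv : ∀ i, S.HS (v i))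
    (hw : ∀ i, S.HS (w i)) {p : P} (h : ∀ i, Feq (v i) (w i) p) : SF S R v p ↔ SF S R w p := by
  obtain ⟨φ, hφ⟩ := hR
  rw [sf_iff hφ hv, sf_iff hφ hw]
  have h1 := S.fs_congr (T := Set.univ) (f := id) (up φ) (up_over φ _) v w p
    (fun a _ => Feq.refl _ _) h
  rwa [map_id'] at h1

/-- A contradiction. -/
theorem SF.false {v : Fin n → PName P} {p : P} (h : SF S R v p)
    (h' : SF S (fun M v => ¬ R M v) v p) : False := by
  obtain ⟨π, h1, h2, h3⟩ := exists_cld S (Set.range v) (Set.countable_range v) p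
  exact h' π h1 (fun i => h2 ⟨i, rfl⟩) ⟨0, h3.le⟩ (h π h1 (fun i => h2 ⟨i, rfl⟩) ⟨0, h3.le⟩)

end

/-! ### Equality and membership -/

theorem ud_eq : UDf fun _ (v : Fin 2 → ZFSet.{0}) => v 0 = v 1 :=
  UDf.of (D0.eq (D0v.proj 0) (D0v.proj 1))

theorem ud_mem : UDf fun _ (v : Fin 2 → ZFSet.{0}) => v 0 ∈ v 1 :=
  UDf.of (D0.mem (D0v.proj 0) (D0v.proj 1))

theorem feq_of_sf {x y : PName P} {p : P} {v : Fin 2 → PName P}
    (h0 : v 0 = x) (h1 : v 1 = y) (h : SF S (fun _ (v : Fin 2 → ZFSet.{0}) => v 0 = v 1) v p) :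
    Feq x y p := by
  refine feq_dense fun q hq => ?_
  obtain ⟨π, h2, h3, h4⟩ := exists_cld S (Set.range v) (Set.countable_range v) q
  have h5 : π.val (v 0) = π.val (v 1) := h π h2 (fun i => h3 ⟨i, rfl⟩) ⟨0, h4.le.trans hq⟩
  rw [h0, h1] at h5
  obtain ⟨k, hk⟩ := (π.val_eq_iff (h0 ▸ h3 ⟨0, rfl⟩) (h1 ▸ h3 ⟨1, rfl⟩)).1 h5
  exact ⟨π.g k, h4 ▸ π.g_anti (Nat.zero_le k), hk⟩

theorem fmem_of_sf {x y : PName P} {p : P} {v : Fin 2 → PName P}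
    (h0 : v 0 = x) (h1 : v 1 = y) (h : SF S (fun _ (v : Fin 2 → ZFSet.{0}) => v 0 ∈ v 1) v p) :
    Fmem x y p := by
  refine fmem_dense fun q hq => ?_
  obtain ⟨π, h2, h3, h4⟩ := exists_cld S (Set.range v) (Set.countable_range v) q
  have h5 : π.val (v 0) ∈ π.val (v 1) := h π h2 (fun i => h3 ⟨i, rfl⟩) ⟨0, h4.le.trans hq⟩
  rw [h0, h1] at h5
  obtain ⟨k, hk⟩ := (π.val_mem_iff (h0 ▸ h3 ⟨0, rfl⟩) (h1 ▸ h3 ⟨1, rfl⟩)).1 h5
  exact ⟨π.g k, h4 ▸ π.g_anti (Nat.zero_le k), hk⟩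

theorem val_eq_of_feq {π : Pkg P} {x y : PName P} {p : P} (hx : x ∈ π.N) (hy : y ∈ π.N)
    (h : Feq x y p) (hk : ∃ k, π.g k ≤ p) : π.val x = π.val y := by
  obtain ⟨k, hk⟩ := hk
  exact (π.val_eq_iff hx hy).2 ⟨k, h.mono hk⟩

theorem val_mem_of_fmem {π : Pkg P} {x y : PName P} {p : P} (hx : x ∈ π.N) (hy : y ∈ π.N)
    (h : Fmem x y p) (hk : ∃ k, π.g k ≤ p) : π.val x ∈ π.val y := by
  obtain ⟨k, hk⟩ := hk
  exact (π.val_mem_iff hx hy).2 ⟨k, h.mono hk⟩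

end Pool.Agent.R598.CI
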