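import Pool.Agent.R598.CI.MainA
import Pool.Agent.R598.CI.Cov

/-!
# Sets whose elements have names with small supports, and Dedekind-infinite sets
-/

set_option autoImplicit false
set_option linter.unusedSectionVars false

namespace Pool.Agent.R598.CI

open Pool.Agent.W868 Pool.Agent.W868.PName Pool.Agent.R598.SY
open ZFSet (pair)

variable {K : Type} [AddCommGroup K]

/-! ### Statements -/

/-- The set `v 0` is Dedekind-infinite; `v 1` is the set of the natural numbers. -/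
def Ded (M : Set ZFSet.{0}) (v : Fin 2 → ZFSet.{0}) : Prop :=
  ∃ f ∈ M, (∀ n ∈ v 1, ∃ x ∈ v 0, pair n x ∈ f) ∧
    (∀ n ∈ v 1, ∀ m ∈ v 1, ∀ x ∈ v 0, pair n x ∈ f → pair m x ∈ f → n = m) ∧
    ∀ n ∈ v 1, ∀ x ∈ v 0, ∀ x' ∈ v 0, pair n x ∈ f → pair n x' ∈ f → x = x'

theorem ud_ded : UDf Ded := by
  refine UDf.ex (UDf.and ?_ (UDf.and ?_ ?_))
  · exact UDf.ball 2 (UDf.bex 2 (udp 1 0 2))
  · exact UDf.ball 2 (UDf.ball 3 (UDf.ball 3 (UDf.imp (udp 2 0 3) (UDf.imp (udp 1 0 3)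
      (ude 2 1)))))
  · exact UDf.ball 2 (UDf.ball 2 (UDf.ball 3 (UDf.imp (udp 2 1 3) (UDf.imp (udp 2 0 3)
      (ude 1 0)))))

theorem inj_of_ded {M : Set ZFSet.{0}} (hM : IsZF M) {X : ZFSet.{0}} (hX : X ∈ M)
    (h : Ded M ![X, ZFSet.omega]) : Inj M ZFSet.omega X := by
  obtain ⟨f, hf, h1, h2, h3⟩ := h
  refine Inj.of_rel hM hM.infinity hX (R := fun n x => pair n x ∈ f)
    (by (repeat' first | assumption | exact DfnF.proj _ | exact DfnF.const (by assumption) | apply Dfn.mem | apply hM.base.pair')) ?_ ?_ ?_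
  · exact fun n hn => h1 n hn
  · exact fun n hn x hx x' hx' a b => h3 n hn x hx x' hx' a b
  · exact fun n hn m hm x hx a b => h2 n hn m hm x hx a b

theorem ded_of_inj {M : Set ZFSet.{0}} {X : ZFSet.{0}}
    (h : Inj M ZFSet.omega X) : Ded M ![X, ZFSet.omega] := by
  obtain ⟨f, hf, h1⟩ := h
  refine ⟨f, hf, fun n hn => fun_exists h1.1 hn, ?_, ?_⟩
  · exact fun n _ m _ x _ a b => h1.2 n m x a b
  · exact fun n _ x _ x' _ a b => fun_unique h1.1 a b

/-! ### Copies -/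

section copies

variable {t : PName (Cd K)} (ht : (sys K).HS t) {E : Set (Ix K)}
  {F : Finset ℕ} (hE : Sp E F) (ht' : (sys K).Fix (bs E F) t)
  {E' : Set (Ix K)} {F' : Finset ℕ} (hEE : E ⊆ E') (hFF : F ⊆ F') (hE' : Sp E' F')
  {x : PName (Cd K)} (hx : (sys K).HS x) (hx' : (sys K).Fix (bs E' F') x)

/-- Two copies are equal. -/
def Q2 (E E' : Set (Ix K)) (F' : Finset ℕ) (x : PName (Cd K)) (b1 b2 : Cd K) : Prop :=
  ∀ σ : (sys K).G, σ ∈ bs E F' → ∀ τ : (sys K).G, τ ∈ bs E F' → Dj E E' σ τ →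
    ∀ r ≤ (sys K).ac σ b1, r ≤ (sys K).ac τ b2 →
    Feq (act ((sys K).ac σ) x) (act ((sys K).ac τ) x) r

/-- The union of the copies of a condition. -/
theorem exists_union {σ : ℕ → (sys K).G}
    (s2 : ∀ n, ∀ a ∈ E, (σ n).1.1 a = a)
    (s4 : ∀ n m, n ≠ m → ∀ a ∈ E', a ∉ E → ∀ b ∈ E', (σ n).1.1 a ≠ (σ m).1.1 b)
    {q : Cd K} (hq : q.dom ⊆ E') : ∃ q1 : Cd K, q1.s = ⋃ n, (mv (σ n).1.1 q).s := by
  refine glue (fun n => mv (σ n).1.1 q) ?_
  intro i k a l h1 h2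
  rw [mem_mv] at h1 h2
  by_cases hi : i = k
  · subst hi
    exact q.fn _ _ h1 h2
  · by_cases h3 : (σ i).1.1.symm a ∈ E
    · have h4 := s2 i _ h3
      rw [Equiv.apply_symm_apply] at h4
      have h5 : (σ k).1.1.symm a = a := by
        rw [Equiv.symm_apply_eq]
        exact (s2 k a (by rw [h4]; exact h3)).symm
      change ((σ i).1.1.symm a, l, true) ∈ q.s at h1
      change ((σ k).1.1.symm a, l, false) ∈ q.s at h2
      rw [← h4] at h1
      rw [h5] at h2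
      exact q.fn _ _ h1 h2
    · by_cases h3' : (σ k).1.1.symm a ∈ E
      · have h4 := s2 k _ h3'
        rw [Equiv.apply_symm_apply] at h4
        refine h3 ?_
        have h5 : (σ i).1.1.symm a = a := by
          rw [Equiv.symm_apply_eq]
          exact (s2 i a (by rw [h4]; exact h3')).symm
        rw [h5, h4]
        exact h3'
      · refine s4 i k hi _ (hq (Cd.mem_dom h1)) h3 _ (hq (Cd.mem_dom h2)) ?_
        rw [Equiv.apply_symm_apply, Equiv.apply_symm_apply]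

include hEE hE' hx hx' in
theorem exists_q12 {σ : ℕ → (sys K).G} (s1 : ∀ n, rt (σ n) = 0)
    (s2 : ∀ n, ∀ a ∈ E, (σ n).1.1 a = a)
    (s4 : ∀ n m, n ≠ m → ∀ a ∈ E', a ∉ E → ∀ b ∈ E', (σ n).1.1 a ≠ (σ m).1.1 b)
    {q : Cd K} (hq : q.dom ⊆ E') {i i' : ℕ} (hii' : i ≠ i') {q2 : Cd K}
    (hq1n : ∀ n, q2 ≤ (sys K).ac (σ n) q)
    (hk : Feq (act ((sys K).ac (σ i)) x) (act ((sys K).ac (σ i')) x) q2) :
    ∃ b1 b2 : Cd K, b1 ≤ q ∧ b2 ≤ q ∧ b1.dom ⊆ E' ∧ b2.dom ⊆ E' ∧ rs b1 E = rs b2 E ∧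
      Q2 E E' F' x b1 b2 := by
  have sF : ∀ n, σ n ∈ bs E F' := fun n => ⟨s2 n, fun m _ => by rw [s1 n]; rfl⟩
  have hs : ∀ n, (sys K).HS (act ((sys K).ac (σ n)) x) := fun n => (sys K).hs_act hx _
  set E1 : Set (Ix K) := (σ i).1.1 '' E' with hE1
  set E2 : Set (Ix K) := (σ i').1.1 '' E' with hE2
  have hSp : Sp (E1 ∪ E2) F' := by
    have h1 := (hE'.image (σ i)).union (hE'.image (σ i'))
    rwa [Finset.union_self] at h1
  have hk2 : Feq (act ((sys K).ac (σ i)) x) (act ((sys K).ac (σ i')) x) (rs q2 (E1 ∪ E2)) := by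
    refine feq_rs (hs i) (hs i') hSp ?_ ?_ hk
    · exact (fix_act hx' (σ i)).mono (bs_mono Set.subset_union_left (Finset.Subset.refl _))
    · exact (fix_act hx' (σ i')).mono (bs_mono Set.subset_union_right (Finset.Subset.refl _))
  have key : ∀ n, rs q2 ((σ n).1.1 '' E') ≤ mv (σ n).1.1 q := by
    intro n
    refine rs_le_of_dom (hq1n n) ?_
    rintro _ ⟨⟨a, l⟩, ha, rfl⟩
    exact ⟨(σ n).1.1.symm a, hq (Cd.mem_dom ha), Equiv.apply_symm_apply _ _⟩
  have key2 : ∀ n, mv (σ n).1.1.symm (rs q2 ((σ n).1.1 '' E')) ≤ q := by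
    intro n
    have h1 := mv_le (ρ := (σ n).1.1.symm) (key n)
    rwa [mv_symm_mv] at h1
  have key3 : ∀ n, (mv (σ n).1.1.symm (rs q2 ((σ n).1.1 '' E'))).dom ⊆ E' := by
    intro n
    rintro _ ⟨⟨a, l⟩, ha, rfl⟩
    rw [mem_mv] at ha
    obtain ⟨b, hb, h1⟩ := ha.2
    have h2 : (σ n).1.1 b = (σ n).1.1 a := h1
    rw [(σ n).1.1.injective h2] at hb
    exact hb
  have key5 : ∀ n, rs (mv (σ n).1.1.symm (rs q2 ((σ n).1.1 '' E'))) E = rs q2 E := by
    intro n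
    refine Cd.ext' (Set.ext fun x => ?_)
    obtain ⟨a, l⟩ := x
    constructor
    · rintro ⟨h1, h2⟩
      have h4 : a ∈ E := h2
      have h3 : (σ n).1.1 a = a := s2 n a h4
      have h5 : ((σ n).1.1 a, l) ∈ q2.s := h1.1
      rw [h3] at h5
      exact ⟨h5, h4⟩
    · rintro ⟨h1, h2⟩
      have h4 : a ∈ E := h2
      have h3 : (σ n).1.1 a = a := s2 n a h4
      refine ⟨⟨?_, ?_⟩, h2⟩
      · change ((σ n).1.1 a, l) ∈ q2.s
        rwa [h3]
      · exact ⟨a, hEE h4, rfl⟩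
  refine ⟨mv (σ i).1.1.symm (rs q2 E1), mv (σ i').1.1.symm (rs q2 E2), key2 i, key2 i', key3 i,
    key3 i', (key5 i).trans (key5 i').symm, ?_⟩
  intro τ1 hτ1 τ2 hτ2 hdj r hr1 hr2
  classical
  let f : Ix K → Ix K := fun a =>
    if a ∈ E1 then τ1.1.1 ((σ i).1.1.symm a) else τ2.1.1 ((σ i').1.1.symm a)
  have f1 : ∀ a ∈ E', f ((σ i).1.1 a) = τ1.1.1 a := by
    intro a ha
    have h1 : (σ i).1.1 a ∈ E1 := ⟨a, ha, rfl⟩
    simp only [f, if_pos h1, Equiv.symm_apply_apply]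
  have f2 : ∀ a ∈ E', f ((σ i').1.1 a) = τ2.1.1 a := by
    intro a ha
    by_cases h1 : (σ i').1.1 a ∈ E1
    · obtain ⟨b, hb, h2⟩ := h1
      by_cases h3 : a ∈ E
      · have h4 : (σ i').1.1 a = (σ i).1.1 a := (s2 i' a h3).trans (s2 i a h3).symm
        rw [h4, f1 a ha, hτ1.1 a h3, hτ2.1 a h3]
      · by_cases h4 : b ∈ E
        · exfalso
          apply h3
          have h5 : (σ i').1.1 a = (σ i').1.1 b := h2.symm.trans ((s2 i b h4).trans (s2 i' b h4).symm)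
          rw [(σ i').1.1.injective h5]
          exact h4
        · exact absurd h2 (s4 i i' hii' b hb h4 a ha)
    · simp only [f, if_neg h1, Equiv.symm_apply_apply]
  have hblk : ∀ τ ∈ bs E F', ∀ a ∈ E', (τ.1.1 a).1 = a.1 := by
    intro τ hτ a ha
    rw [rt_spec τ a]
    exact rot_fix (hτ.2 _ (hE'.2 a ha))
  obtain ⟨ρ, hρ1, hρ2⟩ := exists_ext 0 hSp.1 f (by
    have hdis : ∀ a ∈ E', ∀ b ∈ E', τ1.1.1 a = τ2.1.1 b → (σ i).1.1 a = (σ i').1.1 b := by
      intro a ha b hb h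
      by_cases ha' : a ∈ E
      · have h1 : τ2.1.1 b = τ2.1.1 a := by rw [← h, hτ1.1 a ha', hτ2.1 a ha']
        rw [τ2.1.1.injective h1, s2 i a ha', s2 i' a ha']
      · by_cases hb' : b ∈ E
        · have h1 : τ1.1.1 a = τ1.1.1 b := by rw [h, hτ1.1 b hb', hτ2.1 b hb']
          rw [τ1.1.1.injective h1, s2 i b hb', s2 i' b hb']
        · exact absurd h (hdj a ha ha' b hb hb')
    rintro _ (⟨a, ha, rfl⟩ | ⟨a, ha, rfl⟩) _ (⟨b, hb, rfl⟩ | ⟨b, hb, rfl⟩) h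
    · rw [f1 a ha, f1 b hb] at h
      rw [τ1.1.1.injective h]
    · rw [f1 a ha, f2 b hb] at h
      exact hdis a ha b hb h
    · rw [f2 a ha, f1 b hb] at h
      exact (hdis b hb a ha h.symm).symm
    · rw [f2 a ha, f2 b hb] at h
      rw [τ2.1.1.injective h]) (by
    rw [rot_zero]
    rintro _ (⟨a, ha, rfl⟩ | ⟨a, ha, rfl⟩)
    · rw [f1 a ha, hblk τ1 hτ1 a ha]
      exact (hblk _ (sF i) a ha).symm
    · rw [f2 a ha, hblk τ2 hτ2 a ha]
      exact (hblk _ (sF i') a ha).symm)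
  have g1 : ∀ a ∈ E', ρ.1.1 ((σ i).1.1 a) = τ1.1.1 a := fun a ha =>
    (hρ2 _ (Or.inl ⟨a, ha, rfl⟩)).trans (f1 a ha)
  have g2 : ∀ a ∈ E', ρ.1.1 ((σ i').1.1 a) = τ2.1.1 a := fun a ha =>
    (hρ2 _ (Or.inr ⟨a, ha, rfl⟩)).trans (f2 a ha)
  have e1 : Feq (act ((sys K).ac ρ) (act ((sys K).ac (σ i)) x)) (act ((sys K).ac τ1) x) r := by
    rw [← act_mul, ← (sys K).ac.map_mul]
    refine feq_of_agree hx' g1 (fun n hn => ?_) r
    have h4 : rt (ρ * σ i) n = rt ρ n + rt (σ i) n := rfl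
    rw [h4, hρ1, s1 i, hτ1.2 n hn]
    exact add_zero _
  have e2 : Feq (act ((sys K).ac ρ) (act ((sys K).ac (σ i')) x)) (act ((sys K).ac τ2) x) r := by
    rw [← act_mul, ← (sys K).ac.map_mul]
    refine feq_of_agree hx' g2 (fun n hn => ?_) r
    have h4 : rt (ρ * σ i') n = rt ρ n + rt (σ i') n := rfl
    rw [h4, hρ1, s1 i', hτ2.2 n hn]
    exact add_zero _
  have h9 := feq_act' (e := (sys K).ac ρ) hk2
  refine feq_trans (feq_trans e1.symm (h9.mono ?_)) e2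
  rw [ac_def, le_def]
  rintro ⟨a, l⟩ ⟨h1, h2⟩
  rcases h2 with ⟨b, hb, h2⟩ | ⟨b, hb, h2⟩
  · refine hr1 ?_
    have h3 : a = τ1.1.1 b := by
      rw [← g1 b hb]
      change (σ i).1.1 b = ρ.1.1.symm a at h2
      rw [h2, Equiv.apply_symm_apply]
    change ((σ i).1.1 (τ1.1.1.symm a), l) ∈ (rs q2 E1).s
    rw [h3, Equiv.symm_apply_apply]
    refine ⟨?_, ⟨b, hb, rfl⟩⟩
    change ((σ i).1.1 b, l) ∈ q2.s
    change (σ i).1.1 b = ρ.1.1.symm a at h2
    rw [h2]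
    exact h1
  · refine hr2 ?_
    have h3 : a = τ2.1.1 b := by
      rw [← g2 b hb]
      change (σ i').1.1 b = ρ.1.1.symm a at h2
      rw [h2, Equiv.apply_symm_apply]
    change ((σ i').1.1 (τ2.1.1.symm a), l) ∈ (rs q2 E2).s
    rw [h3, Equiv.symm_apply_apply]
    refine ⟨?_, ⟨b, hb, rfl⟩⟩
    change ((σ i').1.1 b, l) ∈ q2.s
    change (σ i').1.1 b = ρ.1.1.symm a at h2
    rw [h2]
    exact h1

include hE hE' in
theorem Q2.diag {b1 b2 : Cd K} (h3 : b1.dom ⊆ E') (h5 : rs b1 E = rs b2 E)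
    (h6 : Q2 E E' F' x b1 b2) : Q2 E E' F' x b2 b2 := by
  intro σ hσ τ hτ hd r hr1 hr2
  refine feq_dense fun r' hr' => ?_
  obtain ⟨ρ, hρ, hρ1, hρ2⟩ := exists_third (E := E) (E' := E')
    (D := (σ.1.1 '' E' ∪ τ.1.1 '' E') ∪ r'.dom) hE.1 hE'.1
    (((hE'.1.image _).union (hE'.1.image _)).union r'.dom_cnt) F'
  obtain ⟨s, hs1, hs2⟩ := glue3 (E := E) (E' := E') (r := r') (b := b1) (ρ := ρ.1.1) h3 hρ1
    (fun a ha ha' h => hρ2 a ha ha' (Or.inr h)) (fun a ha l hl => by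
      have h7 : (a, l) ∈ (rs b1 E).s := ⟨hl, ha⟩
      rw [h5] at h7
      refine hr' (hr1 ?_)
      change (σ.1.1.symm a, l) ∈ b2.s
      have h8 : σ.1.1.symm a = a := by
        rw [Equiv.symm_apply_eq]
        exact (hσ.1 a ha).symm
      rw [h8]
      exact h7.1)
  have d1 : Dj E E' ρ σ := fun a ha ha' b hb hb' h => hρ2 a ha ha' (Or.inl (Or.inl ⟨b, hb, h.symm⟩))
  have d2 : Dj E E' ρ τ := fun a ha ha' b hb hb' h => hρ2 a ha ha' (Or.inl (Or.inr ⟨b, hb, h.symm⟩))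
  have w1 := h6 ρ hρ σ hσ d1 s hs2 (hs1.trans (hr'.trans hr1))
  have w2 := h6 ρ hρ τ hτ d2 s hs2 (hs1.trans (hr'.trans hr2))
  exact ⟨s, hs1, feq_trans w1.symm w2⟩

include hE hE' in
theorem Q2.all {b : Cd K} (hbE : b.dom ⊆ E') (hP : Q2 E E' F' x b b) {g : (sys K).G}
    (hg : g ∈ bs E F') {r : Cd K} (h1 : r ≤ b) (h2 : r ≤ (sys K).ac g b) :
    Feq (act ((sys K).ac g) x) x r := by
  refine feq_dense fun r' hr' => ?_
  obtain ⟨ρ, hρ, hρ1, hρ2⟩ := exists_third (E := E) (E' := E')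
    (D := (g.1.1 '' E' ∪ E') ∪ r'.dom) hE.1 hE'.1
    (((hE'.1.image _).union hE'.1).union r'.dom_cnt) F'
  obtain ⟨s, hs1, hs2⟩ := glue3 (E := E) (E' := E') (r := r') (b := b) (ρ := ρ.1.1) hbE hρ1
    (fun a ha ha' h => hρ2 a ha ha' (Or.inr h)) (fun a ha l hl => (hr'.trans h1) hl)
  have d1 : Dj E E' ρ g := fun a ha ha' b hb hb' h => hρ2 a ha ha' (Or.inl (Or.inl ⟨b, hb, h.symm⟩))
  have d2 : Dj E E' ρ (1 : (sys K).G) := fun a ha ha' b hb hb' h => hρ2 a ha ha' (Or.inl (Or.inr (by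
    rw [h]
    exact hb)))
  have hone : (1 : (sys K).G) ∈ bs E F' := (bs E F').one_mem
  have hac : (sys K).ac (1 : (sys K).G) = 1 := (sys K).ac.map_one
  have e1 := hP ρ hρ g hg d1 s hs2 (hs1.trans (hr'.trans h2))
  have e2 := hP ρ hρ 1 hone d2 s hs2 (by
      rw [hac]
      exact hs1.trans (hr'.trans h1))
  rw [hac, act_one] at e2
  exact ⟨s, hs1, feq_trans e1.symm e2⟩

/-- The condition forces that the set is Dedekind-infinite. -/
def FDed (t : PName (Cd K)) (p : Cd K) : Prop := SF (sys K) Ded ![t, check ZFSet.omega] p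

theorem val2 {π : Pkg (Cd K)} {t : PName (Cd K)} :
    π.val ∘ ![t, check ZFSet.omega] = ![π.val t, ZFSet.omega] := by
  funext i
  fin_cases i
  · rfl
  · exact π.hat_omega

include ht ht' hEE hFF hE' hE hx hx' in
/-- The first step. -/
theorem step1 {q q' : Cd K} (hq' : q' ≤ q) (hm : Fmem x t q') :
    (∃ s ≤ q, FDed t s) ∨ ∃ r ≤ q', ∃ y : PName (Cd K), (sys K).HS y ∧
      (sys K).Fix (bs E F') y ∧ Feq y x r := by
  have htE : (sys K).Fix (bs E' F') t := ht'.mono (bs_mono hEE hFF)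
  set q1 := rs q' E' with hq1def
  have hq1E : q1.dom ⊆ E' := dom_rs _ _
  have hm1 : Fmem x t q1 := fmem_rs hx ht hE' hx' htE hm
  obtain ⟨σ, s1, s2, s3, s4⟩ := exists_copies (D := q.dom) hE.1 hE'.1 q.dom_cnt
  have sF : ∀ n, σ n ∈ bs E F' := fun n => ⟨s2 n, fun m _ => by rw [s1 n]; rfl⟩
  have sF0 : ∀ n, σ n ∈ bs E F := fun n => ⟨s2 n, fun m _ => by rw [s1 n]; rfl⟩
  obtain ⟨qi, hqi⟩ := exists_union (E := E) (E' := E') s2 s4 hq1E
  have hqin : ∀ n, qi ≤ (sys K).ac (σ n) q1 := by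
    intro n
    rw [ac_def, le_def, hqi]
    exact Set.subset_iUnion (fun n => (mv (σ n).1.1 q1).s) n
  have hs : ∀ n, (sys K).HS (act ((sys K).ac (σ n)) x) := fun n => (sys K).hs_act hx _
  by_cases hcase : ∃ r ≤ qi, ∃ i i' : ℕ, i ≠ i' ∧
      Feq (act ((sys K).ac (σ i)) x) (act ((sys K).ac (σ i')) x) r
  · right
    obtain ⟨r, hr, i, i', hii, he⟩ := hcase
    obtain ⟨b1, b2, h1, h2, h3, h4, h5, h6⟩ := exists_q12 (F' := F') hEE hE' hx hx' s1 s2 s4 hq1E hii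
      (fun n => hr.trans (hqin n)) he
    have h7 := h6.diag hE hE' h3 h5
    obtain ⟨r', hr1, hr2⟩ := glue4 h2 h4
    refine ⟨r', hr1, symN (sys K) (bs E F') b2 x, hs_symN (bs_mem_F (hE.mono hFF)) _ hx,
      fix_symN _ _ _, (feq_symN fun g hg s hs1 hs2 => ?_).mono hr2⟩
    exact h7.all hE hE' h4 hg hs1 hs2
  · left
    push Not at hcase
    -- compatibility with `q`
    obtain ⟨s, hs'⟩ := glue2 q qi (by
      intro a l b ha hb
      rw [hqi] at hb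
      obtain ⟨n, hn⟩ := Set.mem_iUnion.1 hb
      have hn' : ((σ n).1.1.symm a, l, !b) ∈ q1.s := hn
      by_cases h1 : (σ n).1.1.symm a ∈ E
      · have h2 : a = (σ n).1.1.symm a := by
          have h3 := s2 n _ h1
          rwa [Equiv.apply_symm_apply] at h3
        rw [← h2] at hn'
        have h3 : (a, l, !b) ∈ q'.s := hn'.1
        have h4 : (a, l, b) ∈ q'.s := hq' ha
        cases b
        · exact q'.fn _ _ h3 h4
        · exact q'.fn _ _ h4 h3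
      · have h2 := s3 n _ (hq1E (Cd.mem_dom hn')) h1
        rw [Equiv.apply_symm_apply] at h2
        exact h2 (Cd.mem_dom ha))
    have hsq : s ≤ q := by
      rw [le_def, hs']
      exact Set.subset_union_left
    have hsqi : s ≤ qi := by
      rw [le_def, hs']
      exact Set.subset_union_right
    refine ⟨s, hsq, ?_⟩
    set Ew : Set (Ix K) := ⋃ n, (σ n).1.1 '' E' with hEw
    have hSp : Sp Ew F' := by
      refine ⟨Set.countable_iUnion fun n => hE'.1.image _, fun a ha => ?_⟩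
      obtain ⟨n, hn⟩ := Set.mem_iUnion.1 ha
      exact (hE'.image (σ n)).2 a hn
    have hfix : ∀ n, (sys K).Fix (bs Ew F') (act ((sys K).ac (σ n)) x) := fun n =>
      (fix_act hx' (σ n)).mono (bs_mono (Set.subset_iUnion (fun n => (σ n).1.1 '' E') n)
        (Finset.Subset.refl _))
    have hsqN : (sys K).HS (sqN Set.univ fun n => act ((sys K).ac (σ n)) x) :=
      hs_sqN (bs_mem_F hSp) hfix hs
    refine SF.intro ud_ded (hs2 ht ((sys K).hs_check _))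
      ({sqN Set.univ fun n => act ((sys K).ac (σ n)) x} ∪
        Set.range fun n => act ((sys K).ac (σ n)) x)
      ((Set.countable_singleton _).union (Set.countable_range _)) ?_
    intro π c1 c2 cA hk
    have ct : t ∈ π.N := c2 0
    have cs : (sqN Set.univ fun n => act ((sys K).ac (σ n)) x) ∈ π.N := cA (Or.inl rfl)
    have cY : ∀ n, act ((sys K).ac (σ n)) x ∈ π.N := fun n => cA (Or.inr ⟨n, rfl⟩)
    have hks : ∀ {c : Cd K}, s ≤ c → ∃ k, π.g k ≤ c := fun h => hk.imp fun k hk => hk.trans h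
    rw [val2]
    refine ⟨π.val (sqN Set.univ fun n => act ((sys K).ac (σ n)) x), mem_Ms hsqN cs, ?_, ?_, ?_⟩
    · intro n hn
      have hn' : n ∈ ZFSet.omega := hn
      obtain ⟨n, rfl⟩ := mem_omega_iff.1 hn'
      refine ⟨π.val (act ((sys K).ac (σ n)) x), ?_, (val_sqN cY).2 ⟨trivial, rfl⟩⟩
      exact val_mem_of_fmem (cY n) ct (fmem_act_fix (fun p => ht' _ (sF0 n) p) hm1)
        (hks (hsqi.trans (hqin n)))
    · intro n hn m hm' z hz h1 h2
      have hn' : n ∈ ZFSet.omega := hn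
      have hm'' : m ∈ ZFSet.omega := hm'
      obtain ⟨n, rfl⟩ := mem_omega_iff.1 hn'
      obtain ⟨m, rfl⟩ := mem_omega_iff.1 hm''
      have h3 := ((val_sqN cY).1 h1).2.symm.trans ((val_sqN cY).1 h2).2
      by_contra hne
      have hnm : n ≠ m := fun h => hne (by rw [h])
      obtain ⟨k, hk'⟩ := (π.val_eq_iff (cY n) (cY m)).1 h3
      obtain ⟨k0, hk0⟩ := hk
      exact hcase (π.g (max k k0)) ((π.g_le_right _ _).trans (hk0.trans hsqi)) n m hnm
        (hk'.mono (π.g_le_left _ _))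
    · intro n hn z hz z' hz' h1 h2
      have hn' : n ∈ ZFSet.omega := hn
      obtain ⟨n, rfl⟩ := mem_omega_iff.1 hn'
      rw [((val_sqN cY).1 h1).2, ((val_sqN cY).1 h2).2]

end copies

end Pool.Agent.R598.CI
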