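import Pool.Agent.R598.CI.Gen
import Pool.Agent.R598.CI.Fin

/-!
# A set is Dedekind-infinite or all its elements have names with the support of the set
-/

set_option autoImplicit false
set_option linter.unusedSectionVars false

namespace Pool.Agent.R598.CI

open Pool.Agent.W868 Pool.Agent.W868.PName Pool.Agent.R598.SY Pool.Agent.R598.PM
open ZFSet (pair)

/-! ### Infinite images of the set of the natural numbers -/

theorem inj_omega_of_infinite {M : Set ZFSet.{0}} (hM : IsZF M) {X κ : ZFSet.{0}} (hX : X ∈ M)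
    (hκ : κ ∈ M) (hκo : κ.IsOrdinal) (h : Inj M X κ) (hinf : {z | z ∈ X}.Infinite) :
    Inj M ZFSet.omega X := by
  obtain ⟨τ, hτ, hτo, hτκ, hb⟩ := exists_ord hM hX hκ hκo h
  have hω := hM.infinity
  have hτω : ¬ τ ∈ ZFSet.omega := by
    intro h1
    obtain ⟨n, rfl⟩ := mem_omega_iff.1 h1
    obtain ⟨f, hf, h2⟩ := hb
    exact hinf ((finIn_iff hM (fun z hz => hM.trans _ hX _ hz)).1 ⟨n, f, hf, h2⟩)
  have h1 : ZFSet.omega ⊆ τ := by
    rcases isOrdinal_omega.mem_trichotomous hτo with h2 | h2 | h2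
    · exact hτo.subset_of_mem h2
    · rw [h2]
    · exact absurd h2 hτω
  exact Inj.trans hM hω hX (Inj.of_subset hM hω hτ h1) (Bij.symm hM hX hτ hb).inj

/-- An infinite image of the set of the natural numbers. -/
theorem inj_of_image {M : Set ZFSet.{0}} (hM : IsZF M) {X f : ZFSet.{0}} (hX : X ∈ M)
    (hf : f ∈ M) {F : ℕ → ZFSet.{0}} (hF : ∀ n, F n ∈ X)
    (hfF : ∀ n x, pair (nat n) x ∈ f ↔ x = F n) (hinf : (Set.range F).Infinite) :
    Inj M ZFSet.omega X := by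
  have hω := hM.infinity
  have hB := hM.sep_mem (Q := fun x => ∃ n ∈ ZFSet.omega, pair n x ∈ f) (by (repeat' first | assumption | exact DfnF.proj _ | exact DfnF.const (by assumption) | exact Dfn.prop _ | apply Dfn.not | apply Dfn.and | apply Dfn.or | apply Dfn.imp | apply Dfn.iff | apply hM.base.bex | apply hM.base.ball | apply Dfn.ex | apply Dfn.all | apply Dfn.eq | apply Dfn.mem | apply hM.base.pair')) hX
  set B := ZFSet.sep (fun x => ∃ n ∈ ZFSet.omega, pair n x ∈ f) X with hBdef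
  have hBm : ∀ x, x ∈ B ↔ ∃ n, x = F n := by
    intro x
    rw [hBdef, ZFSet.mem_sep]
    constructor
    · rintro ⟨-, n, hn, h⟩
      obtain ⟨n, rfl⟩ := mem_omega_iff.1 hn
      exact ⟨n, (hfF n x).1 h⟩
    · rintro ⟨n, rfl⟩
      exact ⟨hF n, nat n, mem_omega_iff.2 ⟨n, rfl⟩, (hfF n _).2 rfl⟩
  have hBinf : {z | z ∈ B}.Infinite := by
    refine hinf.mono ?_
    rintro _ ⟨n, rfl⟩
    exact (hBm _).2 ⟨n, rfl⟩
  have hinj : Inj M B ZFSet.omega := by
    refine Inj.of_rel hM hB hω (R := fun x n => pair n x ∈ f ∧ ∀ m ∈ n, ¬ pair m x ∈ f)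
      (by (repeat' first | assumption | exact DfnF.proj _ | exact DfnF.const (by assumption) | exact Dfn.prop _ | apply Dfn.not | apply Dfn.and | apply hM.base.bex | apply hM.base.ball | apply Dfn.mem | apply hM.base.pair')) ?_ ?_ ?_
    · intro x hx
      obtain ⟨n, rfl⟩ := (hBm x).1 hx
      obtain ⟨m, ⟨hm, hm'⟩, hmin⟩ := ZFSet.mem_wf.has_min
        {m | m ∈ ZFSet.omega ∧ pair m (F n) ∈ f} ⟨nat n, mem_omega_iff.2 ⟨n, rfl⟩, (hfF n _).2 rfl⟩
      refine ⟨m, hm, hm', fun k hk h => hmin k ⟨?_, h⟩ hk⟩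
      exact isOrdinal_omega.mem_trans hk hm
    · rintro x hx n hn m hm ⟨h1, h2⟩ ⟨h3, h4⟩
      rcases (isOrdinal_omega.mem hn).mem_trichotomous (isOrdinal_omega.mem hm) with h5 | h5 | h5
      · exact absurd h1 (h4 n h5)
      · exact h5
      · exact absurd h3 (h2 m h5)
    · rintro x hx y hy n hn ⟨h1, -⟩ ⟨h2, -⟩
      obtain ⟨n, rfl⟩ := mem_omega_iff.1 hn
      rw [(hfF n _).1 h1, (hfF n _).1 h2]
  have hBX : B ⊆ X := fun x hx => (ZFSet.mem_sep.1 hx).1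
  exact Inj.trans hM hω hX (inj_omega_of_infinite hM hB hω isOrdinal_omega hinj hBinf)
    (Inj.of_subset hM hB hX hBX)

variable {K : Type} [AddCommGroup K]

section gen

variable {t : PName (Cd K)} (ht : (sys K).HS t) {E : Set (Ix K)}
  {F : Finset ℕ} (hE : Sp E F) (ht' : (sys K).Fix (bs E F) t)

include ht hE ht' in
/-- The second step. -/
theorem step2 {b : Cd K} (hb : b.dom ⊆ E) {F' : Finset ℕ} (hFF : F ⊆ F') {x : PName (Cd K)}
    (hx : (sys K).HS x) (hx' : (sys K).Fix (bs E F') x) (hm : Fmem x t b)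
    {φ : ℚ →+ (ℕ → K)} (hφ : ∀ q, ∀ n ∈ F, φ q n = 0)
    (hne : SF (sys K) (fun _ (v : Fin 2 → ZFSet.{0}) => ¬ v 0 = v 1)
      ![act ((sys K).ac (ro (φ 1))) x, x] b) : FDed t b := by
  obtain ⟨r, hr⟩ := exists_surjective_nat ℚ
  let Yq : ℚ → PName (Cd K) := fun q => act ((sys K).ac (ro (φ q))) x
  have hYs : ∀ q, (sys K).HS (Yq q) := fun q => (sys K).hs_act hx _
  have hYF : ∀ q, (sys K).Fix (bs E F') (Yq q) := fun q => fix_ro hx' hE (hφ q)
  have hSp : Sp E F' := hE.mono hFF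
  have hsq : (sys K).HS (sqN Set.univ fun n => Yq (r n)) :=
    hs_sqN (bs_mem_F hSp) (fun n => hYF _) fun n => hYs _
  refine SF.intro ud_ded (hs2 ht ((sys K).hs_check _))
    ({sqN Set.univ fun n => Yq (r n)} ∪ Set.range Yq)
    ((Set.toFinite _).countable.union (Set.countable_range _)) ?_
  intro π c1 c2 cA hk
  have ct : t ∈ π.N := c2 0
  have cs : (sqN Set.univ fun n => Yq (r n)) ∈ π.N := cA (Or.inl rfl)
  have cY : ∀ q, Yq q ∈ π.N := fun q => cA (Or.inr ⟨q, rfl⟩)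
  have hM := isZF_Ms c1
  have hYt : ∀ q, Fmem (Yq q) t b := by
    intro q
    have h1 := fmem_act_fix (fun p => ht' _ (ro_mem (hφ q) hE) p) hm
    rwa [ac_ro_of_dom (hφ q) hE hb] at h1
  have hy : ∀ q, π.val (Yq q) ∈ π.val t := fun q => val_mem_of_fmem (cY q) ct (hYt q) hk
  have hact : ∀ a c, act ((sys K).ac (ro (φ c))) (Yq a) = Yq (c + a) := by
    intro a c
    change act ((sys K).ac (ro (φ c))) (act ((sys K).ac (ro (φ a))) x) =
      act ((sys K).ac (ro (φ (c + a)))) x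
    rw [← act_mul, ← (sys K).ac.map_mul, ro_mul, ← φ.map_add]
  have hom : ∀ (a d c : ℚ), π.val (Yq a) = π.val (Yq d) →
      π.val (Yq (c + a)) = π.val (Yq (c + d)) := by
    intro a d c h1
    obtain ⟨k', hk'⟩ := (π.val_eq_iff (cY a) (cY d)).1 h1
    have h2 := feq_rs (hYs a) (hYs d) hSp (hYF a) (hYF d) hk'
    have h3 := feq_act' (e := (sys K).ac (ro (φ c))) h2
    rw [ac_ro_of_dom (hφ c) hE (dom_rs _ _), hact, hact] at h3
    exact val_eq_of_feq (cY _) (cY _) h3 ⟨k', le_rs _ _⟩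
  have hY0 : Yq 0 = x := by
    change act ((sys K).ac (ro (φ 0))) x = x
    rw [φ.map_zero, ro_zero, (sys K).ac.map_one, act_one]
  have cx : x ∈ π.N := hY0 ▸ cY 0
  have hne' : π.val (Yq 1) ≠ π.val (Yq 0) := by
    rw [hY0]
    exact hne π c1 (by
      intro i
      fin_cases i
      · exact cY 1
      · exact cx) hk
  rw [val2]
  refine ded_of_inj ?_
  have hX := mem_Ms ht ct
  have hf := mem_Ms hsq cs
  refine inj_of_image hM hX hf (F := fun n => π.val (Yq (r n))) (fun n => hy _) (fun n x => ?_) ?_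
  · rw [val_sqN (fun n => cY (r n))]
    exact ⟨fun h => h.2, fun h => ⟨trivial, h⟩⟩
  · let H : AddSubgroup ℚ :=
      { carrier := {q | π.val (Yq q) = π.val (Yq 0)}
        zero_mem' := rfl
        add_mem' := fun {a c} ha hc => by
          have h1 := hom c 0 a hc
          rw [add_zero] at h1
          exact h1.trans ha
        neg_mem' := fun {a} ha => by
          have h1 := hom a 0 (-a) ha
          rw [neg_add_cancel, add_zero] at h1
          exact h1.symm }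
    have hH1 : (1 : ℚ) ∉ H := fun h => hne' h
    intro hfin
    obtain ⟨g, hg⟩ := exists_inf H hH1 (hfin.toFinset.card + 1)
    have hmem : ∀ q, π.val (Yq q) ∈ hfin.toFinset := by
      intro q
      obtain ⟨n, rfl⟩ := hr q
      exact hfin.mem_toFinset.2 ⟨n, rfl⟩
    obtain ⟨i, -, i', -, hii, h1⟩ := Finset.exists_ne_map_eq_of_card_lt_of_maps_to
      (s := Finset.univ) (t := hfin.toFinset) (f := fun i => π.val (Yq (g i)))
      (by rw [Finset.card_univ, Fintype.card_fin]; omega) (fun i _ => hmem _)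
    refine hg i i' hii ?_
    have h2 := hom (g i) (g i') (-g i') h1
    rw [neg_add_cancel, neg_add_eq_sub] at h2
    exact h2

include ht hE ht' in
/-- The dichotomy. -/
theorem gen (hK : ∀ (F : Finset ℕ) (g : ℕ → K), (∀ n ∈ F, g n = 0) →
      ∃ φ : ℚ →+ (ℕ → K), φ 1 = g ∧ ∀ q, ∀ n ∈ F, φ q n = 0) (q : Cd K) :
    (∃ s ≤ q, FDed t s) ∨ ∀ q' ≤ q, ∀ z, (sys K).HS z → Fmem z t q' → ∃ r ≤ q', ∃ x,
      (sys K).HS x ∧ (sys K).Fix (bs E F) x ∧ Feq x z r := by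
  by_cases hcon : ∃ s ≤ q, FDed t s
  · exact Or.inl hcon
  right
  intro q' hq' z hz hm
  obtain ⟨_, ⟨E1, F1, hE1, rfl⟩, hz1⟩ := hz.sym
  have hE' : Sp (E ∪ E1) (F ∪ F1) := hE.union hE1
  have hz' : (sys K).Fix (bs (E ∪ E1) (F ∪ F1)) z :=
    hz1.mono (bs_mono Set.subset_union_right Finset.subset_union_right)
  have hFF : F ⊆ F ∪ F1 := Finset.subset_union_left
  obtain h1 | ⟨r, hr, y, hy, hy', he⟩ := step1 ht hE ht' Set.subset_union_left hFF hE' hz hz' hq' hm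
  · exact absurd h1 hcon
  have hSp : Sp E (F ∪ F1) := hE.mono hFF
  have ht2 : (sys K).Fix (bs E (F ∪ F1)) t := ht'.mono (bs_mono (Set.Subset.refl _) hFF)
  have h2 : Fmem y t (rs r E) := fmem_rs hy ht hSp hy' ht2
    (fmem_congr he.symm (Feq.refl _ _) (hm.mono hr))
  by_cases hR : ∀ g : ℕ → K, (∀ n ∈ F, g n = 0) → Feq (act ((sys K).ac (ro g)) y) y (rs r E)
  · refine ⟨r, hr, symN (sys K) (bs E F) (rs r E) y, hs_symN (bs_mem_F hE) _ hy,
      fix_symN _ _ _, feq_trans ((feq_symN fun g hg s hs1 hs2 => ?_).mono (le_rs r E)) he⟩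
    exact feq_trans (feq_ro hy' hE hg s) ((hR (rt g) hg.2).mono hs1)
  · exfalso
    push Not at hR
    obtain ⟨g, hg, hn⟩ := hR
    have hgx := (sys K).hs_act hy (ro g)
    have h3 : ∃ q2 ≤ rs r E, SF (sys K) (fun _ (v : Fin 2 → ZFSet.{0}) => ¬ v 0 = v 1)
        ![act ((sys K).ac (ro g)) y, y] q2 := by
      by_contra hc
      push Not at hc
      apply hn
      refine feq_dense fun p hp => ?_
      obtain ⟨q2, hq2, h4 | h4⟩ := SF.dec ud_eq (hs2 hgx hy) p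
      · exact ⟨q2, hq2, feq_of_sf rfl rfl h4⟩
      · exact absurd h4 (hc q2 (hq2.trans hp))
    obtain ⟨q2, hq2, h4⟩ := h3
    have h7 : SF (sys K) (fun _ (v : Fin 2 → ZFSet.{0}) => ¬ v 0 = v 1)
        ![act ((sys K).ac (ro g)) y, y] (rs q2 E) := by
      refine sf_rs ud_eq.not (hs2 hgx hy) hSp ?_ h4
      intro i
      fin_cases i
      · exact fix_ro hy' hE hg
      · exact hy'
    have h6 : rs q2 E ≤ rs r E := rs_le_of_dom hq2 (dom_rs r E)
    obtain ⟨φ, hφ1, hφ⟩ := hK F g hg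
    rw [← hφ1] at h7
    have h8 := step2 ht hE ht' (dom_rs q2 E) hFF hy hy' (h2.mono h6) hφ h7
    have h9 : rs q2 E ≤ rs q E := h6.trans (rs_mono (hr.trans hq') E)
    obtain ⟨s, hs1, hs2⟩ := glue4 h9 (dom_rs q2 E)
    exact hcon ⟨s, hs1, h8.mono hs2⟩

/-! ### Sets of elements with the same support are well-orderable -/

/-- The set `v 0` is the image of a set of ordinals. -/
def WOs (M : Set ZFSet.{0}) (v : Fin 1 → ZFSet.{0}) : Prop :=
  ∃ f ∈ M, ∃ κ ∈ M, κ.IsOrdinal ∧ (∀ x ∈ v 0, ∃ α ∈ κ, pair α x ∈ f) ∧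
    ∀ α ∈ κ, ∀ x ∈ v 0, ∀ x' ∈ v 0, pair α x ∈ f → pair α x' ∈ f → x = x'

theorem ud_wos : UDf WOs := by
  refine UDf.ex (UDf.ex (UDf.and ?_ (UDf.and ?_ ?_)))
  · exact UDf.of (D0.isOrdinal (D0v.proj 0))
  · exact UDf.ball 2 (UDf.bex 1 (udp 0 1 3))
  · exact UDf.ball 0 (UDf.ball 3 (UDf.ball 4 (UDf.imp (udp 2 1 4) (UDf.imp (udp 2 0 4)
      (ude 1 0)))))

theorem inj_of_wos {M : Set ZFSet.{0}} (hM : IsZF M) {X : ZFSet.{0}} (hX : X ∈ M)
    (h : WOs M ![X]) : ∃ κ ∈ M, κ.IsOrdinal ∧ Inj M X κ := by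
  obtain ⟨f, hf, κ, hκ, hκo, h1, h2⟩ := h
  refine ⟨κ, hκ, hκo, ?_⟩
  refine Inj.of_rel hM hX hκ (R := fun x n => pair n x ∈ f ∧ ∀ m ∈ n, ¬ pair m x ∈ f)
    (by (repeat' first | assumption | exact DfnF.proj _ | exact DfnF.const (by assumption) | exact Dfn.prop _ | apply Dfn.not | apply Dfn.and | apply hM.base.bex | apply hM.base.ball | apply Dfn.mem | apply hM.base.pair')) ?_ ?_ ?_
  · intro x hx
    obtain ⟨α, hα, hαx⟩ := h1 x hx
    obtain ⟨m, ⟨hm, hm'⟩, hmin⟩ := ZFSet.mem_wf.has_min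
      {m | m ∈ κ ∧ pair m x ∈ f} ⟨α, hα, hαx⟩
    exact ⟨m, hm, hm', fun k hk h => hmin k ⟨hκo.mem_trans hk hm, h⟩ hk⟩
  · rintro x hx n hn m hm ⟨h1, h2⟩ ⟨h3, h4⟩
    rcases (hκo.mem hn).mem_trichotomous (hκo.mem hm) with h5 | h5 | h5
    · exact absurd h1 (h4 n h5)
    · exact h5
    · exact absurd h3 (h2 m h5)
  · rintro x hx y hy n hn ⟨h3, -⟩ ⟨h4, -⟩
    exact h2 n hn x hx y hy h3 h4

theorem wos_of_inj {M : Set ZFSet.{0}} (hM : IsZF M) {X κ : ZFSet.{0}} (hX : X ∈ M) (hκ : κ ∈ M)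
    (hκo : κ.IsOrdinal) (h : Inj M X κ) : WOs M ![X] := by
  obtain ⟨f, hf, h1⟩ := h
  have hg := hM.sep_mem (Q := fun w => ∃ x ∈ X, ∃ α ∈ κ, w = pair α x ∧ pair x α ∈ f)
    (by (repeat' first | assumption | exact DfnF.proj _ | exact DfnF.const (by assumption) | exact Dfn.prop _ | apply Dfn.not | apply Dfn.and | apply hM.base.bex | apply hM.base.ball | apply Dfn.eq | apply Dfn.mem | apply hM.base.pair')) (hM.prod_mem hκ hX)
  refine ⟨_, hg, κ, hκ, hκo, fun x hx => ?_, fun α hα x hx x' hx' h2 h3 => ?_⟩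
  · obtain ⟨α, hα, h2⟩ := fun_exists h1.1 hx
    exact ⟨α, hα, ZFSet.mem_sep.2 ⟨ZFSet.pair_mem_prod.2 ⟨hα, hx⟩, x, hx, α, hα, rfl, h2⟩⟩
  · obtain ⟨-, y, hy, β, hβ, h4, h5⟩ := ZFSet.mem_sep.1 h2
    obtain ⟨-, y', hy', β', hβ', h4', h5'⟩ := ZFSet.mem_sep.1 h3
    obtain ⟨rfl, rfl⟩ := ZFSet.pair_inj.1 h4
    obtain ⟨rfl, rfl⟩ := ZFSet.pair_inj.1 h4'
    exact h1.2 _ _ _ h5 h5'

include ht hE ht' in
theorem wo_of_small {q : Cd K} (h : ∀ q' ≤ q, ∀ z, (sys K).HS z → Fmem z t q' → ∃ r ≤ q', ∃ x,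
      (sys K).HS x ∧ (sys K).Fix (bs E F) x ∧ Feq x z r) : SF (sys K) WOs ![t] q := by
  classical
  let I : Type := {i : t.idx × Cd K // ∃ x, (sys K).HS x ∧ (sys K).Fix (bs E F) x ∧
    Feq x (t.chd i.1) i.2}
  let Y : I → PName (Cd K) := fun i => i.2.choose
  have hYs : ∀ i, (sys K).HS (Y i) := fun i => i.2.choose_spec.1
  have hYF : ∀ i, (sys K).Fix (bs E F) (Y i) := fun i => i.2.choose_spec.2.1
  have hYe : ∀ i : I, Feq (Y i) (t.chd i.1.1) i.1.2 := fun i => i.2.choose_spec.2.2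
  let o : I → Ordinal.{0} := fun i => Ordinal.typein (α := I) WellOrderingRel i
  have ho : Function.Injective o := Ordinal.typein_injective WellOrderingRel
  let N1 : PName (Cd K) := PName.mk I (fun i => opN (check (o i).toZFSet) (Y i))
    (fun i => rs i.1.2 E)
  have el1 : ∀ z c, El N1 z c ↔ ∃ i, z = opN (check (o i).toZFSet) (Y i) ∧ c = rs i.1.2 E := by
    intro z c
    rw [el_mk]
    constructor
    · rintro ⟨i, rfl, rfl⟩
      exact ⟨i, rfl, rfl⟩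
    · rintro ⟨i, rfl, rfl⟩
      exact ⟨i, rfl, rfl⟩
  have hrs : ∀ g : (sys K).G, g ∈ bs E F → ∀ c : Cd K, (sys K).ac g (rs c E) = rs c E :=
    fun g hg c => mv_eq_of_dom fun a ha => hg.1 a (dom_rs c E ha)
  have hfix : (sys K).Fix (bs E F) N1 := by
    intro g hg p
    rw [feq_iff']
    constructor
    · intro z c hz r hr hrc
      obtain ⟨z, c, hz', rfl, rfl⟩ := el_act.1 hz
      obtain ⟨i, rfl, rfl⟩ := (el1 _ _).1 hz'
      rw [hrs g hg] at hrc
      refine ⟨r, le_rfl, _, _, (el1 _ _).2 ⟨i, rfl, rfl⟩, hrc, ?_⟩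
      rw [act_opN ((sys K).top g), act_check ((sys K).top g)]
      exact feq_opN (Feq.refl _ _) (hYF i g hg r)
    · intro z c hz r hr hrc
      obtain ⟨i, rfl, rfl⟩ := (el1 _ _).1 hz
      refine ⟨r, le_rfl, _, _, el_act.2 ⟨_, _, (el1 _ _).2 ⟨i, rfl, rfl⟩, rfl, rfl⟩, ?_, ?_⟩
      · rw [hrs g hg]
        exact hrc
      · rw [act_opN ((sys K).top g), act_check ((sys K).top g)]
        exact feq_opN (Feq.refl _ _) (hYF i g hg r)
  have hN1 : (sys K).HS N1 := by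
    refine (sys K).hs_iff.2 ⟨⟨_, bs_mem_F hE, hfix⟩, fun z c hz => ?_⟩
    obtain ⟨i, rfl, rfl⟩ := (el1 _ _).1 hz
    exact (sys K).hs_opN ((sys K).hs_check _) (hYs i)
  let κ0 : ZFSet.{0} := (Ordinal.type (WellOrderingRel : I → I → Prop)).toZFSet
  -- the values
  have hval : ∀ (π : Pkg (Cd K)) (i : I) (w : ZFSet.{0}), (o i).toZFSet ∈ π.Z →
      pair (π.hat (o i).toZFSet) w ∈ π.val N1 → w = π.val (Y i) := by
    intro π i w hi hw
    obtain ⟨y, hy, c, hc, hk, he⟩ := π.mem_val.1 hw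
    obtain ⟨i', rfl, rfl⟩ := (el1 _ _).1 hc
    rw [π.val_opN (π.fst_mem hy) (π.snd_mem hy)] at he
    obtain ⟨h1, h2⟩ := ZFSet.pair_inj.1 he
    have h3 : (o i').toZFSet = (o i).toZFSet := (π.hat_inj (π.fst_mem hy) hi).1 h1
    have h4 : i' = i := ho (Ordinal.toZFSet_injective h3)
    rw [← h2, h4]
  -- the domain
  have hu : UDf fun _ (v : Fin 3 → ZFSet.{0}) => ¬ ∃ α ∈ v 1, pair α (v 0) ∈ v 2 :=
    UDf.not (UDf.bex 1 (udp 0 1 3))
  have hcovd : ∀ (π : Pkg (Cd K)), (sys K).Cld π → t ∈ π.N → N1 ∈ π.N → κ0 ∈ π.Z →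
      (∃ k, π.g k ≤ q) → ∀ x ∈ π.val t, ∃ α ∈ π.hat κ0, pair α x ∈ π.val N1 := by
    intro π c1 ct cN cκ ⟨k0, hk0⟩ x hx
    by_contra hcon
    obtain ⟨z, hz, c, hc, hkc, rfl⟩ := π.mem_val.1 hx
    have hzs : (sys K).HS z := ht.el hc
    have hv : ∀ i, (sys K).HS ((![z, check κ0, N1] : Fin 3 → PName (Cd K)) i) := by
      intro i
      fin_cases i
      · exact hzs
      · exact (sys K).hs_check _
      · exact hN1
    obtain ⟨k, hk⟩ := hu.fund hv c1 (by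
      intro i
      fin_cases i
      · exact hz
      · exact cκ
      · exact cN) hcon
    obtain ⟨k1, hk1⟩ := (π.val_mem_iff hz ct).1 hx
    set m := max k0 (max k k1)
    have g0 : π.g m ≤ q := (π.g_le_left _ _).trans hk0
    have g1 : π.g m ≤ π.g k := (π.g_le_right _ _).trans (π.g_le_left _ _)
    have g2 : π.g m ≤ π.g k1 := (π.g_le_right _ _).trans (π.g_le_right _ _)
    obtain ⟨r, hr, y, hy, hyF, he⟩ := h _ g0 z hzs (hk1.mono g2)
    obtain ⟨j, hj1, hj2⟩ : ∃ j, t.chd j = z ∧ t.cnd j = c := by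
      cases t with
      | mk ι a b =>
        obtain ⟨i, rfl, rfl⟩ := hc
        exact ⟨i, rfl, rfl⟩
    have hi : ∃ x, (sys K).HS x ∧ (sys K).Fix (bs E F) x ∧ Feq x (t.chd j) r :=
      ⟨y, hy, hyF, hj1 ▸ he⟩
    let i : I := ⟨(j, r), hi⟩
    obtain ⟨π', d1, d2, d3⟩ := exists_cld (sys K)
      {z, check κ0, N1, Y i, check (o i).toZFSet} (Set.toFinite _).countable r
    have m1 : z ∈ π'.N := d2 (Or.inl rfl)
    have m2 : κ0 ∈ π'.Z := d2 (Or.inr (Or.inl rfl))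
    have m3 : N1 ∈ π'.N := d2 (Or.inr (Or.inr (Or.inl rfl)))
    have m4 : Y i ∈ π'.N := d2 (Or.inr (Or.inr (Or.inr (Or.inl rfl))))
    have m5 : (o i).toZFSet ∈ π'.Z := d2 (Or.inr (Or.inr (Or.inr (Or.inr rfl))))
    refine hk π' d1 (by
      intro i
      fin_cases i
      · exact m1
      · exact m2
      · exact m3) ⟨0, d3.le.trans (hr.trans g1)⟩ ?_
    refine ⟨π'.hat (o i).toZFSet, ?_, ?_⟩
    · refine (π'.hat_mem_hat m5 m2).2 (Ordinal.toZFSet_mem_toZFSet_iff.2 ?_)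
      exact Ordinal.typein_lt_type _ _
    · change pair (π'.hat (o i).toZFSet) (π'.val z) ∈ π'.val N1
      have h1 : π'.val (Y i) = π'.val z := by
        have h2 : Feq (Y i) z r := by
          have h3 := hYe i
          have h4 : t.chd i.1.1 = z := hj1
          rwa [h4] at h3
        exact val_eq_of_feq m4 m1 h2 ⟨0, d3.le⟩
      rw [← h1]
      have h3 : π'.val (opN (check (o i).toZFSet) (Y i)) =
          pair (π'.hat (o i).toZFSet) (π'.val (Y i)) := π'.val_opN m5 m4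
      rw [← h3]
      refine π'.val_mem_val (n := 0) (π'.opN_mem m5 m4) ((el1 _ _).2 ⟨i, rfl, rfl⟩) ?_
      rw [d3]
      exact le_rs r E
  refine SF.intro ud_wos (by
    intro i
    fin_cases i
    exact ht) {N1, check κ0} (Set.toFinite _).countable ?_
  intro π c1 c2 cA hk
  have ct : t ∈ π.N := c2 0
  have cN : N1 ∈ π.N := cA (Or.inl rfl)
  have cκ : κ0 ∈ π.Z := cA (Or.inr rfl)
  refine ⟨π.val N1, mem_Ms hN1 cN, π.hat κ0, hat_mem_Ms cκ,
    π.hat_isOrdinal (ZFSet.isOrdinal_toZFSet _), ?_, ?_⟩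
  · exact hcovd π c1 ct cN cκ hk
  · intro α hα x hx x' hx' h1 h2
    obtain ⟨y, hy, c, hc, hk, he⟩ := π.mem_val.1 h1
    obtain ⟨i, rfl, rfl⟩ := (el1 _ _).1 hc
    rw [π.val_opN (π.fst_mem hy) (π.snd_mem hy)] at he
    obtain ⟨h3, h4⟩ := ZFSet.pair_inj.1 he
    have h5 : π.hat (o i).toZFSet = α := h3
    rw [← h5] at h1 h2
    rw [hval π i x (π.fst_mem hy) h1, hval π i x' (π.fst_mem hy) h2]

end gen

/-! ### The set of statements in the model -/

/-- Every infinite set is Dedekind-infinite. -/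
theorem idi (hK : ∀ (F : Finset ℕ) (g : ℕ → K), (∀ n ∈ F, g n = 0) →
      ∃ φ : ℚ →+ (ℕ → K), φ 1 = g ∧ ∀ q, ∀ n ∈ F, φ q n = 0)
    {π : Pkg (Cd K)} (c1 : (sys K).Cld π) {X : ZFSet.{0}} (hX : X ∈ (sys K).Ms π)
    (hinf : ¬ FinIn ((sys K).Ms π) X) : Inj ((sys K).Ms π) ZFSet.omega X := by
  have hM := isZF_Ms c1
  have hXM := hX
  obtain ⟨t, ⟨ct, ht⟩, rfl⟩ := hX
  by_contra hcon
  have hnd : ¬ Ded ((sys K).Ms π) ![π.val t, ZFSet.omega] := fun h =>
    hcon (inj_of_ded hM hXM h)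
  rw [← val2] at hnd
  have hin : ∀ i, (![t, check ZFSet.omega] : Fin 2 → PName (Cd K)) i ∈ π.N := by
    intro i
    fin_cases i
    · exact ct
    · exact π.omega_Z
  obtain ⟨k, hk⟩ := ud_ded.not.fund (hs2 ht ((sys K).hs_check _)) c1 hin hnd
  obtain ⟨_, ⟨E, F, hE, rfl⟩, ht'⟩ := ht.sym
  rcases gen ht hE ht' hK (π.g k) with ⟨s, hs, h1⟩ | h1
  · exact SF.false h1 (hk.mono hs)
  · have h2 := wo_of_small ht hE ht' h1 π c1 (by
      intro i
      fin_cases i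
      exact ct) ⟨k, le_rfl⟩
    have h3 : π.val ∘ ![t] = ![π.val t] := by
      funext i
      fin_cases i
      rfl
    rw [h3] at h2
    obtain ⟨κ, hκ, hκo, h4⟩ := inj_of_wos hM hXM h2
    refine hcon (inj_omega_of_infinite hM hXM hκ hκo h4 fun h5 => hinf ?_)
    exact (finIn_iff hM fun z hz => hM.trans _ hXM _ hz).2 h5

end Pool.Agent.R598.CI
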