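import Pool.Agent.R598.CI.Case2

/-!
# Each compact metric space is separable or has an uncountable separable closed subset
-/

set_option autoImplicit false
set_option linter.unusedSectionVars false

namespace Pool.Agent.R598.CI

open Pool.Agent.W868 Pool.Agent.W868.PName Pool.Agent.R598.SY
open ZFSet (pair)

variable {K : Type} [AddCommGroup K]

section

variable {t u : PName (Cd K)} (ht : (sys K).HS t) (hu : (sys K).HS u) {E : Set (Ix K)}
  {F : Finset ℕ} (hE : Sp E F) (ht' : (sys K).Fix (bs E F) t) (hu' : (sys K).Fix (bs E F) u)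
  {b : Cd K} (hb : b.dom ⊆ E) (hG : FCG t u b)
  {F' : Finset ℕ} (hFF : F ⊆ F') {x : PName (Cd K)} (hx : (sys K).HS x)
  (hx' : (sys K).Fix (bs E F') x) (hm : Fmem x t b)
  {φ : ℚ →+ (ℕ → K)} (hφ : ∀ q, ∀ n ∈ F, φ q n = 0)
  (hne : SF (sys K) (fun _ (v : Fin 2 → ZFSet.{0}) => ¬ v 0 = v 1)
    ![act ((sys K).ac (ro (φ 1))) x, x] b)

theorem ac_ro_of_dom {g : ℕ → K} (hg : ∀ n ∈ F, g n = 0) (hE : Sp E F) {b : Cd K}
    (hb : b.dom ⊆ E) : (sys K).ac (ro g) b = b :=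
  mv_eq_of_dom fun _ ha => ro_fix hg hE (hb ha)

theorem val3 {π : Pkg (Cd K)} {t u : PName (Cd K)} :
    π.val ∘ ![t, u, check ZFSet.omega] = ![π.val t, π.val u, ZFSet.omega] := by
  funext i
  fin_cases i
  · rfl
  · rfl
  · exact π.hat_omega

include ht hu hE ht' hu' hb hG hFF hx hx' hm hφ hne in
theorem case2 : SF (sys K) Inter ![t, u, check ZFSet.omega] b := by
  obtain ⟨r, hr⟩ := exists_surjective_nat ℚ
  let Yq : ℚ → PName (Cd K) := fun q => act ((sys K).ac (ro (φ q))) x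
  have hYs : ∀ q, (sys K).HS (Yq q) := fun q => (sys K).hs_act hx _
  have hYF : ∀ q, (sys K).Fix (bs E F') (Yq q) := fun q => fix_ro hx' hE (hφ q)
  have hSp : Sp E F' := hE.mono hFF
  have hu2 : (sys K).Fix (bs E F') u := hu'.mono (bs_mono (Set.Subset.refl _) hFF)
  have hsq : (sys K).HS (sqN Set.univ fun n => Yq (r n)) :=
    hs_sqN (bs_mem_F hSp) (fun n => hYF _) fun n => hYs _
  refine SF.intro ud_inter (hs3 ht hu) ({sqN Set.univ fun n => Yq (r n), check hS} ∪ Set.range Yq)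
    ((Set.toFinite _).countable.union (Set.countable_range _)) ?_
  intro π c1 c2 cA hk
  have ct : t ∈ π.N := c2 0
  have cu : u ∈ π.N := c2 1
  have cs : (sqN Set.univ fun n => Yq (r n)) ∈ π.N := cA (Or.inl (Or.inl rfl))
  have cS : hS ∈ π.Z := cA (Or.inl (Or.inr rfl))
  have cY : ∀ q, Yq q ∈ π.N := fun q => cA (Or.inr ⟨q, rfl⟩)
  have hM := isZF_Ms c1
  have hYt : ∀ q, Fmem (Yq q) t b := by
    intro q
    have h1 := fmem_act_fix (fun p => ht' _ (ro_mem (hφ q) hE) p) hm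
    rwa [ac_ro_of_dom (hφ q) hE hb] at h1
  have hy : ∀ q, π.val (Yq q) ∈ π.val t := fun q => val_mem_of_fmem (cY q) ct (hYt q) hk
  have hact : ∀ a c p, Feq (act ((sys K).ac (ro (φ c))) (Yq a)) (Yq (c + a)) p := by
    intro a c p
    have h1 : act ((sys K).ac (ro (φ c))) (Yq a) = Yq (c + a) := by
      change act ((sys K).ac (ro (φ c))) (act ((sys K).ac (ro (φ a))) x) =
        act ((sys K).ac (ro (φ (c + a)))) x
      rw [← act_mul, ← (sys K).ac.map_mul, ro_mul, ← φ.map_add]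
    rw [h1]
    exact Feq.refl _ _
  have hom : ∀ (j : ℕ) (a d c : ℚ), Wj (π.val u) j (π.val (Yq a)) (π.val (Yq d)) →
      Wj (π.val u) j (π.val (Yq (c + a))) (π.val (Yq (c + d))) := by
    intro j a d c h1
    obtain ⟨k', hk'⟩ := FW.fund hu (hYs a) (hYs d) c1 cu (cY a) (cY d) h1
    have h2 := FW.rs hu (hYs a) (hYs d) hSp hu2 (hYF a) (hYF d) hk'
    have h3 := FW.move hu (hYs a) (hYs d) (hYs (c + a)) (hYs (c + d)) (ro (φ c))
      (fun p => hu' _ (ro_mem (hφ c) hE) p) (hact a c) (hact d c) h2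
    rw [ac_ro_of_dom (hφ c) hE (dom_rs _ _)] at h3
    exact h3.val c1 cu (cY _) (cY _) ⟨k', le_rs _ _⟩
  have hY0 : Yq 0 = x := by
    change act ((sys K).ac (ro (φ 0))) x = x
    rw [φ.map_zero, ro_zero, (sys K).ac.map_one, act_one]
  have cx : x ∈ π.N := hY0 ▸ cY 0
  have hne' : π.val (Yq 1) ≠ π.val (Yq 0) := by
    rw [hY0]
    exact hne π c1 (by
      intro i
      fin_cases i
      · exact cY 1
      · exact cx) hk
  rw [val3]
  have hX := mem_Ms ht ct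
  have hU := mem_Ms hu cu
  have hf := mem_Ms hsq cs
  have hcg := hG.val c1 ct cu hk
  have hhs : π.hat hS ∈ (sys K).Ms π := mem_Ms ((sys K).hs_check hS) cS
  have hω := hM.infinity
  have hB := hM.sep_mem (Q := fun z => ∀ j ∈ ZFSet.omega, ∃ n ∈ ZFSet.omega, ∃ x ∈ π.val t,
    pair n x ∈ π.val (sqN Set.univ fun n => Yq (r n)) ∧ pair j (pair x z) ∈ π.val u)
    (by (repeat' first | assumption | exact DfnF.proj _ | exact DfnF.const (by assumption) | exact Dfn.prop _ | apply Dfn.not | apply Dfn.and | apply Dfn.or | apply Dfn.imp | apply Dfn.iff | apply hM.base.bex | apply hM.base.ball | apply Dfn.ex | apply Dfn.all | apply Dfn.eq | apply Dfn.mem | apply hM.base.pair')) hX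
  have hfr : ∀ n x, pair (nat n) x ∈ π.val (sqN Set.univ fun n => Yq (r n)) ↔
      x = π.val (Yq (r n)) := by
    intro n x
    rw [val_sqN (fun n => cY (r n))]
    exact ⟨fun h => h.2, fun h => ⟨trivial, h⟩⟩
  refine ⟨_, hB, _, hf, fun y hy => (ZFSet.mem_sep.1 hy).1, ?_,
    fun y hy => (ZFSet.mem_sep.1 hy).2, fun he => ?_⟩
  · intro n hn x hx x' hx' h1 h2
    obtain ⟨n, rfl⟩ := mem_omega_iff.1 hn
    rw [(hfr n _).1 h1, (hfr n _).1 h2]
  · exact absurd he (not_ctb hM hX hU hcg hy hom hne' hf hr hfr hhs fun i m => mem_hat_hS cS)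

end

/-- The main theorem about the forcing relation. -/
theorem inter_of_fcg (hK : ∀ (F : Finset ℕ) (g : ℕ → K), (∀ n ∈ F, g n = 0) →
      ∃ φ : ℚ →+ (ℕ → K), φ 1 = g ∧ ∀ q, ∀ n ∈ F, φ q n = 0)
    {t u : PName (Cd K)} (ht : (sys K).HS t) (hu : (sys K).HS u) {p : Cd K} (h : FCG t u p) :
    SF (sys K) Inter ![t, u, check ZFSet.omega] p := by
  obtain ⟨_, ⟨E1, F1, hE1, rfl⟩, ht1⟩ := ht.sym
  obtain ⟨_, ⟨E2, F2, hE2, rfl⟩, hu1⟩ := hu.sym
  have hE := hE1.union hE2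
  have ht' : (sys K).Fix (bs (E1 ∪ E2) (F1 ∪ F2)) t :=
    ht1.mono (bs_mono Set.subset_union_left Finset.subset_union_left)
  have hu' : (sys K).Fix (bs (E1 ∪ E2) (F1 ∪ F2)) u :=
    hu1.mono (bs_mono Set.subset_union_right Finset.subset_union_right)
  generalize E1 ∪ E2 = E at hE ht' hu'
  generalize F1 ∪ F2 = F at hE ht' hu'
  refine SF.dense ud_inter (hs3 ht hu) fun q hq => ?_
  have h1 : FCG t u q := SF.mono h hq
  have h2 : FCG t u (rs q E) := by
    refine sf_rs ud_cg (hs3 ht hu) hE ?_ h1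
    intro i
    fin_cases i
    · exact ht'
    · exact hu'
    · exact fix_check _ _
  by_cases hR : ∀ (F' : Finset ℕ) (x : PName (Cd K)), (sys K).HS x →
      (sys K).Fix (bs E F') x → ∀ g : ℕ → K, (∀ n ∈ F, g n = 0) → ∀ q' ≤ rs q E, Fmem x t q' →
        Feq (act ((sys K).ac (ro g)) x) x q'
  · exact case1 ht hu hE ht' hu' (dom_rs q E) (h2.gd ht hu) hR (le_rs q E)
  · push Not at hR
    obtain ⟨F', x, hx, hx', g, hg, q1, hq1, hm, hn⟩ := hR
    have hgx := (sys K).hs_act hx (ro g)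
    have h3 : ∃ q2 ≤ q1, SF (sys K) (fun _ (v : Fin 2 → ZFSet.{0}) => ¬ v 0 = v 1)
        ![act ((sys K).ac (ro g)) x, x] q2 := by
      by_contra hcon
      push Not at hcon
      apply hn
      refine feq_dense fun q' hq' => ?_
      obtain ⟨q2, hq2, h4 | h4⟩ := SF.dec ud_eq (hs2 hgx hx) q'
      · exact ⟨q2, hq2, feq_of_sf rfl rfl h4⟩
      · exact absurd h4 (hcon q2 (hq2.trans hq'))
    obtain ⟨q2, hq2, h4⟩ := h3
    have hSp : Sp E (F ∪ F') := hE.mono Finset.subset_union_left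
    have hx2 : (sys K).Fix (bs E (F ∪ F')) x :=
      hx'.mono (bs_mono (Set.Subset.refl _) Finset.subset_union_right)
    have ht2 : (sys K).Fix (bs E (F ∪ F')) t :=
      ht'.mono (bs_mono (Set.Subset.refl _) Finset.subset_union_left)
    have h5 : Fmem x t (rs q2 E) := fmem_rs hx ht hSp hx2 ht2 (hm.mono hq2)
    have h6 : rs q2 E ≤ rs q E := rs_le_of_dom (hq2.trans hq1) (dom_rs q E)
    have h7 : SF (sys K) (fun _ (v : Fin 2 → ZFSet.{0}) => ¬ v 0 = v 1)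
        ![act ((sys K).ac (ro g)) x, x] (rs q2 E) := by
      refine sf_rs ud_eq.not (hs2 hgx hx) hSp ?_ h4
      intro i
      fin_cases i
      · exact fix_ro hx2 hE hg
      · exact hx2
    obtain ⟨φ, hφ1, hφ⟩ := hK F g hg
    rw [← hφ1] at h7
    have h8 := case2 ht hu hE ht' hu' (dom_rs q2 E) (SF.mono h2 h6) Finset.subset_union_left hx
      hx2 h5 hφ h7
    obtain ⟨s, hs1, hs2⟩ := glue4 h6 (dom_rs q2 E)
    exact ⟨s, hs1, h8.mono hs2⟩

/-- The main theorem about the model. -/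
theorem mainA (hK : ∀ (F : Finset ℕ) (g : ℕ → K), (∀ n ∈ F, g n = 0) →
      ∃ φ : ℚ →+ (ℕ → K), φ 1 = g ∧ ∀ q, ∀ n ∈ F, φ q n = 0)
    {π : Pkg (Cd K)} (h1 : (sys K).Cld π) {X U : ZFSet.{0}} (hX : X ∈ (sys K).Ms π)
    (hU : U ∈ (sys K).Ms π) (h : CG ((sys K).Ms π) ![X, U, ZFSet.omega]) :
    Inter ((sys K).Ms π) ![X, U, ZFSet.omega] := by
  obtain ⟨t, ⟨ct, ht⟩, rfl⟩ := hX
  obtain ⟨u, ⟨cu, hu⟩, rfl⟩ := hU
  rw [← val3] at h ⊢
  obtain ⟨k, hk⟩ := ud_cg.fund (hs3 ht hu) h1 (in3 ct cu) h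
  exact inter_of_fcg hK ht hu hk π h1 (in3 ct cu) ⟨k, le_rfl⟩

end Pool.Agent.R598.CI
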