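import Pool.Agent.R598.CI.Sem
import Pool.Agent.W868.Hart
import Pool.Agent.R598.TY.Real

/-!
# The entourages of a compact metrizable space
-/

set_option autoImplicit false
set_option linter.unusedSectionVars false

namespace Pool.Agent.R598.CI

open Pool.Agent.W868 Pool.Agent.R598.PM Pool.Agent.R598.TY
open ZFSet (pair)

/-- The pairs `(j, q)` with `q < 2 ^ (- j)`, coded. -/
noncomputable def DP : ZFSet.{0} :=
  ZFSet.sep (fun w => ∃ (j : ℕ) (q : ℚ), (q : ℝ) < (1 / 2 : ℝ) ^ j ∧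
    w = pair (nat j) (nat (Encodable.encode q))) (ZFSet.prod ZFSet.omega ZFSet.omega)

theorem mem_DP {j : ℕ} {k : ZFSet.{0}} : pair (nat j) k ∈ DP ↔
    ∃ q : ℚ, (q : ℝ) < (1 / 2 : ℝ) ^ j ∧ k = nat (Encodable.encode q) := by
  rw [DP, ZFSet.mem_sep]
  constructor
  · rintro ⟨-, j', q, h, h1⟩
    obtain ⟨h2, h3⟩ := ZFSet.pair_inj.1 h1
    rw [← nat_injective h2] at h
    exact ⟨q, h, h3⟩
  · rintro ⟨q, h, rfl⟩
    exact ⟨ZFSet.pair_mem_prod.2 ⟨nat_om _, nat_om _⟩, j, q, h, rfl⟩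

theorem lt_pow_iff {r : ℝ} {j : ℕ} : r < (1 / 2 : ℝ) ^ j ↔
    ∃ k ∈ ZFSet.omega, pair (nat j) k ∈ DP ∧ k ∉ real r := by
  constructor
  · intro h
    obtain ⟨q, h1, h2⟩ := exists_rat_btwn h
    exact ⟨_, nat_om _, mem_DP.2 ⟨q, h2, rfl⟩, fun h3 => absurd (enc_mem_real.1 h3)
      (not_lt.2 h1.le)⟩
  · rintro ⟨k, -, h1, h2⟩
    obtain ⟨q, h3, rfl⟩ := mem_DP.1 h1
    by_contra h
    exact h2 (enc_mem_real.2 (h3.trans_le (not_lt.1 h)))

theorem exists_cg {M : Set ZFSet.{0}} (hM : IsZF M) (hDP : DP ∈ M) {X τ : ZFSet.{0}}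
    (hX : X ∈ M) (hτ : τ ∈ M) (hComp : IsComp M X τ) (hMet : IsMetrizable M X τ) :
    ∃ U ∈ M, CG M ![X, U, ZFSet.omega] := by
  classical
  obtain ⟨d, hd, ρ, hρ, hρ0, hρs, hρt, hρT⟩ := hMet
  have hω := hM.infinity
  have hXX := hM.prod_mem hX hX
  have hU := hM.sep_mem (Q := fun w => ∃ j ∈ ZFSet.omega, ∃ x ∈ X, ∃ y ∈ X,
    w = pair j (pair x y) ∧ ∃ r ∈ M, pair (pair x y) r ∈ d ∧ ∃ k ∈ ZFSet.omega,
      pair j k ∈ DP ∧ k ∉ r) (by (repeat' first | assumption | exact DfnF.proj _ | exact DfnF.const (by assumption) | exact Dfn.prop _ | apply Dfn.not | apply Dfn.and | apply Dfn.or | apply Dfn.imp | apply Dfn.iff | apply hM.base.bex | apply hM.base.ball | apply Dfn.ex | apply Dfn.all | apply Dfn.eq | apply Dfn.mem | apply hM.base.pair')) (hM.prod_mem hω hXX)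
  set U := ZFSet.sep (fun w => ∃ j ∈ ZFSet.omega, ∃ x ∈ X, ∃ y ∈ X,
    w = pair j (pair x y) ∧ ∃ r ∈ M, pair (pair x y) r ∈ d ∧ ∃ k ∈ ZFSet.omega,
      pair j k ∈ DP ∧ k ∉ r) (ZFSet.prod ZFSet.omega (ZFSet.prod X X)) with hUdef
  have hUm : ∀ j x y, x ∈ X → y ∈ X → (pair (nat j) (pair x y) ∈ U ↔ ρ x y < (1 / 2 : ℝ) ^ j) := by
    intro j x y hx hy
    rw [hUdef, ZFSet.mem_sep, lt_pow_iff]
    constructor
    · rintro ⟨-, j', hj', x', hx', y', hy', h1, r, hr, h2, h3⟩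
      obtain ⟨h4, h5⟩ := ZFSet.pair_inj.1 h1
      obtain ⟨h6, h7⟩ := ZFSet.pair_inj.1 h5
      rw [← h4] at h3
      rw [← h6, ← h7] at h2
      rwa [(hρ x hx y hy r).1 h2] at h3
    · intro h3
      refine ⟨ZFSet.pair_mem_prod.2 ⟨nat_om j, ZFSet.pair_mem_prod.2 ⟨hx, hy⟩⟩, nat j, nat_om j,
        x, hx, y, hy, rfl, real (ρ x y), ?_, (hρ x hx y hy _).2 rfl, h3⟩
      exact real_rho_mem hM hd hρ hx hy
  have hnn : ∀ x ∈ X, ∀ y ∈ X, 0 ≤ ρ x y := fun x hx y hy => rho_nonneg hρ0 hρs hρt hx hy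
  refine ⟨U, hU, ?_, ?_, ?_, ?_, ?_⟩
  · intro x hx y hy h
    refine (hρ0 x hx y hy).1 (le_antisymm ?_ (hnn x hx y hy))
    by_contra hc
    push Not at hc
    obtain ⟨j, hj⟩ := exists_pow_lt_of_lt_one hc (show (1 / 2 : ℝ) < 1 by norm_num)
    exact absurd ((hUm j x y hx hy).1 (h _ (nat_om j))) (not_lt.2 hj.le)
  · intro j hj x hx y hy h
    have hj' : j ∈ ZFSet.omega := hj
    obtain ⟨j, rfl⟩ := mem_omega_iff.1 hj'
    have h1 := (hUm j x y hx hy).1 h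
    rw [hρs x hx y hy] at h1
    exact (hUm j y x hy hx).2 h1
  · intro j hj i hi x hx y hy z hz h h'
    have hj' : j ∈ ZFSet.omega := hj
    obtain ⟨j, rfl⟩ := mem_omega_iff.1 hj'
    obtain ⟨i, hij, rfl⟩ := mem_nat_iff.1 hi
    have h1 := (hUm j x y hx hy).1 h
    have h2 := (hUm j y z hy hz).1 h'
    refine (hUm i x z hx hz).2 ?_
    have h3 := hρt x hx y hy z hz
    have h4 : (1 / 2 : ℝ) ^ j ≤ (1 / 2 : ℝ) ^ (i + 1) :=
      pow_le_pow_of_le_one (by norm_num) (by norm_num) hij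
    rw [pow_succ] at h4
    linarith
  · intro j hj x hx
    have hj' : j ∈ ZFSet.omega := hj
    obtain ⟨j, rfl⟩ := mem_omega_iff.1 hj'
    refine (hUm j x x hx hx).2 ?_
    rw [(hρ0 x hx x hx).2 rfl]
    positivity
  · intro C hC hcov
    have hC' := hM.sep_mem (Q := fun O => ∃ V ∈ C, ∀ z ∈ O, z ∈ V) (by (repeat' first | assumption | exact DfnF.proj _ | exact DfnF.const (by assumption) | exact Dfn.prop _ | apply Dfn.not | apply Dfn.and | apply Dfn.or | apply Dfn.imp | apply Dfn.iff | apply hM.base.bex | apply hM.base.ball | apply Dfn.ex | apply Dfn.all | apply Dfn.eq | apply Dfn.mem | apply hM.base.pair')) hτ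
    obtain ⟨F, hF, hFC, ⟨n, g, hg, hg1⟩, hXF⟩ := hComp _ hC'
      (fun O hO => (ZFSet.mem_sep.1 hO).1) (by
        intro x hx
        obtain ⟨V, hV, j, hj, h1⟩ := hcov x hx
        have hj' : j ∈ ZFSet.omega := hj
        obtain ⟨j, rfl⟩ := mem_omega_iff.1 hj'
        have hjM : nat j ∈ M := hM.trans _ hω _ hj'
        have hxM : x ∈ M := hM.trans _ hX _ hx
        have hO := hM.sep_mem (Q := fun y => pair (nat j) (pair x y) ∈ U) (by (repeat' first | assumption | exact DfnF.proj _ | exact DfnF.const (by assumption) | exact Dfn.prop _ | apply Dfn.not | apply Dfn.and | apply Dfn.or | apply Dfn.imp | apply Dfn.iff | apply hM.base.bex | apply hM.base.ball | apply Dfn.ex | apply Dfn.all | apply Dfn.eq | apply Dfn.mem | apply hM.base.pair')) hX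
        refine ZFSet.mem_sUnion.2 ⟨_, ZFSet.mem_sep.2 ⟨(hρT _ hO fun y hy =>
          (ZFSet.mem_sep.1 hy).1).2 ?_, V, hV, fun z hz => ?_⟩, ZFSet.mem_sep.2 ⟨hx, ?_⟩⟩
        · intro y hy
          obtain ⟨hyX, hy⟩ := ZFSet.mem_sep.1 hy
          have h2 := (hUm j x y hx hyX).1 hy
          refine ⟨(1 / 2 : ℝ) ^ j - ρ x y, by linarith, fun z hz hyz => ZFSet.mem_sep.2 ⟨hz, ?_⟩⟩
          refine (hUm j x z hx hz).2 ?_
          have h3 := hρt x hx y hyX z hz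
          linarith
        · obtain ⟨hzX, hz⟩ := ZFSet.mem_sep.1 hz
          exact h1 z hzX hz
        · refine (hUm j x x hx hx).2 ?_
          rw [(hρ0 x hx x hx).2 rfl]
          positivity)
    have h1 : ∀ i : Fin n, ∃ V ∈ C, ∀ O ∈ F, pair O (nat i) ∈ g → ∀ z ∈ O, z ∈ V := by
      intro i
      obtain ⟨O, hO, hOi⟩ := hg1.2 (nat i) (nat_mem_nat' i.2)
      obtain ⟨V, hV, hOV⟩ := (ZFSet.mem_sep.1 (hFC hO)).2
      refine ⟨V, hV, fun O' hO' hOi' => ?_⟩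
      rw [hg1.1.2 _ _ _ hOi' hOi]
      exact hOV
    choose V hV hV' using h1
    refine ⟨ZFSet.range fun i : Fin n => pair (V i) (nat i), ?_, nat n, nat_om n, ?_, ?_⟩
    · refine fin_mem hM ?_ ?_
      · intro z hz
        obtain ⟨a, rfl⟩ := ZFSet.mem_range.1 hz
        exact hM.pair_mem (hM.trans _ hC _ (hV a)) (hM.trans _ hω _ (nat_om _))
      · refine (Set.finite_range fun i : Fin n => pair (V i) (nat i)).subset ?_
        intro z hz
        obtain ⟨a, rfl⟩ := ZFSet.mem_range.1 hz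
        exact ⟨a, rfl⟩
    · intro x hx
      obtain ⟨O, hO, hxO⟩ := ZFSet.mem_sUnion.1 (hXF hx)
      obtain ⟨i, hi, hOi⟩ := fun_exists hg1.1.1 hO
      obtain ⟨i, hin, rfl⟩ := mem_nat_iff.1 hi
      exact ⟨nat i, nat_mem_nat' hin, V ⟨i, hin⟩, hV _, ZFSet.mem_range.2 ⟨⟨i, hin⟩, rfl⟩,
        hV' ⟨i, hin⟩ O hO hOi x hxO⟩
    · intro i hi W hW W' hW' h1 h2
      obtain ⟨a, ha⟩ := ZFSet.mem_range.1 h1
      obtain ⟨b, hb⟩ := ZFSet.mem_range.1 h2
      obtain ⟨h3, h4⟩ := ZFSet.pair_inj.1 ha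
      obtain ⟨h5, h6⟩ := ZFSet.pair_inj.1 hb
      rw [← h4] at h6
      have h7 : b = a := Fin.ext (nat_injective h6)
      rw [← h3, ← h5, h7]

end Pool.Agent.R598.CI
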