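import Pool.Agent.R598.CI.Fin
import Pool.Agent.R598.CI.Stm2

/-!
# The sequence of circles: no choice function
-/

set_option autoImplicit false
set_option linter.unusedSectionVars false

namespace Pool.Agent.R598.CI

open Pool.Agent.W868 Pool.Agent.W868.PName Pool.Agent.R598.SY Pool.Agent.R598.TY
  Pool.Agent.R598.PM
open ZFSet (pair)

/-- The points of the space `n`: the points of the circle and, if `e` holds, the point `∅`. -/
def InB (π : Pkg (Cd Kc)) (e : Prop) (n : ℕ) (x : ZFSet.{0}) : Prop :=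
  (∃ θ, aN (n, θ) ∈ π.N ∧ x = π.val (aN (n, θ))) ∨ (e ∧ x = ∅)

/-- The open sets of the space `n`. -/
def OpC (π : Pkg (Cd Kc)) (n : ℕ) (O : ZFSet.{0}) : Prop :=
  ∀ θ, aN (n, θ) ∈ π.N → π.val (aN (n, θ)) ∈ O → ∃ j : ℕ, ∀ θ', aN (n, θ') ∈ π.N →
    ds (some (n, θ)) (some (n, θ')) < (1 / 2 : ℝ) ^ j → π.val (aN (n, θ')) ∈ O

/-- The space `n`. -/
def IsSp (π : Pkg (Cd Kc)) (e : Prop) (n : ℕ) (A T : ZFSet.{0}) : Prop :=
  (∀ x, x ∈ A ↔ InB π e n x) ∧ ∀ O, O ∈ T ↔ O ∈ (sys Kc).Ms π ∧ O ⊆ A ∧ OpC π n O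

variable {π : Pkg (Cd Kc)}

theorem val_none : π.val (ptN none) = ∅ := π.hat_nat 0

theorem none_mem : ptN none ∈ π.N := π.empty_Z

theorem empty_mem_X : (∅ : ZFSet.{0}) ∈ π.val XN := mem_X.2 ⟨none, none_mem, val_none.symm⟩

theorem val_ne_empty {n : ℕ} {θ : Kc} (h : aN (n, θ) ∈ π.N) : π.val (aN (n, θ)) ≠ ∅ := by
  intro h1
  have h2 := val_ptN_inj (a := some (n, θ)) (b := none) h none_mem (h1.trans val_none.symm)
  cases h2

theorem inB_X {e : Prop} {n : ℕ} {x : ZFSet.{0}} (h : InB π e n x) : x ∈ π.val XN := by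
  rcases h with ⟨θ, h1, rfl⟩ | ⟨-, rfl⟩
  · exact mem_X.2 ⟨some (n, θ), h1, rfl⟩
  · exact empty_mem_X

theorem inB_L {e : Prop} {n : ℕ} {x : ZFSet.{0}} :
    InB π e n x ↔ x ∈ π.val XN ∧ (pair (nat n) x ∈ π.val LN ∨ (e ∧ x = ∅)) := by
  constructor
  · intro h
    refine ⟨inB_X h, ?_⟩
    rcases h with h | h
    · exact Or.inl (mem_L.2 h)
    · exact Or.inr h
  · rintro ⟨-, h | h⟩
    · exact Or.inl (mem_L.1 h)
    · exact Or.inr h

variable (hπ : GP π)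

include hπ in
theorem exists_seq (e : Prop) : ∃ s ∈ (sys Kc).Ms π, ∃ X τ : ℕ → ZFSet.{0},
    (∀ n z, pair (nat n) z ∈ s ↔ z = pair (X n) (τ n)) ∧ ∀ n, IsSp π e n (X n) (τ n) := by
  have hM := isZF_Ms hπ.cld
  have hX := XN_mem hπ
  have hL : π.val LN ∈ (sys Kc).Ms π := mem_Ms hs_LN hπ.ln
  have hU : π.val UN ∈ (sys Kc).Ms π := mem_Ms hs_UN hπ.un
  have hω := hM.infinity
  have hemp : (∅ : ZFSet.{0}) ∈ (sys Kc).Ms π := hM.empty_mem
  obtain ⟨P, hP, hP'⟩ := hM.power _ hX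
  obtain ⟨PP, hPP, hPP'⟩ := hM.power _ hP
  have hn : ∀ n, nat n ∈ (sys Kc).Ms π := fun n => hM.trans _ hω _ (nat_om n)
  let A : ℕ → ZFSet.{0} := fun n => ZFSet.sep (fun x => pair (nat n) x ∈ π.val LN ∨ (e ∧ x = ∅))
    (π.val XN)
  have hA : ∀ n, A n ∈ (sys Kc).Ms π := by
    intro n
    have hnM := hn n
    exact hM.sep_mem (Q := fun x => pair (nat n) x ∈ π.val LN ∨ (e ∧ x = ∅)) (by (repeat' first | assumption | exact DfnF.proj _ | exact DfnF.const (by assumption) | exact Dfn.prop _ | apply Dfn.not | apply Dfn.and | apply Dfn.or | apply Dfn.imp | apply Dfn.iff | apply hM.base.bex | apply hM.base.ball | apply Dfn.ex | apply Dfn.all | apply Dfn.eq | apply Dfn.mem | apply hM.base.pair')) hX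
  have hAm : ∀ n x, x ∈ A n ↔ x ∈ π.val XN ∧ (pair (nat n) x ∈ π.val LN ∨ (e ∧ x = ∅)) :=
    fun n x => ZFSet.mem_sep
  have hAP : ∀ n, A n ∈ P := fun n => (hP' _).2 ⟨hA n, fun x hx => ((hAm n x).1 hx).1⟩
  let T : ℕ → ZFSet.{0} := fun n => ZFSet.sep (fun O => (∀ x ∈ O, x ∈ A n) ∧
    ∀ x ∈ O, pair (nat n) x ∈ π.val LN → ∃ j ∈ ZFSet.omega, ∀ y ∈ π.val XN,
      pair (nat n) y ∈ π.val LN → pair j (pair x y) ∈ π.val UN → y ∈ O) P
  have hT : ∀ n, T n ∈ (sys Kc).Ms π := by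
    intro n
    have hnM := hn n
    have hAn := hA n
    exact hM.sep_mem (Q := fun O => (∀ x ∈ O, x ∈ A n) ∧
      ∀ x ∈ O, pair (nat n) x ∈ π.val LN → ∃ j ∈ ZFSet.omega, ∀ y ∈ π.val XN,
        pair (nat n) y ∈ π.val LN → pair j (pair x y) ∈ π.val UN → y ∈ O) (by (repeat' first | assumption | exact DfnF.proj _ | exact DfnF.const (by assumption) | exact Dfn.prop _ | apply Dfn.not | apply Dfn.and | apply Dfn.or | apply Dfn.imp | apply Dfn.iff | apply hM.base.bex | apply hM.base.ball | apply Dfn.ex | apply Dfn.all | apply Dfn.eq | apply Dfn.mem | apply hM.base.pair')) hP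
  have hTm : ∀ n O, O ∈ T n ↔ O ∈ P ∧ (∀ x ∈ O, x ∈ A n) ∧
      ∀ x ∈ O, pair (nat n) x ∈ π.val LN → ∃ j ∈ ZFSet.omega, ∀ y ∈ π.val XN,
        pair (nat n) y ∈ π.val LN → pair j (pair x y) ∈ π.val UN → y ∈ O :=
    fun n O => ZFSet.mem_sep
  have hTPP : ∀ n, T n ∈ PP := fun n => (hPP' _).2 ⟨hT n, fun O hO => ((hTm n O).1 hO).1⟩
  have hs := hM.sep_mem (Q := fun w => ∃ n ∈ ZFSet.omega, ∃ A ∈ P, ∃ T ∈ PP,
    w = pair n (pair A T) ∧ (∀ x ∈ π.val XN, x ∈ A ↔ (pair n x ∈ π.val LN ∨ (e ∧ x = ∅))) ∧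
      ∀ O ∈ P, O ∈ T ↔ ((∀ x ∈ O, x ∈ A) ∧ ∀ x ∈ O, pair n x ∈ π.val LN → ∃ j ∈ ZFSet.omega,
        ∀ y ∈ π.val XN, pair n y ∈ π.val LN → pair j (pair x y) ∈ π.val UN → y ∈ O)) (by (repeat' first | assumption | exact DfnF.proj _ | exact DfnF.const (by assumption) | exact Dfn.prop _ | apply Dfn.not | apply Dfn.and | apply Dfn.or | apply Dfn.imp | apply Dfn.iff | apply hM.base.bex | apply hM.base.ball | apply Dfn.ex | apply Dfn.all | apply Dfn.eq | apply Dfn.mem | apply hM.base.pair')) (hM.prod_mem hω (hM.prod_mem hP hPP))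
  refine ⟨_, hs, A, T, fun n z => ?_, fun n => ⟨fun x => ?_, fun O => ?_⟩⟩
  · constructor
    · intro hz
      obtain ⟨-, n', hn', A', hA', T', hT', h1, h2, h3⟩ := ZFSet.mem_sep.1 hz
      obtain ⟨rfl, rfl⟩ := ZFSet.pair_inj.1 h1
      have h4 : A' = A n := by
        ext x
        rw [hAm]
        constructor
        · intro hx
          have hxX := ((hP' _).1 hA').2 hx
          exact ⟨hxX, (h2 x hxX).1 hx⟩
        · rintro ⟨hxX, hx⟩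
          exact (h2 x hxX).2 hx
      subst h4
      congr 1
      ext O
      rw [hTm]
      constructor
      · intro hO
        have hOP := ((hPP' _).1 hT').2 hO
        exact ⟨hOP, (h3 O hOP).1 hO⟩
      · rintro ⟨hOP, hO⟩
        exact (h3 O hOP).2 hO
    · rintro rfl
      refine ZFSet.mem_sep.2 ⟨ZFSet.pair_mem_prod.2 ⟨nat_om n, ZFSet.pair_mem_prod.2
        ⟨hAP n, hTPP n⟩⟩, nat n, nat_om n, A n, hAP n, T n, hTPP n, rfl, fun x hx => ?_,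
        fun O hO => ?_⟩
      · rw [hAm]
        exact ⟨fun h => h.2, fun h => ⟨hx, h⟩⟩
      · rw [hTm]
        exact ⟨fun h => h.2, fun h => ⟨hO, h⟩⟩
  · rw [hAm, inB_L]
  · rw [hTm, hP', and_assoc]
    constructor
    · rintro ⟨h1, h2, h3, h4⟩
      refine ⟨h1, fun x hx => h3 x hx, fun θ hθ hθO => ?_⟩
      obtain ⟨j, hj, h5⟩ := h4 _ hθO (mem_L.2 ⟨θ, hθ, rfl⟩)
      obtain ⟨j, rfl⟩ := mem_omega_iff.1 hj
      exact ⟨j, fun θ' hθ' h6 => h5 _ (mem_X.2 ⟨some (n, θ'), hθ', rfl⟩) (mem_L.2 ⟨θ', hθ', rfl⟩)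
        ((mem_U' (a := some (n, θ)) (b := some (n, θ')) hθ hθ').2 h6)⟩
    · rintro ⟨h1, h2, h3⟩
      refine ⟨h1, fun x hx => ((hAm n x).1 (h2 hx)).1, fun x hx => h2 hx, fun x hx hxL => ?_⟩
      obtain ⟨θ, hθ, rfl⟩ := mem_L.1 hxL
      obtain ⟨j, hj⟩ := h3 θ hθ hx
      refine ⟨nat j, nat_om j, fun y hy hyL hyU => ?_⟩
      obtain ⟨θ', hθ', rfl⟩ := mem_L.1 hyL
      exact hj θ' hθ' ((mem_U' (a := some (n, θ)) (b := some (n, θ')) hθ hθ').1 hyU)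

section sp

variable {e : Prop} {n : ℕ} {A T : ZFSet.{0}} (h : IsSp π e n A T) (hA : A ∈ (sys Kc).Ms π)

include hπ h hA in
theorem isTop_sp : IsTop ((sys Kc).Ms π) A T := by
  have hM := isZF_Ms hπ.cld
  refine ⟨fun O hO => ((h.2 O).1 hO).2.1, (h.2 _).2 ⟨hM.empty_mem, ZFSet.empty_subset _,
    fun a _ h => absurd h (ZFSet.notMem_empty _)⟩, (h.2 _).2 ⟨hA, fun _ h => h,
    fun θ _ _ => ⟨0, fun θ' hθ' _ => (h.1 _).2 (Or.inl ⟨θ', hθ', rfl⟩)⟩⟩, ?_, ?_⟩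
  · intro U hU V hV
    obtain ⟨h1, h2, h3⟩ := (h.2 U).1 hU
    obtain ⟨h4, h5, h6⟩ := (h.2 V).1 hV
    refine (h.2 _).2 ⟨?_, fun x hx => h2 (ZFSet.mem_inter.1 hx).1, ?_⟩
    · have h7 := hM.sep_mem (Q := fun z => z ∈ V) (by (repeat' first | assumption | exact DfnF.proj _ | exact DfnF.const (by assumption) | exact Dfn.prop _ | apply Dfn.not | apply Dfn.and | apply Dfn.or | apply Dfn.imp | apply Dfn.iff | apply hM.base.bex | apply hM.base.ball | apply Dfn.ex | apply Dfn.all | apply Dfn.eq | apply Dfn.mem | apply hM.base.pair')) h1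
      have h8 : ZFSet.sep (fun z => z ∈ V) U = U ∩ V := by
        ext z
        rw [ZFSet.mem_sep, ZFSet.mem_inter]
      rwa [h8] at h7
    · intro a ha haO
      obtain ⟨h7, h8⟩ := ZFSet.mem_inter.1 haO
      obtain ⟨i, hi⟩ := h3 a ha h7
      obtain ⟨j, hj⟩ := h6 a ha h8
      refine ⟨max i j, fun b hb hab => ZFSet.mem_inter.2 ⟨hi b hb ?_, hj b hb ?_⟩⟩
      · exact hab.trans_le (pow_anti (le_max_left _ _))
      · exact hab.trans_le (pow_anti (le_max_right _ _))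
  · intro C hC hCτ
    refine (h.2 _).2 ⟨hM.union _ hC, fun x hx => ?_, fun a ha haO => ?_⟩
    · obtain ⟨O, hO, hxO⟩ := ZFSet.mem_sUnion.1 hx
      exact ((h.2 O).1 (hCτ hO)).2.1 hxO
    · obtain ⟨O, hO, hxO⟩ := ZFSet.mem_sUnion.1 haO
      obtain ⟨j, hj⟩ := ((h.2 O).1 (hCτ hO)).2.2 a ha hxO
      exact ⟨j, fun b hb hab => ZFSet.mem_sUnion.2 ⟨O, hO, hj b hb hab⟩⟩

include h in
/-- The points of the space. -/
theorem pt_sp {x : ZFSet.{0}} (hx : x ∈ A) : ∃ a : Pt, ptN a ∈ π.N ∧ x = π.val (ptN a) ∧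
    ((∃ θ, a = some (n, θ)) ∨ a = none) := by
  rcases (h.1 x).1 hx with ⟨θ, h1, rfl⟩ | ⟨-, rfl⟩
  · exact ⟨some (n, θ), h1, rfl, Or.inl ⟨θ, rfl⟩⟩
  · exact ⟨none, none_mem, val_none.symm, Or.inr rfl⟩

include h in
/-- The small balls of an open set. -/
theorem ball_sp {O : ZFSet.{0}} (hO : O ∈ T) {a : Pt} (ha : ptN a ∈ π.N)
    (haO : π.val (ptN a) ∈ O) : ∃ j : ℕ, ∀ b, ptN b ∈ π.N → π.val (ptN b) ∈ A →
      ds a b < (1 / 2 : ℝ) ^ j → π.val (ptN b) ∈ O := by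
  obtain ⟨-, h2, h3⟩ := (h.2 O).1 hO
  obtain ⟨a', ha', he, h4⟩ := pt_sp h (h2 haO)
  obtain rfl := val_ptN_inj ha ha' he
  have key : ∀ b, π.val (ptN b) ∈ A → ptN b ∈ π.N → (∃ θ, b = some (n, θ)) ∨ b = none := by
    intro b hbA hb
    obtain ⟨b', hb', hbe, h6⟩ := pt_sp h hbA
    obtain rfl := val_ptN_inj hb hb' hbe
    exact h6
  rcases h4 with ⟨θ, rfl⟩ | rfl
  · obtain ⟨j, hj⟩ := h3 θ ha haO
    refine ⟨max j n, fun b hb hbA hd => ?_⟩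
    rcases key b hbA hb with ⟨θ', rfl⟩ | rfl
    · exact hj θ' hb (hd.trans_le (pow_anti (le_max_left _ _)))
    · exfalso
      rw [ds_comm, ds_none] at hd
      exact absurd (pow_anti (le_max_right j n)) (not_le.2 hd)
  · refine ⟨n, fun b hb hbA hd => ?_⟩
    rcases key b hbA hb with ⟨θ', rfl⟩ | rfl
    · exfalso
      rw [ds_none] at hd
      exact absurd hd (lt_irrefl _)
    · exact haO

include hπ h hA in
theorem isMet_sp : IsMetrizable ((sys Kc).Ms π) A T := by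
  have key : ∀ x ∈ A, ∃ a : Pt, ptN a ∈ π.N ∧ x = π.val (ptN a) := by
    intro x hx
    obtain ⟨a, ha, h1, -⟩ := pt_sp h hx
    exact ⟨a, ha, h1⟩
  refine ⟨π.val dN, mem_Ms hs_dN hπ.dn, rho π, ?_, ?_, ?_, ?_, ?_⟩
  · intro x hx y hy z
    obtain ⟨a, ha, rfl⟩ := key x hx
    obtain ⟨b, hb, rfl⟩ := key y hy
    rw [rho_eq ha hb]
    exact mem_d hπ ha hb
  · intro x hx y hy
    obtain ⟨a, ha, rfl⟩ := key x hx
    obtain ⟨b, hb, rfl⟩ := key y hy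
    rw [rho_eq ha hb, ds_eq_zero]
    exact ⟨fun h => by rw [h], fun h => val_ptN_inj ha hb h⟩
  · intro x hx y hy
    obtain ⟨a, ha, rfl⟩ := key x hx
    obtain ⟨b, hb, rfl⟩ := key y hy
    rw [rho_eq ha hb, rho_eq hb ha, ds_comm]
  · intro x hx y hy z hz
    obtain ⟨a, ha, rfl⟩ := key x hx
    obtain ⟨b, hb, rfl⟩ := key y hy
    obtain ⟨c, hc, rfl⟩ := key z hz
    rw [rho_eq ha hc, rho_eq ha hb, rho_eq hb hc]
    exact ds_tri a b c
  · intro O hO hOX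
    constructor
    · intro hOT x hx
      obtain ⟨a, ha, rfl⟩ := key x (hOX hx)
      obtain ⟨j, hj⟩ := ball_sp h hOT ha hx
      refine ⟨(1 / 2) ^ j, by positivity, fun y hy hxy => ?_⟩
      obtain ⟨b, hb, rfl⟩ := key y hy
      rw [rho_eq ha hb] at hxy
      exact hj b hb hy hxy
    · intro h1
      refine (h.2 O).2 ⟨hO, hOX, fun θ hθ hθO => ?_⟩
      obtain ⟨ε, hε, h2⟩ := h1 _ hθO
      obtain ⟨j, hj⟩ := exists_pow_lt_of_lt_one hε (show (1 / 2 : ℝ) < 1 by norm_num)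
      refine ⟨j, fun θ' hθ' hd => h2 _ ((h.1 _).2 (Or.inl ⟨θ', hθ', rfl⟩)) ?_⟩
      have h3 := rho_eq (a := some (n, θ)) (b := some (n, θ')) hθ hθ'
      exact (show rho π (π.val (aN (n, θ))) (π.val (aN (n, θ'))) = _ from h3) ▸ hd.trans hj

include hπ h hA in
theorem isComp_sp : IsComp ((sys Kc).Ms π) A T := by
  classical
  have hM := isZF_Ms hπ.cld
  have hX := XN_mem hπ
  have hL : π.val LN ∈ (sys Kc).Ms π := mem_Ms hs_LN hπ.ln
  have hnM : nat n ∈ (sys Kc).Ms π := hM.trans _ hM.infinity _ (nat_om n)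
  obtain ⟨τ, -, hτ⟩ := exists_tau hπ
  obtain ⟨P, hP, hP'⟩ := hM.power _ hX
  intro C hC hCT hcov
  have hC' := hM.sep_mem (Q := fun O' => ∃ O ∈ C, ∀ z ∈ π.val XN,
    z ∈ O' ↔ (z ∈ O ∧ pair (nat n) z ∈ π.val LN)) (by (repeat' first | assumption | exact DfnF.proj _ | exact DfnF.const (by assumption) | exact Dfn.prop _ | apply Dfn.not | apply Dfn.and | apply Dfn.or | apply Dfn.imp | apply Dfn.iff | apply hM.base.bex | apply hM.base.ball | apply Dfn.ex | apply Dfn.all | apply Dfn.eq | apply Dfn.mem | apply hM.base.pair')) hP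
  have hop : ∀ O' ∈ ZFSet.sep (fun O' => ∃ O ∈ C, ∀ z ∈ π.val XN,
      z ∈ O' ↔ (z ∈ O ∧ pair (nat n) z ∈ π.val LN)) P, Op π O' := by
    intro O' hO'
    obtain ⟨hO'P, O, hO, h1⟩ := ZFSet.mem_sep.1 hO'
    intro a ha haO'
    obtain ⟨h2, h3⟩ := (h1 _ (mem_X.2 ⟨a, ha, rfl⟩)).1 haO'
    obtain ⟨θ, hθ, h4⟩ := mem_L.1 h3
    obtain rfl := val_ptN_inj (b := some (n, θ)) ha hθ h4
    obtain ⟨j, hj⟩ := ((h.2 O).1 (hCT hO)).2.2 θ hθ h2
    refine ⟨max j n, fun b hb hd => ?_⟩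
    have h5 : lev (some (n, θ)) = lev b := by
      by_contra hc
      exact absurd (hd.trans_le (pow_anti (le_max_right j n))) (not_lt.2 (sz_le_ds hc))
    cases b with
    | none => simp [lev] at h5
    | some i =>
      simp only [lev, Option.map_some, Option.some.injEq] at h5
      obtain ⟨m, θ'⟩ := i
      have h6 : n = m := h5
      subst h6
      exact (h1 _ (mem_X.2 ⟨_, hb, rfl⟩)).2 ⟨hj θ' hb (hd.trans_le (pow_anti (le_max_left _ _))),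
        mem_L.2 ⟨θ', hb, rfl⟩⟩
  obtain ⟨s, hs1, hs2, hs3⟩ := circle_comp hπ hτ hC' n hop (by
    intro θ hθ
    obtain ⟨O, hO, hθO⟩ := ZFSet.mem_sUnion.1 (hcov ((h.1 _).2 (Or.inl ⟨θ, hθ, rfl⟩)))
    have hOM := hM.trans _ hC _ hO
    have h1 := hM.sep_mem (Q := fun z => z ∈ O ∧ pair (nat n) z ∈ π.val LN) (by (repeat' first | assumption | exact DfnF.proj _ | exact DfnF.const (by assumption) | exact Dfn.prop _ | apply Dfn.not | apply Dfn.and | apply Dfn.or | apply Dfn.imp | apply Dfn.iff | apply hM.base.bex | apply hM.base.ball | apply Dfn.ex | apply Dfn.all | apply Dfn.eq | apply Dfn.mem | apply hM.base.pair')) hX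
    refine ⟨_, ZFSet.mem_sep.2 ⟨(hP' _).2 ⟨h1, fun z hz => (ZFSet.mem_sep.1 hz).1⟩, O, hO,
      fun z hz => ?_⟩, ?_⟩
    · rw [ZFSet.mem_sep]
      exact ⟨fun h => h.2, fun h => ⟨hz, h⟩⟩
    · exact ZFSet.mem_sep.2 ⟨mem_X.2 ⟨some (n, θ), hθ, rfl⟩, hθO, mem_L.2 ⟨θ, hθ, rfl⟩⟩)
  have h1 : ∀ O' : s, ∃ O ∈ C, ∀ z ∈ π.val XN,
      z ∈ O'.1 ↔ (z ∈ O ∧ pair (nat n) z ∈ π.val LN) := fun O' => (ZFSet.mem_sep.1 (hs2 _ O'.2)).2
  choose g hg hg' using h1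
  obtain ⟨s0, hs0, hs0C, hs0e⟩ : ∃ s0 : Set ZFSet.{0}, s0.Finite ∧ (∀ O ∈ s0, O ∈ C) ∧
      (e → ∃ O ∈ s0, ∅ ∈ O) := by
    by_cases he : e
    · obtain ⟨O, hO, h2⟩ := ZFSet.mem_sUnion.1 (hcov ((h.1 _).2 (Or.inr ⟨he, rfl⟩)))
      exact ⟨{O}, Set.finite_singleton _, fun O' hO' => by
        rw [Set.mem_singleton_iff.1 hO']
        exact hO, fun _ => ⟨O, rfl, h2⟩⟩
    · exact ⟨∅, Set.finite_empty, fun O hO => hO.elim, fun h => absurd h he⟩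
  have : Finite s := hs1
  let S : Set ZFSet.{0} := Set.range g ∪ s0
  have hS : S.Finite := (Set.finite_range g).union hs0
  have hSC : ∀ O ∈ S, O ∈ C := by
    rintro O (⟨O', rfl⟩ | hO)
    · exact hg O'
    · exact hs0C O hO
  let F : ZFSet.{0} := ZFSet.sep (fun O => O ∈ S) C
  have hFm : ∀ O, O ∈ F ↔ O ∈ S := by
    intro O
    rw [ZFSet.mem_sep]
    exact ⟨fun h => h.2, fun h => ⟨hSC O h, h⟩⟩
  have hFM : ∀ O ∈ F, O ∈ (sys Kc).Ms π := fun O hO => hM.trans _ hC _ (hSC O ((hFm O).1 hO))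
  have hFf : {z | z ∈ F}.Finite := hS.subset fun z hz => (hFm z).1 hz
  refine ⟨F, fin_mem hM hFM hFf, fun O hO => hSC O ((hFm O).1 hO),
    (finIn_iff hM hFM).2 hFf, fun x hx => ?_⟩
  rcases (h.1 x).1 hx with ⟨θ, hθ, rfl⟩ | ⟨he, rfl⟩
  · obtain ⟨O', hO', h2⟩ := hs3 θ hθ
    exact ZFSet.mem_sUnion.2 ⟨g ⟨O', hO'⟩, (hFm _).2 (Or.inl ⟨_, rfl⟩),
      ((hg' ⟨O', hO'⟩ _ (mem_X.2 ⟨some (n, θ), hθ, rfl⟩)).1 h2).1⟩
  · obtain ⟨O, hO, h2⟩ := hs0e he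
    exact ZFSet.mem_sUnion.2 ⟨O, (hFm _).2 (Or.inr hO), h2⟩

end sp

theorem pair_both {M : Set ZFSet.{0}} (hM : IsZF M) {a b : ZFSet.{0}} (h : pair a b ∈ M) :
    a ∈ M ∧ b ∈ M := by
  have h4 := hM.trans _ h {a, b} (by
    rw [ZFSet.pair]
    exact ZFSet.mem_pair.2 (Or.inr rfl))
  exact ⟨hM.trans _ h4 _ (ZFSet.mem_pair.2 (Or.inl rfl)),
    hM.trans _ h4 _ (ZFSet.mem_pair.2 (Or.inr rfl))⟩

include hπ in
theorem isSeq {e : Prop} {s : ZFSet.{0}} (hs : s ∈ (sys Kc).Ms π) {X τ : ℕ → ZFSet.{0}}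
    (h1 : ∀ n z, pair (nat n) z ∈ s ↔ z = pair (X n) (τ n)) (h2 : ∀ n, IsSp π e n (X n) (τ n)) :
    IsSeqMC ((sys Kc).Ms π) s X τ := by
  have hM := isZF_Ms hπ.cld
  have hX : ∀ n, X n ∈ (sys Kc).Ms π := by
    intro n
    exact (pair_both hM (pair_both hM (hM.trans _ hs _ ((h1 n _).2 rfl))).2).1
  exact ⟨h1, fun n => ⟨isTop_sp hπ (h2 n) (hX n), isComp_sp hπ (h2 n) (hX n),
    isMet_sp hπ (h2 n) (hX n)⟩⟩

include hπ in
theorem not_cac : ¬ CACle ((sys Kc).Ms π) := by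
  intro h
  obtain ⟨s, hs, X, τ, h1, h2⟩ := exists_seq hπ False
  obtain ⟨c, hc, x, hx⟩ := h s hs X τ (isSeq hπ hs h1 h2) (fun n hn => by
    have h3 : π.val (aN (n, ((0 : ℝ) : Kc))) ∈ X n :=
      ((h2 n).1 _).2 (Or.inl ⟨_, hπ.pt n 0 hπ.zero, rfl⟩)
    rw [hn] at h3
    exact ZFSet.notMem_empty _ h3)
  refine no_ch hπ.cld hc fun n => ?_
  rcases ((h2 n).1 _).1 (hx n).1 with ⟨θ, hθ, h3⟩ | ⟨h3, -⟩
  · exact ⟨θ, hθ, fun z => by rw [(hx n).2, h3]⟩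
  · exact h3.elim

end Pool.Agent.R598.CI
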