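import Pool.Agent.R598.CI.Cov
import Pool.Agent.R598.CI.Met
import Pool.Agent.R598.CI.Ds

/-!
# The names for the space of circles
-/

set_option autoImplicit false
set_option linter.unusedSectionVars false

namespace Pool.Agent.R598.CI

open Pool.Agent.W868 Pool.Agent.W868.PName Pool.Agent.R598.SY Pool.Agent.R598.TY
open ZFSet (pair)

/-! ### Families of names -/

section fam

variable {P : Type} [Preorder P] [OrderTop P] {S : Sys P}

/-- The name of a family. -/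
def famN (ι : Type) (f : ι → PName P) : PName P := PName.mk ι f (fun _ => ⊤)

theorem el_famN {ι : Type} {f : ι → PName P} {z : PName P} {c : P} :
    El (famN ι f) z c ↔ ∃ i, z = f i ∧ c = ⊤ := by
  rw [famN, el_mk]
  constructor
  · rintro ⟨i, rfl, rfl⟩
    exact ⟨i, rfl, rfl⟩
  · rintro ⟨i, rfl, rfl⟩
    exact ⟨i, rfl, rfl⟩

theorem fix_famN {ι : Type} {f : ι → PName P} {H : Subgroup S.G}
    (h : ∀ g ∈ H, ∃ e : ι → ι, Function.Surjective e ∧
      ∀ i p, Feq (act (S.ac g) (f i)) (f (e i)) p) : S.Fix H (famN ι f) := by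
  intro g hg p
  obtain ⟨e, he, h1⟩ := h g hg
  rw [feq_iff']
  constructor
  · intro z c hz q hq hqc
    obtain ⟨z, c, hz', rfl, rfl⟩ := el_act.1 hz
    obtain ⟨i, rfl, rfl⟩ := el_famN.1 hz'
    exact ⟨q, le_rfl, _, ⊤, el_famN.2 ⟨e i, rfl, rfl⟩, le_top, h1 i q⟩
  · intro z c hz q hq hqc
    obtain ⟨i, rfl, rfl⟩ := el_famN.1 hz
    obtain ⟨j, rfl⟩ := he i
    refine ⟨q, le_rfl, _, _, el_act.2 ⟨_, _, el_famN.2 ⟨j, rfl, rfl⟩, rfl, rfl⟩, ?_, h1 j q⟩
    rw [S.top g]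
    exact le_top

theorem hs_famN {ι : Type} {f : ι → PName P} {H : Subgroup S.G} (hH : H ∈ S.F)
    (h : S.Fix H (famN ι f)) (h' : ∀ i, S.HS (f i)) : S.HS (famN ι f) := by
  refine S.hs_iff.2 ⟨⟨H, hH, h⟩, fun z c hz => ?_⟩
  obtain ⟨i, rfl, rfl⟩ := el_famN.1 hz
  exact h' i

theorem val_famN {π : Pkg P} {ι : Type} {f : ι → PName P} {z : ZFSet.{0}} :
    z ∈ π.val (famN ι f) ↔ ∃ i, f i ∈ π.N ∧ z = π.val (f i) := by
  rw [π.mem_val]
  constructor
  · rintro ⟨y, hy, c, hc, hk, rfl⟩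
    obtain ⟨i, rfl, rfl⟩ := el_famN.1 hc
    exact ⟨i, hy, rfl⟩
  · rintro ⟨i, hi, rfl⟩
    exact ⟨f i, hi, ⊤, el_famN.2 ⟨i, rfl, rfl⟩, ⟨0, le_top⟩, rfl⟩

end fam

/-! ### The points -/

/-- The name of a point. -/
noncomputable def ptN : Pt → PName (Cd Kc)
  | none => check ∅
  | some i => aN i

theorem hs_ptN (a : Pt) : (sys Kc).HS (ptN a) := by
  cases a with
  | none => exact (sys Kc).hs_check _
  | some i => exact hs_aN i

theorem not_feq_none {i : ℕ × Kc} {p : Cd Kc} : ¬ Feq (check ∅) (aN i) p := by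
  intro h
  obtain ⟨s, hs, w, d, hw, hd, he⟩ := (feq_iff'.1 h).2 (xN (i, ∅)) ⊤
    (el_aN.2 ⟨∅, rfl, rfl⟩) p le_rfl le_top
  obtain ⟨y, hy, -⟩ := el_check.1 hw
  exact absurd hy (ZFSet.notMem_empty _)

theorem not_feq_ptN {a b : Pt} (hab : a ≠ b) (p : Cd Kc) : ¬ Feq (ptN a) (ptN b) p := by
  cases a with
  | none =>
    cases b with
    | none => exact absurd rfl hab
    | some j => exact not_feq_none
  | some i =>
    cases b with
    | none => exact fun h => not_feq_none h.symm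
    | some j => exact not_feq_aN (fun h => hab (by rw [h])) p

theorem ptN_injective : Function.Injective ptN := by
  intro a b h
  by_contra hab
  exact not_feq_ptN hab ⊤ (h ▸ Feq.refl _ _)

theorem act_ptN (ρ : (sys Kc).G) (a : Pt) (p : Cd Kc) :
    Feq (act ((sys Kc).ac ρ) (ptN a)) (ptN (rP (rt ρ) a)) p := by
  cases a with
  | none =>
    change Feq (act ((sys Kc).ac ρ) (check ∅)) (check ∅) p
    rw [act_check ((sys Kc).top ρ)]
    exact Feq.refl _ _
  | some i => exact act_aN ρ i p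

theorem rP_surj (g : ℕ → Kc) : Function.Surjective (rP g) := by
  intro a
  cases a with
  | none => exact ⟨none, rfl⟩
  | some i =>
    refine ⟨some (i.1, -g i.1 + i.2), ?_⟩
    change some (i.1, g i.1 + (-g i.1 + i.2)) = some i
    rw [add_neg_cancel_left]

theorem val_ptN_inj {π : Pkg (Cd Kc)} {a b : Pt} (ha : ptN a ∈ π.N) (hb : ptN b ∈ π.N)
    (h : π.val (ptN a) = π.val (ptN b)) : a = b := by
  by_contra hab
  obtain ⟨k, hk⟩ := (π.val_eq_iff ha hb).1 h
  exact not_feq_ptN hab _ hk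

/-- All the elements of the group. -/
theorem triv_mem : bs (∅ : Set (Ix Kc)) ∅ ∈ (sys Kc).F := bs_mem_F (Sp.empty ∅)

/-- The name of the space. -/
noncomputable def XN : PName (Cd Kc) := famN Pt ptN

theorem fix_XN : (sys Kc).Fix (bs ∅ ∅) XN :=
  fix_famN fun g _ => ⟨rP (rt g), rP_surj _, fun a p => act_ptN g a p⟩

theorem hs_XN : (sys Kc).HS XN := hs_famN triv_mem fix_XN hs_ptN

/-- The name of the distance. -/
noncomputable def dN : PName (Cd Kc) :=
  famN (Pt × Pt) fun t => opN (opN (ptN t.1) (ptN t.2)) (check (real (ds t.1 t.2)))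

theorem hs_dN : (sys Kc).HS dN := by
  refine hs_famN triv_mem (fix_famN fun g _ => ⟨fun t => (rP (rt g) t.1, rP (rt g) t.2),
    fun t => ?_, fun t p => ?_⟩) fun t => (sys Kc).hs_opN ((sys Kc).hs_opN (hs_ptN _) (hs_ptN _))
      ((sys Kc).hs_check _)
  · obtain ⟨a, ha⟩ := rP_surj (rt g) t.1
    obtain ⟨b, hb⟩ := rP_surj (rt g) t.2
    exact ⟨(a, b), Prod.ext ha hb⟩
  · rw [act_opN ((sys Kc).top g), act_opN ((sys Kc).top g), act_check ((sys Kc).top g), ds_rP]
    exact feq_opN (feq_opN (act_ptN g _ p) (act_ptN g _ p)) (Feq.refl _ _)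

/-- The name of the entourages. -/
noncomputable def UN : PName (Cd Kc) :=
  famN {t : ℕ × Pt × Pt // ds t.2.1 t.2.2 < (1 / 2 : ℝ) ^ t.1} fun t =>
    opN (check (nat t.1.1)) (opN (ptN t.1.2.1) (ptN t.1.2.2))

theorem hs_UN : (sys Kc).HS UN := by
  refine hs_famN triv_mem (fix_famN fun g _ => ⟨fun t => ⟨(t.1.1, rP (rt g) t.1.2.1,
    rP (rt g) t.1.2.2), by
      rw [ds_rP]
      exact t.2⟩, fun t => ?_, fun t p => ?_⟩) fun t => (sys Kc).hs_opN ((sys Kc).hs_check _)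
      ((sys Kc).hs_opN (hs_ptN _) (hs_ptN _))
  · obtain ⟨⟨j, a, b⟩, h⟩ := t
    obtain ⟨a, rfl⟩ := rP_surj (rt g) a
    obtain ⟨b, rfl⟩ := rP_surj (rt g) b
    rw [ds_rP] at h
    exact ⟨⟨(j, a, b), h⟩, rfl⟩
  · rw [act_opN ((sys Kc).top g), act_opN ((sys Kc).top g), act_check ((sys Kc).top g)]
    exact feq_opN (Feq.refl _ _) (feq_opN (act_ptN g _ p) (act_ptN g _ p))

/-- The name of the levels. -/
noncomputable def LN : PName (Cd Kc) :=
  famN (ℕ × Kc) fun t => opN (check (nat t.1)) (aN t)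

theorem hs_LN : (sys Kc).HS LN := by
  refine hs_famN triv_mem (fix_famN fun g _ => ⟨rot (rt g), (rot (rt g)).surjective,
    fun t p => ?_⟩) fun t => (sys Kc).hs_opN ((sys Kc).hs_check _) (hs_aN _)
  rw [act_opN ((sys Kc).top g), act_check ((sys Kc).top g)]
  exact feq_opN (Feq.refl _ _) (act_aN g t p)

/-- The name of the arcs of the circle `n`. -/
noncomputable def ArN (n : ℕ) : PName (Cd Kc) :=
  famN {t : ℕ × Kc // t.2 ∈ arc t.1} fun t => opN (check (nat t.1.1)) (aN (n, t.1.2))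

theorem hs_ArN (n : ℕ) : (sys Kc).HS (ArN n) := by
  refine hs_famN (bs_mem_F (Sp.empty {n})) (fix_famN fun g hg => ⟨id, Function.surjective_id,
    fun t p => ?_⟩) fun t => (sys Kc).hs_opN ((sys Kc).hs_check _) (hs_aN _)
  rw [act_opN ((sys Kc).top g), act_check ((sys Kc).top g)]
  exact feq_opN (Feq.refl _ _) (fix_aN (n, t.1.2) g hg p)

/-! ### The rules -/

open Classical in
/-- The points of the circle. -/
noncomputable def rB : Rule (Cd Kc) := fun q => match q with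
  | ⟨_, .mem s t, v, p⟩ =>
    if h : ∃ r : ℕ × ℝ, tv v s = check (nat r.1) ∧ tv v t = check (real r.2)
    then (aN (h.choose.1, (h.choose.2 : Kc)), p) else (emp, p)
  | q => (emp, q.p)

open Classical in
/-- The distances. -/
noncomputable def rDd : Rule (Cd Kc) := fun q => match q with
  | ⟨_, .mem s t, v, p⟩ =>
    if h : ∃ r : Pt × Pt, tv v s = ptN r.1 ∧ tv v t = ptN r.2
    then (check (real (ds h.choose.1 h.choose.2)), p) else (emp, p)
  | q => (emp, q.p)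

/-- The relation between rational numbers and covers. -/
noncomputable def RCS : ZFSet.{0} :=
  ZFSet.sep (fun w => ∃ (q : ℚ) (t : Finset ℕ), RC q t ∧
    w = pair (nat (Encodable.encode q)) (nat (Encodable.encode t)))
    (ZFSet.prod ZFSet.omega ZFSet.omega)

theorem mem_RCS {k t : ZFSet.{0}} : pair k t ∈ RCS ↔ ∃ (q : ℚ) (s : Finset ℕ),
    RC q s ∧ k = nat (Encodable.encode q) ∧ t = nat (Encodable.encode s) := by
  rw [RCS, ZFSet.mem_sep]
  constructor
  · rintro ⟨-, q, s, h, h1⟩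
    obtain ⟨rfl, rfl⟩ := ZFSet.pair_inj.1 h1
    exact ⟨q, s, h, rfl, rfl⟩
  · rintro ⟨q, s, h, rfl, rfl⟩
    exact ⟨ZFSet.pair_mem_prod.2 ⟨nat_om _, nat_om _⟩, q, s, h, rfl⟩

/-- The properties of the package. -/
structure GP (π : Pkg (Cd Kc)) : Prop where
  cld : (sys Kc).Cld π
  pt : ∀ (n : ℕ) (r : ℝ), real r ∈ π.Z → aN (n, (r : Kc)) ∈ π.N
  dist : ∀ a b : Pt, ptN a ∈ π.N → ptN b ∈ π.N → real (ds a b) ∈ π.Z
  om1 : Om1 ∈ π.Z
  js : JS ∈ π.Z
  dp : DP ∈ π.Z
  rcs : RCS ∈ π.Z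
  mem : Mem ∈ π.Z
  zero : real 0 ∈ π.Z
  xn : XN ∈ π.N
  dn : dN ∈ π.N
  un : UN ∈ π.N
  ln : LN ∈ π.N
  arn : ∀ n, ArN n ∈ π.N
  row : xN ((0, 0), ∅) ∈ π.N

theorem exists_GP' (A : Set (PName (Cd Kc))) (hA : A.Countable) (R : Set (Rule (Cd Kc)))
    (hR : R.Countable) : ∃ π : Pkg (Cd Kc), GP π ∧ A ⊆ π.N ∧
      ∀ ρ ∈ R, ∀ q : Query (Cd Kc), q.In π.N π.C → (ρ q).1 ∈ π.N ∧ (ρ q).2 ∈ π.C := by
  obtain ⟨π, h1, -, h3⟩ := exists_pkg (((sys Kc).rules ∪ {rB, rDd}) ∪ R)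
    ((Set.Countable.union (Set.Finite.countable (by
      unfold Sys.rules
      exact Set.toFinite _)) (Set.toFinite _).countable).union hR)
    ((({check Om1, check JS, check DP, check RCS, check Mem, check (real 0), XN, dN, UN, LN,
      xN ((0, 0), ∅)} : Set (PName (Cd Kc))) ∪ Set.range ArN) ∪ A)
    (((Set.toFinite _).countable.union (Set.countable_range _)).union hA) ⊤
  have m : ∀ x ∈ ({check Om1, check JS, check DP, check RCS, check Mem, check (real 0), XN, dN,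
      UN, LN, xN ((0, 0), ∅)} : Set (PName (Cd Kc))), x ∈ π.N := fun x hx => h1 (Or.inl (Or.inl hx))
  refine ⟨π, ⟨fun ρ hρ => h3 ρ (Or.inl (Or.inl hρ)), ?_, ?_, m _ (by simp), m _ (by simp),
    m _ (by simp), m _ (by simp), m _ (by simp), m _ (by simp), m _ (by simp), m _ (by simp),
    m _ (by simp), m _ (by simp), fun n => h1 (Or.inl (Or.inr ⟨n, rfl⟩)), m _ (by simp)⟩,
    fun x hx => h1 (Or.inr hx), fun ρ hρ => h3 ρ (Or.inr hρ)⟩
  · intro n r hr
    have h4 := (h3 rB (Or.inl (Or.inr (Or.inl rfl))) _ (query2 (π.nat_Z n) hr (π.gC 0))).1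
    have h5 : ∃ t : ℕ × ℝ, tv (Fin.elim0 : Fin 0 → PName (Cd Kc))
        (Sum.inr (check (nat n))) = check (nat t.1) ∧
        tv (Fin.elim0 : Fin 0 → PName (Cd Kc)) (Sum.inr (check (real r))) = check (real t.2) :=
      ⟨(n, r), rfl, rfl⟩
    have h6 : (rB ⟨0, .mem (Sum.inr (check (nat n))) (Sum.inr (check (real r))), Fin.elim0,
        π.g 0⟩).1 = aN (h5.choose.1, (h5.choose.2 : Kc)) := by
      unfold rB
      simp only [dif_pos h5]
    rw [h6] at h4
    obtain ⟨h7, h8⟩ := h5.choose_spec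
    have h9 : n = h5.choose.1 := nat_injective (check_injective h7)
    have h10 : r = h5.choose.2 := real_inj (check_injective h8)
    rwa [← h9, ← h10] at h4
  · intro a b ha hb
    have h4 := (h3 rDd (Or.inl (Or.inr (Or.inr rfl))) _ (query2 ha hb (π.gC 0))).1
    have h5 : ∃ t : Pt × Pt, tv (Fin.elim0 : Fin 0 → PName (Cd Kc)) (Sum.inr (ptN a)) = ptN t.1 ∧
        tv (Fin.elim0 : Fin 0 → PName (Cd Kc)) (Sum.inr (ptN b)) = ptN t.2 := ⟨(a, b), rfl, rfl⟩
    have h6 : (rDd ⟨0, .mem (Sum.inr (ptN a)) (Sum.inr (ptN b)), Fin.elim0, π.g 0⟩).1 =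
        check (real (ds h5.choose.1 h5.choose.2)) := by
      unfold rDd
      simp only [dif_pos h5]
    rw [h6] at h4
    obtain ⟨h7, h8⟩ := h5.choose_spec
    rw [← ptN_injective h7, ← ptN_injective h8] at h4
    exact h4

/-! ### No new sets of natural numbers -/

theorem hat_sub {P : Type} [Preorder P] [OrderTop P] (π : Pkg P) {s : ZFSet.{0}}
    (hs : s ⊆ ZFSet.omega) (hZ : s ∈ π.Z) : π.hat s = s := by
  ext z
  rw [π.mem_hat]
  constructor
  · rintro ⟨y, hy, -, rfl⟩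
    obtain ⟨n, rfl⟩ := mem_omega_iff.1 (hs hy)
    rwa [π.hat_nat]
  · intro hz
    obtain ⟨n, rfl⟩ := mem_omega_iff.1 (hs hz)
    exact ⟨_, hz, π.nat_Z n, π.hat_nat n⟩

theorem no_new {K : Type} [AddCommGroup K] {π : Pkg (Cd K)} (c1 : (sys K).Cld π)
    {z : ZFSet.{0}} (hz : z ∈ (sys K).Ms π) (hzo : z ⊆ ZFSet.omega) : z ∈ π.Z := by
  classical
  obtain ⟨ρ, ⟨hρ, hρs⟩, rfl⟩ := hz
  have hPZ : ZFSet.powerset ZFSet.omega ∈ π.Z := π.pow_Z π.omega_Z
  by_cases hcon : π.val ρ ∈ π.hat (ZFSet.powerset ZFSet.omega)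
  · obtain ⟨s, hs, hsZ, he⟩ := π.mem_hat.1 hcon
    rw [hat_sub π (ZFSet.mem_powerset.1 hs) hsZ] at he
    rwa [← he]
  · exfalso
    have hu : UDf fun _ (v : Fin 3 → ZFSet.{0}) => (∀ n ∈ v 0, n ∈ v 2) ∧ ¬ v 0 ∈ v 1 :=
      UDf.and (UDf.ball 0 (udm 0 3)) (UDf.not (udm 0 1))
    have hv : ∀ i, (sys K).HS ((![ρ, check (ZFSet.powerset ZFSet.omega),
        check ZFSet.omega] : Fin 3 → PName (Cd K)) i) := by
      intro i
      fin_cases i
      · exact hρs
      · exact (sys K).hs_check _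
      · exact (sys K).hs_check _
    have hin : ∀ π : Pkg (Cd K), ρ ∈ π.N → ZFSet.powerset ZFSet.omega ∈ π.Z → ∀ i,
        (![ρ, check (ZFSet.powerset ZFSet.omega), check ZFSet.omega] :
          Fin 3 → PName (Cd K)) i ∈ π.N := by
      intro π h1 h2 i
      fin_cases i
      · exact h1
      · exact h2
      · exact π.omega_Z
    obtain ⟨k, hk⟩ := hu.fund hv c1 (hin π hρ hPZ) (by
      refine ⟨fun n hn => ?_, hcon⟩
      change n ∈ π.hat ZFSet.omega
      rw [π.hat_omega]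
      exact hzo hn)
    obtain ⟨q, b, hqp, hq⟩ := sclosed.meet (π.g k) (fun n (b : Prop) q =>
      ∀ π' : Pkg (Cd K), (sys K).Cld π' → ρ ∈ π'.N → (∃ m, π'.g m ≤ q) →
        (nat n ∈ π'.val ρ ↔ b)) (by
      intro n q hq
      obtain ⟨q', hq', h2 | h2⟩ := SF.dec ud_mem (hs2 ((sys K).hs_check (nat n)) hρs) q
      · refine ⟨q', hq', True, fun π' c h3 h4 => ?_⟩
        have h5 := h2 π' c (by
          intro i
          fin_cases i
          · exact π'.nat_Z n
          · exact h3) h4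
        change π'.hat (nat n) ∈ π'.val ρ at h5
        rw [π'.hat_nat] at h5
        simpa using h5
      · refine ⟨q', hq', False, fun π' c h3 h4 => ?_⟩
        have h5 := h2 π' c (by
          intro i
          fin_cases i
          · exact π'.nat_Z n
          · exact h3) h4
        change ¬ π'.hat (nat n) ∈ π'.val ρ at h5
        rw [π'.hat_nat] at h5
        simpa using h5)
    let s : ZFSet.{0} := ZFSet.sep (fun z => ∃ n, b n ∧ z = nat n) ZFSet.omega
    have hso : s ⊆ ZFSet.omega := fun z hz => (ZFSet.mem_sep.1 hz).1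
    obtain ⟨π', d1, d2, d3⟩ := exists_cld (sys K) {ρ, check s}
      (Set.toFinite _).countable q
    have m1 : ρ ∈ π'.N := d2 (Or.inl rfl)
    have m2 : s ∈ π'.Z := d2 (Or.inr rfl)
    have m3 : ZFSet.powerset ZFSet.omega ∈ π'.Z := π'.pow_Z π'.omega_Z
    obtain ⟨h1, h2⟩ := hk π' d1 (hin π' m1 m3) ⟨0, d3.le.trans hqp⟩
    apply h2
    change π'.val ρ ∈ π'.hat (ZFSet.powerset ZFSet.omega)
    have h3 : π'.val ρ = π'.hat s := by
      rw [hat_sub π' hso m2]
      ext z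
      constructor
      · intro hz
        have h4 := h1 z hz
        change z ∈ π'.hat ZFSet.omega at h4
        rw [π'.hat_omega] at h4
        obtain ⟨n, rfl⟩ := mem_omega_iff.1 h4
        obtain ⟨q'', h5, h6⟩ := hq n
        exact ZFSet.mem_sep.2 ⟨h4, n, (h6 π' d1 m1 ⟨0, d3.le.trans h5⟩).1 hz, rfl⟩
      · intro hz
        obtain ⟨-, n, hn, rfl⟩ := ZFSet.mem_sep.1 hz
        obtain ⟨q'', h5, h6⟩ := hq n
        exact (h6 π' d1 m1 ⟨0, d3.le.trans h5⟩).2 hn
    rw [h3]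
    exact (π'.hat_mem_hat m2 m3).2 (ZFSet.mem_powerset.2 hso)

end Pool.Agent.R598.CI
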