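import Pool.Agent.R598.CI.Sym2
import Pool.Agent.R598.PM.Mod2

/-!
# The statements about compact metric spaces
-/

set_option autoImplicit false
set_option linter.unusedSectionVars false

namespace Pool.Agent.R598.CI

open Pool.Agent.W868 Pool.Agent.W868.PName Pool.Agent.R598.SY
open ZFSet (pair)

theorem mem_nat_iff {n : ℕ} {z : ZFSet.{0}} : z ∈ nat n ↔ ∃ m, m < n ∧ z = nat m := by
  induction n with
  | zero =>
    rw [nat]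
    constructor
    · intro h
      exact absurd h (ZFSet.notMem_empty _)
    · rintro ⟨m, hm, -⟩
      omega
  | succ n ih =>
    rw [nat, ZFSet.mem_insert_iff, ih]
    constructor
    · rintro (rfl | ⟨m, hm, rfl⟩)
      · exact ⟨n, Nat.lt_succ_self n, rfl⟩
      · exact ⟨m, by omega, rfl⟩
    · rintro ⟨m, hm, rfl⟩
      rcases Nat.lt_succ_iff_lt_or_eq.1 hm with h | rfl
      · exact Or.inr ⟨m, h, rfl⟩
      · exact Or.inl rfl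

theorem nat_mem_nat' {i m : ℕ} (h : i < m) : nat i ∈ nat m := mem_nat_iff.2 ⟨i, h, rfl⟩

theorem udw {n : ℕ} (a b c d : Fin n) :
    UDf fun _ (v : Fin n → ZFSet.{0}) => pair (v a) (pair (v b) (v c)) ∈ v d := by
  have h1 : UDf fun M (v : Fin n → ZFSet.{0}) => ∃ z ∈ M, z = pair (v b) (v c) ∧
      pair (v a) z ∈ v d := by
    refine UDf.ex (Q := fun M z v => z = pair (v b) (v c) ∧ pair (v a) z ∈ v d) (UDf.and ?_ ?_)
    · exact UDf.of (D0.isPair (D0v.proj 0) (D0v.proj b.succ) (D0v.proj c.succ))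
    · exact UDf.of (D0.pairMem (D0v.proj a.succ) (D0v.proj 0) (D0v.proj d.succ))
  refine h1.congr fun M hM v hv => ?_
  constructor
  · rintro ⟨z, -, rfl, h⟩
    exact h
  · exact fun h => ⟨_, pair_mem' hM (hv b) (hv c), rfl, h⟩

theorem udp {n : ℕ} (a b c : Fin n) :
    UDf fun _ (v : Fin n → ZFSet.{0}) => pair (v a) (v b) ∈ v c :=
  UDf.of (D0.pairMem (D0v.proj a) (D0v.proj b) (D0v.proj c))

theorem udm {n : ℕ} (a b : Fin n) : UDf fun _ (v : Fin n → ZFSet.{0}) => v a ∈ v b :=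
  UDf.of (D0.mem (D0v.proj a) (D0v.proj b))

theorem ude {n : ℕ} (a b : Fin n) : UDf fun _ (v : Fin n → ZFSet.{0}) => v a = v b :=
  UDf.of (D0.eq (D0v.proj a) (D0v.proj b))

/-- The relation `v 1` gives the entourages of a compact metric space `v 0`; the set `v 2` is the
set of the natural numbers. -/
def CG (M : Set ZFSet.{0}) (v : Fin 3 → ZFSet.{0}) : Prop :=
  (∀ x ∈ v 0, ∀ y ∈ v 0, (∀ j ∈ v 2, pair j (pair x y) ∈ v 1) → x = y) ∧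
  (∀ j ∈ v 2, ∀ x ∈ v 0, ∀ y ∈ v 0, pair j (pair x y) ∈ v 1 → pair j (pair y x) ∈ v 1) ∧
  (∀ j ∈ v 2, ∀ i ∈ j, ∀ x ∈ v 0, ∀ y ∈ v 0, ∀ z ∈ v 0, pair j (pair x y) ∈ v 1 →
    pair j (pair y z) ∈ v 1 → pair i (pair x z) ∈ v 1) ∧
  (∀ j ∈ v 2, ∀ x ∈ v 0, pair j (pair x x) ∈ v 1) ∧
  ∀ C ∈ M, (∀ x ∈ v 0, ∃ V ∈ C, ∃ j ∈ v 2, ∀ y ∈ v 0, pair j (pair x y) ∈ v 1 → y ∈ V) →
    ∃ f ∈ M, ∃ n ∈ v 2, (∀ x ∈ v 0, ∃ i ∈ n, ∃ V ∈ C, pair V i ∈ f ∧ x ∈ V) ∧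
      ∀ i ∈ n, ∀ V ∈ C, ∀ V' ∈ C, pair V i ∈ f → pair V' i ∈ f → V = V'

theorem ud_cg : UDf CG := by
  refine UDf.and ?_ (UDf.and ?_ (UDf.and ?_ (UDf.and ?_ ?_)))
  · refine UDf.ball 0 (UDf.ball 1 (UDf.imp (UDf.ball 4 ?_) ?_))
    · exact udw 0 2 1 4
    · exact ude 1 0
  · refine UDf.ball 2 (UDf.ball 1 (UDf.ball 2 (UDf.imp ?_ ?_)))
    · exact udw 2 1 0 4
    · exact udw 2 0 1 4
  · refine UDf.ball 2 (UDf.ball 0 (UDf.ball 2 (UDf.ball 3 (UDf.ball 4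
      (UDf.imp ?_ (UDf.imp ?_ ?_))))))
    · exact udw 4 2 1 6
    · exact udw 4 1 0 6
    · exact udw 3 2 0 6
  · exact UDf.ball 2 (UDf.ball 1 (udw 1 0 0 3))
  · refine UDf.all (UDf.imp ?_ ?_)
    · exact UDf.ball 1 (UDf.bex 1 (UDf.bex 5 (UDf.ball 4 (UDf.imp (udw 1 3 0 6) (udm 0 2)))))
    · refine UDf.ex (UDf.bex 4 (UDf.and ?_ ?_))
      · exact UDf.ball 3 (UDf.bex 1 (UDf.bex 4 (UDf.and (udp 0 1 4) (udm 2 0))))
      · exact UDf.ball 0 (UDf.ball 3 (UDf.ball 4 (UDf.imp (udp 1 2 4)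
          (UDf.imp (udp 0 2 4) (ude 1 0)))))

/-- There is a subset `B` of the space `v 0` with a countable dense set, and `B` is not countable
or the whole space. -/
def Inter (M : Set ZFSet.{0}) (v : Fin 3 → ZFSet.{0}) : Prop :=
  ∃ B ∈ M, ∃ f ∈ M, (∀ y ∈ B, y ∈ v 0) ∧
    (∀ n ∈ v 2, ∀ x ∈ v 0, ∀ x' ∈ v 0, pair n x ∈ f → pair n x' ∈ f → x = x') ∧
    (∀ y ∈ B, ∀ j ∈ v 2, ∃ n ∈ v 2, ∃ x ∈ v 0, pair n x ∈ f ∧ pair j (pair x y) ∈ v 1) ∧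
    ((∃ e ∈ M, (∀ y ∈ B, ∃ n ∈ v 2, pair y n ∈ e) ∧
      ∀ y ∈ B, ∀ y' ∈ B, ∀ n ∈ v 2, pair y n ∈ e → pair y' n ∈ e → y = y') →
        ∀ x ∈ v 0, x ∈ B)

theorem ud_inter : UDf Inter := by
  refine UDf.ex (UDf.ex (UDf.and ?_ (UDf.and ?_ (UDf.and ?_ (UDf.imp ?_ ?_)))))
  · exact UDf.ball 1 (udm 0 3)
  · exact UDf.ball 4 (UDf.ball 3 (UDf.ball 4 (UDf.imp (udp 2 1 3) (UDf.imp (udp 2 0 3)
      (ude 1 0)))))
  · exact UDf.ball 1 (UDf.ball 5 (UDf.bex 6 (UDf.bex 5 (UDf.and (udp 1 0 4) (udw 2 0 3 7)))))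
  · refine UDf.ex (UDf.and ?_ ?_)
    · exact UDf.ball 2 (UDf.bex 6 (udp 1 0 2))
    · exact UDf.ball 2 (UDf.ball 3 (UDf.ball 7 (UDf.imp (udp 2 0 3) (UDf.imp (udp 1 0 3)
        (ude 2 1)))))
  · exact UDf.ball 2 (udm 0 2)

section

variable {M : Set ZFSet.{0}} (hM : IsZF M) {X U : ZFSet.{0}} (hX : X ∈ M) (hU : U ∈ M)
  (h : CG M ![X, U, ZFSet.omega])

include h in
theorem cg_sep {x y : ZFSet.{0}} (hx : x ∈ X) (hy : y ∈ X) (hW : ∀ j, Wj U j x y) : x = y := by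
  refine h.1 x hx y hy fun j hj => ?_
  obtain ⟨n, rfl⟩ := mem_omega_iff.1 hj
  exact hW n

include h in
theorem cg_sym {x y : ZFSet.{0}} {j : ℕ} (hx : x ∈ X) (hy : y ∈ X) (hW : Wj U j x y) :
    Wj U j y x := h.2.1 _ (mem_omega_iff.2 ⟨j, rfl⟩) x hx y hy hW

include h in
theorem cg_tri {x y z : ZFSet.{0}} {j i : ℕ} (hij : i < j) (hx : x ∈ X) (hy : y ∈ X)
    (hz : z ∈ X) (hW : Wj U j x y) (hW' : Wj U j y z) : Wj U i x z :=
  h.2.2.1 _ (mem_omega_iff.2 ⟨j, rfl⟩) _ (nat_mem_nat' hij) x hx y hy z hz hW hW'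

include h in
theorem cg_rfl {x : ZFSet.{0}} (j : ℕ) (hx : x ∈ X) : Wj U j x x :=
  h.2.2.2.1 _ (mem_omega_iff.2 ⟨j, rfl⟩) x hx

include h in
theorem cg_mono {x y : ZFSet.{0}} {j i : ℕ} (hij : i ≤ j) (hx : x ∈ X) (hy : y ∈ X)
    (hW : Wj U j x y) : Wj U i x y := by
  rcases hij.lt_or_eq with h1 | rfl
  · exact cg_tri h h1 hx hy hy hW (cg_rfl h j hy)
  · exact hW

include h in
/-- Compactness. -/
theorem cg_comp {C : ZFSet.{0}} (hC : C ∈ M)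
    (h1 : ∀ x ∈ X, ∃ V ∈ C, ∃ j : ℕ, ∀ y ∈ X, Wj U j x y → y ∈ V) :
    ∃ (n : ℕ) (V : Fin n → ZFSet.{0}) (s : Set (Fin n)), (∀ i ∈ s, V i ∈ C) ∧
      ∀ x ∈ X, ∃ i ∈ s, x ∈ V i := by
  classical
  obtain ⟨f, hf, n, hn, h2, h3⟩ := h.2.2.2.2 C hC (by
    intro x hx
    obtain ⟨V, hV, j, hj⟩ := h1 x hx
    exact ⟨V, hV, nat j, mem_omega_iff.2 ⟨j, rfl⟩, hj⟩)
  obtain ⟨n, rfl⟩ := mem_omega_iff.1 hn
  refine ⟨n, fun i => if h : ∃ V ∈ C, pair V (nat i) ∈ f then h.choose else ∅,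
    {i | ∃ V ∈ C, pair V (nat i) ∈ f}, ?_, ?_⟩
  · intro i hi
    have hi' : ∃ V ∈ C, pair V (nat i) ∈ f := hi
    simp only [dif_pos hi']
    exact hi'.choose_spec.1
  · intro x hx
    obtain ⟨i, hi, V, hV, hVf, hxV⟩ := h2 x hx
    obtain ⟨k, hk, rfl⟩ := mem_nat_iff.1 hi
    have hi' : ∃ V ∈ C, pair V (nat k) ∈ f := ⟨V, hV, hVf⟩
    refine ⟨⟨k, hk⟩, hi', ?_⟩
    simp only [dif_pos hi']
    have h4 := h3 _ hi _ hi'.choose_spec.1 V hV hi'.choose_spec.2 hVf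
    rw [h4]
    exact hxV

include hM hX hU h in
theorem good_of_cg : Good X U := by
  refine ⟨fun x hx y hy => cg_sep h hx hy, fun j x hx y hy => cg_sym h hx hy,
    fun j i hij x hx y hy z hz => cg_tri h hij hx hy hz, fun j x hx => cg_rfl h j hx, fun j => ?_⟩
  obtain ⟨P, hP, hP'⟩ := hM.power X hX
  have hj : nat (j + 1) ∈ M := hM.trans _ hM.infinity _ (mem_omega_iff.2 ⟨_, rfl⟩)
  have hC := hM.sep_mem (Q := fun V => ∃ x ∈ X, ∀ y ∈ X,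
    y ∈ V ↔ pair (nat (j + 1)) (pair x y) ∈ U) (by (repeat' first | assumption | exact DfnF.proj _ | exact DfnF.const (by assumption) | exact Dfn.prop _ | apply Dfn.not | apply Dfn.and | apply Dfn.or | apply Dfn.imp | apply Dfn.iff | apply hM.base.bex | apply hM.base.ball | apply Dfn.ex | apply Dfn.all | apply Dfn.eq | apply Dfn.mem | apply hM.base.pair')) hP
  obtain ⟨n, V, s, h1, h2⟩ := cg_comp h hC (by
    intro x hx
    have hxM : x ∈ M := hM.trans _ hX _ hx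
    have hV := hM.sep_mem (Q := fun y => pair (nat (j + 1)) (pair x y) ∈ U) (by (repeat' first | assumption | exact DfnF.proj _ | exact DfnF.const (by assumption) | exact Dfn.prop _ | apply Dfn.not | apply Dfn.and | apply Dfn.or | apply Dfn.imp | apply Dfn.iff | apply hM.base.bex | apply hM.base.ball | apply Dfn.ex | apply Dfn.all | apply Dfn.eq | apply Dfn.mem | apply hM.base.pair')) hX
    refine ⟨_, ZFSet.mem_sep.2 ⟨(hP' _).2 ⟨hV, fun y hy => (ZFSet.mem_sep.1 hy).1⟩, x, hx,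
      fun y hy => ?_⟩, j + 1, fun y hy hW => ZFSet.mem_sep.2 ⟨hy, hW⟩⟩
    rw [ZFSet.mem_sep]
    exact ⟨fun h => h.2, fun h => ⟨hy, h⟩⟩)
  refine ⟨n + 1, fun f hf => ?_⟩
  choose g hg using fun i => h2 (f i) (hf i)
  obtain ⟨i, i', hii, he⟩ := Fintype.exists_ne_map_eq_of_card_lt g (by simp)
  refine ⟨i, i', hii, ?_⟩
  obtain ⟨-, x, hx, h3⟩ := ZFSet.mem_sep.1 (h1 _ (hg i).1)
  have h4 : Wj U (j + 1) x (f i) := (h3 _ (hf i)).1 (hg i).2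
  have h5 : Wj U (j + 1) x (f i') := (h3 _ (hf i')).1 (he ▸ (hg i').2)
  exact cg_tri h (Nat.lt_succ_self j) (hf i) hx (hf i') (cg_sym h hx (hf i) h4) h5

end

end Pool.Agent.R598.CI
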