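import Pool.Agent.R598.CI.Cnd

/-!
# Restriction of conditions and symmetrization of names
-/

set_option autoImplicit false
set_option linter.unusedSectionVars false

namespace Pool.Agent.R598.CI

open Pool.Agent.W868 Pool.Agent.W868.PName Pool.Agent.R598.SY
open ZFSet (pair)

/-! ### General facts -/

section general

variable {P : Type} [Preorder P] [OrderTop P] {S : Sys P}

theorem SF.move {n : ℕ} {R : Set ZFSet.{0} → (Fin n → ZFSet.{0}) → Prop} (hR : UDf R)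
    {v w : Fin n → PName P} (hv : ∀ i, S.HS (v i)) (hw : ∀ i, S.HS (w i)) (g : S.G)
    (h : ∀ i p, Feq (SY.act (S.ac g) (v i)) (w i) p) {p : P} (hp : SF S R v p) :
    SF S R w (S.ac g p) :=
  (SF.congr hR (v := SY.act (S.ac g) ∘ v) (fun i => S.hs_act (hv i) g) hw (fun i => h i _)).1
    ((SF.act hR hv g).2 hp)

/-- The symmetrized name. -/
noncomputable def symN (S : Sys P) (L : Subgroup S.G) (b : P) (x : PName P) : PName P :=
  PName.mk {t : (L × x.idx) × P // t.2 ≤ S.ac t.1.1.1 b ∧ t.2 ≤ S.ac t.1.1.1 (x.cnd t.1.2)}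
    (fun t => act (S.ac t.1.1.1.1) (x.chd t.1.1.2)) (fun t => t.1.2)

theorem el_symN {L : Subgroup S.G} {b : P} {x z : PName P} {c : P} :
    El (symN S L b x) z c ↔ ∃ g ∈ L, ∃ z' c', El x z' c' ∧ z = act (S.ac g) z' ∧
      c ≤ S.ac g b ∧ c ≤ S.ac g c' := by
  rw [symN, el_mk]
  constructor
  · rintro ⟨⟨⟨⟨⟨g, hg⟩, i⟩, c⟩, h1, h2⟩, rfl, rfl⟩
    exact ⟨g, hg, x.chd i, x.cnd i, ⟨i, rfl, rfl⟩, rfl, h1, h2⟩
  · rintro ⟨g, hg, _, _, ⟨i, rfl, rfl⟩, rfl, h1, h2⟩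
    exact ⟨⟨⟨⟨⟨g, hg⟩, i⟩, c⟩, h1, h2⟩, rfl, rfl⟩

theorem fix_symN (L : Subgroup S.G) (b : P) (x : PName P) : S.Fix L (symN S L b x) := by
  intro h hh p
  refine feq_of_el fun z c => ?_
  rw [el_act, el_symN]
  constructor
  · rintro ⟨z, c, hz, rfl, rfl⟩
    obtain ⟨g, hg, z', c', h1, rfl, h2, h3⟩ := el_symN.1 hz
    refine ⟨h * g, L.mul_mem hh hg, z', c', h1, ?_, ?_, ?_⟩
    · rw [S.ac.map_mul, act_mul]
    · rw [S.ac.map_mul]
      exact (S.ac h).le_iff_le.2 h2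
    · rw [S.ac.map_mul]
      exact (S.ac h).le_iff_le.2 h3
  · rintro ⟨g, hg, z', c', h1, rfl, h2, h3⟩
    refine ⟨act (S.ac (h⁻¹ * g)) z', (S.ac h)⁻¹ c, el_symN.2 ⟨h⁻¹ * g,
      L.mul_mem (L.inv_mem hh) hg, z', c', h1, rfl, ?_, ?_⟩, ?_, (app_inv _ _).symm⟩
    · rw [S.ac.map_mul, S.ac.map_inv]
      exact (S.ac h)⁻¹.le_iff_le.2 h2
    · rw [S.ac.map_mul, S.ac.map_inv]
      exact (S.ac h)⁻¹.le_iff_le.2 h3
    · rw [← act_mul, ← S.ac.map_mul, mul_inv_cancel_left]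

theorem hs_symN {L : Subgroup S.G} (hL : L ∈ S.F) (b : P) {x : PName P} (hx : S.HS x) :
    S.HS (symN S L b x) := by
  refine S.hs_iff.2 ⟨⟨L, hL, fix_symN L b x⟩, fun z c hz => ?_⟩
  obtain ⟨g, hg, z', c', h1, rfl, h2, h3⟩ := el_symN.1 hz
  exact S.hs_act (hx.el h1) g

theorem feq_symN {L : Subgroup S.G} {b : P} {x : PName P}
    (h : ∀ g ∈ L, ∀ s ≤ b, s ≤ S.ac g b → Feq (act (S.ac g) x) x s) :
    Feq (symN S L b x) x b := by
  rw [feq_iff']
  constructor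
  · intro z c hz q hq hqc
    obtain ⟨g, hg, z', c', h1, rfl, h2, h3⟩ := el_symN.1 hz
    have h4 := h g hg q hq (hqc.trans h2)
    exact (feq_iff'.1 h4).1 _ (S.ac g c') (el_act.2 ⟨z', c', h1, rfl, rfl⟩) q le_rfl
      (hqc.trans h3)
  · intro z c hz q hq hqc
    refine ⟨q, le_rfl, z, q, el_symN.2 ⟨1, L.one_mem, z, c, hz, ?_, ?_, ?_⟩, le_rfl,
      Feq.refl _ _⟩
    · rw [S.ac.map_one, act_one]
    · rw [S.ac.map_one]
      exact hq
    · rw [S.ac.map_one]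
      exact hqc

theorem sf_of_feq {x y : PName P} {p : P} (h : Feq x y p) :
    SF S (fun _ (v : Fin 2 → ZFSet.{0}) => v 0 = v 1) ![x, y] p :=
  fun _ _ h2 hk => val_eq_of_feq (h2 0) (h2 1) h hk

theorem sf_of_fmem {x y : PName P} {p : P} (h : Fmem x y p) :
    SF S (fun _ (v : Fin 2 → ZFSet.{0}) => v 0 ∈ v 1) ![x, y] p :=
  fun _ _ h2 hk => val_mem_of_fmem (h2 0) (h2 1) h hk

theorem hs2 {x y : PName P} (hx : S.HS x) (hy : S.HS y) :
    ∀ i, S.HS ((![x, y] : Fin 2 → PName P) i) := by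
  intro i
  fin_cases i
  · exact hx
  · exact hy

end general

variable {K : Type} [AddCommGroup K]

/-! ### The action on names with supports -/

theorem feq_of_agree {E : Set (Ix K)} {F : Finset ℕ} {x : PName (Cd K)}
    (hx : (sys K).Fix (bs E F) x) {σ τ : (sys K).G} (h1 : ∀ a ∈ E, σ.1.1 a = τ.1.1 a)
    (h2 : ∀ n ∈ F, rt σ n = rt τ n) (p : Cd K) :
    Feq (act ((sys K).ac σ) x) (act ((sys K).ac τ) x) p := by
  have h3 : σ⁻¹ * τ ∈ bs E F := by
    refine ⟨fun a ha => ?_, fun n hn => ?_⟩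
    · change σ.1.1.symm (τ.1.1 a) = a
      rw [← h1 a ha, Equiv.symm_apply_apply]
    · change rt (σ⁻¹ * τ) n = 0
      have h4 : rt (σ⁻¹ * τ) n = - rt σ n + rt τ n := rfl
      rw [h4, h2 n hn, neg_add_cancel]
  have h4 := feq_act' (e := (sys K).ac σ) (hx _ h3 ((sys K).ac σ⁻¹ p))
  rw [← act_mul, ← (sys K).ac.map_mul, mul_inv_cancel_left] at h4
  have h5 : (sys K).ac σ ((sys K).ac σ⁻¹ p) = p := by
    rw [(sys K).ac.map_inv]
    exact app_inv _ _
  rw [h5] at h4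
  exact h4.symm

theorem fix_act {E : Set (Ix K)} {F : Finset ℕ} {x : PName (Cd K)}
    (hx : (sys K).Fix (bs E F) x) (σ : (sys K).G) :
    (sys K).Fix (bs (σ.1.1 '' E) F) (act ((sys K).ac σ) x) := by
  intro τ hτ p
  rw [← act_mul, ← (sys K).ac.map_mul]
  refine feq_of_agree hx (fun a ha => ?_) (fun n hn => ?_) p
  · exact hτ.1 _ ⟨a, ha, rfl⟩
  · have h4 : rt (τ * σ) n = rt τ n + rt σ n := rfl
    rw [h4, hτ.2 n hn, zero_add]

/-- The restriction of a condition to the support of the parameters. -/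
theorem sf_rs {n : ℕ} {R : Set ZFSet.{0} → (Fin n → ZFSet.{0}) → Prop} (hR : UDf R)
    {v : Fin n → PName (Cd K)} (hv : ∀ i, (sys K).HS (v i)) {E : Set (Ix K)} {F : Finset ℕ}
    (hE : Sp E F) (hfix : ∀ i, (sys K).Fix (bs E F) (v i)) {p : Cd K}
    (h : SF (sys K) R v p) : SF (sys K) R v (rs p E) := by
  refine SF.dense hR hv fun q hq => ?_
  obtain ⟨σ, h1, h2, h3, -⟩ := exists_copies hE.1 p.dom_cnt q.dom_cnt
  have h4 : σ 0 ∈ bs E F := ⟨h2 0, fun n _ => by rw [h1 0]; rfl⟩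
  have h5 : SF (sys K) R v ((sys K).ac (σ 0) p) :=
    SF.move hR hv hv (σ 0) (fun i p => hfix i _ h4 p) h
  obtain ⟨s, hs⟩ := glue2 q (mv (σ 0).1.1 p) (by
    intro a l b ha hb
    rw [mem_mv] at hb
    by_cases hE' : (σ 0).1.1.symm a ∈ E
    · have h6 : a = (σ 0).1.1.symm a := by
        have h7 := h2 0 _ hE'
        rwa [Equiv.apply_symm_apply] at h7
      have h7 : (a, l, !b) ∈ q.s := hq ⟨by
        have h8 : ((σ 0).1.1.symm a, l, !b) ∈ p.s := hb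
        rwa [← h6] at h8, by
        change a ∈ E
        rw [h6]
        exact hE'⟩
      cases b
      · exact q.fn _ _ h7 ha
      · exact q.fn _ _ ha h7
    · have h6 := h3 0 _ (Cd.mem_dom hb) hE'
      rw [Equiv.apply_symm_apply] at h6
      exact h6 (Cd.mem_dom ha))
  refine ⟨s, ?_, h5.mono ?_⟩
  · rw [le_def, hs]
    exact Set.subset_union_left
  · rw [le_def, hs]
    exact Set.subset_union_right

theorem feq_rs {x y : PName (Cd K)} (hx : (sys K).HS x) (hy : (sys K).HS y) {E : Set (Ix K)}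
    {F : Finset ℕ} (hE : Sp E F) (hx' : (sys K).Fix (bs E F) x) (hy' : (sys K).Fix (bs E F) y)
    {p : Cd K} (h : Feq x y p) : Feq x y (rs p E) := by
  refine feq_of_sf (S := sys K) (v := ![x, y]) rfl rfl (sf_rs ud_eq (hs2 hx hy) hE ?_ (sf_of_feq h))
  intro i
  fin_cases i
  · exact hx'
  · exact hy'

theorem fmem_rs {x y : PName (Cd K)} (hx : (sys K).HS x) (hy : (sys K).HS y) {E : Set (Ix K)}
    {F : Finset ℕ} (hE : Sp E F) (hx' : (sys K).Fix (bs E F) x) (hy' : (sys K).Fix (bs E F) y)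
    {p : Cd K} (h : Fmem x y p) : Fmem x y (rs p E) := by
  refine fmem_of_sf (S := sys K) (v := ![x, y]) rfl rfl
    (sf_rs ud_mem (hs2 hx hy) hE ?_ (sf_of_fmem h))
  intro i
  fin_cases i
  · exact hx'
  · exact hy'

theorem fmem_act_fix {x t : PName (Cd K)} {g : (sys K).G}
    (ht : ∀ p, Feq (act ((sys K).ac g) t) t p) {p : Cd K} (h : Fmem x t p) :
    Fmem (act ((sys K).ac g) x) t ((sys K).ac g p) :=
  fmem_congr (Feq.refl _ _) (ht _) (fmem_act' (e := (sys K).ac g) h)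

/-! ### The entourages -/

/-- The points `x` and `y` are close of order `j`. -/
def Wj (U : ZFSet.{0}) (j : ℕ) (x y : ZFSet.{0}) : Prop := pair (nat j) (pair x y) ∈ U

theorem pair_mem' {M : Set ZFSet.{0}} (hM : IsZF M) {x y : ZFSet.{0}} (hx : x ∈ M) (hy : y ∈ M) :
    pair x y ∈ M := hM.pairing _ (hM.pairing _ hx _ hx) _ (hM.pairing _ hx _ hy) |> fun h => by
  have h1 : pair x y = {{x, x}, {x, y}} := by
    rw [ZFSet.pair, ZFSet.pair_eq_singleton]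
  rw [h1]
  exact h

theorem ud_w : UDf fun _ (v : Fin 4 → ZFSet.{0}) => pair (v 1) (pair (v 2) (v 3)) ∈ v 0 := by
  have h1 : UDf fun M (v : Fin 4 → ZFSet.{0}) => ∃ z ∈ M, z = pair (v 2) (v 3) ∧
      pair (v 1) z ∈ v 0 := by
    refine UDf.ex (Q := fun M z v => z = pair (v 2) (v 3) ∧ pair (v 1) z ∈ v 0) (UDf.and ?_ ?_)
    · exact UDf.of (D0.isPair (D0v.proj 0) (D0v.proj 3) (D0v.proj 4))
    · exact UDf.of (D0.pairMem (D0v.proj 2) (D0v.proj 0) (D0v.proj 1))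
  refine h1.congr fun M hM v hv => ?_
  constructor
  · rintro ⟨z, -, rfl, h⟩
    exact h
  · exact fun h => ⟨_, pair_mem' hM (hv 2) (hv 3), rfl, h⟩

/-- The condition `p` forces that the points are close. -/
def FW (u : PName (Cd K)) (j : ℕ) (x y : PName (Cd K)) (p : Cd K) : Prop :=
  SF (sys K) (fun _ (v : Fin 4 → ZFSet.{0}) => pair (v 1) (pair (v 2) (v 3)) ∈ v 0)
    ![u, check (nat j), x, y] p

theorem hs4 {u x y : PName (Cd K)} (j : ℕ) (hu : (sys K).HS u) (hx : (sys K).HS x)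
    (hy : (sys K).HS y) : ∀ i, (sys K).HS ((![u, check (nat j), x, y] : Fin 4 → PName (Cd K)) i) := by
  intro i
  fin_cases i
  · exact hu
  · exact (sys K).hs_check _
  · exact hx
  · exact hy

theorem FW.val {u x y : PName (Cd K)} {j : ℕ} {p : Cd K} (h : FW u j x y p)
    {π : Pkg (Cd K)} (h1 : (sys K).Cld π) (hu : u ∈ π.N) (hx : x ∈ π.N) (hy : y ∈ π.N)
    (hk : ∃ k, π.g k ≤ p) : Wj (π.val u) j (π.val x) (π.val y) := by
  have h2 := h π h1 (by
    intro i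
    fin_cases i
    · exact hu
    · exact π.nat_Z j
    · exact hx
    · exact hy) hk
  change pair (π.hat (nat j)) (pair (π.val x) (π.val y)) ∈ π.val u at h2
  rwa [π.hat_nat] at h2

theorem fw_intro {u x y : PName (Cd K)} {j : ℕ} {p : Cd K} (hu : (sys K).HS u)
    (hx : (sys K).HS x) (hy : (sys K).HS y) (A : Set (PName (Cd K))) (hA : A.Countable)
    (h : ∀ π : Pkg (Cd K), (sys K).Cld π → u ∈ π.N → x ∈ π.N → y ∈ π.N → A ⊆ π.N →
      (∃ k, π.g k ≤ p) → Wj (π.val u) j (π.val x) (π.val y)) : FW u j x y p := by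
  refine SF.intro ud_w (hs4 j hu hx hy) A hA fun π h1 h2 h3 hk => ?_
  change pair (π.hat (nat j)) (pair (π.val x) (π.val y)) ∈ π.val u
  rw [π.hat_nat]
  exact h π h1 (h2 0) (h2 2) (h2 3) h3 hk

theorem FW.mono {u x y : PName (Cd K)} {j : ℕ} {p q : Cd K} (h : FW u j x y p) (hq : q ≤ p) :
    FW u j x y q := SF.mono h hq

theorem FW.dense {u x y : PName (Cd K)} {j : ℕ} {p : Cd K} (hu : (sys K).HS u)
    (hx : (sys K).HS x) (hy : (sys K).HS y) (h : ∀ q ≤ p, ∃ s ≤ q, FW u j x y s) :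
    FW u j x y p := SF.dense ud_w (hs4 j hu hx hy) h

theorem FW.move {u x y x' y' : PName (Cd K)} {j : ℕ} {p : Cd K} (hu : (sys K).HS u)
    (hx : (sys K).HS x) (hy : (sys K).HS y) (hx' : (sys K).HS x') (hy' : (sys K).HS y')
    (g : (sys K).G) (h1 : ∀ p, Feq (act ((sys K).ac g) u) u p)
    (h2 : ∀ p, Feq (act ((sys K).ac g) x) x' p) (h3 : ∀ p, Feq (act ((sys K).ac g) y) y' p)
    (h : FW u j x y p) : FW u j x' y' ((sys K).ac g p) := by
  refine SF.move ud_w (hs4 j hu hx hy) (hs4 j hu hx' hy') g ?_ h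
  intro i p
  fin_cases i
  · exact h1 p
  · change Feq (act ((sys K).ac g) (check (nat j))) (check (nat j)) p
    rw [act_check ((sys K).top g)]
    exact Feq.refl _ _
  · exact h2 p
  · exact h3 p

theorem FW.congr {u x y x' y' : PName (Cd K)} {j : ℕ} {p : Cd K} (hu : (sys K).HS u)
    (hx : (sys K).HS x) (hy : (sys K).HS y) (hx' : (sys K).HS x') (hy' : (sys K).HS y')
    (h2 : Feq x x' p) (h3 : Feq y y' p) (h : FW u j x y p) : FW u j x' y' p := by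
  refine (SF.congr ud_w (hs4 j hu hx hy) (hs4 j hu hx' hy') ?_).1 h
  intro i
  fin_cases i
  · exact Feq.refl _ _
  · exact Feq.refl _ _
  · exact h2
  · exact h3

theorem fix_check (H : Subgroup (sys K).G) (x : ZFSet.{0}) : (sys K).Fix H (check x) := by
  intro g _ p
  rw [act_check ((sys K).top g)]
  exact Feq.refl _ _

theorem FW.rs {u x y : PName (Cd K)} {j : ℕ} {p : Cd K} (hu : (sys K).HS u)
    (hx : (sys K).HS x) (hy : (sys K).HS y) {E : Set (Ix K)} {F : Finset ℕ} (hE : Sp E F)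
    (hu' : (sys K).Fix (bs E F) u) (hx' : (sys K).Fix (bs E F) x)
    (hy' : (sys K).Fix (bs E F) y) (h : FW u j x y p) : FW u j x y (rs p E) := by
  refine sf_rs ud_w (hs4 j hu hx hy) hE ?_ h
  intro i
  fin_cases i
  · exact hu'
  · exact fix_check _ _
  · exact hx'
  · exact hy'

theorem FW.fund {u x y : PName (Cd K)} {j : ℕ} (hu : (sys K).HS u)
    (hx : (sys K).HS x) (hy : (sys K).HS y) {π : Pkg (Cd K)} (h1 : (sys K).Cld π)
    (hu' : u ∈ π.N) (hx' : x ∈ π.N) (hy' : y ∈ π.N) (h : Wj (π.val u) j (π.val x) (π.val y)) :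
    ∃ k, FW u j x y (π.g k) := by
  refine ud_w.fund (hs4 j hu hx hy) h1 ?_ ?_
  · intro i
    fin_cases i
    · exact hu'
    · exact π.nat_Z j
    · exact hx'
    · exact hy'
  · change pair (π.hat (nat j)) (pair (π.val x) (π.val y)) ∈ π.val u
    rw [π.hat_nat]
    exact h

/-- The facts about a totally bounded metric space. -/
structure Good (X U : ZFSet.{0}) : Prop where
  sep : ∀ x ∈ X, ∀ y ∈ X, (∀ j, Wj U j x y) → x = y
  sym : ∀ j, ∀ x ∈ X, ∀ y ∈ X, Wj U j x y → Wj U j y x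
  tri : ∀ j i, i < j → ∀ x ∈ X, ∀ y ∈ X, ∀ z ∈ X, Wj U j x y → Wj U j y z → Wj U i x z
  rfl' : ∀ j, ∀ x ∈ X, Wj U j x x
  tb : ∀ j, ∃ m : ℕ, ∀ f : Fin m → ZFSet.{0}, (∀ i, f i ∈ X) →
    ∃ i i', i ≠ i' ∧ Wj U j (f i) (f i')

/-- It is forced that the facts hold. -/
def Gd (t u : PName (Cd K)) (p : Cd K) : Prop :=
  ∀ π : Pkg (Cd K), (sys K).Cld π → t ∈ π.N → u ∈ π.N → (∃ k, π.g k ≤ p) →
    Good (π.val t) (π.val u)

/-! ### Copies of a point -/

section copies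

variable {t u : PName (Cd K)} (ht : (sys K).HS t) (hu : (sys K).HS u) {E : Set (Ix K)}
  {F : Finset ℕ} (hE : Sp E F) (ht' : (sys K).Fix (bs E F) t) (hu' : (sys K).Fix (bs E F) u)
  {p0 : Cd K} (hp0 : p0.dom ⊆ E) (hG : Gd t u p0)
  {E' : Set (Ix K)} {F' : Finset ℕ} (hEE : E ⊆ E') (hFF : F ⊆ F') (hE' : Sp E' F')
  {x : PName (Cd K)} (hx : (sys K).HS x) (hx' : (sys K).Fix (bs E' F') x)

/-- The images of the support outside `E` are disjoint. -/
def Dj (E E' : Set (Ix K)) (σ τ : (sys K).G) : Prop :=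
  ∀ a ∈ E', a ∉ E → ∀ b ∈ E', b ∉ E → σ.1.1 a ≠ τ.1.1 b

theorem Dj.symm {σ τ : (sys K).G} (h : Dj E E' σ τ) : Dj E E' τ σ :=
  fun a ha ha' b hb hb' e => h b hb hb' a ha ha' e.symm

omit [AddCommGroup K] in
theorem mv_eq_of_dom {ρ : Equiv.Perm (Ix K)} {p : Cd K} (h : ∀ a ∈ p.dom, ρ a = a) :
    mv ρ p = p := by
  refine Cd.ext' (Set.ext fun x => ?_)
  obtain ⟨a, l⟩ := x
  rw [mem_mv]
  constructor
  · intro h1
    have h2 := h _ (Cd.mem_dom h1)
    rw [Equiv.apply_symm_apply] at h2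
    change (ρ.symm a, l) ∈ p.s at h1
    rwa [← h2] at h1
  · intro h1
    have h2 := h _ (Cd.mem_dom h1)
    change (ρ.symm a, l) ∈ p.s
    have h3 : ρ.symm a = a := by rw [Equiv.symm_apply_eq, h2]
    rwa [h3]

include hp0 in
theorem mv_p0 {σ : (sys K).G} (hσ : σ ∈ bs E F') : (sys K).ac σ p0 = p0 :=
  mv_eq_of_dom fun a ha => hσ.1 a (hp0 ha)

/-- Two copies are close. -/
def P2 (u : PName (Cd K)) (E E' : Set (Ix K)) (F' : Finset ℕ) (x : PName (Cd K)) (j : ℕ)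
    (b1 b2 : Cd K) : Prop :=
  ∀ σ : (sys K).G, σ ∈ bs E F' → ∀ τ : (sys K).G, τ ∈ bs E F' → Dj E E' σ τ →
    ∀ r ≤ (sys K).ac σ b1, r ≤ (sys K).ac τ b2 →
    FW u j (act ((sys K).ac σ) x) (act ((sys K).ac τ) x) r

include ht hu hE ht' hu' hp0 hG hEE hFF hE' hx hx' in
theorem exists_b12 {q : Cd K} (hq0 : q ≤ p0) (hq : q.dom ⊆ E') (hm : Fmem x t q) (j : ℕ) :
    ∃ b1 b2 : Cd K, b1 ≤ q ∧ b2 ≤ q ∧ b1.dom ⊆ E' ∧ b2.dom ⊆ E' ∧ rs b1 E = rs b2 E ∧
      P2 u E E' F' x j b1 b2 := by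
  obtain ⟨σ, s1, s2, -, s4⟩ := exists_copies (D := ∅) hE.1 hE'.1 Set.countable_empty
  have sF : ∀ n, σ n ∈ bs E F' := fun n => ⟨s2 n, fun m _ => by rw [s1 n]; rfl⟩
  have sF0 : ∀ n, σ n ∈ bs E F := fun n => ⟨s2 n, fun m _ => by rw [s1 n]; rfl⟩
  -- the union of the copies of the condition
  obtain ⟨q1, hq1⟩ := glue (fun n => mv (σ n).1.1 q) (by
    intro i k a l h1 h2
    rw [mem_mv] at h1 h2
    by_cases hi : i = k
    · subst hi
      exact q.fn _ _ h1 h2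
    · by_cases h3 : (σ i).1.1.symm a ∈ E
      · have h4 := s2 i _ h3
        rw [Equiv.apply_symm_apply] at h4
        have h5 : (σ k).1.1.symm a = a := by
          rw [Equiv.symm_apply_eq]
          exact (s2 k a (by rw [h4]; exact h3)).symm
        change ((σ i).1.1.symm a, l, true) ∈ q.s at h1
        change ((σ k).1.1.symm a, l, false) ∈ q.s at h2
        rw [← h4] at h1
        rw [h5] at h2
        exact q.fn _ _ h1 h2
      · by_cases h3' : (σ k).1.1.symm a ∈ E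
        · have h4 := s2 k _ h3'
          rw [Equiv.apply_symm_apply] at h4
          refine h3 ?_
          have h5 : (σ i).1.1.symm a = a := by
            rw [Equiv.symm_apply_eq]
            exact (s2 i a (by rw [h4]; exact h3')).symm
          rw [h5, h4]
          exact h3'
        · refine s4 i k hi _ (hq (Cd.mem_dom h1)) h3 _ (hq (Cd.mem_dom h2)) ?_
          rw [Equiv.apply_symm_apply, Equiv.apply_symm_apply])
  have hq1n : ∀ n, q1 ≤ (sys K).ac (σ n) q := by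
    intro n
    rw [ac_def, le_def, hq1]
    exact Set.subset_iUnion (fun n => (mv (σ n).1.1 q).s) n
  have hq10 : q1 ≤ p0 := by
    have h1 : (sys K).ac (σ 0) q ≤ (sys K).ac (σ 0) p0 := ((sys K).ac (σ 0)).le_iff_le.2 hq0
    rw [mv_p0 hp0 (sF 0)] at h1
    exact (hq1n 0).trans h1
  -- the model
  obtain ⟨π, c1, c2, c3⟩ := exists_cld (sys K) ({t, u} ∪ Set.range fun n =>
    act ((sys K).ac (σ n)) x) ((Set.toFinite _).countable.union (Set.countable_range _)) q1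
  have ct : t ∈ π.N := c2 (Or.inl (Or.inl rfl))
  have cu : u ∈ π.N := c2 (Or.inl (Or.inr rfl))
  have cx : ∀ n, act ((sys K).ac (σ n)) x ∈ π.N := fun n => c2 (Or.inr ⟨n, rfl⟩)
  have hxt : ∀ n, Fmem (act ((sys K).ac (σ n)) x) t ((sys K).ac (σ n) q) := fun n =>
    fmem_act_fix (fun p => ht' _ (sF0 n) p) hm
  obtain ⟨m, hm⟩ := (hG π c1 ct cu ⟨0, c3.le.trans hq10⟩).tb j
  obtain ⟨i, i', hii, hW⟩ := hm (fun i => π.val (act ((sys K).ac (σ i)) x)) fun i =>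
    val_mem_of_fmem (cx i) ct (hxt i) ⟨0, c3.le.trans (hq1n i)⟩
  have hs : ∀ n, (sys K).HS (act ((sys K).ac (σ n)) x) := fun n => (sys K).hs_act hx _
  obtain ⟨k, hk⟩ := FW.fund hu (hs i) (hs i') c1 cu (cx i) (cx i') hW
  have hii' : (i : ℕ) ≠ (i' : ℕ) := fun h => hii (Fin.ext h)
  generalize (i : ℕ) = i at hk hii'
  generalize (i' : ℕ) = i' at hk hii'
  set q2 := π.g k with hq2
  have hq21 : q2 ≤ q1 := c3 ▸ π.g_anti (Nat.zero_le k)
  -- restriction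
  set E1 : Set (Ix K) := (σ i).1.1 '' E' with hE1
  set E2 : Set (Ix K) := (σ i').1.1 '' E' with hE2
  have hEE1 : E ⊆ E1 := fun a ha => ⟨a, hEE ha, s2 i a ha⟩
  have hEE2 : E ⊆ E2 := fun a ha => ⟨a, hEE ha, s2 i' a ha⟩
  have hSp : Sp (E1 ∪ E2) F' := by
    have h1 := (hE'.image (σ i)).union (hE'.image (σ i'))
    rwa [Finset.union_self] at h1
  have hk2 : FW u j (act ((sys K).ac (σ i)) x) (act ((sys K).ac (σ i')) x) (rs q2 (E1 ∪ E2)) := by
    refine FW.rs hu (hs i) (hs i') hSp ?_ ?_ ?_ hk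
    · exact hu'.mono (bs_mono (hEE1.trans Set.subset_union_left) hFF)
    · exact (fix_act hx' (σ i)).mono (bs_mono Set.subset_union_left (Finset.Subset.refl _))
    · exact (fix_act hx' (σ i')).mono (bs_mono Set.subset_union_right (Finset.Subset.refl _))
  have key : ∀ n, rs q2 ((σ n).1.1 '' E') ≤ mv (σ n).1.1 q := by
    intro n
    refine rs_le_of_dom (hq21.trans (hq1n n)) ?_
    rintro _ ⟨⟨a, l⟩, ha, rfl⟩
    exact ⟨(σ n).1.1.symm a, hq (Cd.mem_dom ha), Equiv.apply_symm_apply _ _⟩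
  have key2 : ∀ n, mv (σ n).1.1.symm (rs q2 ((σ n).1.1 '' E')) ≤ q := by
    intro n
    have h1 := mv_le (ρ := (σ n).1.1.symm) (key n)
    rwa [mv_symm_mv] at h1
  have key3 : ∀ n, (mv (σ n).1.1.symm (rs q2 ((σ n).1.1 '' E'))).dom ⊆ E' := by
    intro n
    rintro _ ⟨⟨a, l⟩, ha, rfl⟩
    rw [mem_mv] at ha
    obtain ⟨b, hb, h1⟩ := ha.2
    have h2 : (σ n).1.1 b = (σ n).1.1 a := h1
    rw [(σ n).1.1.injective h2] at hb
    exact hb
  have key4 : ∀ n, E ⊆ (σ n).1.1 '' E' := fun n a ha => ⟨a, hEE ha, s2 n a ha⟩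
  have key5 : ∀ n, rs (mv (σ n).1.1.symm (rs q2 ((σ n).1.1 '' E'))) E = rs q2 E := by
    intro n
    refine Cd.ext' (Set.ext fun x => ?_)
    obtain ⟨a, l⟩ := x
    constructor
    · rintro ⟨h1, h2⟩
      have h4 : a ∈ E := h2
      have h3 : (σ n).1.1 a = a := s2 n a h4
      have h5 : ((σ n).1.1 a, l) ∈ q2.s := h1.1
      rw [h3] at h5
      exact ⟨h5, h4⟩
    · rintro ⟨h1, h2⟩
      have h4 : a ∈ E := h2
      have h3 : (σ n).1.1 a = a := s2 n a h4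
      refine ⟨⟨?_, ?_⟩, h2⟩
      · change ((σ n).1.1 a, l) ∈ q2.s
        rwa [h3]
      · exact ⟨a, hEE h4, rfl⟩
  refine ⟨mv (σ i).1.1.symm (rs q2 E1), mv (σ i').1.1.symm (rs q2 E2), key2 i, key2 i', key3 i,
    key3 i', (key5 i).trans (key5 i').symm, ?_⟩
  intro τ1 hτ1 τ2 hτ2 hdj r hr1 hr2
  classical
  -- the extension of the partial injection
  let f : Ix K → Ix K := fun a =>
    if a ∈ E1 then τ1.1.1 ((σ i).1.1.symm a) else τ2.1.1 ((σ i').1.1.symm a)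
  have f1 : ∀ a ∈ E', f ((σ i).1.1 a) = τ1.1.1 a := by
    intro a ha
    have h1 : (σ i).1.1 a ∈ E1 := ⟨a, ha, rfl⟩
    simp only [f, if_pos h1, Equiv.symm_apply_apply]
  have f2 : ∀ a ∈ E', f ((σ i').1.1 a) = τ2.1.1 a := by
    intro a ha
    by_cases h1 : (σ i').1.1 a ∈ E1
    · obtain ⟨b, hb, h2⟩ := h1
      by_cases h3 : a ∈ E
      · have h4 : (σ i').1.1 a = (σ i).1.1 a := (s2 i' a h3).trans (s2 i a h3).symm
        rw [h4, f1 a ha, hτ1.1 a h3, hτ2.1 a h3]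
      · by_cases h4 : b ∈ E
        · exfalso
          apply h3
          have h5 : (σ i').1.1 a = (σ i').1.1 b := h2.symm.trans ((s2 i b h4).trans (s2 i' b h4).symm)
          rw [(σ i').1.1.injective h5]
          exact h4
        · exact absurd h2 (s4 i i' hii' b hb h4 a ha)
    · simp only [f, if_neg h1, Equiv.symm_apply_apply]
  have hblk : ∀ τ ∈ bs E F', ∀ a ∈ E', (τ.1.1 a).1 = a.1 := by
    intro τ hτ a ha
    rw [rt_spec τ a]
    exact rot_fix (hτ.2 _ (hE'.2 a ha))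
  obtain ⟨ρ, hρ1, hρ2⟩ := exists_ext 0 hSp.1 f (by
    have hdis : ∀ a ∈ E', ∀ b ∈ E', τ1.1.1 a = τ2.1.1 b → (σ i).1.1 a = (σ i').1.1 b := by
      intro a ha b hb h
      by_cases ha' : a ∈ E
      · have h1 : τ2.1.1 b = τ2.1.1 a := by rw [← h, hτ1.1 a ha', hτ2.1 a ha']
        rw [τ2.1.1.injective h1, s2 i a ha', s2 i' a ha']
      · by_cases hb' : b ∈ E
        · have h1 : τ1.1.1 a = τ1.1.1 b := by rw [h, hτ1.1 b hb', hτ2.1 b hb']
          rw [τ1.1.1.injective h1, s2 i b hb', s2 i' b hb']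
        · exact absurd h (hdj a ha ha' b hb hb')
    rintro _ (⟨a, ha, rfl⟩ | ⟨a, ha, rfl⟩) _ (⟨b, hb, rfl⟩ | ⟨b, hb, rfl⟩) h
    · rw [f1 a ha, f1 b hb] at h
      rw [τ1.1.1.injective h]
    · rw [f1 a ha, f2 b hb] at h
      exact hdis a ha b hb h
    · rw [f2 a ha, f1 b hb] at h
      exact (hdis b hb a ha h.symm).symm
    · rw [f2 a ha, f2 b hb] at h
      rw [τ2.1.1.injective h]) (by
    rw [rot_zero]
    rintro _ (⟨a, ha, rfl⟩ | ⟨a, ha, rfl⟩)
    · rw [f1 a ha, hblk τ1 hτ1 a ha]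
      exact (hblk _ (sF i) a ha).symm
    · rw [f2 a ha, hblk τ2 hτ2 a ha]
      exact (hblk _ (sF i') a ha).symm)
  have g1 : ∀ a ∈ E', ρ.1.1 ((σ i).1.1 a) = τ1.1.1 a := fun a ha =>
    (hρ2 _ (Or.inl ⟨a, ha, rfl⟩)).trans (f1 a ha)
  have g2 : ∀ a ∈ E', ρ.1.1 ((σ i').1.1 a) = τ2.1.1 a := fun a ha =>
    (hρ2 _ (Or.inr ⟨a, ha, rfl⟩)).trans (f2 a ha)
  have hρE : ρ ∈ bs E F := by
    refine ⟨fun a ha => ?_, fun n _ => by rw [hρ1]; rfl⟩
    have h1 := g1 a (hEE ha)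
    rwa [s2 i a ha, hτ1.1 a ha] at h1
  have h9 := FW.move hu (hs i) (hs i') ((sys K).hs_act hx τ1) ((sys K).hs_act hx τ2) ρ
    (fun p => hu' _ hρE p) (fun p => ?_) (fun p => ?_) hk2
  · refine h9.mono ?_
    rw [ac_def, le_def]
    rintro ⟨a, l⟩ ⟨h1, h2⟩
    rcases h2 with ⟨b, hb, h2⟩ | ⟨b, hb, h2⟩
    · refine hr1 ?_
      have h3 : a = τ1.1.1 b := by
        rw [← g1 b hb]
        change (σ i).1.1 b = ρ.1.1.symm a at h2
        rw [h2, Equiv.apply_symm_apply]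
      change ((σ i).1.1 (τ1.1.1.symm a), l) ∈ (rs q2 E1).s
      rw [h3, Equiv.symm_apply_apply]
      refine ⟨?_, ⟨b, hb, rfl⟩⟩
      change ((σ i).1.1 b, l) ∈ q2.s
      change (σ i).1.1 b = ρ.1.1.symm a at h2
      rw [h2]
      exact h1
    · refine hr2 ?_
      have h3 : a = τ2.1.1 b := by
        rw [← g2 b hb]
        change (σ i').1.1 b = ρ.1.1.symm a at h2
        rw [h2, Equiv.apply_symm_apply]
      change ((σ i').1.1 (τ2.1.1.symm a), l) ∈ (rs q2 E2).s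
      rw [h3, Equiv.symm_apply_apply]
      refine ⟨?_, ⟨b, hb, rfl⟩⟩
      change ((σ i').1.1 b, l) ∈ q2.s
      change (σ i').1.1 b = ρ.1.1.symm a at h2
      rw [h2]
      exact h1
  · rw [← act_mul, ← (sys K).ac.map_mul]
    refine feq_of_agree hx' g1 (fun n hn => ?_) p
    have h4 : rt (ρ * σ i) n = rt ρ n + rt (σ i) n := rfl
    rw [h4, hρ1, s1 i, hτ1.2 n hn]
    exact add_zero _
  · rw [← act_mul, ← (sys K).ac.map_mul]
    refine feq_of_agree hx' g2 (fun n hn => ?_) p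
    have h4 : rt (ρ * σ i') n = rt ρ n + rt (σ i') n := rfl
    rw [h4, hρ1, s1 i', hτ2.2 n hn]
    exact add_zero _

end copies

end Pool.Agent.R598.CI
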