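import Pool.Agent.R598.CI.Sym

/-!
# The points of a totally bounded metric space have names with small supports
-/

set_option autoImplicit false
set_option linter.unusedSectionVars false

namespace Pool.Agent.R598.CI

open Pool.Agent.W868 Pool.Agent.W868.PName Pool.Agent.R598.SY
open ZFSet (pair)

variable {K : Type} [AddCommGroup K]

variable {t u : PName (Cd K)} (ht : (sys K).HS t) (hu : (sys K).HS u) {E : Set (Ix K)}
  {F : Finset ℕ} (hE : Sp E F) (ht' : (sys K).Fix (bs E F) t) (hu' : (sys K).Fix (bs E F) u)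
  {p0 : Cd K} (hp0 : p0.dom ⊆ E) (hG : Gd t u p0)
  {E' : Set (Ix K)} {F' : Finset ℕ} (hEE : E ⊆ E') (hFF : F ⊆ F') (hE' : Sp E' F')
  {x : PName (Cd K)} (hx : (sys K).HS x) (hx' : (sys K).Fix (bs E' F') x)

/-- A third copy. -/
theorem exists_third {D : Set (Ix K)} (hE : E.Countable) (hE' : E'.Countable)
    (hD : D.Countable) (F' : Finset ℕ) : ∃ ρ : (sys K).G, ρ ∈ bs E F' ∧
      (∀ a ∈ E, ρ.1.1 a = a) ∧ ∀ a ∈ E', a ∉ E → ρ.1.1 a ∉ D := by
  obtain ⟨σ, s1, s2, s3, -⟩ := exists_copies (D := D) hE hE' hD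
  exact ⟨σ 0, ⟨s2 0, fun m _ => by rw [s1 0]; rfl⟩, s2 0, s3 0⟩

omit [AddCommGroup K] in
/-- The union of a condition and a copy of a condition. -/
theorem glue3 {r b : Cd K} {ρ : Equiv.Perm (Ix K)} (hb : b.dom ⊆ E')
    (h1 : ∀ a ∈ E, ρ a = a) (h2 : ∀ a ∈ E', a ∉ E → ρ a ∉ r.dom)
    (h3 : ∀ a ∈ E, ∀ l, (a, l) ∈ b.s → (a, l) ∈ r.s) :
    ∃ s : Cd K, s ≤ r ∧ s ≤ mv ρ b := by
  obtain ⟨s, hs⟩ := glue2 r (mv ρ b) (by
    intro a l v ha hb'
    have hb2 : (ρ.symm a, l, !v) ∈ b.s := hb'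
    by_cases h4 : ρ.symm a ∈ E
    · have h5 : a = ρ.symm a := by
        have h7 := h1 _ h4
        rwa [Equiv.apply_symm_apply] at h7
      have h6 := h3 _ h4 _ hb2
      rw [← h5] at h6
      cases v
      · exact r.fn _ _ h6 ha
      · exact r.fn _ _ ha h6
    · have h6 := h2 _ (hb (Cd.mem_dom hb2)) h4
      rw [Equiv.apply_symm_apply] at h6
      exact h6 (Cd.mem_dom ha))
  refine ⟨s, ?_, ?_⟩
  · rw [le_def, hs]
    exact Set.subset_union_left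
  · rw [le_def, hs]
    exact Set.subset_union_right

include ht hu hE ht' hu' hp0 hG hEE hFF hE' hx hx' in
theorem exists_b {q : Cd K} (hq0 : q ≤ p0) (hq : q.dom ⊆ E') (hm : Fmem x t q) (j : ℕ) :
    ∃ b : Cd K, b ≤ q ∧ b.dom ⊆ E' ∧ P2 u E E' F' x j b b := by
  obtain ⟨b1, b2, h1, h2, h3, h4, h5, h6⟩ := exists_b12 ht hu hE ht' hu' hp0 hG hEE hFF hE' hx
    hx' hq0 hq hm (j + 1)
  refine ⟨b2, h2, h4, ?_⟩
  intro σ hσ τ hτ hd r hr1 hr2
  refine FW.dense hu ((sys K).hs_act hx σ) ((sys K).hs_act hx τ) fun r' hr' => ?_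
  obtain ⟨ρ, hρ, hρ1, hρ2⟩ := exists_third (E := E) (E' := E')
    (D := (σ.1.1 '' E' ∪ τ.1.1 '' E') ∪ r'.dom) hE.1 hE'.1
    (((hE'.1.image _).union (hE'.1.image _)).union r'.dom_cnt) F'
  obtain ⟨s, hs1, hs2⟩ := glue3 (E := E) (E' := E') (r := r') (b := b1) (ρ := ρ.1.1) h3 hρ1
    (fun a ha ha' h => hρ2 a ha ha' (Or.inr h)) (fun a ha l hl => by
      have h7 : (a, l) ∈ (rs b1 E).s := ⟨hl, ha⟩
      rw [h5] at h7
      refine hr' (hr1 ?_)
      change (σ.1.1.symm a, l) ∈ b2.s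
      have h8 : σ.1.1.symm a = a := by
        rw [Equiv.symm_apply_eq]
        exact (hσ.1 a ha).symm
      rw [h8]
      exact h7.1)
  have d1 : Dj E E' ρ σ := fun a ha ha' b hb hb' h => hρ2 a ha ha' (Or.inl (Or.inl ⟨b, hb, h.symm⟩))
  have d2 : Dj E E' ρ τ := fun a ha ha' b hb hb' h => hρ2 a ha ha' (Or.inl (Or.inr ⟨b, hb, h.symm⟩))
  have w1 := h6 ρ hρ σ hσ d1 s hs2 (hs1.trans (hr'.trans hr1))
  have w2 := h6 ρ hρ τ hτ d2 s hs2 (hs1.trans (hr'.trans hr2))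
  refine ⟨s, hs1, ?_⟩
  refine fw_intro hu ((sys K).hs_act hx σ) ((sys K).hs_act hx τ)
    ({t, act ((sys K).ac ρ) x}) (Set.toFinite _).countable ?_
  intro π c1 cu cx cy cA hk
  have ct : t ∈ π.N := cA (Or.inl rfl)
  have cz : act ((sys K).ac ρ) x ∈ π.N := cA (Or.inr rfl)
  have hbs : ∀ ρ : (sys K).G, ρ ∈ bs E F' → ρ ∈ bs E F := fun ρ h =>
    bs_mono (Set.Subset.refl _) hFF h
  have hks : ∀ {c : Cd K}, s ≤ c → ∃ k, π.g k ≤ c := fun h => hk.imp fun k hk => hk.trans h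
  have hle : ∀ (ρ : (sys K).G) {c d : Cd K}, c ≤ d → (sys K).ac ρ c ≤ (sys K).ac ρ d :=
    fun ρ c d h => ((sys K).ac ρ).le_iff_le.2 h
  have hGd := hG π c1 ct cu (hks (hs2.trans ((hle ρ (h1.trans hq0)).trans
    (mv_p0 hp0 hρ).le)))
  have mx : π.val (act ((sys K).ac σ) x) ∈ π.val t := val_mem_of_fmem cx ct
    (fmem_act_fix (fun p => ht' _ (hbs σ hσ) p) hm)
    (hks (hs1.trans (hr'.trans (hr1.trans (hle σ h2)))))
  have my : π.val (act ((sys K).ac τ) x) ∈ π.val t := val_mem_of_fmem cy ct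
    (fmem_act_fix (fun p => ht' _ (hbs τ hτ) p) hm)
    (hks (hs1.trans (hr'.trans (hr2.trans (hle τ h2)))))
  have mz : π.val (act ((sys K).ac ρ) x) ∈ π.val t := val_mem_of_fmem cz ct
    (fmem_act_fix (fun p => ht' _ (hbs ρ hρ) p) hm)
    (hks (hs2.trans (hle ρ h1)))
  have v1 := w1.val c1 cu cz cx hk
  have v2 := w2.val c1 cu cz cy hk
  exact hGd.tri (j + 1) j (Nat.lt_succ_self j) _ mx _ mz _ my (hGd.sym _ _ mz _ mx v1) v2

theorem P2.mono {j : ℕ} {b b' : Cd K} (h : P2 u E E' F' x j b' b') (hb : b ≤ b') :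
    P2 u E E' F' x j b b := fun σ hσ τ hτ hd r h1 h2 => h σ hσ τ hτ hd r
      (h1.trans (((sys K).ac σ).le_iff_le.2 hb)) (h2.trans (((sys K).ac τ).le_iff_le.2 hb))

omit [AddCommGroup K] in
/-- The union of a condition and an extension of its restriction. -/
theorem glue4 {q b : Cd K} (h : b ≤ rs q E') (hb : b.dom ⊆ E') : ∃ s : Cd K, s ≤ q ∧ s ≤ b := by
  obtain ⟨s, hs⟩ := glue2 q b (by
    intro a l v ha hb'
    have h1 : (a, l, v) ∈ b.s := h ⟨ha, hb (Cd.mem_dom hb')⟩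
    cases v
    · exact b.fn _ _ hb' h1
    · exact b.fn _ _ h1 hb')
  refine ⟨s, ?_, ?_⟩
  · rw [le_def, hs]
    exact Set.subset_union_left
  · rw [le_def, hs]
    exact Set.subset_union_right

include ht hu hE ht' hu' hp0 hG hEE hFF hE' hx hx' in
theorem exists_bw {q : Cd K} (hq0 : q ≤ p0) (hq : q.dom ⊆ E') (hm : Fmem x t q) :
    ∃ b : Cd K, b ≤ q ∧ b.dom ⊆ E' ∧ ∀ j, P2 u E E' F' x j b b := by
  obtain ⟨q', a, h1, h2⟩ := sclosed.meet q (fun j (a : Cd K) q' => q' ≤ a ∧ a.dom ⊆ E' ∧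
    P2 u E E' F' x j a a) (by
    intro j q' hq'
    have h1 : rs q' E' ≤ q := rs_le_of_dom hq' hq
    obtain ⟨b, h2, h3, h4⟩ := exists_b ht hu hE ht' hu' hp0 hG hEE hFF hE' hx hx'
      (h1.trans hq0) (dom_rs q' E') (hm.mono h1) j
    obtain ⟨s, hs1, hs2⟩ := glue4 h2 h3
    exact ⟨s, hs1, b, hs2, h3, h4⟩)
  refine ⟨rs q' E', rs_le_of_dom h1 hq, dom_rs _ _, fun j => ?_⟩
  obtain ⟨q'', h3, h4, h5, h6⟩ := h2 j
  exact h6.mono (rs_le_of_dom (h3.trans h4) h5)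

include ht hu hE ht' hu' hp0 hG hEE hFF hE' hx hx' in
theorem feq_of_P2 {b : Cd K} (hb0 : b ≤ p0) (hm : Fmem x t b)
    (hP : ∀ j, P2 u E E' F' x j b b) {σ τ : (sys K).G} (hσ : σ ∈ bs E F') (hτ : τ ∈ bs E F')
    (hd : Dj E E' σ τ) {r : Cd K} (h1 : r ≤ (sys K).ac σ b) (h2 : r ≤ (sys K).ac τ b) :
    Feq (act ((sys K).ac σ) x) (act ((sys K).ac τ) x) r := by
  have hbs : ∀ ρ : (sys K).G, ρ ∈ bs E F' → ρ ∈ bs E F := fun ρ h =>
    bs_mono (Set.Subset.refl _) hFF h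
  have hle : ∀ (ρ : (sys K).G) {c d : Cd K}, c ≤ d → (sys K).ac ρ c ≤ (sys K).ac ρ d :=
    fun ρ c d h => ((sys K).ac ρ).le_iff_le.2 h
  refine feq_of_sf (S := sys K) (v := ![act ((sys K).ac σ) x, act ((sys K).ac τ) x]) rfl rfl
    (SF.intro ud_eq (hs2 ((sys K).hs_act hx σ) ((sys K).hs_act hx τ)) {t, u}
      (Set.toFinite _).countable ?_)
  intro π c1 c2 cA hk
  have ct : t ∈ π.N := cA (Or.inl rfl)
  have cu : u ∈ π.N := cA (Or.inr rfl)
  have cx : act ((sys K).ac σ) x ∈ π.N := c2 0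
  have cy : act ((sys K).ac τ) x ∈ π.N := c2 1
  have hks : ∀ {c : Cd K}, r ≤ c → ∃ k, π.g k ≤ c := fun h => hk.imp fun k hk => hk.trans h
  have hGd := hG π c1 ct cu (hks (h1.trans ((hle σ hb0).trans (mv_p0 hp0 hσ).le)))
  have mx : π.val (act ((sys K).ac σ) x) ∈ π.val t := val_mem_of_fmem cx ct
    (fmem_act_fix (fun p => ht' _ (hbs σ hσ) p) hm) (hks h1)
  have my : π.val (act ((sys K).ac τ) x) ∈ π.val t := val_mem_of_fmem cy ct
    (fmem_act_fix (fun p => ht' _ (hbs τ hτ) p) hm) (hks h2)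
  exact hGd.sep _ mx _ my fun j => (hP j σ hσ τ hτ hd r h1 h2).val c1 cu cx cy hk

include ht hu hE ht' hu' hp0 hG hEE hFF hE' hx hx' in
theorem feq_of_P2' {b : Cd K} (hb0 : b ≤ p0) (hbE : b.dom ⊆ E') (hm : Fmem x t b)
    (hP : ∀ j, P2 u E E' F' x j b b) {g : (sys K).G} (hg : g ∈ bs E F')
    {r : Cd K} (h1 : r ≤ b) (h2 : r ≤ (sys K).ac g b) :
    Feq (act ((sys K).ac g) x) x r := by
  refine feq_dense fun r' hr' => ?_
  obtain ⟨ρ, hρ, hρ1, hρ2⟩ := exists_third (E := E) (E' := E')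
    (D := (g.1.1 '' E' ∪ E') ∪ r'.dom) hE.1 hE'.1
    (((hE'.1.image _).union hE'.1).union r'.dom_cnt) F'
  obtain ⟨s, hs1, hs2⟩ := glue3 (E := E) (E' := E') (r := r') (b := b) (ρ := ρ.1.1) hbE hρ1
    (fun a ha ha' h => hρ2 a ha ha' (Or.inr h)) (fun a ha l hl => (hr'.trans h1) hl)
  have d1 : Dj E E' ρ g := fun a ha ha' b hb hb' h => hρ2 a ha ha' (Or.inl (Or.inl ⟨b, hb, h.symm⟩))
  have d2 : Dj E E' ρ (1 : (sys K).G) := fun a ha ha' b hb hb' h => hρ2 a ha ha' (Or.inl (Or.inr (by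
    rw [h]
    exact hb)))
  have e1 := feq_of_P2 ht hu hE ht' hu' hp0 hG hEE hFF hE' hx hx' hb0 hm hP hρ hg d1 hs2
    (hs1.trans (hr'.trans h2))
  have hone : (1 : (sys K).G) ∈ bs E F' := (bs E F').one_mem
  have hac : (sys K).ac (1 : (sys K).G) = 1 := (sys K).ac.map_one
  have e2 := feq_of_P2 ht hu hE ht' hu' hp0 hG hEE hFF hE' hx hx' hb0 hm hP hρ
    hone d2 (r := s) hs2 (by
      rw [hac]
      exact hs1.trans (hr'.trans h1))
  rw [hac, act_one] at e2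
  exact ⟨s, hs1, feq_trans e1.symm e2⟩

include ht hu hE ht' hu' hp0 hG in
/-- A point of a totally bounded metric space has a name whose support has only finitely many new
levels. -/
theorem claim1 {z : PName (Cd K)} (hz : (sys K).HS z) {q : Cd K} (hq0 : q ≤ p0)
    (hm : Fmem z t q) : ∃ r ≤ q, ∃ (F' : Finset ℕ) (x : PName (Cd K)), F ⊆ F' ∧ (sys K).HS x ∧
      (sys K).Fix (bs E F') x ∧ Feq x z r := by
  obtain ⟨_, ⟨E1, F1, hE1, rfl⟩, hz1⟩ := hz.sym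
  have hE' : Sp (E ∪ E1) (F ∪ F1) := hE.union hE1
  have hz' : (sys K).Fix (bs (E ∪ E1) (F ∪ F1)) z :=
    hz1.mono (bs_mono Set.subset_union_right Finset.subset_union_right)
  have ht2 : (sys K).Fix (bs (E ∪ E1) (F ∪ F1)) t :=
    ht'.mono (bs_mono Set.subset_union_left Finset.subset_union_left)
  have hm' : Fmem z t (rs q (E ∪ E1)) := fmem_rs hz ht hE' hz' ht2 hm
  have h0 : rs q (E ∪ E1) ≤ p0 := rs_le_of_dom hq0 (hp0.trans Set.subset_union_left)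
  obtain ⟨b, h1, h2, h3⟩ := exists_bw ht hu hE ht' hu' hp0 hG Set.subset_union_left
    Finset.subset_union_left hE' hz hz' h0 (dom_rs _ _) hm'
  obtain ⟨r, hr1, hr2⟩ := glue4 h1 h2
  refine ⟨r, hr1, F ∪ F1, symN (sys K) (bs E (F ∪ F1)) b z, Finset.subset_union_left,
    hs_symN (bs_mem_F (hE.mono Finset.subset_union_left)) _ hz, fix_symN _ _ _, ?_⟩
  refine (feq_symN fun g hg s hs1 hs2 => ?_).mono hr2
  exact feq_of_P2' ht hu hE ht' hu' hp0 hG Set.subset_union_left Finset.subset_union_left hE' hz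
    hz' (h1.trans h0) h2 (hm'.mono h1) h3 hg hs1 hs2

/-! ### Rotations -/

/-- The rotation as an element of the group. -/
def ro (g : ℕ → K) : (sys K).G :=
  ⟨(Equiv.prodCongr (rot g) (Equiv.refl _), Multiplicative.ofAdd g), fun _ => rfl⟩

theorem rt_ro (g : ℕ → K) : rt (ro g) = g := rfl

theorem ro_app (g : ℕ → K) (a : Ix K) : (ro g).1.1 a = (rot g a.1, a.2) := rfl

theorem ro_fix {g : ℕ → K} (hg : ∀ n ∈ F, g n = 0) (hE : Sp E F) {a : Ix K} (ha : a ∈ E) :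
    (ro g).1.1 a = a := by
  rw [ro_app, rot_fix (hg _ (hE.2 a ha))]

theorem ro_mem {g : ℕ → K} (hg : ∀ n ∈ F, g n = 0) (hE : Sp E F) : ro g ∈ bs E F :=
  ⟨fun _ ha => ro_fix hg hE ha, hg⟩

theorem ro_mul (g h : ℕ → K) : ro g * ro h = ro (g + h) := by
  refine Subtype.ext (Prod.ext (Equiv.ext fun a => ?_) rfl)
  change (rot g (rot h a.1), a.2) = (rot (g + h) a.1, a.2)
  refine Prod.ext (Prod.ext rfl ?_) rfl
  change g _ + (h _ + _) = (g + h) _ + _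
  rw [Pi.add_apply, add_assoc]
  rfl

theorem ro_zero : ro (0 : ℕ → K) = 1 := by
  refine Subtype.ext (Prod.ext (Equiv.ext fun a => ?_) rfl)
  change (rot 0 a.1, a.2) = a
  rw [rot_zero]
  rfl

/-- The elements of the group act on the points with small supports as rotations. -/
theorem feq_ro {F' : Finset ℕ} {x : PName (Cd K)} (hx : (sys K).Fix (bs E F') x) (hE : Sp E F)
    {g : (sys K).G} (hg : g ∈ bs E F) (p : Cd K) :
    Feq (act ((sys K).ac g) x) (act ((sys K).ac (ro (rt g))) x) p := by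
  have h1 : ∀ a ∈ E, g.1.1 a = (ro (rt g)).1.1 a := fun a ha => by
    rw [ro_fix hg.2 hE ha]
    exact hg.1 a ha
  have h2 : ∀ n ∈ F', rt g n = rt (ro (rt g)) n := fun n _ => rfl
  exact feq_of_agree hx h1 h2 p

theorem fix_ro {F' : Finset ℕ} {x : PName (Cd K)} (hx : (sys K).Fix (bs E F') x) (hE : Sp E F)
    {g : ℕ → K} (hg : ∀ n ∈ F, g n = 0) :
    (sys K).Fix (bs E F') (act ((sys K).ac (ro g)) x) := by
  have h1 := fix_act hx (ro g)
  have h2 : (ro g).1.1 '' E = E := by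
    ext a
    constructor
    · rintro ⟨b, hb, rfl⟩
      rw [ro_fix hg hE hb]
      exact hb
    · intro ha
      exact ⟨a, ha, ro_fix hg hE ha⟩
  rwa [h2] at h1

include ht hu hE ht' hu' hp0 hG in
/-- If the rotations are trivial, then each point has a name with the support of the space. -/
theorem claim2 (hR : ∀ (F' : Finset ℕ) (x : PName (Cd K)), (sys K).HS x →
      (sys K).Fix (bs E F') x → ∀ g : ℕ → K, (∀ n ∈ F, g n = 0) → ∀ q ≤ p0, Fmem x t q →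
        Feq (act ((sys K).ac (ro g)) x) x q)
    {z : PName (Cd K)} (hz : (sys K).HS z) {q : Cd K} (hq0 : q ≤ p0)
    (hm : Fmem z t q) : ∃ r ≤ q, ∃ x : PName (Cd K), (sys K).HS x ∧
      (sys K).Fix (bs E F) x ∧ Feq x z r := by
  obtain ⟨r, hr, F', x, hF', hx, hx', he⟩ := claim1 ht hu hE ht' hu' hp0 hG hz hq0 hm
  have ht2 : (sys K).Fix (bs E F') t := ht'.mono (bs_mono (Set.Subset.refl _) hF')
  have h1 : Fmem x t r := fmem_congr he.symm (Feq.refl _ _) (hm.mono hr)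
  have h2 : Fmem x t (rs r E) := fmem_rs hx ht (hE.mono hF') hx' ht2 h1
  have h3 : rs r E ≤ p0 := rs_le_of_dom (hr.trans hq0) hp0
  refine ⟨r, hr, symN (sys K) (bs E F) (rs r E) x, hs_symN (bs_mem_F hE) _ hx,
    fix_symN _ _ _, feq_trans ((feq_symN fun g hg s hs1 hs2 => ?_).mono (le_rs r E)) he⟩
  exact feq_trans (feq_ro hx' hE hg s) ((hR F' x hx hx' (rt g) hg.2 _ h3 h2).mono hs1)

end Pool.Agent.R598.CI
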