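import Pool.Agent.R598.CI.Gen2

/-!
# Choice for well-orderable families of finite sets
-/

set_option autoImplicit false
set_option linter.unusedSectionVars false

namespace Pool.Agent.R598.CI

open Pool.Agent.W868 Pool.Agent.W868.PName Pool.Agent.R598.SY Pool.Agent.R598.PM
open ZFSet (pair)

/-- The facts about the family. -/
def Fam (M : Set ZFSet.{0}) (v : Fin 5 → ZFSet.{0}) : Prop :=
  (∀ x ∈ v 2, ∃ y ∈ v 0, x ∈ y) ∧ (v 3).IsOrdinal ∧ (∀ y ∈ v 0, ∃ α ∈ v 3, pair y α ∈ v 1) ∧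
  (∀ y ∈ v 0, ∀ y' ∈ v 0, ∀ α ∈ v 3, pair y α ∈ v 1 → pair y' α ∈ v 1 → y = y') ∧
  ∀ y ∈ v 0, ¬ ∃ f ∈ M, (∀ n ∈ v 4, ∃ x ∈ y, pair n x ∈ f) ∧
    (∀ n ∈ v 4, ∀ m ∈ v 4, ∀ x ∈ y, pair n x ∈ f → pair m x ∈ f → n = m) ∧
    ∀ n ∈ v 4, ∀ x ∈ y, ∀ x' ∈ y, pair n x ∈ f → pair n x' ∈ f → x = x'

theorem ud_fam : UDf Fam := by
  refine UDf.and ?_ (UDf.and ?_ (UDf.and ?_ (UDf.and ?_ ?_)))
  · exact UDf.ball 2 (UDf.bex 1 (udm 1 0))
  · exact UDf.of (D0.isOrdinal (D0v.proj 3))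
  · exact UDf.ball 0 (UDf.bex 4 (udp 1 0 3))
  · exact UDf.ball 0 (UDf.ball 1 (UDf.ball 5 (UDf.imp (udp 2 0 4) (UDf.imp (udp 1 0 4)
      (ude 2 1)))))
  · refine UDf.ball 0 (UDf.not (UDf.ex (UDf.and ?_ (UDf.and ?_ ?_))))
    · exact UDf.ball 6 (UDf.bex 2 (udp 1 0 2))
    · exact UDf.ball 6 (UDf.ball 7 (UDf.ball 3 (UDf.imp (udp 2 0 3) (UDf.imp (udp 1 0 3)
        (ude 2 1)))))
    · exact UDf.ball 6 (UDf.ball 2 (UDf.ball 3 (UDf.imp (udp 2 1 3) (UDf.imp (udp 2 0 3)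
        (ude 1 0)))))

variable {K : Type} [AddCommGroup K]

theorem hs5 {a b c d : PName (Cd K)} (ha : (sys K).HS a) (hb : (sys K).HS b)
    (hc : (sys K).HS c) (hd : (sys K).HS d) :
    ∀ i, (sys K).HS ((![a, b, c, d, check ZFSet.omega] : Fin 5 → PName (Cd K)) i) := by
  intro i
  fin_cases i
  · exact ha
  · exact hb
  · exact hc
  · exact hd
  · exact (sys K).hs_check _

theorem in5 {π : Pkg (Cd K)} {a b c d : PName (Cd K)} (ha : a ∈ π.N) (hb : b ∈ π.N)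
    (hc : c ∈ π.N) (hd : d ∈ π.N) :
    ∀ i, (![a, b, c, d, check ZFSet.omega] : Fin 5 → PName (Cd K)) i ∈ π.N := by
  intro i
  fin_cases i
  · exact ha
  · exact hb
  · exact hc
  · exact hd
  · exact π.omega_Z

theorem hsT {a b c : PName (Cd K)} (ha : (sys K).HS a) (hb : (sys K).HS b)
    (hc : (sys K).HS c) :
    ∀ i, (sys K).HS ((![a, b, c] : Fin 3 → PName (Cd K)) i) := by
  intro i
  fin_cases i
  · exact ha
  · exact hb
  · exact hc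

theorem inT {π : Pkg (Cd K)} {a b c : PName (Cd K)} (ha : a ∈ π.N) (hb : b ∈ π.N)
    (hc : c ∈ π.N) : ∀ i, (![a, b, c] : Fin 3 → PName (Cd K)) i ∈ π.N := by
  intro i
  fin_cases i
  · exact ha
  · exact hb
  · exact hc

/-- The elements of the finite sets have names with the support of the family. -/
theorem small_of_fam (hK : ∀ (F : Finset ℕ) (g : ℕ → K), (∀ n ∈ F, g n = 0) →
      ∃ φ : ℚ →+ (ℕ → K), φ 1 = g ∧ ∀ q, ∀ n ∈ F, φ q n = 0)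
    {t v t2 kk : PName (Cd K)} (ht : (sys K).HS t) (hv : (sys K).HS v) (ht2 : (sys K).HS t2)
    (hkk : (sys K).HS kk) {E : Set (Ix K)} {F : Finset ℕ} (hE : Sp E F)
    (ht' : (sys K).Fix (bs E F) t) (hv' : (sys K).Fix (bs E F) v) {p : Cd K}
    (hp : SF (sys K) Fam ![t, v, t2, kk, check ZFSet.omega] p) :
    ∀ q' ≤ p, ∀ z, (sys K).HS z → Fmem z t2 q' → ∃ r ≤ q', ∃ x,
      (sys K).HS x ∧ (sys K).Fix (bs E F) x ∧ Feq x z r := by
  intro q' hq' z hz hm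
  obtain ⟨π, c1, c2, c3⟩ := exists_cld (sys K) {t, v, t2, kk, z} (Set.toFinite _).countable q'
  have ct : t ∈ π.N := c2 (Or.inl rfl)
  have cv : v ∈ π.N := c2 (Or.inr (Or.inl rfl))
  have ct2 : t2 ∈ π.N := c2 (Or.inr (Or.inr (Or.inl rfl)))
  have ck : kk ∈ π.N := c2 (Or.inr (Or.inr (Or.inr (Or.inl rfl))))
  have cz : z ∈ π.N := c2 (Or.inr (Or.inr (Or.inr (Or.inr rfl))))
  obtain ⟨f1, f2, f3, f4, -⟩ := hp π c1 (in5 ct cv ct2 ck) ⟨0, c3.le.trans hq'⟩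
  obtain ⟨y, hy, hzy⟩ := f1 (π.val z) (val_mem_of_fmem cz ct2 hm ⟨0, c3.le⟩)
  have hy' : y ∈ π.val t := hy
  obtain ⟨y0, hy0, c, hc, -, rfl⟩ := π.mem_val.1 hy'
  have hy0s : (sys K).HS y0 := ht.el hc
  obtain ⟨α, hα, hyα⟩ := f3 _ hy
  have hα' : α ∈ π.val kk := hα
  have hαW : α ∈ π.W := π.trans_W (π.val_mem_W ck) hα'
  obtain ⟨a, ha, rfl⟩ := π.ord_V (f2.mem hα) hαW
  have haN : check a ∈ π.N := ha
  obtain ⟨k1, hk1⟩ := (π.val_mem_iff cz hy0).1 hzy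
  obtain ⟨k2, hk2⟩ := (π.val_mem_iff hy0 ct).1 hy'
  obtain ⟨k3, hk3⟩ := (udp (0 : Fin 3) 1 2).fund (hsT hy0s ((sys K).hs_check a) hv) c1
    (inT hy0 haN cv) hyα
  obtain ⟨k4, hk4⟩ := (π.val_mem_iff haN ck).1 hα'
  set m := max k1 (max k2 (max k3 k4)) with hmdef
  have g1 : π.g m ≤ π.g k1 := π.g_le_left _ _
  have g2 : π.g m ≤ π.g k2 := (π.g_le_right _ _).trans (π.g_le_left _ _)
  have g3 : π.g m ≤ π.g k3 := (π.g_le_right _ _).trans ((π.g_le_right _ _).trans (π.g_le_left _ _))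
  have g4 : π.g m ≤ π.g k4 := (π.g_le_right _ _).trans ((π.g_le_right _ _).trans (π.g_le_right _ _))
  have g0 : π.g m ≤ q' := c3 ▸ π.g_anti (Nat.zero_le m)
  generalize π.g m = q3 at g0 g1 g2 g3 g4
  have e1 := hk1.mono g1
  have e2 := hk2.mono g2
  have e3 := hk3.mono g3
  have e4 := hk4.mono g4
  -- the name of the finite set
  have hsym : ∀ g ∈ bs E F, ∀ s ≤ q3, s ≤ (sys K).ac g q3 →
      Feq (act ((sys K).ac g) y0) y0 s := by
    intro g hg s hs1 hs2'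
    have m1 := fmem_act_fix (fun p => ht' g hg p) e2
    have m2 := SF.move (udp (0 : Fin 3) 1 2) (hsT hy0s ((sys K).hs_check a) hv)
      (hsT ((sys K).hs_act hy0s g) ((sys K).hs_check a) hv) g (by
        intro i p
        fin_cases i
        · exact Feq.refl _ _
        · exact fix_check _ _ _ hg p
        · exact hv' g hg p) e3
    refine feq_of_sf (S := sys K) (v := ![act ((sys K).ac g) y0, y0]) rfl rfl
      (SF.intro ud_eq (hs2 ((sys K).hs_act hy0s g) hy0s) {t, v, t2, kk, check a}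
        (Set.toFinite _).countable ?_)
    intro π d1 d2 dA hk
    have bt : t ∈ π.N := dA (Or.inl rfl)
    have bv : v ∈ π.N := dA (Or.inr (Or.inl rfl))
    have bt2 : t2 ∈ π.N := dA (Or.inr (Or.inr (Or.inl rfl)))
    have bk : kk ∈ π.N := dA (Or.inr (Or.inr (Or.inr (Or.inl rfl))))
    have ba : check a ∈ π.N := dA (Or.inr (Or.inr (Or.inr (Or.inr rfl))))
    have bg : act ((sys K).ac g) y0 ∈ π.N := d2 0
    have by0 : y0 ∈ π.N := d2 1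
    have hks : ∀ {c : Cd K}, s ≤ c → ∃ k, π.g k ≤ c := fun h => hk.imp fun k hk => hk.trans h
    obtain ⟨-, -, -, h4, -⟩ := hp π d1 (in5 bt bv bt2 bk) (hks (hs1.trans (g0.trans hq')))
    exact h4 _ (val_mem_of_fmem bg bt m1 (hks hs2')) _ (val_mem_of_fmem by0 bt e2 (hks hs1)) _
      (val_mem_of_fmem ba bk e4 (hks hs1)) (m2 π d1 (inT bg ba bv) (hks hs2'))
      (e3 π d1 (inT by0 ba bv) (hks hs1))
  have w1 : (sys K).HS (symN (sys K) (bs E F) q3 y0) := hs_symN (bs_mem_F hE) _ hy0s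
  have w2 : (sys K).Fix (bs E F) (symN (sys K) (bs E F) q3 y0) := fix_symN _ _ _
  have w3 : Feq (symN (sys K) (bs E F) q3 y0) y0 q3 := feq_symN hsym
  rcases gen w1 hE w2 hK q3 with ⟨s, hs, h1⟩ | h1
  · exfalso
    obtain ⟨π', d1, d2, d3⟩ := exists_cld (sys K)
      {t, v, t2, kk, y0, symN (sys K) (bs E F) q3 y0} (Set.toFinite _).countable s
    have bt : t ∈ π'.N := d2 (Or.inl rfl)
    have bv : v ∈ π'.N := d2 (Or.inr (Or.inl rfl))
    have bt2 : t2 ∈ π'.N := d2 (Or.inr (Or.inr (Or.inl rfl)))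
    have bk : kk ∈ π'.N := d2 (Or.inr (Or.inr (Or.inr (Or.inl rfl))))
    have by0 : y0 ∈ π'.N := d2 (Or.inr (Or.inr (Or.inr (Or.inr (Or.inl rfl)))))
    have bs' : symN (sys K) (bs E F) q3 y0 ∈ π'.N :=
      d2 (Or.inr (Or.inr (Or.inr (Or.inr (Or.inr rfl)))))
    obtain ⟨-, -, -, -, h5⟩ := hp π' d1 (in5 bt bv bt2 bk)
      ⟨0, d3.le.trans (hs.trans (g0.trans hq'))⟩
    have h6 := h1 π' d1 (by
      intro i
      fin_cases i
      · exact bs'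
      · exact π'.omega_Z) ⟨0, d3.le⟩
    obtain ⟨f, hf, j1, j2, j3⟩ := h6
    have h7 : π'.val (symN (sys K) (bs E F) q3 y0) = π'.val y0 :=
      val_eq_of_feq bs' by0 w3 ⟨0, d3.le.trans hs⟩
    refine h5 (π'.val y0) (val_mem_of_fmem by0 bt e2 ⟨0, d3.le.trans hs⟩) ⟨f, hf, ?_, ?_, ?_⟩
    · intro n hn
      obtain ⟨x, hx, hnx⟩ := j1 n hn
      exact ⟨x, h7 ▸ hx, hnx⟩
    · intro n hn m hm x hx
      exact j2 n hn m hm x (show x ∈ π'.val (symN (sys K) (bs E F) q3 y0) from h7 ▸ hx)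
    · intro n hn x hx x' hx'
      exact j3 n hn x (show x ∈ π'.val (symN (sys K) (bs E F) q3 y0) from h7 ▸ hx) x'
        (show x' ∈ π'.val (symN (sys K) (bs E F) q3 y0) from h7 ▸ hx')
  · obtain ⟨r, hr, x, hx, hxF, he⟩ := h1 q3 le_rfl z hz (fmem_congr (Feq.refl _ _) w3.symm e1)
    exact ⟨r, hr.trans g0, x, hx, hxF, he⟩

/-- Choice for well-orderable families of non-empty finite sets. -/
theorem woac (hK : ∀ (F : Finset ℕ) (g : ℕ → K), (∀ n ∈ F, g n = 0) →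
      ∃ φ : ℚ →+ (ℕ → K), φ 1 = g ∧ ∀ q, ∀ n ∈ F, φ q n = 0)
    {π : Pkg (Cd K)} (c1 : (sys K).Cld π) {Y κ : ZFSet.{0}} (hY : Y ∈ (sys K).Ms π)
    (hκ : κ ∈ (sys K).Ms π) (hκo : κ.IsOrdinal) (hYκ : Inj ((sys K).Ms π) Y κ)
    (hfin : ∀ y ∈ Y, y ≠ ∅ ∧ FinIn ((sys K).Ms π) y) :
    ∃ c ∈ (sys K).Ms π, ∀ y ∈ Y, ∃ a ∈ y, ∀ z, pair y z ∈ c ↔ z = a := by
  have hM := isZF_Ms c1
  have hX := hM.union Y hY
  obtain ⟨w, hw, hinj⟩ := hYκ
  have hω := hM.infinity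
  have hwo : WOs ((sys K).Ms π) ![ZFSet.sUnion Y] := by
    obtain ⟨t, ⟨ct, ht⟩, hte⟩ := hY
    obtain ⟨v, ⟨cv, hv⟩, hve⟩ := hw
    obtain ⟨t2, ⟨ct2, ht2⟩, ht2e⟩ := hX
    obtain ⟨kk, ⟨ck, hkk⟩, hkke⟩ := hκ
    obtain ⟨_, ⟨E1, F1, hE1, rfl⟩, h1⟩ := ht.sym
    obtain ⟨_, ⟨E2, F2, hE2, rfl⟩, h2⟩ := hv.sym
    obtain ⟨_, ⟨E3, F3, hE3, rfl⟩, h3⟩ := ht2.sym
    have hE := (hE1.union hE2).union hE3
    have k1 : (sys K).Fix (bs ((E1 ∪ E2) ∪ E3) ((F1 ∪ F2) ∪ F3)) t :=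
      h1.mono (bs_mono (Set.subset_union_left.trans Set.subset_union_left)
        (Finset.subset_union_left.trans Finset.subset_union_left))
    have k2 : (sys K).Fix (bs ((E1 ∪ E2) ∪ E3) ((F1 ∪ F2) ∪ F3)) v :=
      h2.mono (bs_mono (Set.subset_union_right.trans Set.subset_union_left)
        (Finset.subset_union_right.trans Finset.subset_union_left))
    have k3 : (sys K).Fix (bs ((E1 ∪ E2) ∪ E3) ((F1 ∪ F2) ∪ F3)) t2 :=
      h3.mono (bs_mono Set.subset_union_right Finset.subset_union_right)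
    have hfam : Fam ((sys K).Ms π) (π.val ∘ ![t, v, t2, kk, check ZFSet.omega]) := by
      have h4 : π.val ∘ ![t, v, t2, kk, check ZFSet.omega] =
          ![Y, w, ZFSet.sUnion Y, κ, ZFSet.omega] := by
        funext i
        fin_cases i
        · exact hte
        · exact hve
        · exact ht2e
        · exact hkke
        · exact π.hat_omega
      rw [h4]
      refine ⟨fun x hx => ZFSet.mem_sUnion.1 hx, hκo, fun y hy => fun_exists hinj.1 hy,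
        fun y _ y' _ α _ a b => hinj.2 y y' α a b, fun y hy hd => ?_⟩
      have hyM : y ∈ (sys K).Ms π := hM.trans _ (hte ▸ mem_Ms ht ct) _ hy
      have h5 : Inj ((sys K).Ms π) ZFSet.omega y := inj_of_ded hM hyM hd
      have h6 := (finIn_iff hM fun z hz => hM.trans _ hyM _ hz).1 (hfin y hy).2
      obtain ⟨f, hf, h7⟩ := h5
      have h8 : ∀ n : ℕ, ∃ x ∈ y, pair (nat n) x ∈ f := fun n =>
        fun_exists h7.1 (mem_omega_iff.2 ⟨n, rfl⟩)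
      choose F hF hF' using h8
      refine Set.infinite_of_injective_forall_mem (f := F) (fun n m hnm => ?_) hF h6
      have h9 := hF' n
      rw [hnm] at h9
      exact nat_injective (h7.2 _ _ _ h9 (hF' m))
    obtain ⟨k, hk⟩ := ud_fam.fund (hs5 ht hv ht2 hkk) c1 (in5 ct cv ct2 ck) hfam
    have h5 := wo_of_small ht2 hE k3 (small_of_fam hK ht hv ht2 hkk hE k1 k2 hk) π c1 (by
      intro i
      fin_cases i
      exact ct2) ⟨k, le_rfl⟩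
    have h6 : π.val ∘ ![t2] = ![ZFSet.sUnion Y] := by
      funext i
      fin_cases i
      exact ht2e
    rwa [h6] at h5
  obtain ⟨κ2, hκ2, hκ2o, f, hf, hf1⟩ := inj_of_wos hM hX hwo
  have hc := hM.sep_mem (Q := fun u => ∃ y ∈ Y, ∃ a ∈ y, u = pair y a ∧ ∃ α ∈ κ2,
    pair a α ∈ f ∧ ∀ a' ∈ y, ∀ α' ∈ κ2, pair a' α' ∈ f → ¬ α' ∈ α)
    (by (repeat' first | assumption | exact DfnF.proj _ | exact DfnF.const (by assumption) | exact Dfn.prop _ | apply Dfn.not | apply Dfn.and | apply Dfn.or | apply Dfn.imp | apply Dfn.iff | apply hM.base.bex | apply hM.base.ball | apply Dfn.ex | apply Dfn.all | apply Dfn.eq | apply Dfn.mem | apply hM.base.pair')) (hM.prod_mem hY hX)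
  refine ⟨_, hc, fun y hy => ?_⟩
  obtain ⟨a0, ha0⟩ : ∃ a0, a0 ∈ y := by
    by_contra hne
    exact (hfin y hy).1 ((ZFSet.eq_empty y).2 fun z hz => hne ⟨z, hz⟩)
  have hyX : ∀ a ∈ y, a ∈ ZFSet.sUnion Y := fun a ha => ZFSet.mem_sUnion.2 ⟨y, hy, ha⟩
  obtain ⟨α0, hα0, h0⟩ := fun_exists hf1.1 (hyX a0 ha0)
  obtain ⟨α, ⟨hα, a, ha, haα⟩, hmin⟩ := ZFSet.mem_wf.has_min
    {α | α ∈ κ2 ∧ ∃ a ∈ y, pair a α ∈ f} ⟨α0, hα0, a0, ha0, h0⟩
  refine ⟨a, ha, fun z => ?_⟩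
  constructor
  · intro hz
    obtain ⟨-, y', hy', b, hb, h1, β, hβ, h2, h3⟩ := ZFSet.mem_sep.1 hz
    obtain ⟨rfl, rfl⟩ := ZFSet.pair_inj.1 h1
    rcases (hκ2o.mem hα).mem_trichotomous (hκ2o.mem hβ) with h5 | h5 | h5
    · exact absurd h5 (h3 a ha α hα haα)
    · subst h5
      exact hf1.2 _ _ _ h2 haα
    · exact absurd h5 (hmin β ⟨hβ, z, hb, h2⟩)
  · rintro rfl
    exact ZFSet.mem_sep.2 ⟨ZFSet.pair_mem_prod.2 ⟨hy, hyX _ ha⟩, y, hy, z, ha, rfl, α, hα, haα,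
      fun a' ha' α' hα' h1 h2 => hmin α' ⟨hα', a', ha', h1⟩ h2⟩

end Pool.Agent.R598.CI
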